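import Pool.Agent.H.MP_6c077c_gt.Ix.Dz
import Pool.Agent.H.MP_6c077c_gt.Ix.TopC
import Pool.Agent.H.MP_6c077c_gt.IxB.Lift
import Pool.Agent.H.MP_6c077c_gt.IxB.LiftBall

/-! Secant theorem: the outside of the body in large balls. -/

set_option autoImplicit false

namespace Pool.Schoen

open Filter Set Metric
open scoped Topology RealInnerProductSpace ContDiff

variable {V : Type*} [NormedAddCommGroup V] [InnerProductSpace ℝ V]

/-- If two closed sets have a connected union and a connected intersection, the first one is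
connected. -/
theorem hx_conn_of_union {Y : Type*} [TopologicalSpace Y] {A B : Set Y} (hA : IsClosed A)
    (hB : IsClosed B) (h1 : IsPreconnected (A ∪ B)) (h2 : IsConnected (A ∩ B)) :
    IsConnected A := by
  refine ⟨h2.nonempty.mono inter_subset_left, ?_⟩
  rw [isPreconnected_iff_subset_of_disjoint_closed]
  intro u v hu hv hAuv huv
  have key : ∀ u v : Set Y, IsClosed u → IsClosed v → A ⊆ u ∪ v → A ∩ (u ∩ v) = ∅ →
      A ∩ B ⊆ u → A ⊆ u := by
    intro u v hu hv hAuv huv hI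
    have h3 : IsClosed (u ∩ A ∪ B) := (hu.inter hA).union hB
    have h4 : IsClosed (v ∩ A) := hv.inter hA
    have h5 : A ∪ B ⊆ (u ∩ A ∪ B) ∪ (v ∩ A) := by
      rintro x (hx | hx)
      · rcases hAuv hx with h | h
        · exact Or.inl (Or.inl ⟨h, hx⟩)
        · exact Or.inr ⟨h, hx⟩
      · exact Or.inl (Or.inr hx)
    have h6 : (A ∪ B) ∩ ((u ∩ A ∪ B) ∩ (v ∩ A)) = ∅ := by
      rw [Set.eq_empty_iff_forall_notMem]
      rintro x ⟨-, (⟨hxu, hxA⟩ | hxB), hxv, hxA'⟩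
      · exact (Set.eq_empty_iff_forall_notMem.1 huv) x ⟨hxA, hxu, hxv⟩
      · exact (Set.eq_empty_iff_forall_notMem.1 huv) x ⟨hxA', hI ⟨hxA', hxB⟩, hxv⟩
    rcases (isPreconnected_iff_subset_of_disjoint_closed.1 h1) _ _ h3 h4 h5 h6 with h | h
    · intro x hx
      rcases hAuv hx with h7 | h7
      · exact h7
      · rcases h (Or.inl hx) with h8 | h8
        · exact h8.1
        · exact hI ⟨hx, h8⟩
    · exfalso
      obtain ⟨x, hx⟩ := h2.nonempty
      have h7 := h (Or.inl hx.1)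
      exact (Set.eq_empty_iff_forall_notMem.1 huv) x ⟨hx.1, hI hx, h7.1⟩
  have h3 := (isPreconnected_iff_subset_of_disjoint_closed.1 h2.isPreconnected) u v hu hv
    (inter_subset_left.trans hAuv) (by
      rw [Set.eq_empty_iff_forall_notMem]
      rintro x ⟨⟨hx, -⟩, hx'⟩
      exact (Set.eq_empty_iff_forall_notMem.1 huv) x ⟨hx, hx'⟩)
  rcases h3 with h3 | h3
  · exact Or.inl (key u v hu hv hAuv huv h3)
  · exact Or.inr (key v u hv hu (by rwa [union_comm]) (by rwa [inter_comm v u]) h3)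

/-- The outside of the body in the ball of radius `ρ` is connected and has the lifting property. -/
def OutTop (f : V → ℝ) (ρ : ℝ) : Prop :=
  IsConnected {x : V | 0 ≤ f x ∧ ‖x‖ ≤ ρ} ∧ LiftS {x : V | 0 ≤ f x ∧ ‖x‖ ≤ ρ}

/-- If the hypersurface is connected and has the lifting property, so does the outside. -/
theorem out_top (F : V → ℝ) (hF : Continuous F) (hb : Bornology.IsBounded {x | F x ≤ 0})
    (hc : IsConnected {x | F x = 0}) (hl : LiftS {x | F x = 0}) :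
    ∃ ρ₀ : ℝ, ∀ ρ, ρ₀ ≤ ρ → OutTop F ρ := by
  obtain ⟨R, hR0, hR⟩ := hb.exists_pos_norm_lt
  have hR' : ∀ y, F y ≤ 0 → ‖y‖ < R := fun y hy => hR y hy
  refine ⟨R, fun ρ hρ => ?_⟩
  have hρ0 : 0 < ρ := lt_of_lt_of_le hR0 hρ
  have hcl : IsClosed {x : V | 0 ≤ F x ∧ ‖x‖ ≤ ρ} :=
    (isClosed_le continuous_const hF).inter (isClosed_le continuous_norm continuous_const)
  have hcl' : IsClosed {x : V | F x ≤ 0} := isClosed_le hF continuous_const
  have hU : {x : V | 0 ≤ F x ∧ ‖x‖ ≤ ρ} ∪ {x | F x ≤ 0} = closedBall (0 : V) ρ := by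
    ext x
    rw [mem_closedBall_zero_iff]
    constructor
    · rintro (h | h)
      · exact h.2
      · exact ((hR' x h).le).trans hρ
    · intro h
      rcases le_total (F x) 0 with h1 | h1
      · exact Or.inr h1
      · exact Or.inl ⟨h1, h⟩
  have hI : {x : V | 0 ≤ F x ∧ ‖x‖ ≤ ρ} ∩ {x | F x ≤ 0} = {x | F x = 0} := by
    ext x
    constructor
    · rintro ⟨⟨h1, -⟩, h2⟩
      exact le_antisymm h2 h1
    · intro h
      have h' : F x = 0 := h
      exact ⟨⟨h'.ge, ((hR' x h'.le).le).trans hρ⟩, h'.le⟩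
  constructor
  · refine hx_conn_of_union hcl hcl' ?_ ?_
    · rw [hU]
      exact (convex_closedBall _ _).isPreconnected
    · rw [hI]
      exact hc
  · refine LiftS.of_union hcl hcl' ?_ ?_
    · rw [hU]
      exact liftS_convex _ (convex_closedBall _ _) isClosed_closedBall
        ⟨0, ball_subset_interior_closedBall (mem_ball_self hρ0)⟩
    · rw [hI]
      exact hl

/-- The function of the outside in the ball of radius `ρ`. -/
noncomputable def outF (f : V → ℝ) (ρ : ℝ) (x : V) : ℝ := max (-f x) (‖x‖ ^ 2 - ρ ^ 2)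

omit [InnerProductSpace ℝ V] in
theorem outF_le {f : V → ℝ} {ρ : ℝ} (hρ : 0 ≤ ρ) :
    {x : V | outF f ρ x ≤ 0} = {x : V | 0 ≤ f x ∧ ‖x‖ ≤ ρ} := by
  ext x
  show max (-f x) (‖x‖ ^ 2 - ρ ^ 2) ≤ 0 ↔ 0 ≤ f x ∧ ‖x‖ ≤ ρ
  rw [max_le_iff, neg_nonpos, sub_nonpos, sq_le_sq₀ (norm_nonneg x) hρ]

private theorem Out_norm (x : V) (hx : x ≠ 0) (ρ : ℝ) :
    Desc1 (fun y : V => ‖y‖ ^ 2 - ρ ^ 2) x (-x) := by
  refine desc1_smooth ?_ ?_
  · exact ((contDiff_norm_sq ℝ).sub contDiff_const).contDiffAt.of_le le_rfl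
  · have h1 : HasFDerivAt (fun y : V => ‖y‖ ^ 2 - ρ ^ 2) (2 • (innerSL ℝ x)) x := by
      have h2 := (hasStrictFDerivAt_norm_sq x).hasFDerivAt
      exact h2.sub_const (ρ ^ 2)
    rw [h1.fderiv]
    have h2 : 0 < ‖x‖ ^ 2 := by
      have := norm_pos_iff.2 hx
      positivity
    simp only [smul_apply, innerSL_apply_apply, inner_neg_right,
      real_inner_self_eq_norm_sq, nsmul_eq_mul]
    push_cast
    linarith

/-- The functions of the outside are homotopic if the functions are. -/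
theorem hom_outF {f h : V → ℝ} [FiniteDimensional ℝ V] (hfh : Hom f h)
    (hb : Bornology.IsBounded {x | f x ≤ 0}) :
    ∃ ρ₀ : ℝ, 0 < ρ₀ ∧ ∀ ρ, ρ₀ ≤ ρ → Hom (outF f ρ) (outF h ρ) := by
  obtain ⟨H, hc, h0, h1, hz, hd⟩ := hfh
  subst h0
  subst h1
  obtain ⟨R, hR⟩ := hom_bdd H hc hz hb
  refine ⟨|R| + 1, by positivity, fun ρ hρ => ?_⟩
  have hρ0 : 0 < ρ := lt_of_lt_of_le (by positivity) hρ
  have hRρ : R < ρ := by
    have := le_abs_self R
    linarith
  have hcn : Continuous fun p : ℝ × V => -H p.1 p.2 := hc.neg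
  have hcq : Continuous fun p : ℝ × V => ‖p.2‖ ^ 2 - ρ ^ 2 := by fun_prop
  refine ⟨fun t x => max (-H t x) (‖x‖ ^ 2 - ρ ^ 2), hcn.max hcq, rfl, rfl,
    ⟨ρ, fun t _ x hx => ?_⟩, fun t ht x hx => ?_⟩
  · have h2 : ‖x‖ ^ 2 - ρ ^ 2 ≤ 0 := by
      rw [← hx]
      exact le_max_right _ _
    rw [sub_nonpos, sq_le_sq₀ (norm_nonneg x) hρ0.le] at h2
    exact h2
  · have hx' : max (-H t x) (‖x‖ ^ 2 - ρ ^ 2) = 0 := hx
    by_cases h2 : H t x = 0
    · obtain ⟨v, hv⟩ := hd t ht x h2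
      have h3 : ‖x‖ ≤ R := hR t ht x h2.le
      have h4 : ‖x‖ ^ 2 - ρ ^ 2 < 0 := by
        rw [sub_neg, sq_lt_sq₀ (norm_nonneg x) hρ0.le]
        linarith
      exact ⟨-v, dz_max (H := fun t x => -H t x) (K := fun _ x => ‖x‖ ^ 2 - ρ ^ 2) hcn hcq
        (fun _ => hv.neg) (dz_of_ne h4.ne) hx'⟩
    · have h3 : ‖x‖ ^ 2 - ρ ^ 2 = 0 := by
        rcases max_choice (-H t x) (‖x‖ ^ 2 - ρ ^ 2) with h4 | h4
        · rw [h4] at hx'
          exact absurd (neg_eq_zero.1 hx') h2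
        · rwa [h4] at hx'
      have hx0 : x ≠ 0 := by
        rintro rfl
        rw [norm_zero] at h3
        have : 0 < ρ ^ 2 := by positivity
        linarith
      exact ⟨-x, dz_max (H := fun t x => -H t x) (K := fun _ x => ‖x‖ ^ 2 - ρ ^ 2) hcn hcq
        (dz_of_ne (neg_ne_zero.2 h2)) (fun _ => (Out_norm x hx0 ρ).const _) hx'⟩

/-- The properties of the outside pass to homotopic functions. -/
theorem out_hom {f h : V → ℝ} [FiniteDimensional ℝ V] (hfh : Hom f h)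
    (hb : Bornology.IsBounded {x | f x ≤ 0}) (hf : ∃ ρ₀ : ℝ, ∀ ρ, ρ₀ ≤ ρ → OutTop f ρ) :
    ∃ ρ₀ : ℝ, ∀ ρ, ρ₀ ≤ ρ → OutTop h ρ := by
  obtain ⟨ρ₁, h1, h2⟩ := hom_outF hfh hb
  obtain ⟨ρ₂, h3⟩ := hf
  refine ⟨max ρ₁ ρ₂, fun ρ hρ => ?_⟩
  have h4 : ρ₁ ≤ ρ := (le_max_left _ _).trans hρ
  have h5 : ρ₂ ≤ ρ := (le_max_right _ _).trans hρ
  have h6 : 0 ≤ ρ := h1.le.trans h4
  have h7 := h2 ρ h4
  obtain ⟨h8, h9⟩ := h3 ρ h5
  rw [← outF_le h6] at h8 h9
  have h10 : Bornology.IsBounded {x : V | outF f ρ x ≤ 0} := by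
    rw [outF_le h6]
    refine (isBounded_closedBall (x := (0 : V)) (r := ρ)).subset fun x hx => ?_
    rw [mem_closedBall_zero_iff]
    exact hx.2
  have h11 := h7.isConnected h10 h8
  have h12 := h7.liftS h10 h9
  rw [outF_le h6] at h11 h12
  exact ⟨h11, h12⟩

end Pool.Schoen
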