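import Pool.Agent.H.MP_6c077c_gt.Hx.ChartB

/-! Hexasecant theorem: the stereographic chart. -/

set_option autoImplicit false

namespace Pool.Schoen

open Filter Set
open scoped Topology RealInnerProductSpace ContDiff

variable {V : Type*} [NormedAddCommGroup V] [InnerProductSpace ℝ V]

/-- A function of degree zero in the stereographic chart with centre `v`. -/
noncomputable def chartf (ψ : V → ℝ) (v : V) (y : (ℝ ∙ v)ᗮ) : ℝ := ψ (stereoInvFunAux v (y : V))

theorem chartf_eq (ψ : V → ℝ) (v : V) : chartf ψ v = fun y => ψ (sg v y) := rfl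

theorem chartf_good (ψ : V → ℝ) (hψ : DegZero ψ) (v : V) (hv : ‖v‖ = 1) (hp : 0 < ψ v) :
    Good (chartf ψ v) ∧ Bornology.IsBounded {y | chartf ψ v y ≤ 0} :=
  ⟨good_sg hψ hv hp, sg_bdd hψ hv hp⟩

variable {v0 x : V} {a b : ℝ}

/-- A function in the chart, transported to the space and cut off near the ray of the pole. -/
noncomputable def cutP (v0 : V) (a b : ℝ) (G : (ℝ ∙ v0)ᗮ → ℝ) (x : V) : ℝ :=
  max (min (G (chT v0 x)) 1) ((⟪v0, x⟫ / ‖x‖ - a) / (b - a))

theorem cutP_lamC {X : Type*} [TopologicalSpace X] (t : X) (hx : x ≠ 0) :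
    ContinuousAt (fun p : X × V => (⟪v0, p.2⟫ / ‖p.2‖ - a) / (b - a)) (t, x) := by
  have h1 : ContinuousAt (fun p : X × V => ⟪v0, p.2⟫) (t, x) := by fun_prop
  have h2 : ContinuousAt (fun p : X × V => ‖p.2‖) (t, x) := by fun_prop
  exact ((h1.div h2 (norm_ne_zero_iff.2 hx)).sub continuousAt_const).div_const _

theorem cutP_cont {H : ℝ → (ℝ ∙ v0)ᗮ → ℝ}
    (hH : Continuous fun p : ℝ × (ℝ ∙ v0)ᗮ => H p.1 p.2) (hab : a < b) (hb : b < 1) (t : ℝ)
    (hx : x ≠ 0) : ContinuousAt (fun p : ℝ × V => cutP v0 a b (H p.1) p.2) (t, x) := by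
  have hn : 0 < ‖x‖ := norm_pos_iff.2 hx
  by_cases h : ⟪v0, x⟫ < ‖x‖
  · have h1 : ContinuousAt (fun p : ℝ × V => chT v0 p.2) (t, x) :=
      ContinuousAt.comp (g := chT v0) (f := fun p : ℝ × V => p.2) (x := (t, x))
        (chT_contDiffAt h).continuousAt continuousAt_snd
    have h2 : ContinuousAt (fun p : ℝ × V => H p.1 (chT v0 p.2)) (t, x) :=
      ContinuousAt.comp (g := fun p : ℝ × (ℝ ∙ v0)ᗮ => H p.1 p.2)
        (f := fun p : ℝ × V => (p.1, chT v0 p.2)) (x := (t, x)) hH.continuousAt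
        (continuousAt_fst.prodMk h1)
    exact (h2.min continuousAt_const).max (cutP_lamC t hx)
  · have h1 : (fun p : ℝ × V => (⟪v0, p.2⟫ / ‖p.2‖ - a) / (b - a)) =ᶠ[𝓝 (t, x)]
        fun p : ℝ × V => cutP v0 a b (H p.1) p.2 := by
      have h2 : 1 < (⟪v0, x⟫ / ‖x‖ - a) / (b - a) := by
        rw [lt_div_iff₀ (by linarith)]
        have h3 : 1 ≤ ⟪v0, x⟫ / ‖x‖ := by
          rw [le_div_iff₀ hn]
          linarith [not_lt.1 h]
        linarith
      filter_upwards [continuousAt_const.eventually_lt (cutP_lamC t hx) h2] with p hp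
      rw [cutP]
      exact (max_eq_right ((min_le_right _ _).trans hp.le)).symm
    exact (cutP_lamC t hx).congr h1

/-- The sublevel set of `G` lies below the height `a` on the sphere. -/
def Below (v0 : V) (a : ℝ) (G : (ℝ ∙ v0)ᗮ → ℝ) : Prop := ∀ y, G y ≤ 0 → ⟪v0, sg v0 y⟫ < a

theorem cutP_le (hv : ‖v0‖ = 1) {G : (ℝ ∙ v0)ᗮ → ℝ} (hG : Below v0 a G) (hab : a < b) (hb : b < 1)
    (hx : x ≠ 0) (h : cutP v0 a b G x ≤ 0) :
    ⟪v0, x⟫ < ‖x‖ ∧ G (chT v0 x) ≤ 0 ∧ (⟪v0, x⟫ / ‖x‖ - a) / (b - a) < 0 := by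
  have hn : 0 < ‖x‖ := norm_pos_iff.2 hx
  have h1 := max_le_iff.1 h
  have h2 : ⟪v0, x⟫ / ‖x‖ ≤ a := by
    have := h1.2
    rw [div_nonpos_iff] at this
    rcases this with h3 | h3
    · linarith [h3.2]
    · linarith [h3.1]
  have h3 : ⟪v0, x⟫ < ‖x‖ := by
    rw [div_le_iff₀ hn] at h2
    nlinarith
  have h4 : G (chT v0 x) ≤ 0 := by
    rcases min_le_iff.1 h1.1 with h4 | h4
    · exact h4
    · linarith
  have h5 := hG _ h4
  rw [sg_chT hv h3, inner_smul_right, inv_mul_eq_div] at h5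
  exact ⟨h3, h4, div_neg_of_neg_of_pos (by linarith) (by linarith)⟩

theorem cutP_zero (hv : ‖v0‖ = 1) {G : (ℝ ∙ v0)ᗮ → ℝ} (hG : Below v0 a G) (hab : a < b)
    (hb : b < 1) (hx : x ≠ 0) (h : cutP v0 a b G x = 0) :
    ⟪v0, x⟫ < ‖x‖ ∧ G (chT v0 x) = 0 ∧ (⟪v0, x⟫ / ‖x‖ - a) / (b - a) < 0 := by
  obtain ⟨h1, h2, h3⟩ := cutP_le hv hG hab hb hx h.le
  refine ⟨h1, ?_, h3⟩
  rw [cutP] at h
  rcases max_choice (min (G (chT v0 x)) 1) ((⟪v0, x⟫ / ‖x‖ - a) / (b - a)) with h4 | h4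
  · rw [h4] at h
    rcases min_choice (G (chT v0 x)) 1 with h5 | h5
    · rw [h5] at h
      exact h
    · rw [h5] at h
      norm_num at h
  · rw [h4] at h
    linarith

/-- The sign of the cut function. -/
theorem cutP_sign (hv : ‖v0‖ = 1) {G : (ℝ ∙ v0)ᗮ → ℝ} (hG : Below v0 a G) (hab : a < b)
    (hb : b < 1) (hx : x ≠ 0) (h1 : ⟪v0, x⟫ < ‖x‖) (h2 : G (chT v0 x) < 0) :
    cutP v0 a b G x < 0 := by
  have h5 := hG _ h2.le
  rw [sg_chT hv h1, inner_smul_right, inv_mul_eq_div] at h5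
  exact max_lt (min_lt_of_left_lt h2) (div_neg_of_neg_of_pos (by linarith) (by linarith))

/-- The cut function near a zero. -/
theorem cutP_near (hv : ‖v0‖ = 1) {H : ℝ → (ℝ ∙ v0)ᗮ → ℝ}
    (hH : Continuous fun p : ℝ × (ℝ ∙ v0)ᗮ => H p.1 p.2) {t : ℝ} (hG : Below v0 a (H t))
    (hab : a < b) (hb : b < 1) (hx : x ≠ 0) (h : cutP v0 a b (H t) x = 0) :
    ∀ᶠ p : ℝ × V in 𝓝 (t, x), H p.1 (chT v0 p.2) = cutP v0 a b (H p.1) p.2 := by
  obtain ⟨h1, h2, h3⟩ := cutP_zero hv hG hab hb hx h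
  have h5 : ContinuousAt (fun p : ℝ × V => chT v0 p.2) (t, x) :=
    ContinuousAt.comp (g := chT v0) (f := fun p : ℝ × V => p.2) (x := (t, x))
      (chT_contDiffAt h1).continuousAt continuousAt_snd
  have h6 : ContinuousAt (fun p : ℝ × V => H p.1 (chT v0 p.2)) (t, x) :=
    ContinuousAt.comp (g := fun p : ℝ × (ℝ ∙ v0)ᗮ => H p.1 p.2)
      (f := fun p : ℝ × V => (p.1, chT v0 p.2)) (x := (t, x)) hH.continuousAt
      (continuousAt_fst.prodMk h5)
  have h7 : (fun p : ℝ × V => H p.1 (chT v0 p.2)) (t, x) < 1 := by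
    show H t (chT v0 x) < 1
    rw [h2]
    exact one_pos
  have h8 : (fun p : ℝ × V => (⟪v0, p.2⟫ / ‖p.2‖ - a) / (b - a)) (t, x) <
      (fun p : ℝ × V => H p.1 (chT v0 p.2)) (t, x) := by
    show (⟪v0, x⟫ / ‖x‖ - a) / (b - a) < H t (chT v0 x)
    rw [h2]
    exact h3
  filter_upwards [h6.eventually_lt continuousAt_const h7,
    (cutP_lamC t hx).eventually_lt h6 h8] with p hp hp'
  rw [cutP, min_eq_left hp.le, max_eq_left hp'.le]

/-- A homotopy in the chart gives a homotopy of shells. -/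
theorem shell_cutP_hom (hv : ‖v0‖ = 1) {H : ℝ → (ℝ ∙ v0)ᗮ → ℝ}
    (hH : Continuous fun p : ℝ × (ℝ ∙ v0)ᗮ => H p.1 p.2)
    (hG : ∀ t ∈ Icc (0 : ℝ) 1, Below v0 a (H t)) (hab : a < b) (hb : b < 1)
    (hd : ∀ t ∈ Icc (0 : ℝ) 1, ∀ y, H t y = 0 → ∃ w, Desc H (𝓝[Icc 0 1] t) y w) :
    Hom (shell (cutP v0 a b (H 0))) (shell (cutP v0 a b (H 1))) := by
  refine shell_hom (P := fun t => cutP v0 a b (H t))
    (fun t x hx => cutP_cont hH hab hb t hx) ?_
  intro t ht x hx h β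
  have hn : ‖x‖ ^ 2 ≠ 0 := pow_ne_zero _ (norm_ne_zero_iff.2 hx)
  obtain ⟨h1, h2, -⟩ := cutP_zero hv (hG t ht) hab hb hx h
  obtain ⟨w, hw⟩ := hd t ht _ h2
  refine ⟨‖x‖ • fderiv ℝ (sg v0) (chT v0 x) w + (β / ‖x‖ ^ 2) • x, ?_, ?_⟩
  · rw [inner_add_right, inner_smul_right, inner_fderiv_sg' hv h1, mul_zero, zero_add,
      inner_smul_right, real_inner_self_eq_norm_sq, div_mul_cancel₀ _ hn]
  · have h3 : fderiv ℝ (chT v0) x
        (‖x‖ • fderiv ℝ (sg v0) (chT v0 x) w + (β / ‖x‖ ^ 2) • x) = w := by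
      rw [map_add, fderiv_chT_sg hv h1, map_smul, fderiv_chT_self h1, smul_zero, add_zero]
    have h4 : Desc (fun s y => H s (chT v0 y)) (𝓝[Icc 0 1] t) x
        (‖x‖ • fderiv ℝ (sg v0) (chT v0 x) w + (β / ‖x‖ ^ 2) • x) :=
      Desc.comp_strict (chT_strict h1) (by rw [h3]; exact hw)
    refine h4.congr ?_
    have hl : 𝓝[Icc (0 : ℝ) 1] t ×ˢ 𝓝 x ≤ 𝓝 ((t, x) : ℝ × V) := by
      rw [nhds_prod_eq]
      exact Filter.prod_mono nhdsWithin_le_nhds le_rfl
    exact hl (cutP_near hv hH (hG t ht) hab hb hx h)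

/-- The height on the sphere, in the chart. -/
noncomputable def capE (v0 : V) (y : (ℝ ∙ v0)ᗮ) : ℝ := ⟪v0, sg v0 y⟫ + 3 / 5

theorem capE_eq (hv : ‖v0‖ = 1) (y : (ℝ ∙ v0)ᗮ) :
    capE v0 y = 8 / 5 * ((‖y‖ ^ 2 - 1) / (‖y‖ ^ 2 + 4)) := by
  rw [capE, inner_sg hv]
  field_simp
  ring

/-- The cap is homotopic to the unit ball. -/
theorem capE_hom (hv : ‖v0‖ = 1) : Hom (fun y : (ℝ ∙ v0)ᗮ => ‖y‖ ^ 2 - 1) (capE v0) := by
  have hg : Good (fun y : (ℝ ∙ v0)ᗮ => ‖y‖ ^ 2 - 1) := by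
    have := (hom_balls (0 : (ℝ ∙ v0)ᗮ) 0 one_pos one_pos).good_left
    simpa using this
  have hpos : ∀ y : (ℝ ∙ v0)ᗮ, 0 < ‖y‖ ^ 2 + 4 := fun y => by positivity
  refine Hom.of_sign hg ((continuous_const.inner (sg_cont v0)).add continuous_const) ?_ ?_ ?_
  · intro y
    rw [capE_eq hv]
    constructor
    · intro h
      have := div_neg_of_neg_of_pos h (hpos y)
      linarith
    · intro h
      by_contra h'
      have := div_nonneg (not_lt.1 h') (hpos y).le
      linarith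
  · intro y
    rw [capE_eq hv]
    constructor
    · intro h
      have := div_nonpos_of_nonpos_of_nonneg h (hpos y).le
      linarith
    · intro h
      by_contra h'
      have := div_pos (not_le.1 h') (hpos y)
      linarith
  · intro y hy
    have hy1 : ‖y‖ ^ 2 = 1 := by linarith
    have hd : HasFDerivAt (fun y : (ℝ ∙ v0)ᗮ => ‖y‖ ^ 2) (2 • innerSL ℝ y) y :=
      (hasStrictFDerivAt_norm_sq y).hasFDerivAt
    have hc : ContDiffAt ℝ 1 (fun y : (ℝ ∙ v0)ᗮ => ‖y‖ ^ 2) y := (contDiff_norm_sq ℝ).contDiffAt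
    refine ⟨-y, desc1_smooth (hc.sub contDiffAt_const) ?_, ?_⟩
    · rw [(hd.sub_const 1).fderiv, map_neg]
      simp only [ContinuousLinearMap.smul_apply, innerSL_apply_apply, real_inner_self_eq_norm_sq]
      rw [two_nsmul, hy1]
      norm_num
    · have h1 : (capE v0 : (ℝ ∙ v0)ᗮ → ℝ) = fun y => 8 / 5 + -8 * (‖y‖ ^ 2 + 4)⁻¹ := by
        funext z
        rw [capE_eq hv]
        field_simp
        ring
      rw [h1]
      have hd2 : HasFDerivAt (fun y : (ℝ ∙ v0)ᗮ => 8 / 5 + -8 * (‖y‖ ^ 2 + 4)⁻¹)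
          ((-8 : ℝ) • (-((‖y‖ ^ 2 + 4) ^ 2)⁻¹ • (2 • innerSL ℝ y))) y := by
        have h2 := (hasDerivAt_inv (hpos y).ne').comp_hasFDerivAt y (hd.add_const 4)
        exact (h2.const_mul (-8 : ℝ)).const_add (8 / 5)
      have hc2 : ContDiffAt ℝ 1 (fun y : (ℝ ∙ v0)ᗮ => 8 / 5 + -8 * (‖y‖ ^ 2 + 4)⁻¹) y :=
        contDiffAt_const.add (contDiffAt_const.mul
          ((hc.add contDiffAt_const).inv (hpos y).ne'))
      refine desc1_smooth hc2 ?_
      rw [hd2.fderiv, map_neg]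
      simp only [ContinuousLinearMap.smul_apply, innerSL_apply_apply, real_inner_self_eq_norm_sq,
        smul_eq_mul]
      rw [two_nsmul, hy1]
      norm_num

/-- The derivative of the height of the projection to the sphere. -/
theorem hasFDerivAt_height (hx : x ≠ 0) :
    HasFDerivAt (fun y : V => ⟪v0, y⟫ / ‖y‖)
      (‖x‖⁻¹ • innerSL ℝ v0 + (-(⟪v0, x⟫ * (‖x‖ ^ 3)⁻¹)) • innerSL ℝ x) x := by
  have hn : 0 < ‖x‖ := norm_pos_iff.2 hx
  have h1 : HasFDerivAt (fun y : V => ⟪v0, y⟫) (innerSL ℝ v0) x := (innerSL ℝ v0).hasFDerivAt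
  have h2 : HasFDerivAt (fun y : V => ‖y‖ ^ 2) (2 • innerSL ℝ x) x :=
    (hasStrictFDerivAt_norm_sq x).hasFDerivAt
  have h3 := h2.sqrt (pow_ne_zero 2 hn.ne')
  have h4 : (fun y : V => √(‖y‖ ^ 2)) = fun y : V => ‖y‖ := by
    funext y
    exact Real.sqrt_sq (norm_nonneg y)
  rw [h4, Real.sqrt_sq hn.le] at h3
  have h5 := (hasDerivAt_inv hn.ne').comp_hasFDerivAt x h3
  have h6 := h1.mul h5
  have h7 : (fun y : V => ⟪v0, y⟫ / ‖y‖) = fun y : V => ⟪v0, y⟫ * ‖y‖⁻¹ := by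
    funext y
    rw [div_eq_mul_inv]
  rw [h7]
  refine h6.congr_fderiv ?_
  ext u
  simp only [ContinuousLinearMap.add_apply, ContinuousLinearMap.smul_apply, innerSL_apply_apply,
    smul_eq_mul, two_nsmul, Function.comp]
  field_simp
  ring

/-- The spherical cap in the shell is a ball. -/
theorem isBall_cap (hv : ‖v0‖ = 1) (hG : Below v0 a (capE v0)) (hab : a < b) (hb : b < 1) :
    IsBall (shell (cutP v0 a b (capE v0))) := by
  have hcE : Continuous (capE v0) := (continuous_const.inner (sg_cont v0)).add continuous_const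
  have hcP : ContinuousOn (cutP v0 a b (capE v0)) {0}ᶜ := by
    intro x hx
    have h1 := cutP_cont (H := fun _ => capE v0) (hcE.comp continuous_snd) hab hb 0 hx
    have h2 : ContinuousAt (fun y : V => ((0 : ℝ), y)) x := by fun_prop
    exact (ContinuousAt.comp (g := fun p : ℝ × V => cutP v0 a b (capE v0) p.2)
      (f := fun y : V => ((0 : ℝ), y)) (x := x) h1 h2).continuousWithinAt
  have hne : v0 ≠ 0 := by
    rintro rfl
    simp at hv
  have hvv : ⟪v0, v0⟫ = (1 : ℝ) := by rw [real_inner_self_eq_norm_sq, hv]; norm_num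
  have hcap : ∀ y : V, ⟪v0, y⟫ < ‖y‖ → capE v0 (chT v0 y) = ⟪v0, y⟫ / ‖y‖ + 3 / 5 := by
    intro y hy
    rw [capE, sg_chT hv hy, inner_smul_right, inv_mul_eq_div]
  refine isBall_star (shell_continuous hcP) (o := -v0) ?_ ?_ ?_
  · rw [shell_lt_iff]
    refine ⟨neg_ne_zero.2 hne, ?_, ?_⟩
    · have h1 : ⟪v0, -v0⟫ < ‖-v0‖ := by
        rw [inner_neg_right, norm_neg, hvv, hv]
        norm_num
      refine cutP_sign hv hG hab hb (neg_ne_zero.2 hne) h1 ?_
      rw [hcap _ h1, inner_neg_right, norm_neg, hvv, hv]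
      norm_num
    · rw [norm_neg, hv, Real.log_one, abs_zero]
      exact one_pos
  · refine (Metric.isBounded_closedBall (x := (0 : V)) (r := Real.exp 1)).subset fun x hx => ?_
    rw [Metric.mem_closedBall, dist_zero_right]
    exact (shell_norm hx).2
  · intro x h0
    obtain ⟨hx, h1, h2⟩ := shell_le_iff.1 h0.le
    have hn : 0 < ‖x‖ := norm_pos_iff.2 hx
    obtain ⟨h3, h4, -⟩ := cutP_le hv hG hab hb hx h1
    rw [hcap x h3] at h4
    have hin : ⟪x, -v0 - x⟫ = -⟪v0, x⟫ - ‖x‖ ^ 2 := by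
      rw [inner_sub_right, inner_neg_right, real_inner_self_eq_norm_sq, real_inner_comm]
    have hin' : ⟪v0, -v0 - x⟫ = -1 - ⟪v0, x⟫ := by
      rw [inner_sub_right, inner_neg_right, hvv]
    have hexp := shell_norm h0.le
    refine desc_shell (P := fun _ : Unit => cutP v0 a b (capE v0)) (S := univ) (t := ()) hx ?_ h0
      ?_ ?_ |>.mono ?_
    · have h5 : ContinuousAt (cutP v0 a b (capE v0)) x :=
        hcP.continuousAt (isOpen_compl_singleton.mem_nhds hx)
      exact ContinuousAt.comp (f := fun p : Unit × V => p.2) (x := ((), x)) h5 continuousAt_snd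
    · intro h5
      change cutP v0 a b (capE v0) x = 0 at h5
      obtain ⟨-, h6, -⟩ := cutP_zero hv hG hab hb hx h5
      rw [hcap x h3] at h6
      have hlam : ⟪v0, x⟫ / ‖x‖ = -(3 / 5) := by linarith
      have hlam' : ⟪v0, x⟫ = -(3 / 5) * ‖x‖ := by
        rw [div_eq_iff hn.ne'] at hlam
        exact hlam
      have hs : Desc1 (fun y : V => ⟪v0, y⟫ / ‖y‖ + 3 / 5) x (-v0 - x) := by
        have hc1 : ContDiffAt ℝ 1 (fun y : V => ⟪v0, y⟫ / ‖y‖ + 3 / 5) x :=
          ((contDiffAt_const.inner ℝ contDiffAt_id).div (contDiffAt_norm ℝ hx)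
            (norm_ne_zero_iff.2 hx)).add contDiffAt_const
        refine desc1_smooth hc1 ?_
        rw [((hasFDerivAt_height (v0 := v0) hx).add_const (3 / 5)).fderiv]
        simp only [ContinuousLinearMap.add_apply, ContinuousLinearMap.smul_apply,
          innerSL_apply_apply, smul_eq_mul]
        rw [hin, hin', hlam']
        have e1 : ‖x‖⁻¹ * (-1 - -(3 / 5) * ‖x‖) +
            -(-(3 / 5) * ‖x‖ * (‖x‖ ^ 3)⁻¹) * (-(-(3 / 5) * ‖x‖) - ‖x‖ ^ 2) =
            -(16 / 25) * ‖x‖⁻¹ := by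
          field_simp
          ring
        rw [e1]
        have := inv_pos.2 hn
        linarith
      have hs2 : Desc1 (cutP v0 a b (capE v0)) x (-v0 - x) := by
        refine hs.congr ?_
        have h7 := cutP_near (H := fun _ => capE v0) hv (hcE.comp continuous_snd) (t := 0) hG
          hab hb hx h5
        have h8 : ContinuousAt (fun y : V => ((0 : ℝ), y)) x := by fun_prop
        filter_upwards [h8.eventually h7, (chT_open v0).mem_nhds h3] with y hy hy'
        rw [← hy, hcap y hy']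
      exact hs2.const _
    · intro h5
      have hlog : Real.log ‖x‖ ≠ 0 := by
        intro h
        rw [h, abs_zero] at h5
        exact zero_ne_one h5
      refine desc1_log hlog ?_ ?_
      · intro h6
        rw [abs_of_pos h6] at h5
        have h7 : ‖x‖ = Real.exp 1 := by
          rw [← Real.exp_log hn, h5]
        have h8 : 1 < ‖x‖ := by
          rw [h7]
          exact Real.one_lt_exp_iff.2 one_pos
        have h9 : |⟪v0, x⟫| ≤ ‖x‖ := by
          have := abs_real_inner_le_norm v0 x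
          rwa [hv, one_mul] at this
        have h10 := (abs_le.1 h9).1
        rw [hin]
        nlinarith
      · intro h6
        rw [abs_of_neg h6] at h5
        have h7 : ‖x‖ = Real.exp (-1) := by
          rw [← Real.exp_log hn]
          congr 1
          linarith
        have h8 : ‖x‖ < 3 / 5 := by
          rw [h7, Real.exp_neg]
          have := Real.exp_one_gt_d9
          rw [inv_lt_comm₀ (Real.exp_pos 1) (by norm_num)]
          linarith
        have h9 : ⟪v0, x⟫ ≤ -(3 / 5) * ‖x‖ := by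
          have h10 : ⟪v0, x⟫ / ‖x‖ ≤ -(3 / 5) := by linarith
          rwa [div_le_iff₀ hn] at h10
        rw [hin]
        nlinarith
    · intro s hs
      have h5 : () ∈ s := mem_of_mem_nhdsWithin (mem_univ _) hs
      have h6 : s = univ := eq_univ_of_forall fun z => by
        cases z
        exact h5
      rw [h6]
      exact univ_mem

theorem chartf_ball (ψ : V → ℝ) (hψ : DegZero ψ) (v : V) (hv : ‖v‖ = 1) (hp : 0 < ψ v)
    (h : IsBall (chartf ψ v)) : IsBall (shell ψ) := by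
  obtain ⟨H, hc, h0, h1, ⟨R, hR⟩, hd⟩ := Hom.trans h (capE_hom hv)
  set R' : ℝ := max R 1 with hR'
  have hRp : 0 < R' ^ 2 + 4 := by positivity
  have hle : ∀ t ∈ Icc (0 : ℝ) 1, ∀ y, H t y ≤ 0 → ‖y‖ ≤ R' := by
    intro t ht y hy
    by_contra hlt
    push Not at hlt
    have hne : ∀ s ∈ Icc (0 : ℝ) 1, H s y ≠ 0 := fun s hs h2 =>
      absurd ((hR s hs y h2).trans (le_max_left _ _)) (not_le.2 hlt)
    have h2 : 0 < H 1 y := by
      rw [h1, capE_eq hv]
      have h3 : 1 < ‖y‖ := (le_max_right R 1).trans_lt hlt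
      have h4 : 0 < ‖y‖ ^ 2 - 1 := by nlinarith
      positivity
    have hcont : ContinuousOn (fun s : ℝ => H s y) (Icc t 1) :=
      (hc.comp (Continuous.prodMk continuous_id continuous_const)).continuousOn
    have h3 : (0 : ℝ) ∈ Icc (H t y) (H 1 y) := ⟨hy, h2.le⟩
    obtain ⟨s, hs, hs'⟩ := intermediate_value_Icc ht.2 hcont h3
    exact hne s ⟨ht.1.trans hs.1, hs.2⟩ hs'
  set a : ℝ := 1 - 4 / (R' ^ 2 + 4) with ha
  set b : ℝ := 1 - 2 / (R' ^ 2 + 4) with hb'
  have hab : a < b := by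
    rw [ha, hb']
    have : 2 / (R' ^ 2 + 4) < 4 / (R' ^ 2 + 4) := by
      rw [div_lt_div_iff_of_pos_right hRp]
      norm_num
    linarith
  have hb : b < 1 := by
    rw [hb']
    have : 0 < 2 / (R' ^ 2 + 4) := by positivity
    linarith
  have hB : ∀ t ∈ Icc (0 : ℝ) 1, Below v a (H t) := by
    intro t ht y hy
    have h2 := hle t ht y hy
    have h3 : ‖y‖ ^ 2 ≤ R' ^ 2 := pow_le_pow_left₀ (norm_nonneg _) h2 2
    rw [inner_sg hv, div_lt_iff₀ (by positivity), ha]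
    have h4 : 4 / (R' ^ 2 + 4) * (‖y‖ ^ 2 + 4) ≤ 4 := by
      rw [div_mul_eq_mul_div, div_le_iff₀ hRp]
      nlinarith
    nlinarith
  have hh := shell_cutP_hom hv hc hB hab hb hd
  have hB0 := hB 0 ⟨le_rfl, zero_le_one⟩
  have hB1 := hB 1 ⟨zero_le_one, le_rfl⟩
  rw [h0] at hB0
  rw [h1] at hB1
  rw [h0, h1] at hh
  have hcap := isBall_cap hv hB1 hab hb
  have hcf : Continuous (chartf ψ v) := sg_continuous hψ hv
  have hcP : ContinuousOn (cutP v a b (chartf ψ v)) {0}ᶜ := by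
    intro x hx
    have h1 := cutP_cont (H := fun _ => chartf ψ v) (hcf.comp continuous_snd) hab hb 0 hx
    have h2 : ContinuousAt (fun y : V => ((0 : ℝ), y)) x := by fun_prop
    exact (ContinuousAt.comp (g := fun p : ℝ × V => cutP v a b (chartf ψ v) p.2)
      (f := fun y : V => ((0 : ℝ), y)) (x := x) h1 h2).continuousWithinAt
  have hdeg : ∀ y : V, ⟪v, y⟫ < ‖y‖ → chartf ψ v (chT v y) = ψ y := by
    intro y hy
    have h2 : chartf ψ v (chT v y) = ψ (sg v (chT v y)) := rfl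
    rw [h2, sg_chT hv hy, hψ.deg _ _ (inv_pos.2 (norm_pos_iff.2 (chT_ne hy)))]
  have hray : ∀ y : V, y ≠ 0 → ψ y ≤ 0 → ⟪v, y⟫ < ‖y‖ := by
    intro y hy0 hy
    by_contra h2
    have hn : 0 < ‖y‖ := norm_pos_iff.2 hy0
    have h3 : ⟪v, y⟫ ≤ ‖v‖ * ‖y‖ := real_inner_le_norm v y
    have h4 : ⟪v, y⟫ = ‖v‖ * ‖y‖ := le_antisymm h3 (by rw [hv, one_mul]; exact not_lt.1 h2)
    have h5 := inner_eq_norm_mul_iff_real.1 h4
    rw [hv, one_smul] at h5
    rw [← h5, hψ.deg _ _ hn] at hy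
    linarith
  have hfirst : Hom (shell (cutP v a b (chartf ψ v))) (shell ψ) := by
    have hnear : ∀ x, x ≠ 0 → cutP v a b (chartf ψ v) x = 0 →
        ∀ᶠ y in 𝓝 x, cutP v a b (chartf ψ v) y = ψ y := by
      intro x hx h2
      obtain ⟨h3, -, -⟩ := cutP_zero hv hB0 hab hb hx h2
      have h7 := cutP_near (H := fun _ => chartf ψ v) hv (hcf.comp continuous_snd) (t := 0) hB0
        hab hb hx h2
      have h8 : ContinuousAt (fun y : V => ((0 : ℝ), y)) x := by fun_prop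
      filter_upwards [h8.eventually h7, (chT_open v).mem_nhds h3] with y hy hy'
      rw [← hy, hdeg y hy']
    refine shell_congr_hom hcP hψ.cont hh.good_left ?_ ?_
    · rintro x hx (h2 | h2)
      · exact hnear x hx h2
      · have h3 := hray x hx h2.le
        have h4 : chartf ψ v (chT v x) = 0 := by rw [hdeg x h3, h2]
        have h5 := hB0 _ h4.le
        rw [sg_chT hv h3, inner_smul_right, inv_mul_eq_div] at h5
        refine hnear x hx ?_
        rw [cutP, h4, min_eq_left zero_le_one]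
        refine max_eq_left (div_nonpos_of_nonpos_of_nonneg ?_ ?_) <;> linarith
    · intro x hx h2 h3
      rcases lt_or_gt_of_ne h3 with h4 | h4
      · have h5 := hray x hx h4.le
        exact mul_pos_of_neg_of_neg (cutP_sign hv hB0 hab hb hx h5 (by rwa [hdeg x h5])) h4
      · rcases lt_or_gt_of_ne h2 with h5 | h5
        · obtain ⟨h6, h7, -⟩ := cutP_le hv hB0 hab hb hx h5.le
          rw [hdeg x h6] at h7
          linarith
        · exact mul_pos h5 h4
  exact hfirst.symm.trans (hh.trans hcap)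

end Pool.Schoen
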