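import Pool.Agent.H.MP_6c077c_gt.Ix.Dz

/-! Hexasecant theorem: descent directions and strictly differentiable maps. -/

set_option autoImplicit false

namespace Pool.Schoen

open Filter Set
open scoped Topology RealInnerProductSpace

variable {V : Type*} [NormedAddCommGroup V] [InnerProductSpace ℝ V]
variable {W : Type*} [NormedAddCommGroup W] [InnerProductSpace ℝ W]

/-- Difference quotients of a strictly differentiable map at moving points. -/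
theorem quot_tendsto {X : Type*} {l : Filter X} {Φ : V → W} {Φ' : V →L[ℝ] W} {x v : V}
    (hΦ : HasStrictFDerivAt Φ Φ' x) :
    Tendsto (fun q : X × (V × (V × ℝ)) =>
      q.2.2.2⁻¹ • (Φ (q.2.1 + q.2.2.2 • q.2.2.1) - Φ q.2.1))
      (l ×ˢ (𝓝 x ×ˢ (𝓝 v ×ˢ 𝓝[>] (0 : ℝ)))) (𝓝 (Φ' v)) := by
  set L : Filter (X × (V × (V × ℝ))) := l ×ˢ (𝓝 x ×ˢ (𝓝 v ×ˢ 𝓝[>] (0 : ℝ))) with hL
  have T2 : Tendsto (fun q : X × (V × (V × ℝ)) => q.2.1) L (𝓝 x) := tendsto_fst.comp tendsto_snd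
  have T3 : Tendsto (fun q : X × (V × (V × ℝ)) => q.2.2.1) L (𝓝 v) := DescC_dir l x v
  have T4' : Tendsto (fun q : X × (V × (V × ℝ)) => q.2.2.2) L (𝓝[>] 0) := DescC_time l x v
  have T4 : Tendsto (fun q : X × (V × (V × ℝ)) => q.2.2.2) L (𝓝 0) :=
    T4'.mono_right nhdsWithin_le_nhds
  have T5 : Tendsto (fun q : X × (V × (V × ℝ)) => q.2.1 + q.2.2.2 • q.2.2.1) L (𝓝 x) := by
    have := T2.add (T4.smul T3)
    rwa [zero_smul, add_zero] at this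
  have h1 := hΦ.isLittleO
  have h2 : Tendsto (fun q : X × (V × (V × ℝ)) =>
      q.2.2.2⁻¹ • (Φ (q.2.1 + q.2.2.2 • q.2.2.1) - Φ q.2.1) - Φ' q.2.2.1) L (𝓝 0) := by
    rw [Metric.tendsto_nhds]
    intro ε hε
    have hn : 0 < ‖v‖ + 1 := by positivity
    have h3 := h1.def (c := ε / (2 * (‖v‖ + 1))) (by positivity)
    have h4 := (T5.prodMk_nhds T2).eventually h3
    have h5 : ∀ᶠ q in L, ‖q.2.2.1‖ < ‖v‖ + 1 :=
      T3.norm.eventually_lt_const (by linarith)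
    filter_upwards [h4, h5, DescC_pos l x v] with q hq hq' hpos
    simp only [add_sub_cancel_left] at hq
    rw [dist_zero_right]
    have h6 : q.2.2.2⁻¹ • (Φ (q.2.1 + q.2.2.2 • q.2.2.1) - Φ q.2.1) - Φ' q.2.2.1 =
        q.2.2.2⁻¹ • (Φ (q.2.1 + q.2.2.2 • q.2.2.1) - Φ q.2.1 - Φ' (q.2.2.2 • q.2.2.1)) := by
      rw [smul_sub q.2.2.2⁻¹ (_ - _), map_smul, smul_smul, inv_mul_cancel₀ hpos.ne', one_smul]
    rw [h6, norm_smul, norm_inv, Real.norm_eq_abs, abs_of_pos hpos]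
    rw [norm_smul, Real.norm_eq_abs, abs_of_pos hpos] at hq
    have h7 : q.2.2.2⁻¹ * ‖Φ (q.2.1 + q.2.2.2 • q.2.2.1) - Φ q.2.1 - Φ' (q.2.2.2 • q.2.2.1)‖ ≤
        q.2.2.2⁻¹ * (ε / (2 * (‖v‖ + 1)) * (q.2.2.2 * ‖q.2.2.1‖)) :=
      mul_le_mul_of_nonneg_left hq (inv_nonneg.2 hpos.le)
    refine h7.trans_lt ?_
    have h8 : q.2.2.2⁻¹ * (ε / (2 * (‖v‖ + 1)) * (q.2.2.2 * ‖q.2.2.1‖)) =
        ε / (2 * (‖v‖ + 1)) * ‖q.2.2.1‖ := by
      field_simp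
    rw [h8]
    calc ε / (2 * (‖v‖ + 1)) * ‖q.2.2.1‖ ≤ ε / (2 * (‖v‖ + 1)) * (‖v‖ + 1) :=
          mul_le_mul_of_nonneg_left hq'.le (by positivity)
      _ = ε / 2 := by field_simp
      _ < ε := by linarith
  have h9 : Tendsto (fun q : X × (V × (V × ℝ)) => Φ' q.2.2.1) L (𝓝 (Φ' v)) :=
    (Φ'.continuous.tendsto v).comp T3
  have h10 := h2.add h9
  rw [zero_add] at h10
  refine h10.congr fun q => ?_
  rw [sub_add_cancel]

/-- Composition with a strictly differentiable map. -/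
theorem Desc.comp_strict {X : Type*} {H : X → W → ℝ} {l : Filter X} {Φ : V → W} {Φ' : V →L[ℝ] W}
    {x v : V} (hΦ : HasStrictFDerivAt Φ Φ' x) (h : Desc H l (Φ x) (Φ' v)) :
    Desc (fun t y => H t (Φ y)) l x v := by
  obtain ⟨c, hc, hc'⟩ := h
  refine ⟨c, hc, ?_⟩
  set L : Filter (X × (V × (V × ℝ))) := l ×ˢ (𝓝 x ×ˢ (𝓝 v ×ˢ 𝓝[>] (0 : ℝ))) with hL
  have T1 : Tendsto (fun q : X × (V × (V × ℝ)) => q.1) L l := tendsto_fst
  have T2 : Tendsto (fun q : X × (V × (V × ℝ)) => q.2.1) L (𝓝 x) := tendsto_fst.comp tendsto_snd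
  have T4' : Tendsto (fun q : X × (V × (V × ℝ)) => q.2.2.2) L (𝓝[>] 0) := DescC_time l x v
  have TΦ : Tendsto (fun q : X × (V × (V × ℝ)) => Φ q.2.1) L (𝓝 (Φ x)) :=
    (hΦ.continuousAt.tendsto).comp T2
  have hall : Tendsto (fun q : X × (V × (V × ℝ)) => ((q.1, (Φ q.2.1,
      (q.2.2.2⁻¹ • (Φ (q.2.1 + q.2.2.2 • q.2.2.1) - Φ q.2.1), q.2.2.2))) : X × (W × (W × ℝ))))
      L (l ×ˢ (𝓝 (Φ x) ×ˢ (𝓝 (Φ' v) ×ˢ 𝓝[>] (0 : ℝ)))) :=
    T1.prodMk (TΦ.prodMk ((quot_tendsto hΦ).prodMk T4'))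
  filter_upwards [hall.eventually hc', DescC_pos l x v] with q hq hpos
  rw [smul_smul, mul_inv_cancel₀ hpos.ne', one_smul, add_sub_cancel] at hq
  exact hq

theorem Desc1.comp_strict {f : W → ℝ} {Φ : V → W} {Φ' : V →L[ℝ] W} {x v : V}
    (hΦ : HasStrictFDerivAt Φ Φ' x) (h : Desc1 f (Φ x) (Φ' v)) :
    Desc1 (fun y => f (Φ y)) x v :=
  Desc.comp_strict hΦ h

/-- The normalization `x / ‖x‖`. -/
theorem strict_normalize {x : V} (hx : x ≠ 0) : ∃ N' : V →L[ℝ] V,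
    HasStrictFDerivAt (fun y : V => ‖y‖⁻¹ • y) N' x ∧
      ∀ v, ∃ b : ℝ, N' v = ‖x‖⁻¹ • v + b • x := by
  have h1 : ContDiffAt ℝ 1 (fun y : V => ‖y‖⁻¹) x :=
    (contDiffAt_norm ℝ hx).inv (norm_ne_zero_iff.2 hx)
  have h2 := (h1.hasStrictFDerivAt one_ne_zero)
  have h3 := h2.smul (hasStrictFDerivAt_id x)
  refine ⟨_, h3, fun v => ⟨fderiv ℝ (fun y : V => ‖y‖⁻¹) x v, ?_⟩⟩
  simp

end Pool.Schoen
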