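import Pool.Agent.H.MP_6c077c_gt.Hx.Defs
import Pool.Agent.H.MP_6c077c_gt.Hx.Comp

/-! Hexasecant theorem: the stereographic chart. -/

set_option autoImplicit false

namespace Pool.Schoen

open Filter Set
open scoped Topology RealInnerProductSpace ContDiff

variable {V : Type*} [NormedAddCommGroup V] [InnerProductSpace ℝ V]

/-- The inverse stereographic projection with pole `v0`. -/
noncomputable def sg (v0 : V) (y : (ℝ ∙ v0)ᗮ) : V := stereoInvFunAux v0 (y : V)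

/-- The central projection to the unit sphere followed by the stereographic projection. -/
noncomputable def chT (v0 x : V) : (ℝ ∙ v0)ᗮ := stereoToFun v0 (‖x‖⁻¹ • x)

variable {v0 x : V}

theorem sg_inner_zero (y : (ℝ ∙ v0)ᗮ) : ⟪v0, (y : V)⟫ = 0 :=
  Submodule.mem_orthogonal_singleton_iff_inner_right.1 y.2

theorem sg_norm (hv : ‖v0‖ = 1) (y : (ℝ ∙ v0)ᗮ) : ‖sg v0 y‖ = 1 := by
  have := stereoInvFunAux_mem hv y.2
  simpa [sg] using this

theorem sg_ne (hv : ‖v0‖ = 1) (y : (ℝ ∙ v0)ᗮ) : sg v0 y ≠ 0 := by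
  intro h
  have := sg_norm hv y
  rw [h, norm_zero] at this
  exact zero_ne_one this

theorem inner_sg (hv : ‖v0‖ = 1) (y : (ℝ ∙ v0)ᗮ) :
    ⟪v0, sg v0 y⟫ = (‖y‖ ^ 2 - 4) / (‖y‖ ^ 2 + 4) := by
  have h1 : ⟪v0, v0⟫ = (1 : ℝ) := by rw [real_inner_self_eq_norm_sq, hv]; norm_num
  rw [sg, stereoInvFunAux_apply, inner_smul_right, inner_add_right, inner_smul_right,
    inner_smul_right, sg_inner_zero, h1, Submodule.coe_norm]
  field_simp
  ring

theorem sg_lt (hv : ‖v0‖ = 1) (y : (ℝ ∙ v0)ᗮ) : ⟪v0, sg v0 y⟫ < 1 := by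
  rw [inner_sg hv, div_lt_one (by positivity)]
  linarith

theorem chT_smul {c : ℝ} (hc : 0 < c) (x : V) : chT v0 (c • x) = chT v0 x := by
  rw [chT, chT, norm_smul, Real.norm_eq_abs, abs_of_pos hc, smul_smul, mul_inv, mul_comm c⁻¹,
    mul_assoc, inv_mul_cancel₀ hc.ne', mul_one]

theorem chT_sg (hv : ‖v0‖ = 1) (y : (ℝ ∙ v0)ᗮ) : chT v0 (sg v0 y) = y := by
  rw [chT, sg_norm hv, inv_one, one_smul]
  exact stereo_right_inv hv y

theorem chT_ne (hx : ⟪v0, x⟫ < ‖x‖) : x ≠ 0 := by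
  rintro rfl
  simp at hx

theorem sg_chT (hv : ‖v0‖ = 1) (hx : ⟪v0, x⟫ < ‖x‖) : sg v0 (chT v0 x) = ‖x‖⁻¹ • x := by
  have h0 : x ≠ 0 := chT_ne hx
  have hn : 0 < ‖x‖ := norm_pos_iff.2 h0
  have h1 : ‖‖x‖⁻¹ • x‖ = 1 := by
    rw [norm_smul, norm_inv, norm_norm, inv_mul_cancel₀ hn.ne']
  have h2 : ‖x‖⁻¹ • x ≠ v0 := by
    intro h
    have h3 : x = ‖x‖ • v0 := by rw [← h, smul_smul, mul_inv_cancel₀ hn.ne', one_smul]
    have h4 : ⟪v0, x⟫ = ‖x‖ := by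
      rw [h3, inner_smul_right, real_inner_self_eq_norm_sq, hv, norm_smul, hv]
      simp
    linarith
  have h5 := stereo_left_inv hv (x := ⟨‖x‖⁻¹ • x, by simpa using h1⟩) h2
  exact congrArg Subtype.val h5

theorem sg_strict (v0 : V) (y : (ℝ ∙ v0)ᗮ) :
    HasStrictFDerivAt (sg v0) (fderiv ℝ (sg v0) y) y := by
  have h1 : ContDiff ℝ 1 (sg v0) :=
    (contDiff_stereoInvFunAux (v := v0) (m := 1)).comp (ℝ ∙ v0)ᗮ.subtypeL.contDiff
  exact h1.contDiffAt.hasStrictFDerivAt one_ne_zero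

theorem sg_cont (v0 : V) : Continuous (sg v0) :=
  (contDiff_stereoInvFunAux (v := v0) (m := 0)).continuous.comp continuous_subtype_val

theorem chT_contDiffAt (hx : ⟪v0, x⟫ < ‖x‖) : ContDiffAt ℝ 1 (chT v0) x := by
  have h0 : x ≠ 0 := chT_ne hx
  have hn : 0 < ‖x‖ := norm_pos_iff.2 h0
  have h1 : ContDiffAt ℝ 1 (fun y : V => ‖y‖⁻¹ • y) x :=
    ((contDiffAt_norm ℝ h0).inv (norm_ne_zero_iff.2 h0)).smul contDiffAt_id
  have h2 : IsOpen {y : V | innerSL ℝ v0 y ≠ (1 : ℝ)} :=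
    isOpen_ne_fun (innerSL ℝ v0).continuous continuous_const
  have h3 : ‖x‖⁻¹ • x ∈ {y : V | innerSL ℝ v0 y ≠ (1 : ℝ)} := by
    show innerSL ℝ v0 (‖x‖⁻¹ • x) ≠ 1
    rw [innerSL_apply_apply, inner_smul_right]
    intro h
    have h4 : ⟪v0, x⟫ = ‖x‖ := by
      field_simp at h
      linarith
    linarith
  have h5 : ContDiffAt ℝ 1 (stereoToFun v0) ((fun y : V => ‖y‖⁻¹ • y) x) :=
    (contDiffOn_stereoToFun (v := v0) (n := 1)).contDiffAt (h2.mem_nhds h3)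
  exact ContDiffAt.comp (g := stereoToFun v0) (f := fun y : V => ‖y‖⁻¹ • y) x h5 h1

theorem chT_strict (hx : ⟪v0, x⟫ < ‖x‖) :
    HasStrictFDerivAt (chT v0) (fderiv ℝ (chT v0) x) x :=
  (chT_contDiffAt hx).hasStrictFDerivAt one_ne_zero

theorem chT_open (v0 : V) : IsOpen {x : V | ⟪v0, x⟫ < ‖x‖} :=
  isOpen_lt (by fun_prop) (by fun_prop)

/-- The derivative of the chart in the radial direction vanishes. -/
theorem fderiv_chT_self (hx : ⟪v0, x⟫ < ‖x‖) : fderiv ℝ (chT v0) x x = 0 := by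
  have h1 : HasDerivAt (fun s : ℝ => chT v0 (x + s • x)) (fderiv ℝ (chT v0) x x) 0 := by
    have h2 : HasDerivAt (fun s : ℝ => x + s • x) x 0 := by
      have := ((hasDerivAt_id (0 : ℝ)).smul_const x).const_add x
      simpa using this
    have h3 : HasFDerivAt (chT v0) (fderiv ℝ (chT v0) x) (x + (0 : ℝ) • x) := by
      rw [zero_smul, add_zero]
      exact (chT_strict hx).hasFDerivAt
    exact HasFDerivAt.comp_hasDerivAt (l := chT v0) (f := fun s : ℝ => x + s • x) 0 h3 h2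
  have h4 : HasDerivAt (fun _ : ℝ => chT v0 x) 0 0 := hasDerivAt_const _ _
  have h5 : (fun s : ℝ => chT v0 (x + s • x)) =ᶠ[𝓝 0] fun _ : ℝ => chT v0 x := by
    filter_upwards [lt_mem_nhds (show (-1 : ℝ) < 0 by norm_num)] with s hs
    have h6 : x + s • x = (1 + s) • x := by rw [add_smul, one_smul]
    rw [h6, chT_smul (by linarith)]
  exact h1.unique (h4.congr_of_eventuallyEq h5)

/-- The chart undoes the derivative of the inverse chart. -/
theorem fderiv_chT_sg (hv : ‖v0‖ = 1) (hx : ⟪v0, x⟫ < ‖x‖) (w : (ℝ ∙ v0)ᗮ) :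
    fderiv ℝ (chT v0) x (‖x‖ • fderiv ℝ (sg v0) (chT v0 x) w) = w := by
  have h0 : x ≠ 0 := chT_ne hx
  have hn : 0 < ‖x‖ := norm_pos_iff.2 h0
  have h1 : HasFDerivAt (fun y => ‖x‖ • sg v0 y) (‖x‖ • fderiv ℝ (sg v0) (chT v0 x))
      (chT v0 x) := (sg_strict v0 (chT v0 x)).hasFDerivAt.const_smul ‖x‖
  have h2 : ‖x‖ • sg v0 (chT v0 x) = x := by
    rw [sg_chT hv hx, smul_smul, mul_inv_cancel₀ hn.ne', one_smul]
  have h3 : HasFDerivAt (chT v0) (fderiv ℝ (chT v0) x) (‖x‖ • sg v0 (chT v0 x)) := by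
    rw [h2]
    exact (chT_strict hx).hasFDerivAt
  have h4 := h3.comp (chT v0 x) h1
  have h5 : (chT v0 ∘ fun y => ‖x‖ • sg v0 y) = fun y => y := by
    funext y
    show chT v0 (‖x‖ • sg v0 y) = y
    rw [chT_smul hn, chT_sg hv]
  rw [h5] at h4
  have h6 := h4.unique (hasFDerivAt_id (chT v0 x))
  have h7 := congrArg (fun A : (ℝ ∙ v0)ᗮ →L[ℝ] (ℝ ∙ v0)ᗮ => A w) h6
  simpa using h7

/-- The image of the derivative of the inverse chart is orthogonal to the base point. -/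
theorem inner_fderiv_sg (hv : ‖v0‖ = 1) (y w : (ℝ ∙ v0)ᗮ) :
    ⟪sg v0 y, fderiv ℝ (sg v0) y w⟫ = 0 := by
  have h1 : HasFDerivAt (fun y => ‖sg v0 y‖ ^ 2)
      ((2 • (innerSL ℝ (sg v0 y))).comp (fderiv ℝ (sg v0) y)) y := by
    have h2 := (hasStrictFDerivAt_norm_sq (sg v0 y)).hasFDerivAt
    exact h2.comp y (sg_strict v0 y).hasFDerivAt
  have h3 : (fun y => ‖sg v0 y‖ ^ 2) = fun _ => (1 : ℝ) := by
    funext y
    rw [sg_norm hv, one_pow]
  rw [h3] at h1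
  have h4 := h1.unique (hasFDerivAt_const (1 : ℝ) y)
  have h5 := congrArg (fun A : (ℝ ∙ v0)ᗮ →L[ℝ] ℝ => A w) h4
  simpa using h5

theorem inner_fderiv_sg' (hv : ‖v0‖ = 1) (hx : ⟪v0, x⟫ < ‖x‖) (w : (ℝ ∙ v0)ᗮ) :
    ⟪x, fderiv ℝ (sg v0) (chT v0 x) w⟫ = 0 := by
  have h0 : x ≠ 0 := chT_ne hx
  have hn : 0 < ‖x‖ := norm_pos_iff.2 h0
  have h1 := inner_fderiv_sg hv (chT v0 x) w
  rw [sg_chT hv hx, inner_smul_left] at h1
  simpa [hn.ne'] using h1

/-- A tangent vector at a unit vector is in the image of the derivative of the inverse chart. -/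
theorem fderiv_sg_chT (hv : ‖v0‖ = 1) (hx : ⟪v0, x⟫ < ‖x‖) {v : V} (hxv : ⟪x, v⟫ = 0) :
    fderiv ℝ (sg v0) (chT v0 x) (fderiv ℝ (chT v0) x v) = ‖x‖⁻¹ • v := by
  have h0 : x ≠ 0 := chT_ne hx
  have hn : 0 < ‖x‖ := norm_pos_iff.2 h0
  obtain ⟨N', hN, hN'⟩ := strict_normalize h0
  have h1 : HasFDerivAt (fun y => sg v0 (chT v0 y))
      ((fderiv ℝ (sg v0) (chT v0 x)).comp (fderiv ℝ (chT v0) x)) x :=
    (sg_strict v0 (chT v0 x)).hasFDerivAt.comp x (chT_strict hx).hasFDerivAt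
  have h2 : (fun y => sg v0 (chT v0 y)) =ᶠ[𝓝 x] fun y => ‖y‖⁻¹ • y := by
    filter_upwards [(chT_open v0).mem_nhds hx] with y hy
    exact sg_chT hv hy
  have h3 := h1.unique (hN.hasFDerivAt.congr_of_eventuallyEq h2)
  have h4 : fderiv ℝ (sg v0) (chT v0 x) (fderiv ℝ (chT v0) x v) = N' v := by
    have := congrArg (fun A : V →L[ℝ] V => A v) h3
    simpa using this
  obtain ⟨b, hb⟩ := hN' v
  rw [h4, hb]
  have h5 := inner_fderiv_sg' hv hx (fderiv ℝ (chT v0) x v)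
  rw [h4, hb, inner_add_right, inner_smul_right, inner_smul_right, hxv, mul_zero, zero_add,
    real_inner_self_eq_norm_sq] at h5
  have h6 : b = 0 := by
    rcases mul_eq_zero.1 h5 with h | h
    · exact h
    · exact absurd h (by positivity)
  rw [h6, zero_smul, add_zero]

/-- `ψ ∘ sg` has bounded sublevel set. -/
theorem sg_bdd {ψ : V → ℝ} (hψ : DegZero ψ) (hv : ‖v0‖ = 1) (h0 : 0 < ψ v0) :
    Bornology.IsBounded {y : (ℝ ∙ v0)ᗮ | ψ (sg v0 y) ≤ 0} := by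
  have hne : v0 ≠ 0 := by
    rintro rfl
    simp at hv
  have h1 : ContinuousAt ψ v0 := hψ.cont.continuousAt (isOpen_compl_singleton.mem_nhds hne)
  have h2 : ∀ᶠ x in 𝓝 v0, 0 < ψ x := continuousAt_const.eventually_lt h1 h0
  obtain ⟨δ, hδ, hball⟩ := Metric.eventually_nhds_iff.1 h2
  refine (Metric.isBounded_closedBall (x := (0 : (ℝ ∙ v0)ᗮ)) (r := 4 / δ)).subset ?_
  intro y hy
  rw [Metric.mem_closedBall, dist_zero_right]
  by_contra hlt
  push Not at hlt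
  have h3 : ‖sg v0 y - v0‖ ^ 2 = 16 / (‖y‖ ^ 2 + 4) := by
    rw [norm_sub_sq_real, sg_norm hv, hv, real_inner_comm, inner_sg hv]
    field_simp
    ring
  have h4 : 16 / (‖y‖ ^ 2 + 4) < δ ^ 2 := by
    rw [div_lt_iff₀ (by positivity)]
    have h5 : 4 < ‖y‖ * δ := by
      rwa [div_lt_iff₀ hδ] at hlt
    nlinarith [sq_nonneg δ]
  have h6 : ‖sg v0 y - v0‖ < δ := by
    rw [← h3] at h4
    exact lt_of_pow_lt_pow_left₀ 2 hδ.le h4
  have h7 := hball (by rwa [dist_eq_norm] : dist (sg v0 y) v0 < δ)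
  exact absurd hy (not_le.2 h7)

theorem sg_continuous {ψ : V → ℝ} (hψ : DegZero ψ) (hv : ‖v0‖ = 1) :
    Continuous fun y => ψ (sg v0 y) :=
  hψ.cont.comp_continuous (sg_cont v0) fun y => sg_ne hv y

/-- `ψ ∘ sg` is good. -/
theorem good_sg {ψ : V → ℝ} (hψ : DegZero ψ) (hv : ‖v0‖ = 1) (h0 : 0 < ψ v0) :
    Good fun y => ψ (sg v0 y) := by
  refine ⟨sg_continuous hψ hv, (sg_bdd hψ hv h0).subset fun y hy => le_of_eq hy, ?_⟩
  intro y hy
  obtain ⟨v, hv1, hv2⟩ := hψ.desc (sg v0 y) (sg_ne hv y) hy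
  have hlt : ⟪v0, sg v0 y⟫ < ‖sg v0 y‖ := by
    rw [sg_norm hv]
    exact sg_lt hv y
  have h1 := fderiv_sg_chT hv hlt (v := v) (by rw [real_inner_comm]; exact hv1)
  rw [chT_sg hv, sg_norm hv, inv_one, one_smul] at h1
  refine ⟨fderiv ℝ (chT v0) (sg v0 y) v, Desc1.comp_strict (sg_strict v0 y) ?_⟩
  rw [h1]
  exact hv2

end Pool.Schoen
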