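import Pool.Agent.H.MP_6c077c_gt.Hx.ChartA
import Pool.Agent.H.MP_6c077c_gt.Ix.HomB

/-! Hexasecant theorem: homotopies of shells, star-shaped bodies. -/

set_option autoImplicit false

namespace Pool.Schoen

open Filter Set
open scoped Topology RealInnerProductSpace ContDiff

variable {V : Type*} [NormedAddCommGroup V] [InnerProductSpace ℝ V]
variable {ψ ψ' : V → ℝ} {x : V}

omit [InnerProductSpace ℝ V] in
theorem shell_apply (ψ : V → ℝ) (hx : x ≠ 0) :
    shell ψ x = min 1 (max (ψ x) (|Real.log ‖x‖| - 1)) := if_neg hx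

omit [InnerProductSpace ℝ V] in
theorem shell_zero (ψ : V → ℝ) : shell ψ 0 = 1 := if_pos rfl

omit [InnerProductSpace ℝ V] in
theorem shell_le_iff : shell ψ x ≤ 0 ↔ x ≠ 0 ∧ ψ x ≤ 0 ∧ |Real.log ‖x‖| ≤ 1 := by
  by_cases hx : x = 0
  · rw [hx, shell_zero]
    constructor
    · intro h
      linarith
    · intro h
      exact absurd rfl h.1
  · rw [shell_apply ψ hx]
    constructor
    · intro h
      rcases min_le_iff.1 h with h | h
      · linarith
      · have := max_le_iff.1 h
        exact ⟨hx, this.1, by linarith [this.2]⟩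
    · intro h
      exact min_le_of_right_le (max_le h.2.1 (by linarith [h.2.2]))

omit [InnerProductSpace ℝ V] in
theorem shell_lt_iff : shell ψ x < 0 ↔ x ≠ 0 ∧ ψ x < 0 ∧ |Real.log ‖x‖| < 1 := by
  by_cases hx : x = 0
  · rw [hx, shell_zero]
    constructor
    · intro h
      linarith
    · intro h
      exact absurd rfl h.1
  · rw [shell_apply ψ hx]
    constructor
    · intro h
      rcases min_lt_iff.1 h with h | h
      · linarith
      · have := max_lt_iff.1 h
        exact ⟨hx, this.1, by linarith [this.2]⟩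
    · intro h
      exact min_lt_of_right_lt (max_lt h.2.1 (by linarith [h.2.2]))

omit [InnerProductSpace ℝ V] in
theorem shell_norm (h : shell ψ x ≤ 0) : Real.exp (-1) ≤ ‖x‖ ∧ ‖x‖ ≤ Real.exp 1 := by
  obtain ⟨h1, -, h2⟩ := shell_le_iff.1 h
  have h3 := abs_le.1 h2
  have hn : 0 < ‖x‖ := norm_pos_iff.2 h1
  exact ⟨(Real.le_log_iff_exp_le hn).1 h3.1, (Real.log_le_iff_le_exp hn).1 h3.2⟩

omit [InnerProductSpace ℝ V] in
theorem shell_family_cont {P : ℝ → V → ℝ}
    (hP : ∀ t x, x ≠ 0 → ContinuousAt (fun p : ℝ × V => P p.1 p.2) (t, x)) :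
    Continuous fun p : ℝ × V => shell (P p.1) p.2 := by
  rw [continuous_iff_continuousAt]
  rintro ⟨t, x⟩
  by_cases hx : x = 0
  · have h1 : ∀ᶠ p : ℝ × V in 𝓝 (t, x), ‖p.2‖ < Real.exp (-2) := by
      have h2 : ContinuousAt (fun p : ℝ × V => ‖p.2‖) (t, x) := by fun_prop
      refine h2.eventually_lt continuousAt_const ?_
      simp only [hx, norm_zero]
      exact Real.exp_pos _
    have h3 : (fun p : ℝ × V => shell (P p.1) p.2) =ᶠ[𝓝 (t, x)] fun _ => (1 : ℝ) := by
      filter_upwards [h1] with p hp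
      by_cases h0 : p.2 = 0
      · rw [h0, shell_zero]
      · rw [shell_apply _ h0]
        have h4 : Real.log ‖p.2‖ < -2 := by
          rw [Real.log_lt_iff_lt_exp (norm_pos_iff.2 h0)]
          exact hp
        have h5 : |Real.log ‖p.2‖| = -Real.log ‖p.2‖ := abs_of_neg (by linarith)
        refine min_eq_left (le_max_of_le_right ?_)
        rw [h5]
        linarith
    exact (continuousAt_const (y := (1 : ℝ))).congr h3.symm
  · have h1 : ∀ᶠ p : ℝ × V in 𝓝 (t, x), p.2 ≠ 0 := by
      have h2 : ContinuousAt (fun p : ℝ × V => p.2) (t, x) := continuousAt_snd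
      exact h2.eventually_ne hx
    have h3 : (fun p : ℝ × V => min 1 (max (P p.1 p.2) (|Real.log ‖p.2‖| - 1)))
        =ᶠ[𝓝 (t, x)] fun p : ℝ × V => shell (P p.1) p.2 := by
      filter_upwards [h1] with p hp
      exact (shell_apply _ hp).symm
    refine ContinuousAt.congr ?_ h3
    have h4 : ContinuousAt (fun p : ℝ × V => Real.log ‖p.2‖) (t, x) := by
      have h5 : ContinuousAt (fun p : ℝ × V => ‖p.2‖) (t, x) := by fun_prop
      exact h5.log (norm_ne_zero_iff.2 hx)
    exact continuousAt_const.min ((hP t x hx).max (h4.abs.sub continuousAt_const))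

omit [InnerProductSpace ℝ V] in
theorem shell_continuous (hψ : ContinuousOn ψ {0}ᶜ) : Continuous (shell ψ) := by
  have h1 : Continuous fun p : ℝ × V => shell ((fun _ => ψ) p.1) p.2 := by
    refine shell_family_cont (P := fun _ => ψ) fun t x hx => ?_
    have h2 : ContinuousAt ψ x := hψ.continuousAt (isOpen_compl_singleton.mem_nhds hx)
    exact ContinuousAt.comp (f := fun p : ℝ × V => p.2) (x := (t, x)) h2 continuousAt_snd
  exact h1.comp (Continuous.prodMk (continuous_const (y := (0 : ℝ))) continuous_id)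

/-- The derivative of `log ‖x‖`. -/
theorem hasFDerivAt_log_norm (hx : x ≠ 0) :
    HasFDerivAt (fun y : V => Real.log ‖y‖) ((‖x‖ ^ 2)⁻¹ • innerSL ℝ x) x := by
  have hn : ‖x‖ ^ 2 ≠ 0 := pow_ne_zero _ (norm_ne_zero_iff.2 hx)
  have h1 := ((hasStrictFDerivAt_norm_sq x).hasFDerivAt.log hn).const_mul (1 / 2 : ℝ)
  have h2 : (fun y : V => (1 / 2 : ℝ) * Real.log (‖y‖ ^ 2)) = fun y : V => Real.log ‖y‖ := by
    funext y
    rw [Real.log_pow]
    push_cast
    ring
  rw [h2] at h1
  have h3 : (1 / 2 : ℝ) • ((‖x‖ ^ 2)⁻¹ • (2 • innerSL ℝ x)) = (‖x‖ ^ 2)⁻¹ • innerSL ℝ x := by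
    module
  exact h3 ▸ h1

/-- Descent directions of the wall `|log ‖x‖| = 1`. -/
theorem desc1_log {u : V} (h0 : Real.log ‖x‖ ≠ 0) (h : 0 < Real.log ‖x‖ → ⟪x, u⟫ < 0)
    (h' : Real.log ‖x‖ < 0 → 0 < ⟪x, u⟫) : Desc1 (fun y => |Real.log ‖y‖| - 1) x u := by
  have hx : x ≠ 0 := by
    rintro rfl
    simp at h0
  have hn : 0 < (‖x‖ ^ 2)⁻¹ := inv_pos.2 (pow_pos (norm_pos_iff.2 hx) 2)
  have hc : ContDiffAt ℝ 1 (fun y : V => Real.log ‖y‖) x :=
    (contDiffAt_norm ℝ hx).log (norm_ne_zero_iff.2 hx)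
  have hd := hasFDerivAt_log_norm hx
  rcases lt_or_gt_of_ne h0 with h1 | h1
  · have h2 : Desc1 (fun y : V => -Real.log ‖y‖ - 1) x u := by
      refine desc1_smooth (hc.neg.sub contDiffAt_const) ?_
      have h3 := (hd.neg.sub_const 1).fderiv
      simp only [Pi.neg_apply] at h3
      have h4 : fderiv ℝ (fun y : V => -Real.log ‖y‖ - 1) x =
          -((‖x‖ ^ 2)⁻¹ • innerSL ℝ x) := (hd.neg.sub_const 1).fderiv
      rw [h4]
      simp only [ContinuousLinearMap.neg_apply, ContinuousLinearMap.smul_apply,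
        innerSL_apply_apply, smul_eq_mul]
      have := mul_pos hn (h' h1)
      linarith
    refine h2.congr ?_
    filter_upwards [hc.continuousAt.eventually_lt continuousAt_const h1] with y hy
    rw [abs_of_neg hy]
  · have h2 : Desc1 (fun y : V => Real.log ‖y‖ - 1) x u := by
      refine desc1_smooth (hc.sub contDiffAt_const) ?_
      have h4 : fderiv ℝ (fun y : V => Real.log ‖y‖ - 1) x =
          ((‖x‖ ^ 2)⁻¹ • innerSL ℝ x) := (hd.sub_const 1).fderiv
      rw [h4]
      simp only [ContinuousLinearMap.smul_apply, innerSL_apply_apply, smul_eq_mul]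
      have := mul_pos_of_neg_of_neg (h h1) (neg_lt_zero.2 hn)
      linarith
    refine h2.congr ?_
    filter_upwards [continuousAt_const.eventually_lt hc.continuousAt h1] with y hy
    rw [abs_of_pos hy]

/-- Descent directions of a shell. -/
theorem desc_shell {X : Type*} [TopologicalSpace X] {P : X → V → ℝ} {t : X} {S : Set X} {u : V}
    (hx : x ≠ 0)
    (hP : ContinuousAt (fun p : X × V => P p.1 p.2) (t, x)) (h0 : shell (P t) x = 0)
    (h1 : P t x = 0 → Desc P (𝓝[S] t) x u)
    (h2 : |Real.log ‖x‖| = 1 → Desc1 (fun y => |Real.log ‖y‖| - 1) x u) :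
    Desc (fun t => shell (P t)) (𝓝[S] t) x u := by
  have hl : 𝓝[S] t ×ˢ 𝓝 x ≤ 𝓝 ((t, x) : X × V) := by
    rw [nhds_prod_eq]
    exact Filter.prod_mono nhdsWithin_le_nhds le_rfl
  have hL : ContinuousAt (fun p : X × V => |Real.log ‖p.2‖| - 1) (t, x) := by
    have h5 : ContinuousAt (fun p : X × V => ‖p.2‖) (t, x) := by fun_prop
    exact (h5.log (norm_ne_zero_iff.2 hx)).abs.sub continuousAt_const
  have hm : ContinuousAt (fun p : X × V => max (P p.1 p.2) (|Real.log ‖p.2‖| - 1)) (t, x) :=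
    hP.max hL
  have h3 : max (P t x) (|Real.log ‖x‖| - 1) = 0 := by
    rw [shell_apply _ hx] at h0
    rcases min_choice 1 (max (P t x) (|Real.log ‖x‖| - 1)) with h | h
    · rw [h] at h0
      norm_num at h0
    · rw [h] at h0
      exact h0
  have key : Desc (fun s y => max (P s y) (|Real.log ‖y‖| - 1)) (𝓝[S] t) x u := by
    have h4 : P t x ≤ 0 := h3 ▸ le_max_left _ _
    have h5 : |Real.log ‖x‖| - 1 ≤ 0 := h3 ▸ le_max_right _ _
    rcases eq_or_lt_of_le h4 with h6 | h6
    · rcases eq_or_lt_of_le h5 with h7 | h7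
      · exact desc_max (H := P) (K := fun _ y => |Real.log ‖y‖| - 1) (h1 h6)
          ((h2 (by linarith)).const _)
      · refine desc_max_left (H := P) (K := fun _ y => |Real.log ‖y‖| - 1) (h1 h6) ?_
        apply hl
        have h8 : (fun p : X × V => |Real.log ‖p.2‖| - 1) (t, x) <
            (fun p : X × V => P p.1 p.2) (t, x) := by
          show |Real.log ‖x‖| - 1 < P t x
          rw [h6]
          exact h7
        filter_upwards [hL.eventually_lt hP h8] with p hp
        exact hp.le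
    · have h7 : |Real.log ‖x‖| - 1 = 0 := by
        rcases max_choice (P t x) (|Real.log ‖x‖| - 1) with h | h
        · rw [h] at h3
          linarith
        · rw [h] at h3
          exact h3
      refine desc_max_right (H := P) (K := fun _ y => |Real.log ‖y‖| - 1)
        ((h2 (by linarith)).const _) ?_
      apply hl
      have h8 : (fun p : X × V => P p.1 p.2) (t, x) <
          (fun p : X × V => |Real.log ‖p.2‖| - 1) (t, x) := by
        show P t x < |Real.log ‖x‖| - 1
        rw [h7]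
        exact h6
      filter_upwards [hP.eventually_lt hL h8] with p hp
      exact hp.le
  refine key.congr ?_
  apply hl
  have h9 : ∀ᶠ p : X × V in 𝓝 (t, x), p.2 ≠ 0 :=
    (continuousAt_snd : ContinuousAt (fun p : X × V => p.2) (t, x)).eventually_ne hx
  have h10 : (fun p : X × V => max (P p.1 p.2) (|Real.log ‖p.2‖| - 1)) (t, x) < 1 := by
    show max (P t x) (|Real.log ‖x‖| - 1) < 1
    rw [h3]
    norm_num
  filter_upwards [h9, hm.eventually_lt continuousAt_const h10] with p hp hp'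
  rw [shell_apply _ hp, min_eq_right hp'.le]

/-- Families of shells. -/
theorem shell_hom {P : ℝ → V → ℝ}
    (hP : ∀ t x, x ≠ 0 → ContinuousAt (fun p : ℝ × V => P p.1 p.2) (t, x))
    (hd : ∀ t ∈ Icc (0 : ℝ) 1, ∀ x, x ≠ 0 → P t x = 0 →
      ∀ β : ℝ, ∃ u, ⟪x, u⟫ = β ∧ Desc P (𝓝[Icc 0 1] t) x u) :
    Hom (shell (P 0)) (shell (P 1)) := by
  refine ⟨fun t => shell (P t), shell_family_cont hP, rfl, rfl,
    ⟨Real.exp 1, fun t _ x hx => (shell_norm hx.le).2⟩, ?_⟩
  intro t ht x h0
  have hx : x ≠ 0 := (shell_le_iff.1 h0.le).1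
  have hn : ‖x‖ ^ 2 ≠ 0 := pow_ne_zero _ (norm_ne_zero_iff.2 hx)
  set β : ℝ := if 0 < Real.log ‖x‖ then -1 else 1 with hβ
  have hu : ∃ u, ⟪x, u⟫ = β ∧ (P t x = 0 → Desc P (𝓝[Icc 0 1] t) x u) := by
    by_cases h1 : P t x = 0
    · obtain ⟨u, h2, h3⟩ := hd t ht x hx h1 β
      exact ⟨u, h2, fun _ => h3⟩
    · refine ⟨(β / ‖x‖ ^ 2) • x, ?_, fun h => absurd h h1⟩
      rw [inner_smul_right, real_inner_self_eq_norm_sq, div_mul_cancel₀ _ hn]
  obtain ⟨u, hu1, hu2⟩ := hu
  refine ⟨u, desc_shell hx (hP t x hx) h0 hu2 fun h1 => desc1_log ?_ ?_ ?_⟩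
  · intro h2
    rw [h2, abs_zero] at h1
    exact zero_ne_one h1
  · intro h2
    rw [hu1, hβ, if_pos h2]
    norm_num
  · intro h2
    rw [hu1, hβ, if_neg (not_lt.2 h2.le)]
    norm_num

/-- Two shells whose functions have the same signs and agree near their zeros. -/
theorem shell_congr_hom (hψ : ContinuousOn ψ {0}ᶜ) (hψ' : ContinuousOn ψ' {0}ᶜ)
    (hg : Good (shell ψ))
    (hd : ∀ x, x ≠ 0 → ψ x = 0 ∨ ψ' x = 0 → ∀ᶠ y in 𝓝 x, ψ y = ψ' y)
    (hs : ∀ x, x ≠ 0 → ψ x ≠ 0 → ψ' x ≠ 0 → 0 < ψ x * ψ' x) : Hom (shell ψ) (shell ψ') := by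
  have key : ∀ x, x ≠ 0 → (ψ x = 0 ∧ ψ' x = 0 ∧ ∀ᶠ y in 𝓝 x, ψ y = ψ' y) ∨
      (ψ x < 0 ∧ ψ' x < 0) ∨ (0 < ψ x ∧ 0 < ψ' x) := by
    intro x hx
    by_cases h : ψ x = 0 ∨ ψ' x = 0
    · have h1 := hd x hx h
      have h2 : ψ x = ψ' x := h1.self_of_nhds
      rcases h with h | h
      · exact Or.inl ⟨h, h2 ▸ h, h1⟩
      · exact Or.inl ⟨h2.trans h, h, h1⟩
    · rw [not_or] at h
      rcases mul_pos_iff.1 (hs x hx h.1 h.2) with h1 | h1
      · exact Or.inr (Or.inr h1)
      · exact Or.inr (Or.inl h1)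
  have hle : ∀ x, shell ψ x ≤ 0 ↔ shell ψ' x ≤ 0 := by
    intro x
    rw [shell_le_iff, shell_le_iff]
    constructor
    · rintro ⟨h1, h2, h3⟩
      refine ⟨h1, ?_, h3⟩
      rcases key x h1 with h | h | h
      · exact h.2.1.le
      · exact h.2.le
      · linarith [h.1]
    · rintro ⟨h1, h2, h3⟩
      refine ⟨h1, ?_, h3⟩
      rcases key x h1 with h | h | h
      · exact h.1.le
      · exact h.1.le
      · linarith [h.2]
  have hlt : ∀ x, shell ψ x < 0 ↔ shell ψ' x < 0 := by
    intro x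
    rw [shell_lt_iff, shell_lt_iff]
    constructor
    · rintro ⟨h1, h2, h3⟩
      refine ⟨h1, ?_, h3⟩
      rcases key x h1 with h | h | h
      · linarith [h.1]
      · exact h.2
      · linarith [h.1]
    · rintro ⟨h1, h2, h3⟩
      refine ⟨h1, ?_, h3⟩
      rcases key x h1 with h | h | h
      · linarith [h.2.1]
      · exact h.1
      · linarith [h.2]
  refine Hom.of_eq_near hg (shell_continuous hψ') hlt hle ?_
  intro x h0
  have hx : x ≠ 0 := (shell_le_iff.1 h0.le).1
  have hne : ∀ᶠ y in 𝓝 x, y ≠ 0 := isOpen_compl_singleton.mem_nhds hx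
  rcases key x hx with h | h | h
  · filter_upwards [h.2.2, hne] with y hy hy'
    rw [shell_apply _ hy', shell_apply _ hy', hy]
  · have h1 : |Real.log ‖x‖| - 1 = 0 := by
      have h2 := shell_le_iff.1 h0.le
      have h3 : ¬ shell ψ x < 0 := by linarith
      rw [shell_lt_iff] at h3
      have h4 : ¬ |Real.log ‖x‖| < 1 := fun h5 => h3 ⟨hx, h.1, h5⟩
      linarith [h2.2.2, not_lt.1 h4]
    have hL : ContinuousAt (fun y : V => |Real.log ‖y‖| - 1) x := by
      have h5 : ContinuousAt (fun y : V => ‖y‖) x := by fun_prop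
      exact (h5.log (norm_ne_zero_iff.2 hx)).abs.sub continuousAt_const
    have hc : ContinuousAt ψ x := hψ.continuousAt (isOpen_compl_singleton.mem_nhds hx)
    have hc' : ContinuousAt ψ' x := hψ'.continuousAt (isOpen_compl_singleton.mem_nhds hx)
    filter_upwards [hc.eventually_lt hL (by rw [h1]; exact h.1),
      hc'.eventually_lt hL (by rw [h1]; exact h.2), hne] with y h2 h3 h4
    rw [shell_apply _ h4, shell_apply _ h4, max_eq_right h2.le, max_eq_right h3.le]
  · exact absurd (shell_le_iff.1 h0.le).2.1 (not_le.2 h.1)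

/-- A body which is star-shaped in the sense of descent directions is a ball. -/
theorem isBall_star {f : V → ℝ} (hf : Continuous f) {o : V} (ho : f o < 0)
    (hb : Bornology.IsBounded {x | f x ≤ 0}) (hd : ∀ x, f x = 0 → Desc1 f x (o - x)) :
    IsBall f := by
  obtain ⟨R0, hR0⟩ := hb.exists_norm_le
  have hR0' : ∀ x, f x ≤ 0 → ‖x‖ ≤ R0 := fun x hx => hR0 x hx
  set R : ℝ := R0 + ‖o‖ + 1 with hR
  have hR0n : 0 ≤ R0 := (norm_nonneg o).trans (hR0' o ho.le)
  have hRp : 0 < R := by positivity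
  have hin : ∀ x, f x ≤ 0 → ‖x - o‖ ^ 2 < R ^ 2 := by
    intro x hx
    have h1 : ‖x - o‖ ≤ ‖x‖ + ‖o‖ := norm_sub_le x o
    have h2 := hR0' x hx
    have h3 : ‖x - o‖ < R := by
      rw [hR]
      linarith
    exact pow_lt_pow_left₀ h3 (norm_nonneg _) two_ne_zero
  have hev : ∀ᶠ x in 𝓝 o, f x < 0 := hf.continuousAt.eventually_lt continuousAt_const ho
  obtain ⟨r0, hr0, hball⟩ := Metric.eventually_nhds_iff.1 hev
  set r : ℝ := min (r0 / 2) R with hr
  have hrp : 0 < r := lt_min (by positivity) hRp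
  have hrR : r ^ 2 ≤ R ^ 2 := pow_le_pow_left₀ hrp.le (min_le_right _ _) 2
  have hneg : ∀ x, ‖x - o‖ ^ 2 ≤ r ^ 2 → f x < 0 := by
    intro x hx
    apply hball
    rw [dist_eq_norm]
    have h1 : ‖x - o‖ ≤ r := (pow_le_pow_iff_left₀ (norm_nonneg _) hrp.le two_ne_zero).1 hx
    have h2 : r ≤ r0 / 2 := min_le_left _ _
    linarith
  have hq : ∀ x, 0 < ‖x - o‖ ^ 2 → Desc1 (fun y : V => ‖y - o‖ ^ 2) x (o - x) := by
    intro x hx
    have h1 : HasFDerivAt (fun y : V => ‖y - o‖ ^ 2) (2 • innerSL ℝ (x - o)) x := by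
      have h2 := (hasStrictFDerivAt_norm_sq (x - o)).hasFDerivAt
      exact HasFDerivAt.comp (g := fun z : V => ‖z‖ ^ 2) (f := fun y : V => y - o) x h2
        ((hasFDerivAt_id x).sub_const o)
    have h4 : ContDiffAt ℝ 1 (fun y : V => ‖y - o‖ ^ 2) x :=
      ((contDiff_id.sub contDiff_const).norm_sq ℝ).contDiffAt
    refine desc1_smooth h4 ?_
    rw [h1.fderiv]
    have h5 : o - x = -(x - o) := by abel
    rw [h5, map_neg]
    simp only [ContinuousLinearMap.smul_apply, innerSL_apply_apply, real_inner_self_eq_norm_sq]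
    rw [two_nsmul]
    linarith
  have hgf : Good f := ⟨hf, hb.subset fun x hx => le_of_eq hx, fun x hx => ⟨_, hd x hx⟩⟩
  have h1 : Hom f (fun x => max (f x) (‖x - o‖ ^ 2 - R ^ 2)) := by
    refine Hom.of_eq_near hgf (hf.max (by fun_prop)) ?_ ?_ ?_
    · intro x
      constructor
      · intro h
        exact max_lt h (by linarith [hin x h.le])
      · intro h
        exact (le_max_left _ _).trans_lt h
    · intro x
      constructor
      · intro h
        exact max_le h (by linarith [hin x h])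
      · intro h
        exact (le_max_left _ _).trans h
    · intro x h
      have h2 : ‖x - o‖ ^ 2 - R ^ 2 < f x := by
        rw [h]
        linarith [hin x h.le]
      have hc : Continuous fun y : V => ‖y - o‖ ^ 2 - R ^ 2 := by fun_prop
      filter_upwards [hc.continuousAt.eventually_lt hf.continuousAt h2] with y hy
      exact (max_eq_left hy.le).symm
  have hgb : Good (fun x : V => ‖x - o‖ ^ 2 - r ^ 2) := (hom_balls o o hrp hrp).good_left
  have h2 : Hom (fun x : V => ‖x - o‖ ^ 2 - r ^ 2) (fun x => max (f x) (‖x - o‖ ^ 2 - r ^ 2)) := by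
    refine Hom.of_eq_near hgb (hf.max (by fun_prop)) ?_ ?_ ?_
    · intro x
      constructor
      · intro h
        exact max_lt (hneg x (by linarith)) h
      · intro h
        exact (le_max_right _ _).trans_lt h
    · intro x
      constructor
      · intro h
        exact max_le (hneg x (by linarith)).le h
      · intro h
        exact (le_max_right _ _).trans h
    · intro x h
      have h3 : f x < ‖x - o‖ ^ 2 - r ^ 2 := by
        rw [h]
        exact hneg x (by linarith)
      have hc : Continuous fun y : V => ‖y - o‖ ^ 2 - r ^ 2 := by fun_prop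
      filter_upwards [hf.continuousAt.eventually_lt hc.continuousAt h3] with y hy
      exact (max_eq_right hy.le).symm
  have h3 : Hom (fun x => max (f x) (‖x - o‖ ^ 2 - r ^ 2))
      (fun x => max (f x) (‖x - o‖ ^ 2 - R ^ 2)) := by
    have hcf : Continuous fun p : ℝ × V => f p.2 := hf.comp continuous_snd
    have hcq : Continuous fun p : ℝ × V => ‖p.2 - o‖ ^ 2 - p.1 := by fun_prop
    refine Hom.of_family (a := r ^ 2) (b := R ^ 2) hrR
      (fun s x => max (f x) (‖x - o‖ ^ 2 - s)) (hcf.max hcq).continuousOn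
      ⟨R0, fun s _ x hx => hR0' x ((le_max_left _ _).trans hx.le)⟩ ?_
    intro s hs x hx
    have hs0 : 0 < s := (pow_pos hrp 2).trans_le hs.1
    have hl : 𝓝[Icc (r ^ 2) (R ^ 2)] s ×ˢ 𝓝 x ≤ 𝓝 ((s, x) : ℝ × V) := by
      rw [nhds_prod_eq]
      exact Filter.prod_mono nhdsWithin_le_nhds le_rfl
    refine ⟨o - x, ?_⟩
    have hqs : ‖x - o‖ ^ 2 - s = 0 →
        Desc (fun (s : ℝ) (y : V) => ‖y - o‖ ^ 2 + -s) (𝓝[Icc (r ^ 2) (R ^ 2)] s) x (o - x) := by
      intro h
      exact desc_add_const ((hq x (by linarith)).const _) (fun s => -s)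
    have hqs' : ‖x - o‖ ^ 2 - s = 0 →
        Desc (fun (s : ℝ) (y : V) => ‖y - o‖ ^ 2 - s) (𝓝[Icc (r ^ 2) (R ^ 2)] s) x (o - x) := by
      intro h
      simpa only [sub_eq_add_neg] using hqs h
    change max (f x) (‖x - o‖ ^ 2 - s) = 0 at hx
    have h4 : f x ≤ 0 := hx ▸ le_max_left _ _
    have h5 : ‖x - o‖ ^ 2 - s ≤ 0 := hx ▸ le_max_right _ _
    rcases eq_or_lt_of_le h4 with h6 | h6
    · rcases eq_or_lt_of_le h5 with h7 | h7
      · exact desc_max (H := fun _ => f) (K := fun s y => ‖y - o‖ ^ 2 - s)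
          ((hd x h6).const _) (hqs' h7)
      · refine desc_max_left (H := fun _ => f) (K := fun s y => ‖y - o‖ ^ 2 - s)
          ((hd x h6).const _) ?_
        apply hl
        have h8 : (fun p : ℝ × V => ‖p.2 - o‖ ^ 2 - p.1) (s, x) < (fun p : ℝ × V => f p.2) (s, x) := by
          show ‖x - o‖ ^ 2 - s < f x
          rw [h6]
          exact h7
        filter_upwards [hcq.continuousAt.eventually_lt hcf.continuousAt h8] with p hp
        exact hp.le
    · have h7 : ‖x - o‖ ^ 2 - s = 0 := by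
        rcases max_choice (f x) (‖x - o‖ ^ 2 - s) with h | h
        · rw [h] at hx
          linarith
        · rw [h] at hx
          exact hx
      refine desc_max_right (H := fun _ => f) (K := fun s y => ‖y - o‖ ^ 2 - s) (hqs' h7) ?_
      apply hl
      have h8 : (fun p : ℝ × V => f p.2) (s, x) < (fun p : ℝ × V => ‖p.2 - o‖ ^ 2 - p.1) (s, x) := by
        show f x < ‖x - o‖ ^ 2 - s
        rw [h7]
        exact h6
      filter_upwards [hcf.continuousAt.eventually_lt hcq.continuousAt h8] with p hp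
      exact hp.le
  have h4 := hom_balls o (0 : V) hrp one_pos
  have h5 : Hom f (fun x => ‖x - 0‖ ^ 2 - 1 ^ 2) := ((h1.trans h3.symm).trans h2.symm).trans h4
  simpa [IsBall] using h5

end Pool.Schoen
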