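import Pool.Agent.H.MP_6c077c_gt.Hx.Chart
import Pool.Agent.H.MP_6c077c_gt.Stereo
import Pool.Agent.H.MP_6c077c_gt.CG.Defining

/-! Hexasecant theorem: topology of the body and of the outside in the chart (helper49). -/

set_option autoImplicit false
set_option linter.unusedSectionVars false

namespace Pool.Schoen

open Filter Set Metric
open scoped Topology RealInnerProductSpace ContDiff

variable {V : Type*} [NormedAddCommGroup V] [InnerProductSpace ℝ V]

private theorem ChartTop_le_iff {psi : V → ℝ} {x : V} :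
    shell psi x ≤ 0 ↔ x ≠ 0 ∧ psi x ≤ 0 ∧ |Real.log ‖x‖| ≤ 1 := by
  unfold shell
  by_cases hx : x = 0
  · simp only [hx, if_true, ne_eq, not_true_eq_false, false_and, iff_false, not_le]
    exact one_pos
  · rw [if_neg hx, min_le_iff, max_le_iff]
    constructor
    · rintro (h | h)
      · linarith
      · exact ⟨hx, h.1, by linarith [h.2]⟩
    · rintro ⟨_, h1, h2⟩
      exact Or.inr ⟨h1, by linarith⟩

private theorem ChartTop_nonneg_iff {psi : V → ℝ} {x : V} :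
    0 ≤ shell psi x ↔ x = 0 ∨ 0 ≤ psi x ∨ 1 ≤ |Real.log ‖x‖| := by
  unfold shell
  by_cases hx : x = 0
  · simp [hx]
  · rw [if_neg hx, le_min_iff, le_max_iff]
    constructor
    · rintro ⟨_, h | h⟩
      · exact Or.inr (Or.inl h)
      · exact Or.inr (Or.inr (by linarith))
    · rintro (h | h | h)
      · exact absurd h hx
      · exact ⟨zero_le_one, Or.inl h⟩
      · exact ⟨zero_le_one, Or.inr (by linarith)⟩

variable [FiniteDimensional ℝ V] {v0 : V} {psi : V → ℝ}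

/-- A point on the ray of `v0`. -/
private theorem ChartTop_ray (hv0 : ‖v0‖ = 1) (hdeg : ∀ (s : ℝ) (x : V), 0 < s → psi (s • x) = psi x)
    {x : V} (hx : x ≠ 0) (h : ‖x‖ = ⟪v0, x⟫) : psi x = psi v0 := by
  have h1 : ⟪v0, x⟫ = ‖v0‖ * ‖x‖ := by rw [hv0, one_mul, h]
  have h2 := inner_eq_norm_mul_iff_real.1 h1
  rw [hv0, one_smul] at h2
  have hv : v0 ≠ 0 := by
    intro h0
    rw [h0, norm_zero] at hv0
    exact zero_ne_one hv0
  rw [← h2, hdeg _ _ (norm_pos_iff.2 hx)]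

private theorem ChartTop_ne (hv0 : ‖v0‖ = 1) (hdeg : ∀ (s : ℝ) (x : V), 0 < s → psi (s • x) = psi x)
    (hpos : 0 < psi v0) {x : V} (hx : x ≠ 0) (h : psi x ≤ 0) : ‖x‖ ≠ ⟪v0, x⟫ := by
  intro h1
  rw [ChartTop_ray hv0 hdeg hx h1] at h
  linarith

private theorem ChartTop_TS (hv0 : ‖v0‖ = 1) (hdeg : ∀ (s : ℝ) (x : V), 0 < s → psi (s • x) = psi x)
    {x : V} (hx : x ≠ 0) (h : ‖x‖ ≠ ⟪v0, x⟫) : psi (stereo_T v0 (stereo_S v0 x)) = psi x := by
  have h1 := stereo_TS hv0 hx h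
  have h2 : stereo_T v0 (stereo_S v0 x) ≠ 0 := by
    intro h3
    have h4 := stereo_norm_T hv0 (stereo_S v0 x)
    rw [h3, norm_zero] at h4
    exact zero_ne_one h4
  conv_rhs => rw [← h1]
  rw [hdeg _ _ (norm_pos_iff.2 hx)]

private theorem ChartTop_T_mem (hv0 : ‖v0‖ = 1) {y : (ℝ ∙ v0)ᗮ} (h : psi (stereo_T v0 y) ≤ 0) :
    shell psi (stereo_T v0 y) ≤ 0 := by
  have h1 := stereo_norm_T hv0 y
  rw [ChartTop_le_iff]
  refine ⟨?_, h, ?_⟩
  · intro h3
    rw [h3, norm_zero] at h1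
    exact zero_ne_one h1
  · rw [h1, Real.log_one, abs_zero]
    exact zero_le_one

private theorem ChartTop_S_mem (hv0 : ‖v0‖ = 1)
    (hdeg : ∀ (s : ℝ) (x : V), 0 < s → psi (s • x) = psi x)
    (hpos : 0 < psi v0) {x : V} (h : shell psi x ≤ 0) :
    psi (stereo_T v0 (stereo_S v0 x)) ≤ 0 ∧ ContinuousAt (stereo_S v0) x := by
  obtain ⟨h1, h2, _⟩ := ChartTop_le_iff.1 h
  have h4 := ChartTop_ne hv0 hdeg hpos h1 h2
  exact ⟨by rw [ChartTop_TS hv0 hdeg h1 h4]; exact h2, (stereo_contDiffAt_S h1 h4).continuousAt⟩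

private theorem ChartTop_conn (hv0 : ‖v0‖ = 1) (hdeg : ∀ (s : ℝ) (x : V), 0 < s → psi (s • x) = psi x)
    (hpos : 0 < psi v0) (hc : IsConnected {x | shell psi x ≤ 0}) :
    IsConnected {y : (ℝ ∙ v0)ᗮ | psi (stereo_T v0 y) ≤ 0} := by
  have h1 : {y : (ℝ ∙ v0)ᗮ | psi (stereo_T v0 y) ≤ 0} = stereo_S v0 '' {x | shell psi x ≤ 0} := by
    ext y
    constructor
    · intro hy
      exact ⟨stereo_T v0 y, ChartTop_T_mem hv0 hy, stereo_ST hv0 y⟩
    · rintro ⟨x, hx, rfl⟩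
      exact (ChartTop_S_mem hv0 hdeg hpos hx).1
  rw [h1]
  exact hc.image _ fun x hx => (ChartTop_S_mem hv0 hdeg hpos hx).2.continuousWithinAt

private theorem ChartTop_lift (hv0 : ‖v0‖ = 1) (hdeg : ∀ (s : ℝ) (x : V), 0 < s → psi (s • x) = psi x)
    (hpos : 0 < psi v0) (hl : LiftS {x | shell psi x ≤ 0}) :
    LiftS {y : (ℝ ∙ v0)ᗮ | psi (stereo_T v0 y) ≤ 0} := by
  intro u hu hu1
  obtain ⟨v, hv, huv⟩ := hl (fun x => u (stereo_S v0 x)) (by
      intro x hx
      obtain ⟨h1, h2⟩ := ChartTop_S_mem hv0 hdeg hpos hx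
      exact (hu _ h1).comp h2.continuousWithinAt fun z hz => (ChartTop_S_mem hv0 hdeg hpos hz).1)
    (fun x hx => hu1 _ (ChartTop_S_mem hv0 hdeg hpos hx).1)
  refine ⟨fun y => v (stereo_T v0 y), ?_, ?_⟩
  · exact hv.comp (stereo_contDiff_T.continuous.continuousOn) fun y hy => ChartTop_T_mem hv0 hy
  · intro y hy
    have h1 := huv _ (ChartTop_T_mem hv0 hy)
    rw [stereo_ST hv0] at h1
    exact h1

/-- A continuous function with values in `2 π ℤ` is constant on a preconnected set. -/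
private theorem ChartTop_const {Y : Type*} [TopologicalSpace Y] {A : Set Y} (hA : IsPreconnected A)
    {f : Y → ℝ} (hf : ContinuousOn f A)
    (h1 : ∀ x ∈ A, Complex.exp (f x * Complex.I) = 1) : ∀ x ∈ A, ∀ x' ∈ A, f x ≤ f x' := by
  intro x hx x' hx'
  by_contra hlt
  push Not at hlt
  have key : ∀ x ∈ A, ∃ n : ℤ, f x = n * (2 * Real.pi) := by
    intro x hx
    obtain ⟨n, hn⟩ := Complex.exp_eq_one_iff.1 (h1 x hx)
    refine ⟨n, ?_⟩
    have h2 : ((f x : ℂ)) * Complex.I = ((n * (2 * Real.pi) : ℝ) : ℂ) * Complex.I := by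
      rw [hn]
      push_cast
      ring
    have h3 := mul_right_cancel₀ Complex.I_ne_zero h2
    exact_mod_cast h3
  obtain ⟨n, hn⟩ := key x hx
  obtain ⟨m, hm⟩ := key x' hx'
  have hpi := Real.pi_pos
  have hmn : m < n := by
    have : (m : ℝ) * (2 * Real.pi) < n * (2 * Real.pi) := by rw [← hn, ← hm]; exact hlt
    have := lt_of_mul_lt_mul_right this (by positivity)
    exact_mod_cast this
  have hle : (m : ℝ) + 1 ≤ n := by exact_mod_cast hmn
  have hmem : f x' + Real.pi ∈ f '' A := by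
    have hord := (hA.image f hf).ordConnected
    refine hord.out (mem_image_of_mem f hx') (mem_image_of_mem f hx) ⟨by linarith, ?_⟩
    rw [hn, hm]
    nlinarith
  obtain ⟨y, hy, hfy⟩ := hmem
  obtain ⟨k, hk⟩ := key y hy
  rw [hk, hm] at hfy
  have h4 : ((k - m : ℤ) : ℝ) * 2 = 1 := by
    push_cast
    have : ((k : ℝ) - m) * (2 * Real.pi) = Real.pi := by linarith
    field_simp at this
    linarith
  have h5 : (k - m) * 2 = 1 := by exact_mod_cast h4
  omega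

private theorem ChartTop_const' {Y : Type*} [TopologicalSpace Y] {A : Set Y}
    (hA : IsPreconnected A) {f : Y → ℝ} (hf : ContinuousOn f A)
    (h1 : ∀ x ∈ A, Complex.exp (f x * Complex.I) = 1) {x x' : Y} (hx : x ∈ A) (hx' : x' ∈ A) :
    f x = f x' :=
  le_antisymm (ChartTop_const hA hf h1 x hx x' hx') (ChartTop_const hA hf h1 x' hx' x hx)

/-- The angle: `0` for `‖x‖ ≤ e⁻¹`, `2 π` for `e ≤ ‖x‖`. -/
private noncomputable def ChartTop_ang (x : V) : ℝ :=
  Real.pi * (1 + min 1 (Real.log (max ‖x‖ (Real.exp (-1)))))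

omit [InnerProductSpace ℝ V] [FiniteDimensional ℝ V] in
private theorem ChartTop_ang_cont : Continuous (ChartTop_ang (V := V)) := by
  unfold ChartTop_ang
  refine continuous_const.mul (continuous_const.add (continuous_const.min ?_))
  refine Continuous.log (continuous_norm.max continuous_const) fun x => ?_
  exact (lt_of_lt_of_le (Real.exp_pos (-1)) (le_max_right _ _)).ne'

omit [InnerProductSpace ℝ V] [FiniteDimensional ℝ V] in
private theorem ChartTop_ang_in {x : V} (hx : ‖x‖ ≤ Real.exp (-1)) : ChartTop_ang x = 0 := by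
  unfold ChartTop_ang
  rw [max_eq_right hx, Real.log_exp, min_eq_right (by norm_num)]
  ring

omit [InnerProductSpace ℝ V] [FiniteDimensional ℝ V] in
private theorem ChartTop_ang_out {x : V} (hx : Real.exp 1 ≤ ‖x‖) :
    ChartTop_ang x = 2 * Real.pi := by
  unfold ChartTop_ang
  have h1 : Real.exp (-1) ≤ ‖x‖ := (Real.exp_le_exp.2 (by norm_num)).trans hx
  rw [max_eq_left h1, min_eq_left]
  · ring
  · rw [Real.le_log_iff_exp_le (lt_of_lt_of_le (Real.exp_pos 1) hx)]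
    exact hx

private theorem ChartTop_exp_two : Complex.exp (((2 * Real.pi : ℝ) : ℂ) * Complex.I) = 1 := by
  push_cast
  exact Complex.exp_two_pi_mul_I

omit [InnerProductSpace ℝ V] [FiniteDimensional ℝ V] in
/-- Where the logarithm is at least one in absolute value the factor is `1`. -/
private theorem ChartTop_exp_ang {x : V} (hx : x = 0 ∨ 1 ≤ |Real.log ‖x‖|) :
    Complex.exp ((ChartTop_ang x : ℂ) * Complex.I) = 1 := by
  rcases eq_or_ne x 0 with h | h
  · rw [ChartTop_ang_in (by rw [h, norm_zero]; exact (Real.exp_pos _).le)]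
    simp
  · have h1 : 1 ≤ |Real.log ‖x‖| := hx.resolve_left h
    have h2 : 0 < ‖x‖ := norm_pos_iff.2 h
    rcases le_abs.1 h1 with h3 | h3
    · rw [ChartTop_ang_out ((Real.le_log_iff_exp_le h2).1 h3)]
      exact ChartTop_exp_two
    · rw [ChartTop_ang_in ((Real.log_le_iff_le_exp h2).1 (by linarith))]
      simp

/-- Far points of the chart are near `v0`. -/
private theorem ChartTop_far (hv0 : ‖v0‖ = 1) (hcont : ContinuousOn psi {0}ᶜ) (hpos : 0 < psi v0) :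
    ∃ R : ℝ, 0 ≤ R ∧ ∀ y : (ℝ ∙ v0)ᗮ, R < ‖y‖ → 0 < psi (stereo_T v0 y) := by
  have hv : v0 ≠ 0 := by
    intro h0
    rw [h0, norm_zero] at hv0
    exact zero_ne_one hv0
  have h1 : ContinuousAt psi v0 := hcont.continuousAt (isOpen_compl_singleton.mem_nhds hv)
  obtain ⟨d, hd, h2⟩ := Metric.eventually_nhds_iff.1 (h1.eventually_const_lt hpos)
  refine ⟨4 / d, by positivity, fun y hy => h2 ?_⟩
  have h3 := stereo_T_dist hv0 y
  rw [dist_eq_norm]
  have h4 : 4 < ‖y‖ * d := by rwa [div_lt_iff₀ hd] at hy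
  by_contra h5
  push Not at h5
  have h6 : d ^ 2 ≤ ‖stereo_T v0 y - v0‖ ^ 2 := pow_le_pow_left₀ hd.le h5 2
  have h7 : d ^ 2 * (‖y‖ ^ 2 + 4) ≤ 16 := by
    rw [← h3]
    exact mul_le_mul_of_nonneg_right h6 (by positivity)
  nlinarith [norm_nonneg y]

/-- Near a point of the ray of `v0` the chart is far out. -/
private theorem ChartTop_near_ray (hv0 : ‖v0‖ = 1) {x₀ : V} (hx₀ : x₀ ≠ 0) (h : ‖x₀‖ = ⟪v0, x₀⟫) (R : ℝ) :
    ∀ᶠ x in 𝓝 x₀, ‖x‖ = ⟪v0, x⟫ ∨ R < ‖stereo_S v0 x‖ := by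
  have hp : 0 < ‖x₀‖ := norm_pos_iff.2 hx₀
  have h1 : Continuous fun x : V => (R ^ 2) * (‖x‖ - ⟪v0, x⟫) := by fun_prop
  have h2 : Continuous fun x : V => 4 * (‖x‖ + ⟪v0, x⟫) := by fun_prop
  have h3 : ∀ᶠ x in 𝓝 x₀, (R ^ 2) * (‖x‖ - ⟪v0, x⟫) < 4 * (‖x‖ + ⟪v0, x⟫) := by
    refine h1.continuousAt.eventually_lt h2.continuousAt ?_
    rw [← h, sub_self, mul_zero]
    linarith
  filter_upwards [h3, isOpen_compl_singleton.mem_nhds hx₀] with x hx hx0
  by_cases h4 : ‖x‖ = ⟪v0, x⟫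
  · exact Or.inl h4
  · right
    have h5 := stereo_norm_S hv0 hx0 h4
    rw [← h5] at hx
    have h6 : 0 < ‖x‖ - ⟪v0, x⟫ := by
      have h7 := real_inner_le_norm v0 x
      rw [hv0, one_mul] at h7
      exact sub_pos.2 (lt_of_le_of_ne h7 (Ne.symm h4))
    have h7 : R ^ 2 < ‖stereo_S v0 x‖ ^ 2 := lt_of_mul_lt_mul_right hx h6.le
    by_contra h8
    push Not at h8
    have h9 := pow_le_pow_left₀ (norm_nonneg _) h8 2
    linarith

open Classical in
/-- The map to the circle. -/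
private noncomputable def ChartTop_u (v0 : V) (A : Set (ℝ ∙ v0)ᗮ) (x : V) : ℂ :=
  if ‖x‖ ≠ ⟪v0, x⟫ ∧ stereo_S v0 x ∈ A then Complex.exp ((ChartTop_ang x : ℂ) * Complex.I) else 1

private theorem ChartTop_u_cont (hv0 : ‖v0‖ = 1)
    (hdeg : ∀ (s : ℝ) (x : V), 0 < s → psi (s • x) = psi x)
    {R : ℝ} {A B : Set (ℝ ∙ v0)ᗮ} (hA : IsClosed A) (hB : IsClosed B)
    (hAB : {y : (ℝ ∙ v0)ᗮ | 0 ≤ psi (stereo_T v0 y)} ⊆ A ∪ B)
    (hd : {y : (ℝ ∙ v0)ᗮ | 0 ≤ psi (stereo_T v0 y)} ∩ (A ∩ B) = ∅)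
    (hfar : ∀ y : (ℝ ∙ v0)ᗮ, R < ‖y‖ → y ∈ B) (ρ : ℝ) :
    ContinuousOn (ChartTop_u v0 A) {x | 0 ≤ shell psi x ∧ ‖x‖ ≤ ρ} := by
  classical
  have hangc : Continuous fun x : V => Complex.exp ((ChartTop_ang x : ℂ) * Complex.I) :=
    Complex.continuous_exp.comp
      ((Complex.continuous_ofReal.comp ChartTop_ang_cont).mul continuous_const)
  intro x₀ hx₀
  by_cases h1 : x₀ = 0 ∨ 1 ≤ |Real.log ‖x₀‖|
  · have h2 := ChartTop_exp_ang h1
    have h3 : ChartTop_u v0 A x₀ = 1 := by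
      unfold ChartTop_u
      rw [h2]
      exact ite_self _
    unfold ContinuousWithinAt
    rw [h3]
    have h4 : Tendsto (fun x : V => Complex.exp ((ChartTop_ang x : ℂ) * Complex.I))
        (𝓝[{x | 0 ≤ shell psi x ∧ ‖x‖ ≤ ρ}] x₀) (𝓝 1) := by
      have h5 := hangc.tendsto x₀
      rw [h2] at h5
      exact h5.mono_left nhdsWithin_le_nhds
    exact Tendsto.if' h4 tendsto_const_nhds
  · push Not at h1
    obtain ⟨hx0, hlog⟩ := h1
    -- the points near `x₀`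
    have hev0 : ∀ᶠ x in 𝓝 x₀, x ≠ 0 := isOpen_compl_singleton.mem_nhds hx0
    have hlogc : ContinuousAt (fun x : V => |Real.log ‖x‖|) x₀ :=
      (continuous_norm.continuousAt.log (norm_ne_zero_iff.2 hx0)).abs
    have hev1 : ∀ᶠ x in 𝓝 x₀, |Real.log ‖x‖| < 1 := hlogc.eventually_lt_const hlog
    have hev2 : ∀ᶠ x in 𝓝[{x | 0 ≤ shell psi x ∧ ‖x‖ ≤ ρ}] x₀, x ≠ 0 ∧ 0 ≤ psi x := by
      filter_upwards [self_mem_nhdsWithin, nhdsWithin_le_nhds hev0, nhdsWithin_le_nhds hev1]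
        with x hx h2 h3
      refine ⟨h2, ?_⟩
      rcases ChartTop_nonneg_iff.1 hx.1 with h4 | h4 | h4
      · exact absurd h4 h2
      · exact h4
      · linarith
    have hpsi0 : 0 ≤ psi x₀ := by
      rcases ChartTop_nonneg_iff.1 hx₀.1 with h4 | h4 | h4
      · exact absurd h4 hx0
      · exact h4
      · linarith
    by_cases hray : ‖x₀‖ = ⟪v0, x₀⟫
    · -- on the ray
      have h2 : ∀ᶠ x in 𝓝[{x | 0 ≤ shell psi x ∧ ‖x‖ ≤ ρ}] x₀,
          ¬ (‖x‖ ≠ ⟪v0, x⟫ ∧ stereo_S v0 x ∈ A) := by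
        filter_upwards [hev2, nhdsWithin_le_nhds (ChartTop_near_ray hv0 hx0 hray R)] with x h3 h4
        rintro ⟨h5, h6⟩
        rcases h4 with h4 | h4
        · exact h5 h4
        · have h7 := hfar _ h4
          have h8 : stereo_S v0 x ∈ {y : (ℝ ∙ v0)ᗮ | 0 ≤ psi (stereo_T v0 y)} ∩ (A ∩ B) := by
            refine ⟨?_, h6, h7⟩
            show 0 ≤ psi (stereo_T v0 (stereo_S v0 x))
            rw [ChartTop_TS hv0 hdeg h3.1 h5]
            exact h3.2
          rw [hd] at h8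
          exact h8
      have h3 : ChartTop_u v0 A x₀ = 1 := by
        unfold ChartTop_u
        rw [if_neg]
        rintro ⟨h5, _⟩
        exact h5 hray
      unfold ContinuousWithinAt
      rw [h3]
      refine tendsto_const_nhds.congr' ?_
      filter_upwards [h2] with x hx
      unfold ChartTop_u
      rw [if_neg hx]
    · have hSc : ContinuousAt (stereo_S v0) x₀ := (stereo_contDiffAt_S hx0 hray).continuousAt
      have hev3 : ∀ᶠ x in 𝓝 x₀, ‖x‖ ≠ ⟪v0, x⟫ := by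
        have h2 : ContinuousAt (fun x : V => ‖x‖) x₀ := continuous_norm.continuousAt
        have h3 : ContinuousAt (fun x : V => ⟪v0, x⟫) x₀ := by fun_prop
        exact h2.ne_iff_eventually_ne h3 |>.1 hray
      have hG : ∀ x, x ≠ 0 ∧ 0 ≤ psi x → ‖x‖ ≠ ⟪v0, x⟫ →
          stereo_S v0 x ∈ {y : (ℝ ∙ v0)ᗮ | 0 ≤ psi (stereo_T v0 y)} := by
        intro x h3 h5
        show 0 ≤ psi (stereo_T v0 (stereo_S v0 x))
        rw [ChartTop_TS hv0 hdeg h3.1 h5]
        exact h3.2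
      by_cases hSA : stereo_S v0 x₀ ∈ A
      · have hSB : stereo_S v0 x₀ ∉ B := by
          intro hSB
          have : stereo_S v0 x₀ ∈ {y : (ℝ ∙ v0)ᗮ | 0 ≤ psi (stereo_T v0 y)} ∩ (A ∩ B) :=
            ⟨hG x₀ ⟨hx0, hpsi0⟩ hray, hSA, hSB⟩
          rw [hd] at this
          exact this
        have hev4 : ∀ᶠ x in 𝓝 x₀, stereo_S v0 x ∉ B := hSc (hB.isOpen_compl.mem_nhds hSB)
        have h2 : ∀ᶠ x in 𝓝[{x | 0 ≤ shell psi x ∧ ‖x‖ ≤ ρ}] x₀,
            ‖x‖ ≠ ⟪v0, x⟫ ∧ stereo_S v0 x ∈ A := by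
          filter_upwards [hev2, nhdsWithin_le_nhds hev3, nhdsWithin_le_nhds hev4] with x h3 h4 h5
          refine ⟨h4, ?_⟩
          rcases hAB (hG x h3 h4) with h6 | h6
          · exact h6
          · exact absurd h6 h5
        have h3 : ChartTop_u v0 A x₀ = Complex.exp ((ChartTop_ang x₀ : ℂ) * Complex.I) := by
          unfold ChartTop_u
          rw [if_pos ⟨hray, hSA⟩]
        unfold ContinuousWithinAt
        rw [h3]
        refine ((hangc.tendsto x₀).mono_left nhdsWithin_le_nhds).congr' ?_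
        filter_upwards [h2] with x hx
        unfold ChartTop_u
        rw [if_pos hx]
      · have hev4 : ∀ᶠ x in 𝓝 x₀, stereo_S v0 x ∉ A := hSc (hA.isOpen_compl.mem_nhds hSA)
        have h3 : ChartTop_u v0 A x₀ = 1 := by
          unfold ChartTop_u
          rw [if_neg]
          rintro ⟨_, h5⟩
          exact hSA h5
        unfold ContinuousWithinAt
        rw [h3]
        refine tendsto_const_nhds.congr' ?_
        filter_upwards [nhdsWithin_le_nhds hev4] with x hx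
        unfold ChartTop_u
        rw [if_neg]
        rintro ⟨_, h5⟩
        exact hx h5

private theorem ChartTop_key (hdim : 2 ≤ Module.finrank ℝ V) (hv0 : ‖v0‖ = 1)
    (hdeg : ∀ (s : ℝ) (x : V), 0 < s → psi (s • x) = psi x)
    (hpos : 0 < psi v0) {ρ : ℝ} (hρ : 3 ≤ ρ)
    (hl : LiftS {x | 0 ≤ shell psi x ∧ ‖x‖ ≤ ρ})
    {R : ℝ} {A B : Set (ℝ ∙ v0)ᗮ} (hA : IsClosed A) (hB : IsClosed B)
    (hAB : {y : (ℝ ∙ v0)ᗮ | 0 ≤ psi (stereo_T v0 y)} ⊆ A ∪ B)
    (hd : {y : (ℝ ∙ v0)ᗮ | 0 ≤ psi (stereo_T v0 y)} ∩ (A ∩ B) = ∅)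
    (hfar : ∀ y : (ℝ ∙ v0)ᗮ, R < ‖y‖ → y ∈ B) :
    {y : (ℝ ∙ v0)ᗮ | 0 ≤ psi (stereo_T v0 y)} ⊆ B := by
  intro a ha
  rcases hAB ha with haA | haB
  swap
  · exact haB
  exfalso
  have he3 : Real.exp 1 < 3 := by
    have := Real.exp_one_lt_d9
    linarith
  have hv : v0 ≠ 0 := by
    intro h0
    rw [h0, norm_zero] at hv0
    exact zero_ne_one hv0
  have hcont := ChartTop_u_cont hv0 hdeg hA hB hAB hd hfar ρ
  obtain ⟨v, hvc, hv1⟩ := hl (ChartTop_u v0 A) hcont (by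
    intro x _
    unfold ChartTop_u
    split_ifs
    · exact Complex.norm_exp_ofReal_mul_I _
    · exact norm_one)
  -- where `u = 1`
  have hone : ∀ x : V, (x = 0 ∨ 1 ≤ |Real.log ‖x‖|) → ChartTop_u v0 A x = 1 := by
    intro x hx
    unfold ChartTop_u
    rw [ChartTop_exp_ang hx]
    exact ite_self _
  have hK1 : ∀ x : V, (x = 0 ∨ 1 ≤ |Real.log ‖x‖|) → ‖x‖ ≤ ρ → x ∈ {x | 0 ≤ shell psi x ∧ ‖x‖ ≤ ρ} := by
    intro x hx hxρ
    refine ⟨ChartTop_nonneg_iff.2 ?_, hxρ⟩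
    rcases hx with hx | hx
    · exact Or.inl hx
    · exact Or.inr (Or.inr hx)
  -- the inner ball
  have hin : ∀ x ∈ closedBall (0 : V) (Real.exp (-1)), x = 0 ∨ 1 ≤ |Real.log ‖x‖| := by
    intro x hx
    rw [mem_closedBall_zero_iff] at hx
    by_cases h0 : x = 0
    · exact Or.inl h0
    · right
      have h1 : Real.log ‖x‖ ≤ -1 := (Real.log_le_iff_le_exp (norm_pos_iff.2 h0)).2 hx
      rw [le_abs]
      right
      linarith
  have hinρ : ∀ x ∈ closedBall (0 : V) (Real.exp (-1)), ‖x‖ ≤ ρ := by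
    intro x hx
    rw [mem_closedBall_zero_iff] at hx
    have h1 : Real.exp (-1) ≤ Real.exp 1 := Real.exp_le_exp.2 (by norm_num)
    linarith
  have hcin : ∀ x ∈ closedBall (0 : V) (Real.exp (-1)), ∀ x' ∈ closedBall (0 : V) (Real.exp (-1)),
      v x = v x' := by
    intro x hx x' hx'
    refine ChartTop_const' (convex_closedBall (0 : V) (Real.exp (-1))).isPreconnected
      (hvc.mono fun z hz => hK1 z (hin z hz) (hinρ z hz)) ?_ hx hx'
    intro z hz
    rw [← hv1 z (hK1 z (hin z hz) (hinρ z hz)), hone z (hin z hz)]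
  -- the outer sphere
  have hout : ∀ x ∈ sphere (0 : V) (Real.exp 1), x = 0 ∨ 1 ≤ |Real.log ‖x‖| := by
    intro x hx
    rw [mem_sphere_zero_iff_norm] at hx
    right
    rw [hx, Real.log_exp, abs_one]
  have houtρ : ∀ x ∈ sphere (0 : V) (Real.exp 1), ‖x‖ ≤ ρ := by
    intro x hx
    rw [mem_sphere_zero_iff_norm] at hx
    linarith
  have hrank : 1 < Module.rank ℝ V := by
    rw [← Module.finrank_eq_rank]
    exact_mod_cast (by omega : 1 < Module.finrank ℝ V)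
  have hcout : ∀ x ∈ sphere (0 : V) (Real.exp 1), ∀ x' ∈ sphere (0 : V) (Real.exp 1),
      v x = v x' := by
    intro x hx x' hx'
    refine ChartTop_const' (isPreconnected_sphere hrank 0 (Real.exp 1))
      (hvc.mono fun z hz => hK1 z (hout z hz) (houtρ z hz)) ?_ hx hx'
    intro z hz
    rw [← hv1 z (hK1 z (hout z hz) (houtρ z hz)), hone z (hout z hz)]
  -- the two radial segments
  have hexp : Real.exp (-1) ≤ Real.exp 1 := Real.exp_le_exp.2 (by norm_num)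
  have hI : IsPreconnected (Icc (Real.exp (-1)) (Real.exp 1)) := isPreconnected_Icc
  have hrpos : ∀ r ∈ Icc (Real.exp (-1)) (Real.exp 1), 0 < r := fun r hr =>
    lt_of_lt_of_le (Real.exp_pos _) hr.1
  have hseg : ∀ w : V, ‖w‖ = 1 → 0 ≤ psi w → ∀ r ∈ Icc (Real.exp (-1)) (Real.exp 1),
      r • w ∈ {x | 0 ≤ shell psi x ∧ ‖x‖ ≤ ρ} := by
    intro w hw hpw r hr
    have hw0 : w ≠ 0 := by
      intro h0
      rw [h0, norm_zero] at hw
      exact zero_ne_one hw
    refine ⟨ChartTop_nonneg_iff.2 (Or.inr (Or.inl ?_)), ?_⟩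
    · rw [hdeg r w (hrpos r hr)]
      exact hpw
    · rw [norm_smul, hw, mul_one, Real.norm_of_nonneg (hrpos r hr).le]
      linarith [hr.2]
  have hsegc : ∀ w : V, ‖w‖ = 1 → 0 ≤ psi w →
      ContinuousOn (fun r : ℝ => v (r • w)) (Icc (Real.exp (-1)) (Real.exp 1)) := by
    intro w hw hpw
    exact hvc.comp (by fun_prop) fun r hr => hseg w hw hpw r hr
  have hl1 : Real.exp (-1) ∈ Icc (Real.exp (-1)) (Real.exp 1) := ⟨le_rfl, hexp⟩
  have hl2 : Real.exp 1 ∈ Icc (Real.exp (-1)) (Real.exp 1) := ⟨hexp, le_rfl⟩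
  have hends : ∀ w : V, ‖w‖ = 1 → Real.exp (-1) • w ∈ closedBall (0 : V) (Real.exp (-1)) ∧
      Real.exp 1 • w ∈ sphere (0 : V) (Real.exp 1) := by
    intro w hw
    constructor
    · rw [mem_closedBall_zero_iff, norm_smul, hw, mul_one, Real.norm_of_nonneg (Real.exp_pos _).le]
    · rw [mem_sphere_zero_iff_norm, norm_smul, hw, mul_one,
        Real.norm_of_nonneg (Real.exp_pos _).le]
  -- along `v0`
  have h1 : v (Real.exp (-1) • v0) = v (Real.exp 1 • v0) := by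
    refine ChartTop_const' hI (f := fun r : ℝ => v (r • v0)) (hsegc v0 hv0 hpos.le) ?_ hl1 hl2
    intro r hr
    rw [← hv1 _ (hseg v0 hv0 hpos.le r hr)]
    unfold ChartTop_u
    rw [if_neg]
    rintro ⟨h5, _⟩
    apply h5
    rw [norm_smul, hv0, mul_one, real_inner_smul_right, real_inner_self_eq_norm_sq, hv0,
      Real.norm_of_nonneg (hrpos r hr).le]
    ring
  -- along `a`
  have hTn := stereo_norm_T hv0 a
  have hTne := stereo_T_ne hv0 a
  have hTa : 0 ≤ psi (stereo_T v0 a) := ha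
  have h2 : v (Real.exp (-1) • stereo_T v0 a) - ChartTop_ang (Real.exp (-1) • stereo_T v0 a) =
      v (Real.exp 1 • stereo_T v0 a) - ChartTop_ang (Real.exp 1 • stereo_T v0 a) := by
    refine ChartTop_const' hI (f := fun r : ℝ => v (r • stereo_T v0 a) -
      ChartTop_ang (r • stereo_T v0 a)) ?_ ?_ hl1 hl2
    · refine (hsegc _ hTn hTa).sub ?_
      exact (ChartTop_ang_cont.comp (by fun_prop)).continuousOn
    · intro r hr
      have h3 := hv1 _ (hseg _ hTn hTa r hr)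
      unfold ChartTop_u at h3
      rw [if_pos] at h3
      · rw [Complex.ofReal_sub, sub_mul, Complex.exp_sub, ← h3, div_self (Complex.exp_ne_zero _)]
      · constructor
        · rw [norm_smul, real_inner_smul_right, Real.norm_of_nonneg (hrpos r hr).le]
          intro h4
          exact hTne (mul_left_cancel₀ (hrpos r hr).ne' h4)
        · rw [stereo_S_smul (hrpos r hr), stereo_ST hv0]
          exact haA
  have h3 : ChartTop_ang (Real.exp (-1) • stereo_T v0 a) = 0 := by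
    apply ChartTop_ang_in
    have := (hends _ hTn).1
    rwa [mem_closedBall_zero_iff] at this
  have h4 : ChartTop_ang (Real.exp 1 • stereo_T v0 a) = 2 * Real.pi := by
    apply ChartTop_ang_out
    have := (hends _ hTn).2
    rw [mem_sphere_zero_iff_norm] at this
    exact this.ge
  rw [h3, h4] at h2
  have h5 := hcin _ (hends _ hTn).1 _ (hends _ hv0).1
  have h6 := hcout _ (hends _ hTn).2 _ (hends _ hv0).2
  have := Real.pi_pos
  linarith

private theorem ChartTop_outer (hdim : 2 ≤ Module.finrank ℝ (ℝ ∙ v0)ᗮ) (hv0 : ‖v0‖ = 1)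
    (hdeg : ∀ (s : ℝ) (x : V), 0 < s → psi (s • x) = psi x)
    (hcont : ContinuousOn psi {0}ᶜ) (hpos : 0 < psi v0) {ρ : ℝ} (hρ : 3 ≤ ρ)
    (hl : LiftS {x | 0 ≤ shell psi x ∧ ‖x‖ ≤ ρ}) :
    IsPreconnected {y : (ℝ ∙ v0)ᗮ | 0 ≤ psi (stereo_T v0 y)} := by
  have hdim' : 2 ≤ Module.finrank ℝ V := hdim.trans (Submodule.finrank_le _)
  obtain ⟨R, hR, hfar⟩ := ChartTop_far hv0 hcont hpos
  have hpre : IsPreconnected {y : (ℝ ∙ v0)ᗮ | R < ‖y‖} := Defining_conn hdim hR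
  rw [isPreconnected_iff_subset_of_disjoint_closed]
  intro A B hA hB hAB hd
  have hsub : {y : (ℝ ∙ v0)ᗮ | R < ‖y‖} ⊆ {y : (ℝ ∙ v0)ᗮ | 0 ≤ psi (stereo_T v0 y)} :=
    fun y hy => (hfar y hy).le
  rcases isPreconnected_iff_subset_of_disjoint_closed.1 hpre A B hA hB (hsub.trans hAB) (by
    rw [Set.eq_empty_iff_forall_notMem]
    rintro y ⟨hy, hy'⟩
    have : y ∈ {y : (ℝ ∙ v0)ᗮ | 0 ≤ psi (stereo_T v0 y)} ∩ (A ∩ B) := ⟨hsub hy, hy'⟩
    rw [hd] at this
    exact this) with h | h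
  · left
    exact ChartTop_key hdim' hv0 hdeg hpos hρ hl hB hA (by rwa [Set.union_comm])
      (by rwa [Set.inter_comm B A]) fun y hy => h hy
  · right
    exact ChartTop_key hdim' hv0 hdeg hpos hρ hl hA hB hAB hd fun y hy => h hy

theorem chartf_conn (ψ : V → ℝ) (hψ : DegZero ψ) (v : V) (hv : ‖v‖ = 1) (hp : 0 < ψ v)
    (h : IsConnected {x | shell ψ x ≤ 0}) : IsConnected {y | chartf ψ v y ≤ 0} :=
  ChartTop_conn hv hψ.deg hp h

theorem chartf_lift (ψ : V → ℝ) (hψ : DegZero ψ) (v : V) (hv : ‖v‖ = 1) (hp : 0 < ψ v)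
    (h : LiftS {x | shell ψ x ≤ 0}) : LiftS {y | chartf ψ v y ≤ 0} :=
  ChartTop_lift hv hψ.deg hp h

theorem chartf_out (hdim : 3 ≤ Module.finrank ℝ V) (ψ : V → ℝ) (hψ : DegZero ψ) (v : V)
    (hv : ‖v‖ = 1) (hp : 0 < ψ v) (ρ : ℝ)
    (hρ : 3 ≤ ρ) (h : LiftS {x | 0 ≤ shell ψ x ∧ ‖x‖ ≤ ρ}) :
    IsPreconnected {y | 0 ≤ chartf ψ v y} := by
  have hv0 : v ≠ 0 := by
    intro h0
    rw [h0, norm_zero] at hv
    exact zero_ne_one hv
  have h1 : Module.finrank ℝ (ℝ ∙ v) = 1 := finrank_span_singleton hv0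
  have h2 := Submodule.finrank_add_finrank_orthogonal (ℝ ∙ v)
  exact ChartTop_outer (by omega) hv hψ.deg hψ.cont hp hρ h

end Pool.Schoen
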