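import Pool.Agent.H.MP_6c077c_gt.Hx.WinB

/-! Hexasecant theorem: minima over dilation windows when several minimum points have a common
descent direction. -/

set_option autoImplicit false

namespace Pool.Schoen

open Filter Set
open scoped Topology RealInnerProductSpace ContDiff

variable {V : Type*} [NormedAddCommGroup V] [InnerProductSpace ℝ V]

/-- The open ray from `o` in the direction `v` meets `{k ≤ 0}` in a segment with `k < 0` inside, or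
only in zeros which have one common descent direction. -/
def RayC (k : V → ℝ) (o v : V) : Prop :=
  RayNeg k o v ∨ ((∀ s : ℝ, 0 < s → 0 ≤ k (o + s • v)) ∧
    ∃ w : V, ∀ s : ℝ, 0 < s → k (o + s • v) = 0 → Desc1 k (o + s • v) w)

/-- The minimum points of a window at the level zero have a common descent direction. -/
theorem win_common {k : V → ℝ} (hk : Good k) {x : V} (hR : RayC k 0 x) {t : ℝ} (ht : 0 ≤ t)
    (hz : win k t x = 0) : ∃ w : V, ∀ σ : ℝ, |σ| ≤ t → k (Real.exp σ • x) = 0 →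
      Desc1 k (Real.exp σ • x) w := by
  rcases hR with h | ⟨-, w, hw⟩
  · obtain ⟨σ₀, hσ₀, h1⟩ := win_attained hk.cont ht x
    rw [hz] at h1
    obtain ⟨w, hw⟩ := hk.desc _ h1
    refine ⟨w, fun σ hσ h2 => ?_⟩
    have key : ∀ σ τ : ℝ, |σ| ≤ t → |τ| ≤ t → k (Real.exp σ • x) = 0 → k (Real.exp τ • x) = 0 →
        ¬ σ < τ := by
      intro σ τ hσ hτ h1 h2 hlt
      have h3 := h (Real.exp σ) (Real.exp ((σ + τ) / 2)) (Real.exp τ) (Real.exp_pos _)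
        (Real.exp_lt_exp.2 (by linarith)) (Real.exp_lt_exp.2 (by linarith))
        (by rw [zero_add]; exact h1.le) (by rw [zero_add]; exact h2.le)
      rw [zero_add] at h3
      have h4 : |(σ + τ) / 2| ≤ t := by
        rw [abs_le] at *
        exact ⟨by linarith, by linarith⟩
      have h5 := win_le hk.cont h4 x
      rw [hz] at h5
      linarith
    have h3 : σ = σ₀ := by
      rcases lt_trichotomy σ σ₀ with h | h | h
      · exact absurd h (key σ σ₀ hσ hσ₀ h2 h1)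
      · exact h
      · exact absurd h (key σ₀ σ hσ₀ hσ h1 h2)
    rw [h3]
    exact hw
  · refine ⟨w, fun σ hσ h2 => ?_⟩
    have h3 := hw (Real.exp σ) (Real.exp_pos σ)
    rw [zero_add] at h3
    exact h3 h2

/-- Descent directions of the window minima: a common descent direction of `k` at the minimum points,
plus a multiple of `x` allowed by the window. -/
theorem win_descC {k : V → ℝ} (hk : Continuous k) {t₀ : ℝ} {x w : V} (ht₀ : 0 ≤ t₀)
    (hz : win k t₀ x = 0)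
    (hw : ∀ σ : ℝ, |σ| ≤ t₀ → k (Real.exp σ • x) = 0 → Desc1 k (Real.exp σ • x) w) {a : ℝ}
    (ha : ∀ σ : ℝ, |σ| ≤ t₀ → k (Real.exp σ • x) = 0 → σ < t₀ ∨ a ≤ 0)
    (ha' : ∀ σ : ℝ, |σ| ≤ t₀ → k (Real.exp σ • x) = 0 → -t₀ < σ ∨ 0 ≤ a)
    {l : Filter ℝ} (hl : l ≤ 𝓝 t₀) (hl' : ∀ᶠ t in l, 0 ≤ t) :
    Desc (fun t y => win k t y) l x (w - a • x) := by
  set v₀ := w - a • x with hv₀
  set L : Filter (ℝ × (V × (V × ℝ))) := l ×ˢ (𝓝 x ×ˢ (𝓝 v₀ ×ˢ 𝓝[>] (0 : ℝ))) with hL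
  suffices h : ∃ c : ℝ, 0 < c ∧ ∀ᶠ q : ℝ × (V × (V × ℝ)) in L, ∀ u ∈ Icc (-1 : ℝ) 1,
      k (Real.exp (q.1 * u) • q.2.1) = win k q.1 q.2.1 →
      win k q.1 (q.2.1 + q.2.2.2 • q.2.2.1) ≤ win k q.1 q.2.1 - c * q.2.2.2 by
    obtain ⟨c, hc, h⟩ := h
    refine ⟨c, hc, ?_⟩
    filter_upwards [h] with q hq
    obtain ⟨u, hu, h1, -⟩ := win_min hk q.1 q.2.1
    exact hq u hu h1
  refine isCompact_Icc.induction_on (p := fun S : Set ℝ => ∃ c : ℝ, 0 < c ∧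
      ∀ᶠ q : ℝ × (V × (V × ℝ)) in L, ∀ u ∈ S,
      k (Real.exp (q.1 * u) • q.2.1) = win k q.1 q.2.1 →
      win k q.1 (q.2.1 + q.2.2.2 • q.2.2.1) ≤ win k q.1 q.2.1 - c * q.2.2.2) ?_ ?_ ?_ ?_
  · exact ⟨1, one_pos, Filter.Eventually.of_forall fun q u hu => absurd hu (notMem_empty u)⟩
  · rintro S T hST ⟨c, hc, h⟩
    exact ⟨c, hc, h.mono fun q hq u hu => hq u (hST hu)⟩
  · rintro S T ⟨c, hc, h⟩ ⟨c', hc', h'⟩
    refine ⟨min c c', lt_min hc hc', ?_⟩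
    filter_upwards [h, h', DescC_pos l x v₀] with q hq hq' hpos u hu h1
    rcases hu with hu | hu
    · have h2 := hq u hu h1
      have h3 := mul_le_mul_of_nonneg_right (min_le_left c c') hpos.le
      linarith
    · have h2 := hq' u hu h1
      have h3 := mul_le_mul_of_nonneg_right (min_le_right c c') hpos.le
      linarith
  intro u₀ hu₀
  have hσ₀ : |t₀ * u₀| ≤ t₀ := by
    rw [abs_mul, abs_of_nonneg ht₀]
    have : |u₀| ≤ 1 := abs_le.2 hu₀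
    nlinarith
  set LU : Filter ((ℝ × (V × (V × ℝ))) × ℝ) := L ×ˢ 𝓝[Icc (-1) 1] u₀ with hLU
  suffices h : ∃ c : ℝ, 0 < c ∧ ∀ᶠ z : (ℝ × (V × (V × ℝ))) × ℝ in LU,
      k (Real.exp (z.1.1 * z.2) • z.1.2.1) = win k z.1.1 z.1.2.1 →
      win k z.1.1 (z.1.2.1 + z.1.2.2.2 • z.1.2.2.1) ≤ win k z.1.1 z.1.2.1 - c * z.1.2.2.2 by
    obtain ⟨c, hc, h⟩ := h
    obtain ⟨pa, hpa, pb, hpb, h1⟩ := Filter.eventually_prod_iff.1 h
    exact ⟨{u | pb u}, hpb, c, hc, hpa.mono fun q hq u hu => h1 hq hu⟩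
  have T1 : Tendsto (fun z : (ℝ × (V × (V × ℝ))) × ℝ => z.1.1) LU (𝓝 t₀) :=
    (tendsto_fst.mono_right hl).comp (tendsto_fst (f := L))
  have T2 : Tendsto (fun z : (ℝ × (V × (V × ℝ))) × ℝ => z.1.2.1) LU (𝓝 x) :=
    (tendsto_fst.comp (tendsto_snd (f := l))).comp (tendsto_fst (f := L))
  have T3 : Tendsto (fun z : (ℝ × (V × (V × ℝ))) × ℝ => z.1.2.2.1) LU (𝓝 v₀) :=
    (DescC_dir l x v₀).comp tendsto_fst
  have T4' : Tendsto (fun z : (ℝ × (V × (V × ℝ))) × ℝ => z.1.2.2.2) LU (𝓝[>] 0) :=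
    (DescC_time l x v₀).comp tendsto_fst
  have T4 : Tendsto (fun z : (ℝ × (V × (V × ℝ))) × ℝ => z.1.2.2.2) LU (𝓝 0) :=
    T4'.mono_right nhdsWithin_le_nhds
  have T5 : Tendsto (fun z : (ℝ × (V × (V × ℝ))) × ℝ => z.2) LU (𝓝 u₀) :=
    tendsto_snd.mono_right nhdsWithin_le_nhds
  have T6 : ∀ᶠ z : (ℝ × (V × (V × ℝ))) × ℝ in LU, z.2 ∈ Icc (-1 : ℝ) 1 :=
    tendsto_snd.eventually self_mem_nhdsWithin
  have T7 : ∀ᶠ z : (ℝ × (V × (V × ℝ))) × ℝ in LU, 0 ≤ z.1.1 :=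
    (tendsto_fst.comp (tendsto_fst (f := L))).eventually hl'
  have T8 : ∀ᶠ z : (ℝ × (V × (V × ℝ))) × ℝ in LU, 0 < z.1.2.2.2 :=
    (tendsto_fst (f := L)).eventually (DescC_pos l x v₀)
  have Tσ : Tendsto (fun z : (ℝ × (V × (V × ℝ))) × ℝ => z.1.1 * z.2) LU (𝓝 (t₀ * u₀)) := T1.mul T5
  have Tx : Tendsto (fun z : (ℝ × (V × (V × ℝ))) × ℝ => Real.exp (z.1.1 * z.2) • z.1.2.1) LU
      (𝓝 (Real.exp (t₀ * u₀) • x)) :=
    ((Real.continuous_exp.tendsto _).comp Tσ).smul T2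
  by_cases hk0 : k (Real.exp (t₀ * u₀) • x) = 0
  swap
  · -- not a minimum point
    have h1 : win k t₀ x < k (Real.exp (t₀ * u₀) • x) := by
      refine lt_of_le_of_ne (win_le hk hσ₀ x) ?_
      rw [hz]
      exact fun h => hk0 h.symm
    have c0 : Tendsto (fun z : (ℝ × (V × (V × ℝ))) × ℝ => ((z.1.1, z.1.2.1) : ℝ × V)) LU
        (𝓝 (t₀, x)) := T1.prodMk_nhds T2
    have c3 : Tendsto (fun p : ℝ × V => win k p.1 p.2) (𝓝 (t₀, x)) (𝓝 (win k t₀ x)) :=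
      (win_continuous hk).tendsto (t₀, x)
    have c1 := c3.comp c0
    have c2 := (hk.tendsto _).comp Tx
    have c4 := c1.eventually_lt c2 h1
    refine ⟨1, one_pos, c4.mono fun z hz h6 => ?_⟩
    simp only [Function.comp_apply] at hz
    rw [h6] at hz
    exact absurd hz (lt_irrefl _)
  obtain ⟨c, hc, hc'⟩ := (hw _ hσ₀ hk0).smul_dir (Real.exp_pos (t₀ * u₀))
  refine ⟨c, hc, ?_⟩
  have Te : Tendsto (fun z : (ℝ × (V × (V × ℝ))) × ℝ =>
      (Real.exp (a * z.1.2.2.2) - 1) / z.1.2.2.2) LU (𝓝 a) := by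
    have h2 : HasDerivAt (fun s : ℝ => Real.exp (a * s)) (a * Real.exp (a * 0)) 0 := by
      have := ((hasDerivAt_id (0 : ℝ)).const_mul a).exp
      simpa [mul_comm] using this
    have h3 := h2.tendsto_slope_zero_right
    simp only [mul_zero, Real.exp_zero, mul_one, zero_add, smul_eq_mul] at h3
    refine (h3.comp T4').congr fun q => ?_
    simp only [Function.comp]
    rw [div_eq_inv_mul]
  have Ta : Tendsto (fun z : (ℝ × (V × (V × ℝ))) × ℝ => Real.exp (a * z.1.2.2.2)) LU (𝓝 1) := by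
    have : Continuous fun s : ℝ => Real.exp (a * s) := by fun_prop
    have h2 := (this.tendsto 0).comp T4
    rw [mul_zero, Real.exp_zero] at h2
    exact h2
  have TW : Tendsto (fun z : (ℝ × (V × (V × ℝ))) × ℝ => Real.exp (z.1.1 * z.2) •
      (((Real.exp (a * z.1.2.2.2) - 1) / z.1.2.2.2) • z.1.2.1 +
        Real.exp (a * z.1.2.2.2) • z.1.2.2.1)) LU (𝓝 (Real.exp (t₀ * u₀) • w)) := by
    have h2 := ((Real.continuous_exp.tendsto _).comp Tσ).smul ((Te.smul T2).add (Ta.smul T3))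
    have h3 : a • x + (1 : ℝ) • v₀ = w := by
      rw [hv₀, one_smul, add_sub_cancel]
    rw [h3] at h2
    exact h2
  have hall : Tendsto (fun z : (ℝ × (V × (V × ℝ))) × ℝ =>
      (((), (Real.exp (z.1.1 * z.2) • z.1.2.1, (Real.exp (z.1.1 * z.2) •
      (((Real.exp (a * z.1.2.2.2) - 1) / z.1.2.2.2) • z.1.2.1 +
        Real.exp (a * z.1.2.2.2) • z.1.2.2.1), z.1.2.2.2))) : Unit × (V × (V × ℝ)))) LU
      (⊤ ×ˢ (𝓝 (Real.exp (t₀ * u₀) • x) ×ˢ (𝓝 (Real.exp (t₀ * u₀) • w) ×ˢ 𝓝[>] (0 : ℝ)))) :=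
    tendsto_top.prodMk (Tx.prodMk (TW.prodMk T4'))
  have Tsum : Tendsto (fun z : (ℝ × (V × (V × ℝ))) × ℝ => z.1.1 * z.2 + a * z.1.2.2.2) LU
      (𝓝 (t₀ * u₀)) := by
    have := Tσ.add (T4.const_mul a)
    rwa [mul_zero, add_zero] at this
  have hup : ∀ᶠ z in LU, z.1.1 * z.2 + a * z.1.2.2.2 ≤ z.1.1 := by
    rcases ha _ hσ₀ hk0 with h | h
    · exact (Tsum.eventually_lt T1 h).mono fun z hz => hz.le
    · filter_upwards [T6, T7, T8] with z h6 h7 h8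
      have h9 := h6.2
      nlinarith [mul_nonneg h7 (sub_nonneg.2 h9), mul_nonneg (neg_nonneg.2 h) h8.le]
  have hlo : ∀ᶠ z in LU, -z.1.1 ≤ z.1.1 * z.2 + a * z.1.2.2.2 := by
    rcases ha' _ hσ₀ hk0 with h | h
    · exact (T1.neg.eventually_lt Tsum h).mono fun z hz => hz.le
    · filter_upwards [T6, T7, T8] with z h6 h7 h8
      have h9 := h6.1
      nlinarith [mul_nonneg h7 (sub_nonneg.2 h9), mul_nonneg h h8.le]
  filter_upwards [hall.eventually hc', hup, hlo, T8] with z hq h2 h3 h4 h8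
  have h5 := win_le hk (abs_le.2 ⟨h3, h2⟩) (z.1.2.1 + z.1.2.2.2 • z.1.2.2.1)
  have h6 : Real.exp (z.1.1 * z.2 + a * z.1.2.2.2) • (z.1.2.1 + z.1.2.2.2 • z.1.2.2.1) =
      Real.exp (z.1.1 * z.2) • z.1.2.1 + z.1.2.2.2 • (Real.exp (z.1.1 * z.2) •
      (((Real.exp (a * z.1.2.2.2) - 1) / z.1.2.2.2) • z.1.2.1 +
        Real.exp (a * z.1.2.2.2) • z.1.2.2.1)) := by
    rw [Real.exp_add]
    generalize Real.exp (z.1.1 * z.2) = A
    generalize Real.exp (a * z.1.2.2.2) = B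
    have h7 : z.1.2.2.2 ≠ 0 := h4.ne'
    match_scalars
    · field_simp
      ring
    · ring
  rw [h6] at h5
  rw [h8] at hq
  exact h5.trans hq

end Pool.Schoen
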