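import Pool.Agent.H.MP_6c077c_gt.Hx.Out

/-! Secant theorem: the open outside of a good body is connected. -/

set_option autoImplicit false

namespace Pool.Schoen

open Filter Set Metric
open scoped Topology RealInnerProductSpace ContDiff

variable {V : Type*} [NormedAddCommGroup V] [InnerProductSpace ℝ V] [FiniteDimensional ℝ V]

/-- The open body `{k < 0}` of a good function with bounded connected body `{k ≤ 0}` is connected. -/
theorem conn_strict {k : V → ℝ} (hk : Good k) (hb : Bornology.IsBounded {x | k x ≤ 0})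
    (hc : IsConnected {x | k x ≤ 0}) : IsConnected {x | k x < 0} := by
  have hprop : ProperSpace V := FiniteDimensional.proper ℝ V
  -- descent directions at all points of `{-η₀ < k ≤ 0}`
  obtain ⟨η₀, hη₀, hη⟩ : ∃ η₀ : ℝ, 0 < η₀ ∧ ∀ x, -η₀ < k x → k x ≤ 0 → ∃ v, Desc1 k x v := by
    have hK : IsCompact {x | k x ≤ 0} :=
      isCompact_of_isClosed_isBounded (isClosed_le hk.cont continuous_const) hb
    have hK' : IsCompact ({x | k x ≤ 0} \ interior {x | ∃ v, Desc1 k x v}) :=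
      hK.diff isOpen_interior
    have hZ : ∀ x, k x = 0 → x ∈ interior {x | ∃ v, Desc1 k x v} := by
      intro x hx
      obtain ⟨v, hv⟩ := hk.desc x hx
      rw [mem_interior_iff_mem_nhds]
      filter_upwards [hv.near] with y hy
      exact ⟨v, hy⟩
    rcases ({x | k x ≤ 0} \ interior {x | ∃ v, Desc1 k x v}).eq_empty_or_nonempty with h | h
    · refine ⟨1, one_pos, fun x _ hx => ?_⟩
      by_contra hcon
      have h1 : x ∈ {x | k x ≤ 0} \ interior {x | ∃ v, Desc1 k x v} :=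
        ⟨hx, fun h2 => hcon (show x ∈ {x | ∃ v, Desc1 k x v} from interior_subset h2)⟩
      rw [h] at h1
      exact h1
    · obtain ⟨x₀, hx₀, hmax⟩ := hK'.exists_isMaxOn h hk.cont.continuousOn
      have h0 : k x₀ < 0 := by
        rcases eq_or_lt_of_le (show k x₀ ≤ 0 from hx₀.1) with h1 | h1
        · exact absurd (hZ x₀ h1) hx₀.2
        · exact h1
      refine ⟨-k x₀, by linarith, fun x hx hx' => ?_⟩
      by_contra hcon
      have h1 : x ∈ {x | k x ≤ 0} \ interior {x | ∃ v, Desc1 k x v} :=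
        ⟨hx', fun h2 => hcon (show x ∈ {x | ∃ v, Desc1 k x v} from interior_subset h2)⟩
      have h2 : k x ≤ k x₀ := hmax h1
      rw [neg_neg] at hx
      linarith
  have hη2 : 0 < η₀ / 2 := by positivity
  obtain ⟨R, hR⟩ := hb.exists_norm_le
  have hcH : Continuous fun p : ℝ × V => k p.2 + η₀ / 2 * p.1 := by
    have := hk.cont
    fun_prop
  have hbH : ∃ R : ℝ, ∀ t ∈ Icc (0 : ℝ) 1, ∀ x, k x + η₀ / 2 * t ≤ 0 → ‖x‖ ≤ R := by
    refine ⟨R, fun t ht x hx => hR x ?_⟩
    have h1 : 0 ≤ η₀ / 2 * t := mul_nonneg hη2.le ht.1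
    show k x ≤ 0
    linarith
  have hdH : ∀ t ∈ Icc (0 : ℝ) 1, ∀ x, k x + η₀ / 2 * t = 0 →
      ∃ v, Desc (fun t x => k x + η₀ / 2 * t) (𝓝[Icc 0 1] t) x v := by
    intro t ht x hx
    have h1 : 0 ≤ η₀ / 2 * t := mul_nonneg hη2.le ht.1
    have h2 : η₀ / 2 * t ≤ η₀ / 2 * 1 := mul_le_mul_of_nonneg_left ht.2 hη2.le
    obtain ⟨v, hv⟩ := hη x (by linarith) (by linarith)
    exact ⟨v, desc_add_const (hv.const _) fun t => η₀ / 2 * t⟩
  obtain ⟨g, hg, hg0, s, hs, ε, hε, hpush⟩ :=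
    exists_push (fun t x => k x + η₀ / 2 * t) hcH hbH hdH 0 ⟨le_rfl, zero_le_one⟩
  have h0 : {x : V | k x + η₀ / 2 * 0 ≤ 0} = {x | k x ≤ 0} := by
    ext x
    simp
  obtain ⟨p1, -, -⟩ := hpush 0 ⟨le_rfl, zero_le_one⟩ (by simpa using hε)
  rw [h0] at p1
  refine transfer_conn (A := {x | k x ≤ 0}) (B := {x | k x < 0}) g hg hg0 hs ?_ ?_ ?_ hc
  · intro σ hσ x hx
    have hx' : k x < 0 := hx
    obtain ⟨t, ht⟩ : ∃ t : ℝ, t = min (min (ε / 2) 1) (-k x / (η₀ / 2)) := ⟨_, rfl⟩
    have ht0 : 0 < t := by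
      rw [ht]
      exact lt_min (lt_min (by positivity) one_pos) (div_pos (by linarith) hη2)
    have ht1 : t ≤ 1 := by rw [ht]; exact (min_le_left _ _).trans (min_le_right _ _)
    have ht2 : t < ε := by
      have : t ≤ ε / 2 := by rw [ht]; exact (min_le_left _ _).trans (min_le_left _ _)
      linarith
    have ht3 : η₀ / 2 * t ≤ -k x := by
      have : t ≤ -k x / (η₀ / 2) := by rw [ht]; exact min_le_right _ _
      rw [le_div_iff₀ hη2] at this
      linarith
    obtain ⟨q1, -, -⟩ := hpush t ⟨ht0.le, ht1⟩ (by rw [sub_zero, abs_of_pos ht0]; exact ht2)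
    have h1 : k (g σ x) + η₀ / 2 * t ≤ 0 := q1 σ hσ (show k x + η₀ / 2 * t ≤ 0 by linarith)
    have h2 : 0 < η₀ / 2 * t := mul_pos hη2 ht0
    show k (g σ x) < 0
    linarith
  · intro x hx
    obtain ⟨t, ht⟩ : ∃ t : ℝ, t = min (ε / 2) 1 := ⟨_, rfl⟩
    have ht0 : 0 < t := by
      rw [ht]
      exact lt_min (by positivity) one_pos
    have ht1 : t ≤ 1 := by rw [ht]; exact min_le_right _ _
    have ht2 : t < ε := by
      have : t ≤ ε / 2 := by rw [ht]; exact min_le_left _ _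
      linarith
    obtain ⟨-, -, q3⟩ := hpush t ⟨ht0.le, ht1⟩ (by rw [sub_zero, abs_of_pos ht0]; exact ht2)
    rw [h0] at q3
    have h1 : k (g s x) + η₀ / 2 * t ≤ 0 := q3 hx
    have h2 : 0 < η₀ / 2 * t := mul_pos hη2 ht0
    show k (g s x) < 0
    linarith
  · intro x hx
    have hx' : k x < 0 := hx
    exact p1 s ⟨hs, le_rfl⟩ (show k x ≤ 0 from hx'.le)

/-- In dimension at least two: if the closed outside of a good body is connected, the open outside
of every homotopic body is connected. -/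
theorem hx_outE {g G : V → ℝ} (hdim : 2 ≤ Module.finrank ℝ V) (hgG : Hom g G)
    (hb : Bornology.IsBounded {x | g x ≤ 0}) (hc : IsPreconnected {x | 0 ≤ g x}) :
    IsPreconnected {x | 0 < G x} := by
  have hg : Good g := hgG.good_left
  have hG : Good G := hgG.good_right
  have hGb := hgG.bdd hb
  obtain ⟨R, hR0, hR⟩ := hb.exists_pos_norm_lt
  have hR' : ∀ y, g y ≤ 0 → ‖y‖ < R := fun y hy => hR y hy
  have hrank : 1 < Module.rank ℝ V := by
    rw [← Module.finrank_eq_rank]
    exact_mod_cast hdim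
  -- the outside of `g` in large balls is connected
  have h1 : ∀ ρ, R ≤ ρ → IsConnected {x : V | 0 ≤ g x ∧ ‖x‖ ≤ ρ} := by
    intro ρ hρ
    have hρ0 : 0 < ρ := lt_of_lt_of_le hR0 hρ
    have hcl : IsClosed {x : V | 0 ≤ g x ∧ ‖x‖ ≤ ρ} :=
      (isClosed_le continuous_const hg.cont).inter (isClosed_le continuous_norm continuous_const)
    have hcl' : IsClosed {x : V | ρ ≤ ‖x‖} := isClosed_le continuous_const continuous_norm
    refine hx_conn_of_union hcl hcl' ?_ ?_
    · have hU : {x : V | 0 ≤ g x ∧ ‖x‖ ≤ ρ} ∪ {x | ρ ≤ ‖x‖} = {x | 0 ≤ g x} := by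
        ext x
        constructor
        · rintro (h | h)
          · exact h.1
          · by_contra hcon
            have h2 := hR' x (not_le.1 hcon).le
            have h3 : ρ ≤ ‖x‖ := h
            linarith
        · intro h
          rcases le_total ‖x‖ ρ with h2 | h2
          · exact Or.inl ⟨h, h2⟩
          · exact Or.inr h2
      rw [hU]
      exact hc
    · have hI : {x : V | 0 ≤ g x ∧ ‖x‖ ≤ ρ} ∩ {x | ρ ≤ ‖x‖} = sphere (0 : V) ρ := by
        ext x
        rw [mem_sphere_zero_iff_norm]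
        constructor
        · rintro ⟨⟨-, h2⟩, h3⟩
          exact le_antisymm h2 h3
        · intro h
          refine ⟨⟨?_, h.le⟩, h.ge⟩
          by_contra hcon
          have h2 := hR' x (not_le.1 hcon).le
          linarith
      rw [hI]
      exact isConnected_sphere hrank 0 hρ0.le
  -- pass to `G`
  obtain ⟨ρ₁, hρ₁, h2⟩ := hom_outF hgG hb
  have h3 : ∀ ρ, max R ρ₁ ≤ ρ → IsConnected {x : V | 0 < G x ∧ ‖x‖ < ρ} := by
    intro ρ hρ
    have h4 : R ≤ ρ := (le_max_left _ _).trans hρ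
    have h5 : ρ₁ ≤ ρ := (le_max_right _ _).trans hρ
    have h6 : 0 ≤ ρ := hρ₁.le.trans h5
    have h7 := h2 ρ h5
    have h8 := h1 ρ h4
    rw [← outF_le h6] at h8
    have h9 : ∀ f : V → ℝ, Bornology.IsBounded {x : V | outF f ρ x ≤ 0} := by
      intro f
      rw [outF_le h6]
      refine (isBounded_closedBall (x := (0 : V)) (r := ρ)).subset fun x hx => ?_
      rw [mem_closedBall_zero_iff]
      exact hx.2
    have h10 := conn_strict h7.good_right (h9 G) (h7.isConnected (h9 g) h8)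
    have h11 : {x : V | outF G ρ x < 0} = {x : V | 0 < G x ∧ ‖x‖ < ρ} := by
      ext x
      show max (-G x) (‖x‖ ^ 2 - ρ ^ 2) < 0 ↔ 0 < G x ∧ ‖x‖ < ρ
      rw [max_lt_iff, neg_lt_zero, sub_neg, sq_lt_sq₀ (norm_nonneg x) h6]
    rwa [h11] at h10
  -- exhaust
  have h4 : {x : V | 0 < G x} = ⋃ n : ℕ, {x : V | 0 < G x ∧ ‖x‖ < max R ρ₁ + n} := by
    ext x
    rw [mem_iUnion]
    constructor
    · intro hx
      obtain ⟨n, hn⟩ := exists_nat_gt (‖x‖ - max R ρ₁)
      exact ⟨n, hx, by linarith⟩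
    · rintro ⟨n, hx, -⟩
      exact hx
  rw [h4]
  refine IsPreconnected.iUnion_of_chain (fun n => ?_) fun n => ?_
  · exact (h3 _ (by have : (0 : ℝ) ≤ n := Nat.cast_nonneg n; linarith)).isPreconnected
  · obtain ⟨x, hx⟩ := (h3 (max R ρ₁ + n) (by have : (0 : ℝ) ≤ n := Nat.cast_nonneg n; linarith)).nonempty
    refine ⟨x, hx, hx.1, hx.2.trans ?_⟩
    simp only [Order.succ_eq_add_one, Nat.cast_add, Nat.cast_one]
    linarith

end Pool.Schoen
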