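import Pool.Agent.H.MP_6c077c_gt.Hx.Defs
import Pool.Agent.H.MP_6c077c_gt.Ix.MollD
import Pool.Agent.H.MP_6c077c_gt.Ix.HomB

/-! Hexasecant theorem: smoothing of a good function. -/

set_option autoImplicit false

namespace Pool.Schoen

open Filter Set
open scoped Topology RealInnerProductSpace ContDiff

variable {V : Type*} [NormedAddCommGroup V] [InnerProductSpace ℝ V] [FiniteDimensional ℝ V]

/-- Every good function is homotopic to a smooth regular one. -/
theorem good_smooth (g : V → ℝ) (hg : Good g) :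
    ∃ G : V → ℝ, ContDiff ℝ ∞ G ∧ Hom g G ∧ ∀ x, G x = 0 → gradient G x ≠ 0 := by
  obtain ⟨v, δ, R, ε, hδ, hε, hdesc, hfar, hmoll⟩ := hg.adapted 1 one_pos
  obtain ⟨G, hG⟩ := moll_exists g hg.cont ε hε
  have hA := (hmoll G ε le_rfl hG).1
  have hsm : ContDiff ℝ ∞ G := hA.smooth
  have hzR : ∀ t ∈ Icc (0 : ℝ) 1, ∀ x, (1 - t) * g x + t * G x = 0 → ‖x‖ < R := by
    intro t ht x hx
    by_contra hcon
    have h1 := hA.sign x (not_lt.1 hcon)
    rcases mul_pos_iff.1 h1 with ⟨h2, h3⟩ | ⟨h2, h3⟩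
    · have : 0 < (1 - t) * g x + t * G x := by
        rcases eq_or_lt_of_le ht.1 with h4 | h4
        · rw [← h4]
          linarith
        · have h5 : 0 < t * G x := mul_pos h4 h2
          have h6 : 0 ≤ (1 - t) * g x := mul_nonneg (by linarith [ht.2]) h3.le
          linarith
      linarith
    · have : (1 - t) * g x + t * G x < 0 := by
        rcases eq_or_lt_of_le ht.1 with h4 | h4
        · rw [← h4]
          linarith
        · have h5 : t * G x < 0 := mul_neg_of_pos_of_neg h4 h2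
          have h6 : (1 - t) * g x ≤ 0 := mul_nonpos_of_nonneg_of_nonpos (by linarith [ht.2]) h3.le
          linarith
      linarith
  have hzδ : ∀ t ∈ Icc (0 : ℝ) 1, ∀ x, (1 - t) * g x + t * G x = 0 → |g x| ≤ δ := by
    intro t ht x hx
    have h1 := hA.close x (hzR t ht x hx).le
    have h2 : g x = -(t * (G x - g x)) := by linarith
    rw [h2, abs_neg, abs_mul, abs_of_nonneg ht.1]
    calc t * |G x - g x| ≤ 1 * |G x - g x| := mul_le_mul_of_nonneg_right ht.2 (abs_nonneg _)
      _ ≤ δ := by linarith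
  refine ⟨G, hsm, ?_, ?_⟩
  · refine Hom.lerp hg.cont hsm.continuous ⟨R, fun t ht x hx => (hzR t ht x hx).le⟩ ?_
    intro t ht x hx
    have h1 := (hzR t ht x hx).le
    have h2 := hzδ t ht x hx
    exact ⟨v x, hdesc x h1 h2, desc1_smooth (hsm.contDiffAt.of_le (by exact_mod_cast le_top))
      (hA.dir x h1 h2)⟩
  · intro x hx h0
    have hx1 : (1 - (1 : ℝ)) * g x + 1 * G x = 0 := by
      rw [hx]
      ring
    have h1 := hzR 1 ⟨zero_le_one, le_rfl⟩ x hx1
    have h2 := hzδ 1 ⟨zero_le_one, le_rfl⟩ x hx1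
    have h3 := hA.dir x h1.le h2
    have h4 : fderiv ℝ G x (v x) = ⟪gradient G x, v x⟫ := by
      rw [gradient, InnerProductSpace.toDual_symm_apply]
    rw [h4, h0, inner_zero_left] at h3
    exact lt_irrefl _ h3

end Pool.Schoen
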