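import Pool.Agent.H.MP_6c077c_gt.Hx.Defs
import Pool.Agent.H.MP_6c077c_gt.Ix.HomB
import Pool.Agent.H.MP_6c077c_gt.Ix.MollA

/-! Hexasecant theorem: translations. -/

set_option autoImplicit false

namespace Pool.Schoen

open Filter Set
open scoped Topology RealInnerProductSpace ContDiff

variable {V : Type*} [NormedAddCommGroup V] [InnerProductSpace ℝ V]

/-- Translating a family by a vector which depends continuously on the parameter. -/
theorem Desc.translate {X : Type*} {H : X → V → ℝ} {l : Filter X} {x v : V} {m : X → V} {m₀ : V}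
    (hm : Tendsto m l (𝓝 m₀)) (h : Desc H l (x + m₀) v) :
    Desc (fun t y => H t (y + m t)) l x v := by
  obtain ⟨c, hc, he⟩ := h
  refine ⟨c, hc, ?_⟩
  have T1 : Tendsto (fun q : X × (V × (V × ℝ)) => q.1)
      (l ×ˢ (𝓝 x ×ˢ (𝓝 v ×ˢ 𝓝[>] (0 : ℝ)))) l := tendsto_fst
  have T2 : Tendsto (fun q : X × (V × (V × ℝ)) => q.2.1)
      (l ×ˢ (𝓝 x ×ˢ (𝓝 v ×ˢ 𝓝[>] (0 : ℝ)))) (𝓝 x) := tendsto_fst.comp tendsto_snd
  have T3 : Tendsto (fun q : X × (V × (V × ℝ)) => q.2.2)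
      (l ×ˢ (𝓝 x ×ˢ (𝓝 v ×ˢ 𝓝[>] (0 : ℝ)))) (𝓝 v ×ˢ 𝓝[>] (0 : ℝ)) := tendsto_snd.comp tendsto_snd
  have T4 := T1.prodMk ((T2.add (hm.comp T1)).prodMk T3)
  filter_upwards [T4.eventually he] with q hq
  have h1 : q.2.1 + q.2.2.2 • q.2.2.1 + m q.1 = q.2.1 + m q.1 + q.2.2.2 • q.2.2.1 := by
    abel
  show H q.1 (q.2.1 + q.2.2.2 • q.2.2.1 + m q.1) ≤ H q.1 (q.2.1 + m q.1) - c * q.2.2.2
  rw [h1]
  exact hq

/-- The translation of a good function. -/
theorem Good.hom_translate {f : V → ℝ} (hf : Good f) (m : V) : Hom f fun x => f (x + m) := by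
  have hfc := hf.cont
  obtain ⟨R, hR⟩ := hf.bdd.exists_norm_le
  refine ⟨fun t x => f (x + t • m), by fun_prop, ?_, ?_, ⟨R + ‖m‖, ?_⟩, ?_⟩
  · funext x
    simp
  · funext x
    simp
  · intro t ht x hx
    have h1 : ‖x + t • m‖ ≤ R := hR _ hx
    have h2 : ‖t • m‖ ≤ ‖m‖ := by
      rw [norm_smul, Real.norm_eq_abs, abs_of_nonneg ht.1]
      exact mul_le_of_le_one_left (norm_nonneg m) ht.2
    have h3 : x = (x + t • m) - t • m := by abel
    rw [h3]
    exact (norm_sub_le _ _).trans (add_le_add h1 h2)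
  · intro t ht x hx
    obtain ⟨v, hv⟩ := hf.desc _ hx
    have h1 : Tendsto (fun s : ℝ => s • m) (𝓝[Icc 0 1] t) (𝓝 (t • m)) :=
      (Continuous.tendsto (by fun_prop) t).mono_left nhdsWithin_le_nhds
    exact ⟨v, Desc.translate h1 (hv.const _)⟩

theorem Good.translate {f : V → ℝ} (hf : Good f) (m : V) : Good fun x => f (x + m) :=
  (hf.hom_translate m).good_right

theorem bdd_translate {f : V → ℝ} (hb : Bornology.IsBounded {x | f x ≤ 0}) (m : V) :
    Bornology.IsBounded {x | f (x + m) ≤ 0} := by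
  obtain ⟨R, hR⟩ := hb.exists_norm_le
  refine (Metric.isBounded_closedBall (x := (0 : V)) (r := R + ‖m‖)).subset fun x hx => ?_
  rw [Metric.mem_closedBall, dist_zero_right]
  have h1 : ‖x + m‖ ≤ R := hR _ hx
  have h3 : x = (x + m) - m := by abel
  rw [h3]
  exact (norm_sub_le _ _).trans (by linarith)

end Pool.Schoen
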