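import Pool.Agent.H.MP_6c077c_gt.Hx.Trans

/-! Hexasecant theorem: the weak ray property (the ray may touch the body along a segment). -/

set_option autoImplicit false

namespace Pool.Schoen

open Filter Set
open scoped Topology RealInnerProductSpace ContDiff

variable {V : Type*} [NormedAddCommGroup V] [InnerProductSpace ℝ V]

/-- Weak form of `RayNeg`: strictly between two points of `{k ≤ 0}` on the open ray from `o` in the
direction `x` the function `k` is negative, or it vanishes; in the second case the ray does not meet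
`{k < 0}` and all the zeros on the ray have a common descent direction. -/
def RayW (k : V → ℝ) (o x : V) : Prop :=
  ∀ s r t : ℝ, 0 < s → s < r → r < t → k (o + s • x) ≤ 0 → k (o + t • x) ≤ 0 →
    k (o + r • x) < 0 ∨ (k (o + r • x) = 0 ∧ (∀ m : ℝ, 0 < m → 0 ≤ k (o + m • x)) ∧
      ∃ w : V, ∀ m : ℝ, 0 < m → k (o + m • x) = 0 → Desc1 k (o + m • x) w)

theorem RayNeg.rayW {k : V → ℝ} {o x : V} (h : RayNeg k o x) : RayW k o x :=
  fun s r t hs hsr hrt h1 h2 => Or.inl (h s r t hs hsr hrt h1 h2)

/-- Translation. -/
theorem RayW.translate {k : V → ℝ} {o x : V} (h : RayW k o x) : RayW (fun y => k (y + o)) 0 x := by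
  intro s r t hs hsr hrt h1 h2
  simp only [zero_add] at h1 h2 ⊢
  have hc : ∀ u : ℝ, u • x + o = o + u • x := fun u => add_comm _ _
  rw [hc] at h1 h2
  rcases h s r t hs hsr hrt h1 h2 with h3 | ⟨h3, h4, v, hv⟩
  · left
    rw [hc]
    exact h3
  right
  refine ⟨by rw [hc]; exact h3, fun m hm => by rw [hc]; exact h4 m hm, v, fun m hm hm0 => ?_⟩
  rw [hc] at hm0
  exact Desc.translate (H := fun _ : Unit => k) (m := fun _ => o) tendsto_const_nhds
    (by rw [hc]; exact hv m hm hm0)

end Pool.Schoen
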