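import Pool.Agent.H.MP_6c077c_gt.Hx.WinD
import Pool.Agent.H.MP_6c077c_gt.Hx.DirC
import Pool.Agent.H.MP_6c077c_gt.Hx.RayW

/-! Hexasecant theorem: windows and directions under the weak ray property. -/

set_option autoImplicit false

namespace Pool.Schoen

open Filter Set
open scoped Topology RealInnerProductSpace ContDiff

variable {V : Type*} [NormedAddCommGroup V] [InnerProductSpace ℝ V]

theorem RayW.rayC {k : V → ℝ} {o x : V} (h : RayW k o x) : RayC k o x := by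
  by_cases hN : RayNeg k o x
  · exact Or.inl hN
  · unfold RayNeg at hN
    push Not at hN
    obtain ⟨s, r, t, hs, hsr, hrt, h1, h2, h3⟩ := hN
    rcases h s r t hs hsr hrt h1 h2 with h4 | ⟨-, h5, h6⟩
    · exact absurd h4 (not_lt.2 h3)
    · exact Or.inr ⟨h5, h6⟩

theorem hx_window_s (k : V → ℝ) (hk : Good k) (hb : Bornology.IsBounded {x | k x ≤ 0})
    (h0 : 0 < k 0) (hU : ∀ v, RayW k 0 v) :
    ∃ ψ : V → ℝ, DegZero ψ ∧ (∀ x, x ≠ 0 → (ψ x ≤ 0 ↔ ∃ s : ℝ, 0 < s ∧ k (s • x) ≤ 0)) ∧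
      Hom k (shell ψ) :=
  hx_windowC k hk hb h0 fun v => (hU v).rayC

theorem hx_dir_s [FiniteDimensional ℝ V] [Nontrivial V] (k : V → ℝ) (hk : Good k)
    (hb : Bornology.IsBounded {x | k x ≤ 0}) (h0 : 0 < k 0) (hU : ∀ v, RayW k 0 v)
    (hout : ∃ ρ₀ : ℝ, ∀ ρ, ρ₀ ≤ ρ → OutTop k ρ) :
    ∃ v₀ : V, ‖v₀‖ = 1 ∧ ∀ s : ℝ, 0 ≤ s → 0 < k (s • v₀) :=
  hx_dirC k hk hb h0 (fun v => (hU v).rayC) hout

end Pool.Schoen
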