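import Pool.Agent.H.MP_6c077c_gt.Hx.WinD
import Pool.Agent.H.MP_6c077c_gt.Hx.DirC
import Pool.Agent.H.MP_6c077c_gt.Hx.WinS
import Pool.Agent.H.MP_6c077c_gt.Hx.Chart
import Pool.Agent.H.MP_6c077c_gt.Hx.ChartTop
import Pool.Agent.H.MP_6c077c_gt.Hx.Out
import Pool.Agent.H.MP_6c077c_gt.Hx.OutE
import Pool.Agent.H.MP_6c077c_gt.Hx.Trans
import Pool.Agent.H.MP_6c077c_gt.Hx.SmoothG
import Pool.Agent.H.MP_6c077c_gt.IxB.Final
import Pool.Agent.H.MP_6c077c_gt.Gd.Defs

/-! Hexasecant theorem: bodies which meet the rays from an outer point in segments. -/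

set_option autoImplicit false

namespace Pool.Schoen

open Filter Set
open scoped Topology RealInnerProductSpace ContDiff

variable {V : Type*} [NormedAddCommGroup V] [InnerProductSpace ℝ V] [FiniteDimensional ℝ V]

theorem RayC.translate {k : V → ℝ} {o v : V} (h : RayC k o v) : RayC (fun y => k (y + o)) 0 v := by
  have hc : ∀ u : ℝ, 0 + u • v + o = o + u • v := fun u => by
    rw [zero_add, add_comm]
  rcases h with h | ⟨h1, w, hw⟩
  · left
    intro s r t hs hsr hrt h1 h2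
    simp only [hc] at h1 h2 ⊢
    exact h s r t hs hsr hrt h1 h2
  · refine Or.inr ⟨fun s hs => by simp only [hc]; exact h1 s hs, w, fun s hs h2 => ?_⟩
    simp only [hc] at h2
    refine Desc.translate (H := fun _ : Unit => k) (m := fun _ => o) tendsto_const_nhds ?_
    show Desc1 k (0 + s • v + o) w
    rw [hc]
    exact hw s hs h2

/-- A domain which is homotopic to one that meets all rays from an outer point in segments is
homotopic to a ball. -/
theorem ray_core (hdim : Module.finrank ℝ V = 4)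
    (hA : ∀ e : V, ‖e‖ = 1 → ∀ F : (ℝ ∙ e)ᗮ → ℝ, Dom F → IsPreconnected {x | 0 < F x} → IsBall F)
    (F : V → ℝ) (hF : Continuous F) (hb : Bornology.IsBounded {x | F x ≤ 0})
    (hMc : IsConnected {x | F x = 0}) (hMl : LiftS {x | F x = 0})
    (k : V → ℝ) (hFk : Hom F k) (o : V) (ho : 0 < k o) (hray : ∀ v, RayC k o v) : IsBall F := by
  have hnt : Nontrivial V := Module.nontrivial_of_finrank_pos (R := ℝ) (by omega)
  obtain ⟨hc, hl⟩ := domain_top (by omega) F hF hb hMc hMl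
  have hkg : Good k := hFk.good_right
  -- translation
  set k' : V → ℝ := fun y => k (y + o) with hk'
  have hkk' : Hom k k' := hkg.hom_translate o
  have hFk' : Hom F k' := hFk.trans hkk'
  have hk'g : Good k' := hkk'.good_right
  have hk'b : Bornology.IsBounded {x | k' x ≤ 0} := hFk'.bdd hb
  have hk'0 : 0 < k' 0 := by
    show 0 < k (0 + o)
    rw [zero_add]
    exact ho
  have hU : ∀ v, RayC k' 0 v := fun v => (hray v).translate
  -- the outside
  have hout := out_hom hFk' hb (out_top F hF hb hMc hMl)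
  -- the window
  obtain ⟨ψ, hψ, hψk, hkψ⟩ := hx_windowC k' hk'g hk'b hk'0 hU
  obtain ⟨v₀, hv₀, hmiss⟩ := hx_dirC k' hk'g hk'b hk'0 hU hout
  have hv0 : v₀ ≠ 0 := by
    rintro rfl
    simp at hv₀
  have hψ0 : 0 < ψ v₀ := by
    by_contra hcon
    obtain ⟨s, hs, hs'⟩ := (hψk v₀ hv0).1 (not_lt.1 hcon)
    exact absurd (hmiss s hs.le) (not_lt.2 hs')
  have hFψ : Hom F (shell ψ) := hFk'.trans hkψ
  have hψb : Bornology.IsBounded {x | shell ψ x ≤ 0} := hFψ.bdd hb
  have hψc := hFψ.isConnected hb hc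
  have hψl := hFψ.liftS hb hl
  obtain ⟨ρ₀, hρ₀⟩ := out_hom hFψ hb (out_top F hF hb hMc hMl)
  have hψout := (hρ₀ (max ρ₀ 3) (le_max_left _ _)).2
  -- the chart
  obtain ⟨hgg, hgb⟩ := chartf_good ψ hψ v₀ hv₀ hψ0
  have hgc := chartf_conn ψ hψ v₀ hv₀ hψ0 hψc
  have hgl := chartf_lift ψ hψ v₀ hv₀ hψ0 hψl
  have hgo := chartf_out (by omega) ψ hψ v₀ hv₀ hψ0 (max ρ₀ 3) (le_max_right _ _) hψout
  have hE : Module.finrank ℝ (ℝ ∙ v₀)ᗮ = 3 := by
    have h1 := Submodule.finrank_add_finrank_orthogonal (ℝ ∙ v₀)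
    rw [finrank_span_singleton hv0] at h1
    omega
  obtain ⟨G, hG, hgG, hGreg⟩ := good_smooth _ hgg
  have hGO : IsPreconnected {x | 0 < G x} := hx_outE (by omega) hgG hgb hgo
  have hGD : Dom G := ⟨hG, hgG.bdd hgb, hGreg, hgG.isConnected hgb hgc, hgG.liftS hgb hgl⟩
  exact hFψ.trans (chartf_ball ψ hψ v₀ hv₀ hψ0 (hgG.trans (hA v₀ hv₀ G hGD hGO)))

end Pool.Schoen
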