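import Pool.Agent.H.MP_6c077c_gt.Ix.Class
import Pool.Agent.H.MP_6c077c_gt.IxB.Defs

/-! Hexasecant theorem: definitions. -/

set_option autoImplicit false

namespace Pool.Schoen

open Filter Set
open scoped Topology RealInnerProductSpace ContDiff

variable {V : Type*} [NormedAddCommGroup V] [InnerProductSpace ℝ V]

/-- Every straight line contains at most five zeros of `F`. -/
def LineFive (F : V → ℝ) : Prop :=
  ∀ p d : V, d ≠ 0 → {t : ℝ | F (p + t • d) = 0}.encard ≤ 5

/-- No straight line crosses the hypersurface `F = 0` six times (for `{F ≤ 0}` bounded the outer signs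
on every line are positive). -/
def NoSix (F : V → ℝ) : Prop :=
  ∀ (p d : V) (t₁ t₂ t₃ t₄ t₅ : ℝ), t₁ < t₂ → t₂ < t₃ → t₃ < t₄ → t₄ < t₅ →
    F (p + t₁ • d) < 0 → 0 < F (p + t₂ • d) → F (p + t₃ • d) < 0 → 0 < F (p + t₄ • d) →
    F (p + t₅ • d) < 0 → False

/-- The hypersurface `F = 0` contains no straight segment. -/
def NoSeg (F : V → ℝ) : Prop := ∀ p d : V, d ≠ 0 → ∃ t ∈ Icc (0 : ℝ) 1, F (p + t • d) ≠ 0

/-- On the open ray from `o` in the direction `v`: strictly between two points of `{k ≤ 0}` the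
function `k` is negative. -/
def RayNeg (k : V → ℝ) (o v : V) : Prop :=
  ∀ s r t : ℝ, 0 < s → s < r → r < t → k (o + s • v) ≤ 0 → k (o + t • v) ≤ 0 → k (o + r • v) < 0

open scoped Classical in
/-- A function of degree zero is cut off at a large and at a small radius. -/
noncomputable def shell (ψ : V → ℝ) (x : V) : ℝ :=
  if x = 0 then 1 else min 1 (max (ψ x) (|Real.log ‖x‖| - 1))

/-- The trimming function: a large ball tangent at `x`. -/
noncomputable def trimf (e x : V) (κ : ℝ) (y : V) : ℝ := ⟪e, y - x⟫ + κ * ‖y - x‖ ^ 2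

/-- Degree zero functions: constant on the open rays from the origin, continuous off the origin and
with tangential descent directions at the zeros off the origin. -/
structure DegZero (ψ : V → ℝ) : Prop where
  deg : ∀ (c : ℝ) (x : V), 0 < c → ψ (c • x) = ψ x
  cont : ContinuousOn ψ {0}ᶜ
  desc : ∀ x : V, x ≠ 0 → ψ x = 0 → ∃ v : V, ⟪v, x⟫ = 0 ∧ Desc1 ψ x v

end Pool.Schoen
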