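import Pool.Agent.H.MP_6c077c_gt.Hx.Defs
import Pool.Agent.H.MP_6c077c_gt.Hx.Out
import Pool.Agent.H.MP_6c077c_gt.Ix.DescB

/-! Hexasecant theorem: a direction whose ray from the centre misses the body. -/

set_option autoImplicit false

namespace Pool.Schoen

open Filter Set
open scoped Topology RealInnerProductSpace ContDiff

variable {V : Type*} [NormedAddCommGroup V] [InnerProductSpace ℝ V]

/-- If every ray from `0` meets `{k ≤ 0}`, then every ray meets `{k < 0}`: otherwise the ray meets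
`{k ≤ 0}` in one point `x0`, and the rays through `x0 - τ • w`, `w` a descent direction, would miss
`{k ≤ 0}` for small `τ > 0`. -/
theorem Dir_neg {k : V → ℝ} (hk : Good k) (hb : Bornology.IsBounded {x | k x ≤ 0}) (h0 : 0 < k 0)
    (hray : ∀ v, RayNeg k 0 v) (hall : ∀ v : V, ‖v‖ = 1 → ∃ s : ℝ, 0 ≤ s ∧ k (s • v) ≤ 0)
    (v : V) (hv : ‖v‖ = 1) : ∃ t : ℝ, 0 < t ∧ k (t • v) < 0 := by
  by_contra hcon
  push Not at hcon
  obtain ⟨s, hs, hks⟩ := hall v hv
  have hs0 : 0 < s := by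
    rcases hs.eq_or_lt with h | h
    · rw [← h, zero_smul] at hks
      linarith
    · exact h
  have huniq : ∀ t : ℝ, 0 < t → t ≠ s → 0 < k (t • v) := by
    intro t ht hts
    by_contra hneg
    push Not at hneg
    rcases lt_or_gt_of_ne hts with h | h
    · have h1 := hray v t ((t + s) / 2) s ht (by linarith) (by linarith)
        (by rw [zero_add]; exact hneg) (by rw [zero_add]; exact hks)
      rw [zero_add] at h1
      exact absurd h1 (not_lt.2 (hcon _ (by linarith)))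
    · have h1 := hray v s ((s + t) / 2) t hs0 (by linarith) (by linarith)
        (by rw [zero_add]; exact hks) (by rw [zero_add]; exact hneg)
      rw [zero_add] at h1
      exact absurd h1 (not_lt.2 (hcon _ (by linarith)))
  have hzero : k (s • v) = 0 := le_antisymm hks (hcon s hs0)
  obtain ⟨w, hw⟩ := hk.desc _ hzero
  obtain ⟨c, hc, d, hd, hdesc⟩ := hw.unif
  obtain ⟨R, hR⟩ := isBounded_iff_forall_norm_le.1 hb
  set x0 : V := s • v with hx0
  have hx0n : ‖x0‖ = s := by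
    rw [hx0, norm_smul, hv, mul_one, Real.norm_eq_abs, abs_of_pos hs0]
  have hR0 : 0 ≤ R := (norm_nonneg _).trans (hR x0 hks)
  have hcont : Continuous (fun z : ℝ × ℝ => z.2 • (x0 - z.1 • w)) := by fun_prop
  have key : ∀ᶠ τ in 𝓝 (0 : ℝ), ∀ l ∈ Icc (0 : ℝ) (2 * R / s), 0 < τ → 0 < k (l • (x0 - τ • w)) := by
    refine isCompact_Icc.eventually_forall_of_forall_eventually (fun l hl => ?_)
    by_cases h1 : l = 1
    · subst h1
      have e1 : ∀ᶠ z : ℝ × ℝ in 𝓝 ((0 : ℝ), (1 : ℝ)), ‖z.2 • (x0 - z.1 • w) - x0‖ < d := by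
        have : Continuous (fun z : ℝ × ℝ => ‖z.2 • (x0 - z.1 • w) - x0‖) := by fun_prop
        refine this.continuousAt.eventually_lt continuousAt_const ?_
        simpa using hd
      have e2 : ∀ᶠ z : ℝ × ℝ in 𝓝 ((0 : ℝ), (1 : ℝ)), z.2 * z.1 < d := by
        have : Continuous (fun z : ℝ × ℝ => z.2 * z.1) := by fun_prop
        refine this.continuousAt.eventually_lt continuousAt_const ?_
        simpa using hd
      have e3 : ∀ᶠ z : ℝ × ℝ in 𝓝 ((0 : ℝ), (1 : ℝ)), 0 < z.2 := by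
        have : Continuous (fun z : ℝ × ℝ => z.2) := continuous_snd
        exact continuousAt_const.eventually_lt this.continuousAt (by simp)
      filter_upwards [e1, e2, e3] with z h1 h2 h3 hτ
      have h4 := hdesc _ h1 w (by simpa using hd) (z.2 * z.1) (mul_pos h3 hτ) h2
      have h5 : z.2 • (x0 - z.1 • w) + (z.2 * z.1) • w = (z.2 * s) • v := by
        rw [hx0]; module
      rw [h5] at h4
      have h6 := hcon (z.2 * s) (mul_pos h3 hs0)
      have h7 : 0 < c * (z.2 * z.1) := mul_pos hc (mul_pos h3 hτ)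
      linarith
    · have hpos : 0 < k (l • x0) := by
        rcases hl.1.eq_or_lt with h | h
        · rw [← h, zero_smul]; exact h0
        · have h2 := huniq (l * s) (mul_pos h hs0) (by
            intro h3
            apply h1
            have : l * s = 1 * s := by rw [h3, one_mul]
            exact mul_right_cancel₀ hs0.ne' this)
          rwa [hx0, smul_smul]
      have e1 : ∀ᶠ z : ℝ × ℝ in 𝓝 ((0 : ℝ), l), 0 < k (z.2 • (x0 - z.1 • w)) := by
        have : Continuous (fun z : ℝ × ℝ => k (z.2 • (x0 - z.1 • w))) := hk.cont.comp hcont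
        refine continuousAt_const.eventually_lt this.continuousAt ?_
        simpa using hpos
      filter_upwards [e1] with z h2 _
      exact h2
  have e4 : ∀ᶠ τ in 𝓝 (0 : ℝ), s / 2 < ‖x0 - τ • w‖ := by
    have : Continuous (fun τ : ℝ => ‖x0 - τ • w‖) := by fun_prop
    refine continuousAt_const.eventually_lt this.continuousAt ?_
    simp only [zero_smul, sub_zero, hx0n]
    linarith
  have e5 : ∀ᶠ τ in 𝓝[>] (0 : ℝ), 0 < τ ∧ s / 2 < ‖x0 - τ • w‖ ∧
      ∀ l ∈ Icc (0 : ℝ) (2 * R / s), 0 < τ → 0 < k (l • (x0 - τ • w)) := by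
    filter_upwards [self_mem_nhdsWithin, nhdsWithin_le_nhds e4, nhdsWithin_le_nhds key]
      with τ a b c using ⟨a, b, c⟩
  obtain ⟨τ, hτ, hn, hP⟩ := e5.exists
  set y : V := x0 - τ • w with hy
  have hyn : 0 < ‖y‖ := by linarith [half_pos hs0]
  obtain ⟨r, hr, hkr⟩ := hall (‖y‖⁻¹ • y) (by
    rw [norm_smul, norm_inv, norm_norm, inv_mul_cancel₀ hyn.ne'])
  rw [smul_smul] at hkr
  have hrn := hR _ hkr
  rw [norm_smul, norm_mul, norm_inv, norm_norm, Real.norm_eq_abs, abs_of_nonneg hr, mul_assoc,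
    inv_mul_cancel₀ hyn.ne', mul_one] at hrn
  refine absurd hkr (not_le.2 (hP (r * ‖y‖⁻¹) ⟨by positivity, ?_⟩ hτ))
  calc r * ‖y‖⁻¹ ≤ R * ‖y‖⁻¹ := mul_le_mul_of_nonneg_right hrn (by positivity)
    _ ≤ R * (s / 2)⁻¹ := mul_le_mul_of_nonneg_left (inv_anti₀ (half_pos hs0) hn.le) hR0
    _ = 2 * R / s := by field_simp

/-- Core form. -/
theorem Dir_core [Nontrivial V] {k : V → ℝ} (hk : Good k)
    (hb : Bornology.IsBounded {x | k x ≤ 0}) (h0 : 0 < k 0) (hray : ∀ v, RayNeg k 0 v)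
    (hconn : ∀ ρ0 : ℝ, ∃ ρ : ℝ, ρ0 ≤ ρ ∧ IsPreconnected {x : V | 0 ≤ k x ∧ ‖x‖ ≤ ρ}) :
    ∃ v0 : V, ‖v0‖ = 1 ∧ ∀ s : ℝ, 0 ≤ s → 0 < k (s • v0) := by
  by_contra hcon
  push Not at hcon
  have hneg := Dir_neg hk hb h0 hray hcon
  obtain ⟨R, hR⟩ := isBounded_iff_forall_norm_le.1 hb
  obtain ⟨v, hv⟩ := exists_norm_eq V zero_le_one
  obtain ⟨t, ht, hkt⟩ := hneg v hv
  obtain ⟨ρ, hρ, hpre⟩ := hconn (max (R + 1) (t + 1))
  have hρR : R + 1 ≤ ρ := (le_max_left _ _).trans hρ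
  have hρt : t + 1 ≤ ρ := (le_max_right _ _).trans hρ
  have hρ0 : 0 < ρ := by linarith
  obtain ⟨d, hd, hball⟩ := Metric.eventually_nhds_iff.1
    (continuousAt_const.eventually_lt hk.cont.continuousAt h0 : ∀ᶠ x in 𝓝 (0 : V), 0 < k x)
  have hopen : ∀ T : Set ℝ, IsOpen {x : V | ∃ a ∈ T, k (a • x) < 0} := by
    intro T
    have : {x : V | ∃ a ∈ T, k (a • x) < 0} = ⋃ a ∈ T, {x : V | k (a • x) < 0} := by
      ext x; simp
    rw [this]
    exact isOpen_biUnion fun a _ =>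
      isOpen_lt (hk.cont.comp (continuous_const_smul a)) continuous_const
  set U : Set V := {x : V | ∃ a ∈ Ioi (1 : ℝ), k (a • x) < 0} ∪ Metric.ball 0 d with hU
  set W : Set V := {x : V | ∃ a ∈ Ioo (0 : ℝ) 1, k (a • x) < 0} with hW
  have hUo : IsOpen U := (hopen _).union Metric.isOpen_ball
  have hWo : IsOpen W := hopen _
  have g1 : {x : V | 0 ≤ k x ∧ ‖x‖ ≤ ρ} ⊆ U ∪ W := by
    rintro x ⟨hx1, hx2⟩
    by_cases hx0 : x = 0
    · left; right
      rw [hx0]
      exact Metric.mem_ball_self hd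
    · have hxn : 0 < ‖x‖ := norm_pos_iff.2 hx0
      obtain ⟨r, hr, hkr⟩ := hneg (‖x‖⁻¹ • x) (by
        rw [norm_smul, norm_inv, norm_norm, inv_mul_cancel₀ hxn.ne'])
      rw [smul_smul] at hkr
      rcases lt_trichotomy (r * ‖x‖⁻¹) 1 with h | h | h
      · exact Or.inr ⟨_, ⟨by positivity, h⟩, hkr⟩
      · rw [h, one_smul] at hkr
        linarith
      · exact Or.inl (Or.inl ⟨_, h, hkr⟩)
  have g2 : ({x : V | 0 ≤ k x ∧ ‖x‖ ≤ ρ} ∩ U).Nonempty :=
    ⟨0, ⟨h0.le, by rw [norm_zero]; exact hρ0.le⟩, Or.inr (Metric.mem_ball_self hd)⟩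
  have g3 : ({x : V | 0 ≤ k x ∧ ‖x‖ ≤ ρ} ∩ W).Nonempty := by
    have hnρ : ‖ρ • v‖ = ρ := by
      rw [norm_smul, hv, mul_one, Real.norm_eq_abs, abs_of_pos hρ0]
    refine ⟨ρ • v, ⟨?_, hnρ.le⟩, ρ⁻¹ * t, ⟨by positivity, ?_⟩, ?_⟩
    · by_contra hlt
      push Not at hlt
      have := hR (ρ • v) hlt.le
      rw [hnρ] at this
      linarith
    · rw [inv_mul_lt_iff₀ hρ0, mul_one]
      linarith
    · rw [smul_smul, mul_assoc, mul_comm t ρ, ← mul_assoc, inv_mul_cancel₀ hρ0.ne', one_mul]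
      exact hkt
  obtain ⟨x, ⟨hx1, hx2⟩, hxU, ⟨a, ha, hka⟩⟩ := hpre U W hUo hWo g1 g2 g3
  rcases hxU with ⟨b, hb1, hkb⟩ | hxb
  · have h1 := hray x a 1 b ha.1 ha.2 hb1 (by rw [zero_add]; exact hka.le)
      (by rw [zero_add]; exact hkb.le)
    rw [zero_add, one_smul] at h1
    linarith
  · have h1 : 0 < k (a • x) := by
      refine hball ?_
      rw [dist_zero_right, norm_smul, Real.norm_eq_abs, abs_of_pos ha.1]
      rw [Metric.mem_ball, dist_zero_right] at hxb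
      calc a * ‖x‖ ≤ 1 * ‖x‖ := mul_le_mul_of_nonneg_right ha.2.le (norm_nonneg _)
        _ < d := by rwa [one_mul]
    linarith

/-- PROOF. If every ray meets `{k ≤ 0}`, then every ray meets `{k < 0}` (a descent direction at a touching
point gives nearby rays which miss the body); the part of `{0 ≤ k}` before and the part after the
window are closed, disjoint and nonempty. -/
theorem hx_dir [FiniteDimensional ℝ V] [Nontrivial V] (k : V → ℝ) (hk : Good k)
    (hb : Bornology.IsBounded {x | k x ≤ 0}) (h0 : 0 < k 0) (hU : ∀ v, RayNeg k 0 v)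
    (hout : ∃ ρ₀ : ℝ, ∀ ρ, ρ₀ ≤ ρ → OutTop k ρ) :
    ∃ v₀ : V, ‖v₀‖ = 1 ∧ ∀ s : ℝ, 0 ≤ s → 0 < k (s • v₀) := by
  obtain ⟨ρ₀, h⟩ := hout
  exact Dir_core hk hb h0 hU fun ρ1 =>
    ⟨max ρ₀ ρ1, le_max_right _ _, (h _ (le_max_left _ _)).1.isPreconnected⟩

end Pool.Schoen
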