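import Mathlib

/-! Hexasecant theorem: exponential sums with at most two negative coefficients have at most four
zeros on every line (Descartes' rule of signs). -/

set_option autoImplicit false

namespace Pool.Schoen

open Filter Set
open scoped Topology RealInnerProductSpace

section oneVar

variable {ι : Type*}

/-- Descartes' rule for exponential sums: if the sign changes of the coefficients are separated by
the thresholds in the list `L` then there are not `L.length + 1` zeros. -/
theorem descartes_seq (s : Finset ι) (α : ι → ℝ) : ∀ (L : List ℝ) (c : ι → ℝ),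
    (∀ i ∈ s, 0 ≤ c i * (L.map fun θ => α i - θ).prod) →
    (∃ i ∈ s, 0 < c i * (L.map fun θ => α i - θ).prod) →
    ∀ t : ℕ → ℝ, (∀ j < L.length, t j < t (j + 1)) →
      (∀ j ≤ L.length, ∑ i ∈ s, c i * Real.exp (α i * t j) = 0) → False := by
  intro L
  induction L with
  | nil =>
    intro c h1 h2 t _ h4
    have h5 := h4 0 le_rfl
    have h6 : 0 < ∑ i ∈ s, c i * Real.exp (α i * t 0) := by
      apply Finset.sum_pos'
      · intro i hi
        have := h1 i hi
        simp only [List.map_nil, List.prod_nil, mul_one] at this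
        positivity
      · obtain ⟨i, hi, h⟩ := h2
        simp only [List.map_nil, List.prod_nil, mul_one] at h
        exact ⟨i, hi, by positivity⟩
    linarith
  | cons θ L ih =>
    intro c h1 h2 t h3 h4
    have hder : ∀ x : ℝ, HasDerivAt
        (fun x : ℝ => Real.exp (-(θ * x)) * ∑ i ∈ s, c i * Real.exp (α i * x))
        (Real.exp (-(θ * x)) * ∑ i ∈ s, c i * (α i - θ) * Real.exp (α i * x)) x := by
      intro x
      have e1 : HasDerivAt (fun x : ℝ => Real.exp (-(θ * x))) (Real.exp (-(θ * x)) * -(θ * 1)) x :=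
        (((hasDerivAt_id x).const_mul θ).neg).exp
      have e2 : HasDerivAt (fun x : ℝ => ∑ i ∈ s, c i * Real.exp (α i * x))
          (∑ i ∈ s, c i * (Real.exp (α i * x) * (α i * 1))) x := by
        apply HasDerivAt.fun_sum
        intro i _
        exact (((hasDerivAt_id x).const_mul (α i)).exp).const_mul (c i)
      have e3 := e1.mul e2
      have e4 : Real.exp (-(θ * x)) * -(θ * 1) * ∑ i ∈ s, c i * Real.exp (α i * x) +
          Real.exp (-(θ * x)) * ∑ i ∈ s, c i * (Real.exp (α i * x) * (α i * 1)) =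
          Real.exp (-(θ * x)) * ∑ i ∈ s, c i * (α i - θ) * Real.exp (α i * x) := by
        rw [Finset.mul_sum, Finset.mul_sum, Finset.mul_sum, ← Finset.sum_add_distrib]
        apply Finset.sum_congr rfl
        intro i _
        ring
      rw [e4] at e3
      exact e3
    have hroll : ∀ j : ℕ, ∃ y : ℝ, j ≤ L.length → t j < y ∧ y < t (j + 1) ∧
        ∑ i ∈ s, c i * (α i - θ) * Real.exp (α i * y) = 0 := by
      intro j
      by_cases hj : j ≤ L.length
      · have h5 : t j < t (j + 1) := h3 j (by simp only [List.length_cons]; omega)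
        have h6 := h4 j (by simp only [List.length_cons]; omega)
        have h7 := h4 (j + 1) (by simp only [List.length_cons]; omega)
        obtain ⟨y, hy, hy'⟩ := exists_hasDerivAt_eq_zero h5
          (f := fun x : ℝ => Real.exp (-(θ * x)) * ∑ i ∈ s, c i * Real.exp (α i * x))
          (f' := fun x : ℝ => Real.exp (-(θ * x)) * ∑ i ∈ s, c i * (α i - θ) * Real.exp (α i * x))
          (fun x _ => (hder x).continuousAt.continuousWithinAt)
          (by simp only [h6, h7, mul_zero]) (fun x _ => hder x)
        refine ⟨y, fun _ => ⟨hy.1, hy.2, ?_⟩⟩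
        rcases mul_eq_zero.1 hy' with h | h
        · exact absurd h (Real.exp_pos _).ne'
        · exact h
      · exact ⟨0, fun h => absurd h hj⟩
    choose y hy using hroll
    refine ih (fun i => c i * (α i - θ)) ?_ ?_ y ?_ ?_
    · intro i hi
      have := h1 i hi
      simp only [List.map_cons, List.prod_cons] at this
      rwa [← mul_assoc] at this
    · obtain ⟨i, hi, h⟩ := h2
      simp only [List.map_cons, List.prod_cons] at h
      exact ⟨i, hi, by rwa [← mul_assoc] at h⟩
    · intro j hj
      exact ((hy j hj.le).2.1).trans (hy (j + 1) hj).1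
    · intro j hj
      exact (hy j hj).2.2

/-- The same with the number of zeros. -/
theorem descartes_card (s : Finset ι) (α c : ι → ℝ) (L : List ℝ)
    (h1 : ∀ i ∈ s, 0 ≤ c i * (L.map fun θ => α i - θ).prod)
    (h2 : ∃ i ∈ s, 0 < c i * (L.map fun θ => α i - θ).prod) :
    {t : ℝ | ∑ i ∈ s, c i * Real.exp (α i * t) = 0}.encard ≤ L.length := by
  by_contra h
  push Not at h
  have h3 : ((L.length + 1 : ℕ) : ℕ∞) ≤ {t : ℝ | ∑ i ∈ s, c i * Real.exp (α i * t) = 0}.encard := by
    push_cast
    exact Order.add_one_le_of_lt h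
  obtain ⟨T, hT, hT'⟩ := Set.exists_subset_encard_eq h3
  have hfin : T.Finite := Set.finite_of_encard_eq_coe hT'
  lift T to Finset ℝ using hfin
  rw [Set.encard_coe_eq_coe_finsetCard] at hT'
  have hc : T.card = L.length + 1 := by exact_mod_cast hT'
  let e := T.orderEmbOfFin hc
  have hlt : ∀ j : ℕ, j < L.length + 1 → j < L.length + 1 := fun _ h => h
  refine descartes_seq s α L c h1 h2
    (fun j => if h : j < L.length + 1 then e ⟨j, h⟩ else 0) ?_ ?_
  · intro j hj
    have h5 : j < L.length + 1 := by omega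
    have h6 : j + 1 < L.length + 1 := by omega
    simp only [dif_pos h5, dif_pos h6]
    exact e.strictMono (by simp [Fin.lt_def])
  · intro j hj
    have h5 : j < L.length + 1 := by omega
    simp only [dif_pos h5]
    exact hT (T.orderEmbOfFin_mem hc ⟨j, h5⟩)

/-- Two exponentials. -/
theorem two_exp (A B β γ : ℝ) {t₁ t₂ : ℝ} (h : t₁ < t₂)
    (h1 : A * Real.exp (β * t₁) + B * Real.exp (γ * t₁) = 0)
    (h2 : A * Real.exp (β * t₂) + B * Real.exp (γ * t₂) = 0) (t : ℝ) :
    A * Real.exp (β * t) + B * Real.exp (γ * t) = 0 := by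
  have e : ∀ t : ℝ, A * Real.exp (β * t) + B * Real.exp (γ * t) =
      Real.exp (β * t) * (A + B * Real.exp ((γ - β) * t)) := by
    intro t
    rw [mul_add, sub_mul, Real.exp_sub]
    field_simp
  have key : ∀ t : ℝ, A * Real.exp (β * t) + B * Real.exp (γ * t) = 0 →
      A + B * Real.exp ((γ - β) * t) = 0 := by
    intro t ht
    rw [e] at ht
    rcases mul_eq_zero.1 ht with h | h
    · exact absurd h (Real.exp_pos _).ne'
    · exact h
  have k1 := key _ h1
  have k2 := key _ h2
  have k3 : B * (Real.exp ((γ - β) * t₁) - Real.exp ((γ - β) * t₂)) = 0 := by linarith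
  rw [e]
  rcases mul_eq_zero.1 k3 with h3 | h3
  · rw [h3, zero_mul, add_zero] at k1 ⊢
    rw [k1, mul_zero]
  · have h4 : (γ - β) * t₁ = (γ - β) * t₂ := Real.exp_injective (by linarith)
    have h5 : γ - β = 0 := by
      have : (γ - β) * (t₁ - t₂) = 0 := by linarith
      rcases mul_eq_zero.1 this with h6 | h6
      · exact h6
      · linarith
    rw [h5, zero_mul, Real.exp_zero] at k1 ⊢
    rw [k1, mul_zero]

/-- At most two negative coefficients: at most four zeros, or identically zero. -/
theorem expSum_zeros (s : Finset ι) (α c : ι → ℝ) (β₁ β₂ : ℝ)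
    (h : ∀ i ∈ s, c i < 0 → α i = β₁ ∨ α i = β₂) :
    (∀ t : ℝ, ∑ i ∈ s, c i * Real.exp (α i * t) = 0) ∨
      {t : ℝ | ∑ i ∈ s, c i * Real.exp (α i * t) = 0}.encard ≤ 4 := by
  by_cases hex : ∃ i ∈ s, 0 < c i ∧ α i ≠ β₁ ∧ α i ≠ β₂
  · right
    obtain ⟨i, hi, h0, h1, h2⟩ := hex
    have := descartes_card s α c [β₁, β₁, β₂, β₂] ?_ ?_
    · simpa using this
    · intro j hj
      simp only [List.map_cons, List.map_nil, List.prod_cons, List.prod_nil, mul_one]
      rcases lt_or_ge (c j) 0 with h3 | h3
      · rcases h j hj h3 with h4 | h4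
        · rw [h4]
          simp
        · rw [h4]
          simp
      · have : 0 ≤ (α j - β₁) * ((α j - β₁) * ((α j - β₂) * (α j - β₂))) := by
          nlinarith [mul_nonneg (sq_nonneg (α j - β₁)) (sq_nonneg (α j - β₂))]
        exact mul_nonneg h3 this
    · refine ⟨i, hi, ?_⟩
      simp only [List.map_cons, List.map_nil, List.prod_cons, List.prod_nil, mul_one]
      have a1 : 0 < (α i - β₁) ^ 2 := by
        have := sub_ne_zero.2 h1
        positivity
      have a2 : 0 < (α i - β₂) ^ 2 := by
        have := sub_ne_zero.2 h2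
        positivity
      have : 0 < (α i - β₁) * ((α i - β₁) * ((α i - β₂) * (α i - β₂))) := by
        nlinarith [mul_pos a1 a2]
      exact mul_pos h0 this
  · push Not at hex
    -- the sum is `A e^{β₁ t} + B e^{β₂ t}`
    have hAB : ∃ A B : ℝ, ∀ t : ℝ, ∑ i ∈ s, c i * Real.exp (α i * t) =
        A * Real.exp (β₁ * t) + B * Real.exp (β₂ * t) := by
      have h5 : ∀ i ∈ s, c i ≠ 0 → α i = β₁ ∨ α i = β₂ := by
        intro i hi h0
        rcases lt_or_gt_of_ne h0 with h6 | h6
        · exact h i hi h6
        · by_contra h7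
          push Not at h7
          exact h7.2 (hex i hi h6 h7.1)
      classical
      refine ⟨∑ i ∈ s, if α i = β₁ then c i else 0, ∑ i ∈ s, if α i = β₁ then 0 else c i,
        fun t => ?_⟩
      rw [Finset.sum_mul, Finset.sum_mul, ← Finset.sum_add_distrib]
      apply Finset.sum_congr rfl
      intro i hi
      by_cases h6 : α i = β₁
      · simp [h6]
      · by_cases h7 : c i = 0
        · simp [h7]
        · rcases h5 i hi h7 with h8 | h8
          · exact absurd h8 h6
          · rw [if_neg h6, if_neg h6, h8]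
            ring
    obtain ⟨A, B, hAB⟩ := hAB
    by_cases h2 : ∃ t₁ t₂ : ℝ, t₁ < t₂ ∧ ∑ i ∈ s, c i * Real.exp (α i * t₁) = 0 ∧
        ∑ i ∈ s, c i * Real.exp (α i * t₂) = 0
    · left
      obtain ⟨t₁, t₂, h3, h4, h5⟩ := h2
      intro t
      rw [hAB] at h4 h5 ⊢
      exact two_exp A B β₁ β₂ h3 h4 h5 t
    · right
      push Not at h2
      have h3 : {t : ℝ | ∑ i ∈ s, c i * Real.exp (α i * t) = 0}.Subsingleton := by
        intro x hx y hy
        rcases lt_trichotomy x y with h4 | h4 | h4
        · exact absurd hy (h2 x y h4 hx)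
        · exact h4
        · exact absurd hx (h2 y x h4 hy)
      exact (Set.encard_le_one_iff_subsingleton.2 h3).trans (by norm_num)

end oneVar

section lines

variable {V : Type*} [NormedAddCommGroup V] [InnerProductSpace ℝ V] {ι : Type*}

/-- The exponential sum `∑ c i * exp ⟪a i, u⟫`. -/
noncomputable def expSum (s : Finset ι) (c : ι → ℝ) (a : ι → V) (u : V) : ℝ :=
  ∑ i ∈ s, c i * Real.exp ⟪a i, u⟫

theorem expSum_line (s : Finset ι) (c : ι → ℝ) (a : ι → V) (p d : V) (t : ℝ) :
    expSum s c a (p + t • d) =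
      ∑ i ∈ s, (c i * Real.exp ⟪a i, p⟫) * Real.exp (⟪a i, d⟫ * t) := by
  unfold expSum
  apply Finset.sum_congr rfl
  intro i _
  rw [inner_add_right, real_inner_smul_right, Real.exp_add, mul_assoc, mul_comm t]

theorem exists_two_of_card {s : Finset ι} {c : ι → ℝ}
    (h2 : (s.filter fun i => c i < 0).card ≤ 2) (α : ι → ℝ) :
    ∃ β₁ β₂ : ℝ, ∀ i ∈ s, c i < 0 → α i = β₁ ∨ α i = β₂ := by
  classical
  have h3 : (s.filter fun i => c i < 0).card = 0 ∨ (s.filter fun i => c i < 0).card = 1 ∨
      (s.filter fun i => c i < 0).card = 2 := by omega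
  rcases h3 with h | h | h
  · refine ⟨0, 0, fun i hi hc => ?_⟩
    have : i ∈ s.filter fun i => c i < 0 := Finset.mem_filter.2 ⟨hi, hc⟩
    rw [Finset.card_eq_zero.1 h] at this
    simp at this
  · obtain ⟨j, hj⟩ := Finset.card_eq_one.1 h
    refine ⟨α j, α j, fun i hi hc => ?_⟩
    have : i ∈ s.filter fun i => c i < 0 := Finset.mem_filter.2 ⟨hi, hc⟩
    rw [hj, Finset.mem_singleton] at this
    exact Or.inl (by rw [this])
  · obtain ⟨j, k, -, hj⟩ := Finset.card_eq_two.1 h
    refine ⟨α j, α k, fun i hi hc => ?_⟩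
    have : i ∈ s.filter fun i => c i < 0 := Finset.mem_filter.2 ⟨hi, hc⟩
    rw [hj, Finset.mem_insert, Finset.mem_singleton] at this
    rcases this with h | h
    · exact Or.inl (by rw [h])
    · exact Or.inr (by rw [h])

/-- A compact relatively open part `M` of the zero set of an exponential sum with at most two negative
coefficients meets every line in at most four points. -/
theorem expSum_lineFour {s : Finset ι} {c : ι → ℝ} {a : ι → V}
    (h2 : (s.filter fun i => c i < 0).card ≤ 2) {M U : Set V} (hU : IsOpen U)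
    (hM : M = U ∩ {u | expSum s c a u = 0}) (hc : IsCompact M) (p d : V) (hd : d ≠ 0) :
    {t : ℝ | p + t • d ∈ M}.encard ≤ 4 := by
  classical
  obtain ⟨β₁, β₂, hβ⟩ := exists_two_of_card h2 (fun i => ⟪a i, d⟫)
  have hβ' : ∀ i ∈ s, c i * Real.exp ⟪a i, p⟫ < 0 → ⟪a i, d⟫ = β₁ ∨ ⟪a i, d⟫ = β₂ := by
    intro i hi h
    apply hβ i hi
    by_contra h3
    push Not at h3
    have := mul_nonneg h3 (Real.exp_pos ⟪a i, p⟫).le
    linarith
  have hsub : {t : ℝ | p + t • d ∈ M} ⊆ {t : ℝ | ∑ i ∈ s,
      (c i * Real.exp ⟪a i, p⟫) * Real.exp (⟪a i, d⟫ * t) = 0} := by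
    intro t ht
    have h3 : p + t • d ∈ M := ht
    rw [hM] at h3
    have h4 : expSum s c a (p + t • d) = 0 := h3.2
    rwa [expSum_line] at h4
  rcases expSum_zeros s (fun i => ⟪a i, d⟫) (fun i => c i * Real.exp ⟪a i, p⟫) β₁ β₂ hβ' with h | h
  · -- the whole line lies in the zero set
    have hline : Continuous fun t : ℝ => p + t • d := by fun_prop
    have hcl : IsClosed {t : ℝ | p + t • d ∈ M} := hc.isClosed.preimage hline
    have hop : IsOpen {t : ℝ | p + t • d ∈ M} := by
      have : {t : ℝ | p + t • d ∈ M} = (fun t : ℝ => p + t • d) ⁻¹' U := by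
        ext t
        simp only [mem_setOf_eq, mem_preimage]
        rw [hM]
        constructor
        · exact fun h3 => h3.1
        · intro h3
          refine ⟨h3, ?_⟩
          show expSum s c a (p + t • d) = 0
          rw [expSum_line]
          exact h t
      rw [this]
      exact hU.preimage hline
    rcases isClopen_iff.1 ⟨hcl, hop⟩ with h3 | h3
    · rw [h3]
      simp
    · exfalso
      obtain ⟨R, hR⟩ := hc.isBounded.exists_norm_le
      have hdn : 0 < ‖d‖ := norm_pos_iff.2 hd
      have h4 : p + ((R + ‖p‖ + 1) / ‖d‖) • d ∈ M := by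
        have : ((R + ‖p‖ + 1) / ‖d‖) ∈ {t : ℝ | p + t • d ∈ M} := by
          rw [h3]
          trivial
        exact this
      have h5 := hR _ h4
      have hR0 : 0 ≤ R := (norm_nonneg _).trans h5
      have h6 : ‖((R + ‖p‖ + 1) / ‖d‖) • d‖ = R + ‖p‖ + 1 := by
        rw [norm_smul, Real.norm_eq_abs, abs_of_nonneg (by positivity), div_mul_cancel₀ _ hdn.ne']
      have h7 : ‖((R + ‖p‖ + 1) / ‖d‖) • d‖ ≤ ‖p + ((R + ‖p‖ + 1) / ‖d‖) • d‖ + ‖p‖ := by
        have := norm_sub_le (p + ((R + ‖p‖ + 1) / ‖d‖) • d) p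
        rwa [add_sub_cancel_left] at this
      rw [h6] at h7
      linarith
  · exact (Set.encard_le_encard hsub).trans h

/-- The exponential sum is smooth. -/
theorem expSum_contDiff (s : Finset ι) (c : ι → ℝ) (a : ι → V) {n : WithTop ℕ∞} :
    ContDiff ℝ n (expSum s c a) := by
  unfold expSum
  apply ContDiff.sum
  intro i _
  exact contDiff_const.mul ((contDiff_const.inner ℝ contDiff_id).exp)

end lines

end Pool.Schoen
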