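import Pool.Agent.H.MP_6c077c_gt.Hx.PolyM
import Pool.Agent.H.MP_6c077c_gt.Hx.ExpSum

/-! Hexasecant theorem: compact nonsingular parts of the zero sets of exponential sums with at most
two negative coefficients are regular level sets meeting every line in at most five points. -/

set_option autoImplicit false

namespace Pool.Schoen

open Set Filter
open scoped Topology ContDiff RealInnerProductSpace

variable {V : Type*} [NormedAddCommGroup V] [InnerProductSpace ℝ V] [FiniteDimensional ℝ V]
  {ι : Type*}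

theorem hx_expSumM (hdim : 2 ≤ Module.finrank ℝ V) {s : Finset ι} {c : ι → ℝ} {a : ι → V}
    (h2 : (s.filter fun i => c i < 0).card ≤ 2) {M U : Set V} (hM : IsCompact M)
    (hconn : IsConnected M) (hU : IsOpen U) (hMU : M = U ∩ {u | expSum s c a u = 0})
    (hreg : ∀ x ∈ M, gradient (expSum s c a) x ≠ 0) :
    ∃ F : V → ℝ, ContDiff ℝ ∞ F ∧ Bornology.IsBounded {x | F x ≤ 0} ∧
      (∀ x, F x = 0 → gradient F x ≠ 0) ∧ {x | F x = 0} = M ∧ LineFive F := by
  obtain ⟨F, h3, h4, h5, h6⟩ := polym_defining hdim (expSum_contDiff s c a) hM hconn hU hMU hreg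
  refine ⟨F, h3, h4, h5, h6, ?_⟩
  intro p d hd
  have h7 := expSum_lineFour h2 hU hMU hM p d hd
  have h8 : {t : ℝ | F (p + t • d) = 0} = {t : ℝ | p + t • d ∈ M} := by
    ext t
    rw [← h6]
    rfl
  rw [h8]
  exact h7.trans (by norm_num)

end Pool.Schoen
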