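import Mathlib

/-! Hexasecant theorem: rays from an outer point whose opposite ray meets the open body.
The hypothesis `hl` (no line meets the hypersurface in more than five points) is `LineFive F`. -/

set_option autoImplicit false

namespace Pool.Schoen

open Filter Set
open scoped Topology RealInnerProductSpace ContDiff

variable {V : Type*} [NormedAddCommGroup V] [InnerProductSpace ℝ V]

/-- Six zeros. -/
theorem RayK_enc {g : ℝ → ℝ} {z1 z2 z3 z4 z5 z6 : ℝ} (h12 : z1 < z2) (h23 : z2 < z3) (h34 : z3 < z4)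
    (h45 : z4 < z5) (h56 : z5 < z6) (e1 : g z1 = 0) (e2 : g z2 = 0) (e3 : g z3 = 0) (e4 : g z4 = 0)
    (e5 : g z5 = 0) (e6 : g z6 = 0) : 5 < {t : ℝ | g t = 0}.encard := by
  have hsub : ({z1, z2, z3, z4, z5, z6} : Set ℝ) ⊆ {t : ℝ | g t = 0} := by
    intro z hz
    simp only [mem_insert_iff, mem_singleton_iff] at hz
    rcases hz with rfl | rfl | rfl | rfl | rfl | rfl <;> assumption
  have hcard : ({z1, z2, z3, z4, z5, z6} : Set ℝ).encard = 6 := by
    have n12 : z1 ≠ z2 := by intro h; linarith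
    have n13 : z1 ≠ z3 := by intro h; linarith
    have n14 : z1 ≠ z4 := by intro h; linarith
    have n15 : z1 ≠ z5 := by intro h; linarith
    have n16 : z1 ≠ z6 := by intro h; linarith
    have n23 : z2 ≠ z3 := by intro h; linarith
    have n24 : z2 ≠ z4 := by intro h; linarith
    have n25 : z2 ≠ z5 := by intro h; linarith
    have n26 : z2 ≠ z6 := by intro h; linarith
    have n34 : z3 ≠ z4 := by intro h; linarith
    have n35 : z3 ≠ z5 := by intro h; linarith
    have n36 : z3 ≠ z6 := by intro h; linarith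
    have n45 : z4 ≠ z5 := by intro h; linarith
    have n46 : z4 ≠ z6 := by intro h; linarith
    have n56 : z5 ≠ z6 := by intro h; linarith
    rw [encard_insert_of_notMem, encard_insert_of_notMem, encard_insert_of_notMem,
      encard_insert_of_notMem, encard_insert_of_notMem, encard_singleton]
    · norm_num
    · simpa using n56
    · simp [n45, n46]
    · simp [n34, n35, n36]
    · simp [n23, n24, n25, n26]
    · simp [n12, n13, n14, n15, n16]
  calc (5 : ℕ∞) < 6 := by norm_num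
    _ = ({z1, z2, z3, z4, z5, z6} : Set ℝ).encard := hcard.symm
    _ ≤ _ := encard_le_encard hsub

theorem RayK_dn {g : ℝ → ℝ} (hg : Continuous g) {a b : ℝ} (hab : a < b) (ha : 0 < g a)
    (hb : g b < 0) : ∃ z, a < z ∧ z < b ∧ g z = 0 := by
  obtain ⟨z, hz, hz0⟩ := intermediate_value_Ioo' hab.le hg.continuousOn ⟨hb, ha⟩
  exact ⟨z, hz.1, hz.2, hz0⟩

theorem RayK_up {g : ℝ → ℝ} (hg : Continuous g) {a b : ℝ} (hab : a < b) (ha : g a < 0)
    (hb : 0 < g b) : ∃ z, a < z ∧ z < b ∧ g z = 0 := by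
  obtain ⟨z, hz, hz0⟩ := intermediate_value_Ioo hab.le hg.continuousOn ⟨ha, hb⟩
  exact ⟨z, hz.1, hz.2, hz0⟩

theorem RayK_cont {F : V → ℝ} (hF : Continuous F) (p d : V) :
    Continuous fun t : ℝ => F (p + t • d) :=
  hF.comp (by fun_prop)

/-- Far away on a line the function is positive. -/
theorem RayK_far {F : V → ℝ} (hb : Bornology.IsBounded {x | F x ≤ 0}) (p : V) {d : V}
    (hd : d ≠ 0) : ∃ R : ℝ, ∀ t : ℝ, R < |t| → 0 < F (p + t • d) := by
  obtain ⟨R, hR⟩ := hb.exists_norm_le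
  have hd' : 0 < ‖d‖ := norm_pos_iff.2 hd
  refine ⟨(R + ‖p‖) / ‖d‖, fun t ht => ?_⟩
  by_contra h
  have h1 := hR _ (not_lt.1 h)
  rw [div_lt_iff₀ hd'] at ht
  have h2 : ‖t • d‖ ≤ ‖p + t • d‖ + ‖p‖ := by
    have h3 := norm_sub_le (p + t • d) p
    rwa [add_sub_cancel_left] at h3
  rw [norm_smul, Real.norm_eq_abs] at h2
  linarith

/-- No line meets the open body in three separated pieces. -/
theorem RayK_six {F : V → ℝ} (hF : Continuous F) (hb : Bornology.IsBounded {x | F x ≤ 0})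
    (h : ∀ p d : V, d ≠ 0 → {t : ℝ | F (p + t • d) = 0}.encard ≤ 5) (p d : V)
    (t1 t2 t3 t4 t5 : ℝ) (h12 : t1 < t2) (h23 : t2 < t3) (h34 : t3 < t4)
    (h45 : t4 < t5) (s1 : F (p + t1 • d) < 0) (s2 : 0 < F (p + t2 • d))
    (s3 : F (p + t3 • d) < 0) (s4 : 0 < F (p + t4 • d)) (s5 : F (p + t5 • d) < 0) : False := by
  have hd : d ≠ 0 := by
    rintro rfl
    rw [smul_zero, add_zero] at s1 s2
    linarith
  obtain ⟨R, hR⟩ := RayK_far hb p hd
  have hg : Continuous fun t : ℝ => F (p + t • d) := RayK_cont hF p d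
  obtain ⟨t0, h01, s0⟩ : ∃ t0 : ℝ, t0 < t1 ∧ 0 < F (p + t0 • d) := by
    refine ⟨-|t1| - |R| - 1, by linarith [abs_nonneg R, neg_abs_le t1], hR _ ?_⟩
    rw [abs_of_neg (by linarith [abs_nonneg R, abs_nonneg t1])]
    linarith [le_abs_self R, abs_nonneg t1]
  obtain ⟨t6, h56, s6⟩ : ∃ t6 : ℝ, t5 < t6 ∧ 0 < F (p + t6 • d) := by
    refine ⟨|t5| + |R| + 1, by linarith [abs_nonneg R, le_abs_self t5], hR _ ?_⟩
    rw [abs_of_pos (by linarith [abs_nonneg R, abs_nonneg t5])]
    linarith [le_abs_self R, abs_nonneg t5]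
  obtain ⟨z1, a1, b1, e1⟩ := RayK_dn hg h01 s0 s1
  obtain ⟨z2, a2, b2, e2⟩ := RayK_up hg h12 s1 s2
  obtain ⟨z3, a3, b3, e3⟩ := RayK_dn hg h23 s2 s3
  obtain ⟨z4, a4, b4, e4⟩ := RayK_up hg h34 s3 s4
  obtain ⟨z5, a5, b5, e5⟩ := RayK_dn hg h45 s4 s5
  obtain ⟨z6, a6, b6, e6⟩ := RayK_up hg h56 s5 s6
  exact absurd (h p d hd) (not_le.2 (RayK_enc (g := fun t : ℝ => F (p + t • d))
    (by linarith) (by linarith) (by linarith) (by linarith) (by linarith) e1 e2 e3 e4 e5 e6))

theorem RayK_pert {F : V → ℝ} (hF : Continuous F) (p d u0 u1 : V) (t : ℝ) :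
    Tendsto (fun ε : ℝ => F ((p + ε • u0) + t • (d + ε • u1))) (𝓝[>] 0) (𝓝 (F (p + t • d))) := by
  have hc : Continuous fun ε : ℝ => F ((p + ε • u0) + t • (d + ε • u1)) := hF.comp (by fun_prop)
  have h := hc.tendsto 0
  simp only [zero_smul, add_zero] at h
  exact h.mono_left nhdsWithin_le_nhds

/-- The sign of `F` on a short way in a direction in which it decreases. -/
theorem RayK_neg {F : V → ℝ} {q v : V} (hF : DifferentiableAt ℝ F q) (h0 : F q = 0)
    (hv : fderiv ℝ F q v < 0) : ∀ᶠ s in 𝓝[>] (0 : ℝ), F (q + s • v) < 0 := by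
  have h1 : HasDerivAt (fun s : ℝ => F (q + s • v)) (fderiv ℝ F q v) 0 := by
    have h2 : HasDerivAt (fun s : ℝ => q + s • v) v 0 := by
      simpa using ((hasDerivAt_id (0 : ℝ)).smul_const v).const_add q
    have h3 : HasFDerivAt F (fderiv ℝ F q) (q + (0 : ℝ) • v) := by
      rw [zero_smul, add_zero]
      exact hF.hasFDerivAt
    exact h3.comp_hasDerivAt (0 : ℝ) h2
  have h2 := (hasDerivAt_iff_tendsto_slope.1 h1).eventually_lt_const hv
  have h3 : ∀ᶠ s in 𝓝[>] (0 : ℝ), slope (fun s : ℝ => F (q + s • v)) 0 s < 0 :=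
    h2.filter_mono (nhdsWithin_mono (0 : ℝ) fun s (hs : s ∈ Ioi (0 : ℝ)) => ne_of_gt hs)
  filter_upwards [h3, self_mem_nhdsWithin] with s hs hs0
  have hs0' : 0 < s := hs0
  rw [slope_def_field, zero_smul, add_zero, h0, sub_zero, sub_zero] at hs
  by_contra hc
  exact absurd (div_nonneg (not_lt.1 hc) hs0'.le) (not_le.2 hs)

theorem RayK_pos {F : V → ℝ} {q v : V} (hF : DifferentiableAt ℝ F q) (h0 : F q = 0)
    (hv : 0 < fderiv ℝ F q v) : ∀ᶠ s in 𝓝[>] (0 : ℝ), 0 < F (q + s • v) := by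
  have h := RayK_neg (F := fun x => -F x) (q := q) (v := v) hF.neg (by rw [h0, neg_zero])
    (by rw [fderiv_fun_neg]; simpa using hv)
  exact h.mono fun s hs => by linarith

/-- If the derivative along the line does not vanish, there are positive values nearby. -/
theorem RayK_near {F : V → ℝ} {p d : V} {t ε : ℝ} (hF : DifferentiableAt ℝ F (p + t • d))
    (h0 : F (p + t • d) = 0) (hv : fderiv ℝ F (p + t • d) d ≠ 0) (hε : 0 < ε) :
    ∃ t', |t' - t| < ε ∧ 0 < F (p + t' • d) := by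
  have l3 : ∀ᶠ s in 𝓝[>] (0 : ℝ), s < ε := nhdsWithin_le_nhds (gt_mem_nhds hε)
  rcases lt_or_gt_of_ne hv with h | h
  · have h1 := RayK_pos (v := -d) hF h0 (by rw [map_neg]; linarith)
    obtain ⟨s, f1, f2, f3⟩ := (h1.and (l3.and self_mem_nhdsWithin)).exists
    have f3' : 0 < s := f3
    refine ⟨t - s, ?_, ?_⟩
    · rw [abs_of_neg (by linarith)]
      linarith
    · have h2 : p + (t - s) • d = p + t • d + s • -d := by module
      rw [h2]
      exact f1
  · have h1 := RayK_pos (v := d) hF h0 h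
    obtain ⟨s, f1, f2, f3⟩ := (h1.and (l3.and self_mem_nhdsWithin)).exists
    have f3' : 0 < s := f3
    refine ⟨t + s, ?_, ?_⟩
    · rw [abs_of_pos (by linarith)]
      linarith
    · have h2 : p + (t + s) • d = p + t • d + s • d := by module
      rw [h2]
      exact f1

variable [CompleteSpace V]

theorem RayK_grad (F : V → ℝ) (x v : V) : fderiv ℝ F x v = ⟪gradient F x, v⟫ := by
  unfold gradient
  rw [InnerProductSpace.toDual_symm_apply]

theorem RayK_grad_pos {F : V → ℝ} {x : V} (h : gradient F x ≠ 0) :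
    0 < fderiv ℝ F x (gradient F x) := by
  rw [RayK_grad, real_inner_self_eq_norm_sq]
  have := norm_pos_iff.2 h
  positivity

/-- Pushing a point of the body into the open body. -/
theorem RayK_push {F : V → ℝ} (hF : Differentiable ℝ F) (hreg : ∀ x, F x = 0 → gradient F x ≠ 0)
    {p d u0 u1 : V} {a : ℝ} (sa : F (p + a • d) ≤ 0) (hu : u0 + a • u1 = -gradient F (p + a • d)) :
    ∀ᶠ ε in 𝓝[>] (0 : ℝ), F ((p + ε • u0) + a • (d + ε • u1)) < 0 := by
  rcases sa.lt_or_eq with h | h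
  · exact (RayK_pert hF.continuous p d u0 u1 a).eventually_lt_const h
  · have h1 := RayK_neg (v := -gradient F (p + a • d)) (hF (p + a • d)) h (by
      rw [map_neg]
      linarith [RayK_grad_pos (hreg _ h)])
    refine h1.mono fun ε hε => ?_
    have h2 : (p + ε • u0) + a • (d + ε • u1) = p + a • d + ε • -gradient F (p + a • d) := by
      rw [← hu]
      module
    rw [h2]
    exact hε

/-- The body does not meet the ray in two separated pieces. -/
theorem RayK_touch {F : V → ℝ} (hF : Differentiable ℝ F)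
    (hreg : ∀ x, F x = 0 → gradient F x ≠ 0)
    (h6 : ∀ (p d : V) (t1 t2 t3 t4 t5 : ℝ), t1 < t2 → t2 < t3 → t3 < t4 → t4 < t5 →
      F (p + t1 • d) < 0 → 0 < F (p + t2 • d) → F (p + t3 • d) < 0 → 0 < F (p + t4 • d) →
      F (p + t5 • d) < 0 → False)
    {p d : V} {t1 t2 a m b : ℝ} (h12 : t1 < t2)
    (h2a : t2 < a) (ham : a < m) (hmb : m < b) (s1 : F (p + t1 • d) < 0)
    (s2 : 0 < F (p + t2 • d)) (sa : F (p + a • d) ≤ 0) (sm : 0 < F (p + m • d))
    (sb : F (p + b • d) ≤ 0) : False := by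
  obtain ⟨n1, hn1⟩ : ∃ n, n = gradient F (p + a • d) := ⟨_, rfl⟩
  obtain ⟨n2, hn2⟩ : ∃ n, n = gradient F (p + b • d) := ⟨_, rfl⟩
  have hab : b - a ≠ 0 := by intro h; linarith
  obtain ⟨u1, hu1⟩ : ∃ u, u = (b - a)⁻¹ • (n1 - n2) := ⟨_, rfl⟩
  obtain ⟨u0, hu0⟩ : ∃ u, u = -n1 - a • u1 := ⟨_, rfl⟩
  have ha' : u0 + a • u1 = -n1 := by rw [hu0]; module
  have hb' : u0 + b • u1 = -n2 := by
    have h1 : u0 + b • u1 = -n1 + (b - a) • u1 := by rw [hu0]; module
    rw [h1, hu1, smul_smul, mul_inv_cancel₀ hab, one_smul]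
    abel
  have ka := RayK_push hF hreg sa (ha'.trans (by rw [hn1]))
  have kb := RayK_push hF hreg sb (hb'.trans (by rw [hn2]))
  have k1 := (RayK_pert hF.continuous p d u0 u1 t1).eventually_lt_const s1
  have k2 := (RayK_pert hF.continuous p d u0 u1 t2).eventually_const_lt s2
  have km := (RayK_pert hF.continuous p d u0 u1 m).eventually_const_lt sm
  obtain ⟨ε, e1, e2, ea, em, eb⟩ := (k1.and (k2.and (ka.and (km.and kb)))).exists
  exact h6 _ _ _ _ _ _ _ h12 h2a ham hmb e1 e2 ea em eb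

/-- After an interior point the ray does not meet the hypersurface tangentially. -/
theorem RayK_second {F : V → ℝ} (hF : Differentiable ℝ F)
    (hreg : ∀ x, F x = 0 → gradient F x ≠ 0)
    (h6 : ∀ (p d : V) (t1 t2 t3 t4 t5 : ℝ), t1 < t2 → t2 < t3 → t3 < t4 → t4 < t5 →
      F (p + t1 • d) < 0 → 0 < F (p + t2 • d) → F (p + t3 • d) < 0 → 0 < F (p + t4 • d) →
      F (p + t5 • d) < 0 → False)
    {p d : V} {t1 t2 m b : ℝ} (h12 : t1 < t2)
    (h2m : t2 < m) (hmb : m < b) (s1 : F (p + t1 • d) < 0)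
    (s2 : 0 < F (p + t2 • d)) (sm : F (p + m • d) < 0) (sb : F (p + b • d) = 0) :
    fderiv ℝ F (p + b • d) d ≠ 0 := by
  intro h0
  obtain ⟨n, hn⟩ : ∃ n, n = -gradient F (p + b • d) := ⟨_, rfl⟩
  have hnp : fderiv ℝ F (p + b • d) n < 0 := by
    rw [hn, map_neg]
    linarith [RayK_grad_pos (hreg _ sb)]
  have k1 := (RayK_pert hF.continuous p d (-(b • n)) n t1).eventually_lt_const s1
  have k2 := (RayK_pert hF.continuous p d (-(b • n)) n t2).eventually_const_lt s2
  have km := (RayK_pert hF.continuous p d (-(b • n)) n m).eventually_lt_const sm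
  obtain ⟨ε, e1, e2, em, eε⟩ := (k1.and (k2.and (km.and self_mem_nhdsWithin))).exists
  have eε' : 0 < ε := eε
  have hv : fderiv ℝ F (p + b • d) (d + ε • n) = ε * fderiv ℝ F (p + b • d) n := by
    rw [map_add, map_smul, h0, zero_add, smul_eq_mul]
  have l1 := RayK_neg (v := d + ε • n) (hF (p + b • d)) sb (by
    rw [hv]
    exact mul_neg_of_pos_of_neg eε' hnp)
  have l2 := RayK_pos (v := -(d + ε • n)) (hF (p + b • d)) sb (by
    rw [map_neg, hv]
    have := mul_neg_of_pos_of_neg eε' hnp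
    linarith)
  have l3 : ∀ᶠ s in 𝓝[>] (0 : ℝ), s < b - m := nhdsWithin_le_nhds (gt_mem_nhds (by linarith))
  obtain ⟨s, f1, f2, f3, f4⟩ := (l1.and (l2.and (l3.and self_mem_nhdsWithin))).exists
  have f4' : 0 < s := f4
  refine h6 (p + ε • -(b • n)) (d + ε • n) t1 t2 m (b - s) (b + s) h12 (by linarith)
    (by linarith) (by linarith) e1 e2 em ?_ ?_
  · have h2 : p + ε • -(b • n) + (b - s) • (d + ε • n) = p + b • d + s • -(d + ε • n) := by module
    rw [h2]
    exact f2
  · have h2 : p + ε • -(b • n) + (b + s) • (d + ε • n) = p + b • d + s • (d + ε • n) := by module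
    rw [h2]
    exact f1

/-- Rays from an outer point whose opposite ray meets the open body: between two points of the body
there are only points of the open body.  Only two facts are used: no line meets the open body in
three separated pieces, and the hypersurface contains no segment of the line of the ray. -/
theorem hx_ray_seg {F : V → ℝ} (hF : ContDiff ℝ ∞ F)
    (hreg : ∀ x, F x = 0 → gradient F x ≠ 0)
    (h6 : ∀ (p d : V) (t1 t2 t3 t4 t5 : ℝ), t1 < t2 → t2 < t3 → t3 < t4 → t4 < t5 →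
      F (p + t1 • d) < 0 → 0 < F (p + t2 • d) → F (p + t3 • d) < 0 → 0 < F (p + t4 • d) →
      F (p + t5 • d) < 0 → False)
    {p d : V} (hseg : ∀ a b : ℝ, a < b → ∃ m, a < m ∧ m < b ∧ F (p + m • d) ≠ 0)
    (hp : 0 < F p) (hneg : ∃ t : ℝ, t < 0 ∧ F (p + t • d) < 0) {s r t : ℝ} (hs : 0 < s)
    (hsr : s < r) (hrt : r < t) (es : F (p + s • d) ≤ 0) (et : F (p + t • d) ≤ 0) :
    F (p + r • d) < 0 := by
  have hdiff : Differentiable ℝ F := hF.differentiable (by simp)
  obtain ⟨t1, ht1, s1⟩ := hneg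
  have s2 : 0 < F (p + (0 : ℝ) • d) := by rwa [zero_smul, add_zero]
  -- no positive value between
  have key : ∀ m : ℝ, s < m → m < t → F (p + m • d) ≤ 0 := by
    intro m h1 h2
    by_contra h3
    exact RayK_touch hdiff hreg h6 ht1 hs h1 h2 s1 s2 es (not_le.1 h3) et
  by_contra hr
  have er : F (p + r • d) = 0 := le_antisymm (key r hsr hrt) (not_lt.1 hr)
  have hder : fderiv ℝ F (p + r • d) d = 0 := by
    by_contra h
    obtain ⟨t', h1, h2⟩ := RayK_near (ε := min (r - s) (t - r)) (hdiff _) er h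
      (lt_min (by linarith) (by linarith))
    have h3 := (abs_lt.1 h1)
    have h4 := min_le_left (r - s) (t - r)
    have h5 := min_le_right (r - s) (t - r)
    exact absurd (key t' (by linarith) (by linarith)) (not_le.2 h2)
  -- a point of the open body before `r`
  obtain ⟨m, hm1, hm2, hm3⟩ := hseg s r hsr
  have hm4 : F (p + m • d) < 0 := lt_of_le_of_ne (key m hm1 (by linarith)) hm3
  exact RayK_second hdiff hreg h6 ht1 (by linarith : (0 : ℝ) < m) hm2 s1 s2 hm4 er hder

/-- The same from the hypothesis that no line meets the hypersurface in more than five points. -/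
theorem hx_ray {F : V → ℝ} (hF : ContDiff ℝ ∞ F) (hb : Bornology.IsBounded {x | F x ≤ 0})
    (hreg : ∀ x, F x = 0 → gradient F x ≠ 0)
    (hl : ∀ p d : V, d ≠ 0 → {t : ℝ | F (p + t • d) = 0}.encard ≤ 5) {p d : V}
    (hp : 0 < F p) (hneg : ∃ t : ℝ, t < 0 ∧ F (p + t • d) < 0) {s r t : ℝ} (hs : 0 < s)
    (hsr : s < r) (hrt : r < t) (es : F (p + s • d) ≤ 0) (et : F (p + t • d) ≤ 0) :
    F (p + r • d) < 0 := by
  have hd : d ≠ 0 := by
    rintro rfl
    rw [smul_zero, add_zero] at es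
    exact absurd es (not_le.2 hp)
  have hfin : {t : ℝ | F (p + t • d) = 0}.Finite :=
    finite_of_encard_le_coe (k := 5) (by exact_mod_cast hl p d hd)
  refine hx_ray_seg hF hreg (RayK_six hF.continuous hb hl) (fun a b hab => ?_) hp hneg hs hsr hrt
    es et
  by_contra hc
  push Not at hc
  exact (Ioo_infinite hab) (hfin.subset fun z hz => hc z hz.1 hz.2)

end Pool.Schoen
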