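import Pool.Agent.H.MP_6c077c_gt.Hx.Defs
import Pool.Agent.H.MP_6c077c_gt.Hx.RayK

/-! Hexasecant theorem: the ray lemma for hypersurfaces which no line through a given ball crosses
six times (segments in the hypersurface are allowed). -/

set_option autoImplicit false

namespace Pool.Schoen

open Filter Set
open scoped Topology RealInnerProductSpace ContDiff

variable {V : Type*} [NormedAddCommGroup V] [InnerProductSpace ℝ V]

/-- No line which crosses the hypersurface `F = 0` six times meets it at distance less than `ρ` from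
`c`. -/
def NoSixNear (F : V → ℝ) (c : V) (ρ : ℝ) : Prop :=
  ∀ (p d : V) (t₁ t₂ t₃ t₄ t₅ : ℝ), t₁ < t₂ → t₂ < t₃ → t₃ < t₄ → t₄ < t₅ →
    F (p + t₁ • d) < 0 → 0 < F (p + t₂ • d) → F (p + t₃ • d) < 0 → 0 < F (p + t₄ • d) →
    F (p + t₅ • d) < 0 → ∀ t : ℝ, F (p + t • d) = 0 → ρ ≤ ‖p + t • d - c‖

theorem NoSix.near {F : V → ℝ} (h : NoSix F) (c : V) (ρ : ℝ) : NoSixNear F c ρ :=
  fun p d t₁ t₂ t₃ t₄ t₅ h1 h2 h3 h4 s1 s2 s3 s4 s5 _ _ =>
    (h p d t₁ t₂ t₃ t₄ t₅ h1 h2 h3 h4 s1 s2 s3 s4 s5).elim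

theorem NoSixNear.mono {F : V → ℝ} {c c' : V} {ρ ρ' : ℝ} (h : NoSixNear F c ρ)
    (hc : ρ' + ‖c - c'‖ ≤ ρ) : NoSixNear F c' ρ' := by
  intro p d t₁ t₂ t₃ t₄ t₅ h1 h2 h3 h4 s1 s2 s3 s4 s5 t ht
  have h5 := h p d t₁ t₂ t₃ t₄ t₅ h1 h2 h3 h4 s1 s2 s3 s4 s5 t ht
  have h6 : ‖p + t • d - c‖ ≤ ‖p + t • d - c'‖ + ‖c - c'‖ := by
    have h7 : p + t • d - c = (p + t • d - c') - (c - c') := by abel
    rw [h7]
    exact norm_sub_le _ _
  linarith

/-- The form in which the hypothesis is used. -/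
theorem NoSixNear.no {F : V → ℝ} (hF : Continuous F) {c : V} {ρ : ℝ} (h : NoSixNear F c ρ)
    {p d : V} {t1 t2 t3 t4 t5 : ℝ} (h12 : t1 < t2) (h23 : t2 < t3) (h34 : t3 < t4) (h45 : t4 < t5)
    (hball : ∀ t ∈ Icc t1 t2, ‖p + t • d - c‖ < ρ) (s1 : F (p + t1 • d) < 0)
    (s2 : 0 < F (p + t2 • d)) (s3 : F (p + t3 • d) < 0) (s4 : 0 < F (p + t4 • d))
    (s5 : F (p + t5 • d) < 0) : False := by
  obtain ⟨z, hz1, hz2, hz3⟩ := RayK_up (RayK_cont hF p d) h12 s1 s2
  have h1 := h p d t1 t2 t3 t4 t5 h12 h23 h34 h45 s1 s2 s3 s4 s5 z hz3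
  exact absurd h1 (not_le.2 (hball z ⟨hz1.le, hz2.le⟩))

/-- The ball condition is stable. -/
theorem RayS_ball {p d c : V} {t1 t2 ρ : ℝ} (u0 u1 : V)
    (h : ∀ t ∈ Icc t1 t2, ‖p + t • d - c‖ < ρ) :
    ∀ᶠ ε in 𝓝[>] (0 : ℝ), ∀ t ∈ Icc t1 t2, ‖p + ε • u0 + t • (d + ε • u1) - c‖ < ρ := by
  refine Eventually.filter_mono nhdsWithin_le_nhds ?_
  refine isCompact_Icc.eventually_forall_of_forall_eventually fun t ht => ?_
  have hc : Continuous fun z : ℝ × ℝ => ‖p + z.1 • u0 + z.2 • (d + z.1 • u1) - c‖ := by fun_prop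
  refine hc.continuousAt.eventually_lt continuousAt_const ?_
  simp only [zero_smul, add_zero]
  exact h t ht

/-- Moving a line: the sign at a zero. -/
theorem RayS_neg {F : V → ℝ} (hF : Differentiable ℝ F) {p d u0 u1 : V} {a : ℝ}
    (sa : F (p + a • d) = 0) (hu : fderiv ℝ F (p + a • d) (u0 + a • u1) < 0) :
    ∀ᶠ ε in 𝓝[>] (0 : ℝ), F ((p + ε • u0) + a • (d + ε • u1)) < 0 := by
  refine (RayK_neg (v := u0 + a • u1) (hF (p + a • d)) sa hu).mono fun ε hε => ?_
  have h2 : (p + ε • u0) + a • (d + ε • u1) = p + a • d + ε • (u0 + a • u1) := by module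
  rw [h2]
  exact hε

theorem RayS_pos {F : V → ℝ} (hF : Differentiable ℝ F) {p d u0 u1 : V} {a : ℝ}
    (sa : F (p + a • d) = 0) (hu : 0 < fderiv ℝ F (p + a • d) (u0 + a • u1)) :
    ∀ᶠ ε in 𝓝[>] (0 : ℝ), 0 < F ((p + ε • u0) + a • (d + ε • u1)) := by
  refine (RayK_pos (v := u0 + a • u1) (hF (p + a • d)) sa hu).mono fun ε hε => ?_
  have h2 : (p + ε • u0) + a • (d + ε • u1) = p + a • d + ε • (u0 + a • u1) := by module
  rw [h2]
  exact hε

section

variable {F : V → ℝ} {c p d : V} {ρ t1 t2 : ℝ}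

/-- Three zeros on the ray cannot be moved to the signs `-`, `+`, `-` by an affine motion of the
line. -/
theorem RayS_three (hF : Differentiable ℝ F) (h6 : NoSixNear F c ρ)
    (hball : ∀ t ∈ Icc t1 t2, ‖p + t • d - c‖ < ρ)
    (h12 : t1 < t2) {a m b : ℝ} (h2a : t2 < a) (ham : a < m) (hmb : m < b)
    (s1 : F (p + t1 • d) < 0) (s2 : 0 < F (p + t2 • d)) (sa : F (p + a • d) = 0)
    (sm : F (p + m • d) = 0) (sb : F (p + b • d) = 0) {w1 w2 : V}
    (ha : fderiv ℝ F (p + a • d) w1 < 0) (hb : fderiv ℝ F (p + b • d) w2 < 0)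
    (hm : 0 < fderiv ℝ F (p + m • d) ((b - m) • w1 + (m - a) • w2)) : False := by
  have hab : 0 < b - a := by linarith
  obtain ⟨u1, hu1⟩ : ∃ u, u = (b - a)⁻¹ • (w2 - w1) := ⟨_, rfl⟩
  obtain ⟨u0, hu0⟩ : ∃ u, u = w1 - a • u1 := ⟨_, rfl⟩
  have ea : u0 + a • u1 = w1 := by rw [hu0]; module
  have e1 : (b - a) • u1 = w2 - w1 := by
    rw [hu1, smul_smul, mul_inv_cancel₀ hab.ne', one_smul]
  have eb : u0 + b • u1 = w2 := by
    have h1 : u0 + b • u1 = w1 + (b - a) • u1 := by rw [hu0]; module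
    rw [h1, e1]
    abel
  have em : (b - a) • (u0 + m • u1) = (b - m) • w1 + (m - a) • w2 := by
    have h1 : (b - a) • (u0 + m • u1) = (b - a) • w1 + (m - a) • (b - a) • u1 := by
      rw [hu0]; module
    rw [h1, e1]
    module
  have hm' : 0 < fderiv ℝ F (p + m • d) (u0 + m • u1) := by
    rw [← em, map_smul, smul_eq_mul] at hm
    exact (mul_pos_iff_of_pos_left hab).1 hm
  have k1 := (RayK_pert hF.continuous p d u0 u1 t1).eventually_lt_const s1
  have k2 := (RayK_pert hF.continuous p d u0 u1 t2).eventually_const_lt s2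
  have ka := RayS_neg hF (u0 := u0) (u1 := u1) sa (by rw [ea]; exact ha)
  have km := RayS_pos hF (u0 := u0) (u1 := u1) sm hm'
  have kb := RayS_neg hF (u0 := u0) (u1 := u1) sb (by rw [eb]; exact hb)
  obtain ⟨ε, f1, f2, fa, fm, fb, fB⟩ :=
    (k1.and (k2.and (ka.and (km.and (kb.and (RayS_ball u0 u1 hball)))))).exists
  exact h6.no hF.continuous h12 h2a ham hmb fB f1 f2 fa fm fb

variable [CompleteSpace V]

/-- The body does not meet the ray in two separated pieces. -/
theorem RayS_touch (hF : Differentiable ℝ F)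
    (hreg : ∀ x, F x = 0 → gradient F x ≠ 0) (h6 : NoSixNear F c ρ)
    (hball : ∀ t ∈ Icc t1 t2, ‖p + t • d - c‖ < ρ) (h12 : t1 < t2) {a m b : ℝ}
    (h2a : t2 < a) (ham : a < m) (hmb : m < b) (s1 : F (p + t1 • d) < 0)
    (s2 : 0 < F (p + t2 • d)) (sa : F (p + a • d) ≤ 0) (sm : 0 < F (p + m • d))
    (sb : F (p + b • d) ≤ 0) : False := by
  obtain ⟨n1, hn1⟩ : ∃ n, n = gradient F (p + a • d) := ⟨_, rfl⟩
  obtain ⟨n2, hn2⟩ : ∃ n, n = gradient F (p + b • d) := ⟨_, rfl⟩
  have hab : b - a ≠ 0 := by intro h; linarith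
  obtain ⟨u1, hu1⟩ : ∃ u, u = (b - a)⁻¹ • (n1 - n2) := ⟨_, rfl⟩
  obtain ⟨u0, hu0⟩ : ∃ u, u = -n1 - a • u1 := ⟨_, rfl⟩
  have ha' : u0 + a • u1 = -n1 := by rw [hu0]; module
  have hb' : u0 + b • u1 = -n2 := by
    have h1 : u0 + b • u1 = -n1 + (b - a) • u1 := by rw [hu0]; module
    rw [h1, hu1, smul_smul, mul_inv_cancel₀ hab, one_smul]
    abel
  have ka := RayK_push hF hreg sa (ha'.trans (by rw [hn1]))
  have kb := RayK_push hF hreg sb (hb'.trans (by rw [hn2]))
  have k1 := (RayK_pert hF.continuous p d u0 u1 t1).eventually_lt_const s1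
  have k2 := (RayK_pert hF.continuous p d u0 u1 t2).eventually_const_lt s2
  have km := (RayK_pert hF.continuous p d u0 u1 m).eventually_const_lt sm
  obtain ⟨ε, e1, e2, ea, em, eb, eB⟩ :=
    (k1.and (k2.and (ka.and (km.and (kb.and (RayS_ball u0 u1 hball)))))).exists
  exact h6.no hF.continuous h12 h2a ham hmb eB e1 e2 ea em eb

/-- After an interior point the ray does not meet the hypersurface tangentially. -/
theorem RayS_second (hF : Differentiable ℝ F)
    (hreg : ∀ x, F x = 0 → gradient F x ≠ 0) (h6 : NoSixNear F c ρ)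
    (hball : ∀ t ∈ Icc t1 t2, ‖p + t • d - c‖ < ρ) (h12 : t1 < t2) {m b : ℝ}
    (h2m : t2 < m) (hmb : m < b) (s1 : F (p + t1 • d) < 0)
    (s2 : 0 < F (p + t2 • d)) (sm : F (p + m • d) < 0) (sb : F (p + b • d) = 0) :
    fderiv ℝ F (p + b • d) d ≠ 0 := by
  intro h0
  obtain ⟨n, hn⟩ : ∃ n, n = -gradient F (p + b • d) := ⟨_, rfl⟩
  have hnp : fderiv ℝ F (p + b • d) n < 0 := by
    rw [hn, map_neg]
    linarith [RayK_grad_pos (hreg _ sb)]
  have k1 := (RayK_pert hF.continuous p d (-(b • n)) n t1).eventually_lt_const s1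
  have k2 := (RayK_pert hF.continuous p d (-(b • n)) n t2).eventually_const_lt s2
  have km := (RayK_pert hF.continuous p d (-(b • n)) n m).eventually_lt_const sm
  obtain ⟨ε, e1, e2, em, eB, eε⟩ :=
    (k1.and (k2.and (km.and ((RayS_ball (-(b • n)) n hball).and self_mem_nhdsWithin)))).exists
  have eε' : 0 < ε := eε
  have hv : fderiv ℝ F (p + b • d) (d + ε • n) = ε * fderiv ℝ F (p + b • d) n := by
    rw [map_add, map_smul, h0, zero_add, smul_eq_mul]
  have l1 := RayK_neg (v := d + ε • n) (hF (p + b • d)) sb (by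
    rw [hv]
    exact mul_neg_of_pos_of_neg eε' hnp)
  have l2 := RayK_pos (v := -(d + ε • n)) (hF (p + b • d)) sb (by
    rw [map_neg, hv]
    have := mul_neg_of_pos_of_neg eε' hnp
    linarith)
  have l3 : ∀ᶠ s in 𝓝[>] (0 : ℝ), s < b - m := nhdsWithin_le_nhds (gt_mem_nhds (by linarith))
  obtain ⟨s, f1, f2, f3, f4⟩ := (l1.and (l2.and (l3.and self_mem_nhdsWithin))).exists
  have f4' : 0 < s := f4
  refine h6.no hF.continuous (p := p + ε • -(b • n)) (d := d + ε • n) h12 (t3 := m) (t4 := b - s)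
    (t5 := b + s) (by linarith) (by linarith) (by linarith) eB e1 e2 em ?_ ?_
  · have h2 : p + ε • -(b • n) + (b - s) • (d + ε • n) = p + b • d + s • -(d + ε • n) := by module
    rw [h2]
    exact f2
  · have h2 : p + ε • -(b • n) + (b + s) • (d + ε • n) = p + b • d + s • (d + ε • n) := by module
    rw [h2]
    exact f1

/-- Before an interior point the ray does not meet the hypersurface tangentially. -/
theorem RayS_first (hF : Differentiable ℝ F)
    (hreg : ∀ x, F x = 0 → gradient F x ≠ 0) (h6 : NoSixNear F c ρ)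
    (hball : ∀ t ∈ Icc t1 t2, ‖p + t • d - c‖ < ρ) (h12 : t1 < t2) {a m : ℝ}
    (h2a : t2 < a) (ham : a < m) (s1 : F (p + t1 • d) < 0)
    (s2 : 0 < F (p + t2 • d)) (sa : F (p + a • d) = 0) (sm : F (p + m • d) < 0) :
    fderiv ℝ F (p + a • d) d ≠ 0 := by
  intro h0
  obtain ⟨n, hn⟩ : ∃ n, n = gradient F (p + a • d) := ⟨_, rfl⟩
  have hnp : 0 < fderiv ℝ F (p + a • d) n := by
    rw [hn]
    exact RayK_grad_pos (hreg _ sa)
  have k1 := (RayK_pert hF.continuous p d (-(a • n)) n t1).eventually_lt_const s1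
  have k2 := (RayK_pert hF.continuous p d (-(a • n)) n t2).eventually_const_lt s2
  have km := (RayK_pert hF.continuous p d (-(a • n)) n m).eventually_lt_const sm
  obtain ⟨ε, e1, e2, em, eB, eε⟩ :=
    (k1.and (k2.and (km.and ((RayS_ball (-(a • n)) n hball).and self_mem_nhdsWithin)))).exists
  have eε' : 0 < ε := eε
  have hv : fderiv ℝ F (p + a • d) (d + ε • n) = ε * fderiv ℝ F (p + a • d) n := by
    rw [map_add, map_smul, h0, zero_add, smul_eq_mul]
  have l1 := RayK_pos (v := d + ε • n) (hF (p + a • d)) sa (by rw [hv]; positivity)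
  have l2 := RayK_neg (v := -(d + ε • n)) (hF (p + a • d)) sa (by
    rw [map_neg, hv]
    have := mul_pos eε' hnp
    linarith)
  have l3 : ∀ᶠ s in 𝓝[>] (0 : ℝ), s < min (a - t2) (m - a) :=
    nhdsWithin_le_nhds (gt_mem_nhds (lt_min (by linarith) (by linarith)))
  obtain ⟨s, f1, f2, f3, f4⟩ := (l1.and (l2.and (l3.and self_mem_nhdsWithin))).exists
  have f4' : 0 < s := f4
  have g1 := f3.trans_le (min_le_left _ _)
  have g2 := f3.trans_le (min_le_right _ _)
  refine h6.no hF.continuous (p := p + ε • -(a • n)) (d := d + ε • n) h12 (t3 := a - s)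
    (t4 := a + s) (t5 := m) (by linarith) (by linarith) (by linarith) eB e1 e2 ?_ ?_ em
  · have h2 : p + ε • -(a • n) + (a - s) • (d + ε • n) = p + a • d + s • -(d + ε • n) := by module
    rw [h2]
    exact f2
  · have h2 : p + ε • -(a • n) + (a + s) • (d + ε • n) = p + a • d + s • (d + ε • n) := by module
    rw [h2]
    exact f1

omit [CompleteSpace V] in
/-- Two vectors which are not positively proportional are separated. -/
theorem RayS_sep {n1 n3 : V} (h : ⟪n1, n3⟫ < ‖n1‖ * ‖n3‖) :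
    ∃ u : V, ⟪n1, u⟫ < 0 ∧ 0 < ⟪n3, u⟫ := by
  have h1 : 0 < ‖n1‖ := by
    rcases (norm_nonneg n1).eq_or_lt with h2 | h2
    · rw [← h2, zero_mul] at h
      have h3 : n1 = 0 := norm_eq_zero.1 h2.symm
      rw [h3, inner_zero_left] at h
      exact absurd h (lt_irrefl _)
    · exact h2
  have h3 : 0 < ‖n3‖ := by
    rcases (norm_nonneg n3).eq_or_lt with h2 | h2
    · rw [← h2, mul_zero] at h
      have h3 : n3 = 0 := norm_eq_zero.1 h2.symm
      rw [h3, inner_zero_right] at h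
      exact absurd h (lt_irrefl _)
    · exact h2
  have h4 : 0 < ‖n1‖ * ‖n3‖ - ⟪n1, n3⟫ := by linarith
  refine ⟨‖n1‖ • n3 - ‖n3‖ • n1, ?_, ?_⟩
  · rw [inner_sub_right, real_inner_smul_right, real_inner_smul_right, real_inner_self_eq_norm_sq]
    have h5 := mul_pos h1 h4
    nlinarith
  · rw [inner_sub_right, real_inner_smul_right, real_inner_smul_right, real_inner_self_eq_norm_sq,
      real_inner_comm n1 n3]
    have h5 := mul_pos h3 h4
    nlinarith

/-- The normals at three zeros on the ray are positively proportional. -/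
theorem RayS_par (hF : Differentiable ℝ F) (hreg : ∀ x, F x = 0 → gradient F x ≠ 0)
    (h6 : NoSixNear F c ρ) (hball : ∀ t ∈ Icc t1 t2, ‖p + t • d - c‖ < ρ) (h12 : t1 < t2)
    {a m b : ℝ} (h2a : t2 < a) (ham : a < m) (hmb : m < b)
    (s1 : F (p + t1 • d) < 0) (s2 : 0 < F (p + t2 • d)) (sa : F (p + a • d) = 0)
    (sm : F (p + m • d) = 0) (sb : F (p + b • d) = 0) :
    ⟪gradient F (p + a • d), gradient F (p + m • d)⟫ =
        ‖gradient F (p + a • d)‖ * ‖gradient F (p + m • d)‖ ∧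
      ⟪gradient F (p + b • d), gradient F (p + m • d)⟫ =
        ‖gradient F (p + b • d)‖ * ‖gradient F (p + m • d)‖ := by
  have hneg : ∀ q, F q = 0 → fderiv ℝ F q (-gradient F q) < 0 := by
    intro q hq
    rw [map_neg]
    linarith [RayK_grad_pos (hreg q hq)]
  have hbm : 0 < b - m := by linarith
  have hma : 0 < m - a := by linarith
  constructor
  · refine le_antisymm (real_inner_le_norm _ _) ?_
    by_contra hc
    obtain ⟨u, hu1, hu2⟩ := RayS_sep (not_le.1 hc)
    obtain ⟨A, hA, hA2⟩ : ∃ A : ℝ, 0 < A ∧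
        (m - a) * |fderiv ℝ F (p + m • d) (-gradient F (p + b • d))| <
          (b - m) * (A * ⟪gradient F (p + m • d), u⟫) := by
      refine ⟨((m - a) * |fderiv ℝ F (p + m • d) (-gradient F (p + b • d))| + 1) /
        ((b - m) * ⟪gradient F (p + m • d), u⟫), by positivity, ?_⟩
      have h1 : (b - m) * (((m - a) * |fderiv ℝ F (p + m • d) (-gradient F (p + b • d))| + 1) /
          ((b - m) * ⟪gradient F (p + m • d), u⟫) * ⟪gradient F (p + m • d), u⟫) =
          (m - a) * |fderiv ℝ F (p + m • d) (-gradient F (p + b • d))| + 1 := by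
        field_simp
      rw [h1]
      linarith
    refine RayS_three hF h6 hball h12 h2a ham hmb s1 s2 sa sm sb (w1 := A • u)
      (w2 := -gradient F (p + b • d)) ?_ (hneg _ sb) ?_
    · rw [map_smul, RayK_grad, smul_eq_mul]
      exact mul_neg_of_pos_of_neg hA hu1
    · rw [map_add, map_smul, map_smul, map_smul, RayK_grad F _ u]
      simp only [smul_eq_mul]
      have h1 := neg_abs_le (fderiv ℝ F (p + m • d) (-gradient F (p + b • d)))
      have h2 := mul_le_mul_of_nonneg_left h1 hma.le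
      linarith
  · refine le_antisymm (real_inner_le_norm _ _) ?_
    by_contra hc
    obtain ⟨u, hu1, hu2⟩ := RayS_sep (not_le.1 hc)
    obtain ⟨A, hA, hA2⟩ : ∃ A : ℝ, 0 < A ∧
        (b - m) * |fderiv ℝ F (p + m • d) (-gradient F (p + a • d))| <
          (m - a) * (A * ⟪gradient F (p + m • d), u⟫) := by
      refine ⟨((b - m) * |fderiv ℝ F (p + m • d) (-gradient F (p + a • d))| + 1) /
        ((m - a) * ⟪gradient F (p + m • d), u⟫), by positivity, ?_⟩
      have h1 : (m - a) * (((b - m) * |fderiv ℝ F (p + m • d) (-gradient F (p + a • d))| + 1) /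
          ((m - a) * ⟪gradient F (p + m • d), u⟫) * ⟪gradient F (p + m • d), u⟫) =
          (b - m) * |fderiv ℝ F (p + m • d) (-gradient F (p + a • d))| + 1 := by
        field_simp
      rw [h1]
      linarith
    refine RayS_three hF h6 hball h12 h2a ham hmb s1 s2 sa sm sb (w1 := -gradient F (p + a • d))
      (w2 := A • u) (hneg _ sa) ?_ ?_
    · rw [map_smul, RayK_grad, smul_eq_mul]
      exact mul_neg_of_pos_of_neg hA hu1
    · rw [map_add, map_smul, map_smul, map_smul, RayK_grad F _ u]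
      simp only [smul_eq_mul]
      have h1 := neg_abs_le (fderiv ℝ F (p + m • d) (-gradient F (p + a • d)))
      have h2 := mul_le_mul_of_nonneg_left h1 hbm.le
      linarith

end

/-- Positively proportional to the same vector. -/
theorem RayS_inner {n1 n2 n3 : V} (h1 : n1 ≠ 0) (h2 : n2 ≠ 0) (h3 : n3 ≠ 0)
    (h13 : ⟪n1, n3⟫ = ‖n1‖ * ‖n3‖) (h23 : ⟪n2, n3⟫ = ‖n2‖ * ‖n3‖) : 0 < ⟪n1, n2⟫ := by
  have e1 := inner_eq_norm_mul_iff_real.1 h13
  have e2 := inner_eq_norm_mul_iff_real.1 h23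
  have p1 := norm_pos_iff.2 h1
  have p2 := norm_pos_iff.2 h2
  have p3 := norm_pos_iff.2 h3
  have e3 : ⟪‖n3‖ • n1, ‖n3‖ • n2⟫ = ⟪‖n1‖ • n3, ‖n2‖ • n3⟫ := by rw [e1, e2]
  rw [real_inner_smul_left, real_inner_smul_right, real_inner_smul_left, real_inner_smul_right,
    real_inner_self_eq_norm_sq] at e3
  have h4 : 0 < ‖n3‖ * (‖n3‖ * ⟪n1, n2⟫) := by
    rw [e3]
    positivity
  have h5 := (mul_pos_iff_of_pos_left p3).1 h4
  exact (mul_pos_iff_of_pos_left p3).1 h5

/-- Rays from an outer point `p` such that the opposite ray meets the open body inside the ball: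
between two points of the body there are only points of the open body, unless the ray touches the
body along a segment; then the ray does not meet the open body, is tangent at all its zeros, and all
its zeros have a common descent direction. -/
theorem hx_ray_s [CompleteSpace V] {F : V → ℝ} (hF : ContDiff ℝ ∞ F)
    (hreg : ∀ x, F x = 0 → gradient F x ≠ 0) {c : V} {ρ : ℝ}
    (h6 : NoSixNear F c ρ) {p d : V} (hp : 0 < F p)
    (hneg : ∃ t : ℝ, t < 0 ∧ F (p + t • d) < 0 ∧ ∀ t' ∈ Icc t 0, ‖p + t' • d - c‖ < ρ)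
    {s r t : ℝ} (hs : 0 < s)
    (hsr : s < r) (hrt : r < t) (es : F (p + s • d) ≤ 0) (et : F (p + t • d) ≤ 0) :
    F (p + r • d) < 0 ∨ (F (p + r • d) = 0 ∧ (∀ m : ℝ, 0 < m → 0 ≤ F (p + m • d)) ∧
      ∃ v : V, ∀ m : ℝ, 0 < m → F (p + m • d) = 0 →
        fderiv ℝ F (p + m • d) v < 0 ∧ fderiv ℝ F (p + m • d) d = 0) := by
  have hdiff : Differentiable ℝ F := hF.differentiable (by simp)
  obtain ⟨t1, ht1, s1, hball⟩ := hneg
  have s2 : 0 < F (p + (0 : ℝ) • d) := by rwa [zero_smul, add_zero]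
  -- no positive value between two points of the body
  have key : ∀ a b m : ℝ, 0 < a → a < m → m < b → F (p + a • d) ≤ 0 → F (p + b • d) ≤ 0 →
      F (p + m • d) ≤ 0 := by
    intro a b m h1 h2 h3 h4 h5
    by_contra h
    exact RayS_touch hdiff hreg h6 hball ht1 h1 h2 h3 s1 s2 h4 (not_le.1 h) h5
  by_cases hr : F (p + r • d) < 0
  · exact Or.inl hr
  right
  have er : F (p + r • d) = 0 := le_antisymm (key s t r hs hsr hrt es et) (not_lt.1 hr)
  have hr0 : 0 < r := by linarith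
  have hder : fderiv ℝ F (p + r • d) d = 0 := by
    by_contra h
    obtain ⟨t', h1, h2⟩ := RayK_near (ε := min (r - s) (t - r)) (hdiff _) er h
      (lt_min (by linarith) (by linarith))
    have h3 := (abs_lt.1 h1)
    have h4 := min_le_left (r - s) (t - r)
    have h5 := min_le_right (r - s) (t - r)
    exact absurd (key s t t' hs (by linarith) (by linarith) es et) (not_le.2 h2)
  have hnn : ∀ m : ℝ, 0 < m → 0 ≤ F (p + m • d) := by
    intro m hm
    by_contra h
    rw [not_le] at h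
    rcases lt_trichotomy m r with h1 | h1 | h1
    · exact RayS_second hdiff hreg h6 hball ht1 hm h1 s1 s2 h er hder
    · rw [h1] at h
      exact absurd er h.ne
    · exact RayS_first hdiff hreg h6 hball ht1 hr0 h1 s1 s2 er h hder
  have hzz : ∀ a b m : ℝ, 0 < a → a < m → m < b → F (p + a • d) = 0 → F (p + b • d) = 0 →
      F (p + m • d) = 0 := by
    intro a b m h1 h2 h3 h4 h5
    exact le_antisymm (key a b m h1 h2 h3 h4.le h5.le) (hnn m (by linarith))
  have hpair : ∀ a b : ℝ, 0 < a → a < b → F (p + a • d) = 0 → F (p + b • d) = 0 →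
      0 < ⟪gradient F (p + a • d), gradient F (p + b • d)⟫ := by
    intro a b h1 h2 h3 h4
    have h5 := hzz a b ((a + b) / 2) h1 (by linarith) (by linarith) h3 h4
    obtain ⟨h6', h7⟩ := RayS_par hdiff hreg h6 hball ht1 h1 (by linarith : a < (a + b) / 2)
      (by linarith : (a + b) / 2 < b) s1 s2 h3 h5 h4
    exact RayS_inner (hreg _ h3) (hreg _ h4) (hreg _ h5) h6' h7
  refine ⟨er, hnn, -gradient F (p + r • d), fun m hm hm0 => ⟨?_, ?_⟩⟩
  · rw [map_neg, RayK_grad]
    have h1 : 0 < ⟪gradient F (p + m • d), gradient F (p + r • d)⟫ := by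
      rcases lt_trichotomy m r with h | h | h
      · exact hpair m r hm h hm0 er
      · rw [h, real_inner_self_eq_norm_sq]
        have := norm_pos_iff.2 (hreg _ er)
        positivity
      · rw [real_inner_comm]
        exact hpair r m hr0 h er hm0
    linarith
  · have l3 : ∀ᶠ s in 𝓝[>] (0 : ℝ), s < m := nhdsWithin_le_nhds (gt_mem_nhds hm)
    rcases lt_trichotomy (fderiv ℝ F (p + m • d) d) 0 with h7 | h7 | h7
    · exfalso
      obtain ⟨s, f1, f3⟩ := ((RayK_neg (hdiff _) hm0 h7).and self_mem_nhdsWithin).exists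
      have f3' : 0 < s := f3
      have h8 : p + m • d + s • d = p + (m + s) • d := by module
      rw [h8] at f1
      linarith [hnn (m + s) (by linarith)]
    · exact h7
    · exfalso
      obtain ⟨s, f1, f2, f3⟩ := ((RayK_neg (v := -d) (hdiff _) hm0 (by
        rw [map_neg]; linarith)).and (l3.and self_mem_nhdsWithin)).exists
      have f3' : 0 < s := f3
      have h8 : p + m • d + s • -d = p + (m - s) • d := by module
      rw [h8] at f1
      linarith [hnn (m - s) (by linarith)]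

end Pool.Schoen
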