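import Mathlib
import Pool.Agent.H.MP_6c077c_gt.Hx.Defs
import Pool.Agent.H.MP_6c077c_gt.IxB.Isol
import Pool.Agent.H.MP_6c077c_gt.Ix.Dz

/-! Hexasecant theorem: cutting off a domain just above a nondegenerate point with normal `-e` by a
large ball. -/

set_option autoImplicit false

namespace Pool.Schoen

open Filter Set
open scoped Topology RealInnerProductSpace ContDiff

variable {V : Type*} [NormedAddCommGroup V] [InnerProductSpace ℝ V] [FiniteDimensional ℝ V]

omit [FiniteDimensional ℝ V] in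
theorem trimf_contDiff (e x : V) (κ : ℝ) : ContDiff ℝ ∞ (trimf e x κ) := by
  have h0 : ContDiff ℝ ∞ (fun y : V => y - x) := contDiff_id.sub contDiff_const
  exact (contDiff_const.inner ℝ h0).add (contDiff_const.mul (h0.norm_sq ℝ))

omit [FiniteDimensional ℝ V] in
theorem trimf_fderiv (e x : V) (κ : ℝ) (y v : V) :
    fderiv ℝ (trimf e x κ) y v = ⟪e + (2 * κ) • (y - x), v⟫ := by
  have h0 : HasFDerivAt (fun y : V => y - x) (ContinuousLinearMap.id ℝ V) y :=
    (hasFDerivAt_id y).sub_const x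
  have h1 : HasFDerivAt (fun y : V => ⟪e, y - x⟫) (innerSL ℝ e) y := by
    have := (innerSL ℝ e).hasFDerivAt (x := y - x) |>.comp y h0
    rw [ContinuousLinearMap.comp_id] at this
    exact this
  have h2 : HasFDerivAt (fun y : V => ‖y - x‖ ^ 2) ((2 : ℝ) • innerSL ℝ (y - x)) y := by
    have := (hasStrictFDerivAt_norm_sq (y - x)).hasFDerivAt.comp y h0
    rw [ContinuousLinearMap.comp_id] at this
    refine this.congr_fderiv ?_
    ext v
    simp
  have h3 : HasFDerivAt (trimf e x κ) (innerSL ℝ e + κ • ((2 : ℝ) • innerSL ℝ (y - x))) y :=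
    h1.add (h2.const_mul κ)
  rw [h3.fderiv]
  simp only [_root_.add_apply, _root_.smul_apply, innerSL_apply_apply, smul_eq_mul,
    inner_add_left, real_inner_smul_left]
  ring

theorem Trim_arith {c ε L l W T C : ℝ} (hc : 0 < c) (hε : 0 < ε) (hL : 0 ≤ L) (_hl : 0 < l)
    (hW : 0 ≤ W) (hT : 0 ≤ T) (hε1 : 2 * ε ≤ c / 2) (hC : C = 2 * (L + c) / c)
    (hε2 : ε * (C + 1) ≤ l / 2) (h11 : c * W ^ 2 ≤ 2 * ε * (W + T) * W + T * (L * W))
    (h22 : l * T ≤ ε * (W + T)) : T = 0 ∧ W ≤ 0 := by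
  have h16 : W ≤ C * T := by
    rcases hW.eq_or_lt with h0 | h0
    · rw [← h0, hC]
      positivity
    · have h17 : c * W ≤ 2 * ε * (W + T) + T * L := by
        have h18 : c * W * W ≤ (2 * ε * (W + T) + T * L) * W := by
          linarith [h11]
        exact le_of_mul_le_mul_right h18 h0
      have h19 : c / 2 * W ≤ (L + c) * T := by
        have h20 : 2 * ε * W ≤ c / 2 * W := mul_le_mul_of_nonneg_right hε1 h0.le
        have h21 : 2 * ε * T ≤ c * T := mul_le_mul_of_nonneg_right (by linarith) hT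
        linarith
      rw [hC, div_mul_eq_mul_div, le_div_iff₀ hc]
      linarith
  have h25 : T = 0 := by
    have h26 : ε * (W + T) ≤ ε * ((C + 1) * T) := mul_le_mul_of_nonneg_left (by linarith) hε.le
    have h27 : ε * ((C + 1) * T) ≤ l / 2 * T := by
      rw [← mul_assoc]
      exact mul_le_mul_of_nonneg_right hε2 hT
    have h28 : l * T ≤ l / 2 * T := h22.trans (h26.trans h27)
    nlinarith
  refine ⟨h25, ?_⟩
  rw [h25, mul_zero] at h16
  exact h16

/-- Near a nondegenerate point with normal `-e` there is no other point whose normal is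
`-(e + 2 κ (y - x))`, if `κ` is small. -/
theorem Trim_local (F : V → ℝ) (hF : ContDiff ℝ ∞ F) (e : V) (he : ‖e‖ = 1) (p : V)
    (hp : Inward F e p) (k : ℕ) (hk : Idx F e p k) :
    ∃ ρ : ℝ, 0 < ρ ∧ ∃ k1 : ℝ, 0 < k1 ∧ ∀ κ, 0 ≤ κ → κ < k1 → ∀ y, dist y p < ρ → F y = 0 →
      ∀ m : ℝ, 0 < m → gradient F y = -(m • (e + (2 * κ) • (y - p))) → y = p := by
  obtain ⟨c, hc, hcw⟩ := Idx.nondeg hF hk
  obtain ⟨hp0, l, hl, hg⟩ := hp
  have hpI : Inward F e p := ⟨hp0, l, hl, hg⟩
  have hd1 : HasFDerivAt F (fderiv ℝ F p) p :=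
    (hF.differentiable (by simp)).differentiableAt.hasFDerivAt
  have hd2 : HasFDerivAt (fderiv ℝ F) (fderiv ℝ (fderiv ℝ F) p) p :=
    ((hF.fderiv_right (m := ∞) (by simp)).differentiable (by simp)).differentiableAt.hasFDerivAt
  set D := fderiv ℝ (fderiv ℝ F) p with hD
  have hL : 0 ≤ ‖D‖ := norm_nonneg D
  set C : ℝ := 2 * (‖D‖ + c) / c with hC
  have hC0 : 0 ≤ C := by positivity
  set ε : ℝ := min (c / 4) (l / (2 * (C + 1))) with hε
  have hε0 : 0 < ε := by
    rw [hε]
    exact lt_min (by positivity) (by positivity)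
  have hε1 : 2 * ε ≤ c / 2 := by
    have : ε ≤ c / 4 := min_le_left _ _
    linarith
  have hε2 : ε * (C + 1) ≤ l / 2 := by
    have h1 : ε ≤ l / (2 * (C + 1)) := min_le_right _ _
    have h2 : l / (2 * (C + 1)) * (C + 1) = l / 2 := by
      field_simp
    calc ε * (C + 1) ≤ l / (2 * (C + 1)) * (C + 1) :=
          mul_le_mul_of_nonneg_right h1 (by linarith)
      _ = l / 2 := h2
  have hb1 := (hasFDerivAt_iff_isLittleO.1 hd2).bound hε0
  have hb2 := (hasFDerivAt_iff_isLittleO.1 hd1).bound hε0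
  have hgc : Continuous (gradient F) := by
    have h1 : Continuous (fderiv ℝ F) := hF.continuous_fderiv (by simp)
    exact (InnerProductSpace.toDual ℝ V).symm.continuous.comp h1
  have hb3 : ∀ᶠ y in 𝓝 p, ‖gradient F y‖ < l + 1 := by
    have h1 : ‖gradient F p‖ = l := by
      rw [hg, norm_neg, norm_smul, he, mul_one, Real.norm_of_nonneg hl.le]
    exact (hgc.norm.tendsto p).eventually_lt_const (by rw [h1]; linarith)
  obtain ⟨ρ, hρ, hball⟩ := Metric.eventually_nhds_iff.1 (hb1.and (hb2.and hb3))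
  refine ⟨min ρ (1 / 4), lt_min hρ (by norm_num), min 1 (ε / (4 * (l + 1))),
    lt_min one_pos (by positivity), fun κ hκ0 hκ x hx hx0 m hm hgx => ?_⟩
  have hκ1 : κ < 1 := hκ.trans_le (min_le_left _ _)
  have hκ2 : 4 * (l + 1) * κ ≤ ε := by
    have h1 : κ ≤ ε / (4 * (l + 1)) := (hκ.trans_le (min_le_right _ _)).le
    rw [le_div_iff₀ (by positivity)] at h1
    linarith
  have hx1 : dist x p < ρ := hx.trans_le (min_le_left _ _)
  have hx2 : ‖x - p‖ < 1 / 4 := by
    rw [← dist_eq_norm]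
    exact hx.trans_le (min_le_right _ _)
  obtain ⟨h1, h2, h3'⟩ := hball hx1
  -- bound for `m`
  have hm2 : m ≤ 2 * (l + 1) := by
    have h4 : ‖gradient F x‖ = m * ‖e + (2 * κ) • (x - p)‖ := by
      rw [hgx, norm_neg, norm_smul, Real.norm_of_nonneg hm.le]
    have h5 : 1 / 2 ≤ ‖e + (2 * κ) • (x - p)‖ := by
      have h6 : ‖e‖ ≤ ‖e + (2 * κ) • (x - p)‖ + ‖(2 * κ) • (x - p)‖ := by
        have := norm_sub_le (e + (2 * κ) • (x - p)) ((2 * κ) • (x - p))
        rwa [add_sub_cancel_right] at this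
      rw [norm_smul, Real.norm_of_nonneg (by linarith : (0 : ℝ) ≤ 2 * κ), he] at h6
      have h7 : 2 * κ * ‖x - p‖ ≤ 2 * 1 * (1 / 4) := by
        apply mul_le_mul (by linarith) hx2.le (norm_nonneg _) (by norm_num)
      linarith
    have h6 : m * (1 / 2) ≤ m * ‖e + (2 * κ) • (x - p)‖ := mul_le_mul_of_nonneg_left h5 hm.le
    linarith
  have hfd : ∀ v, fderiv ℝ F x v = -(m * (⟪e, v⟫ + 2 * κ * ⟪x - p, v⟫)) := by
    intro v
    rw [← inner_gradient_left, hgx, inner_neg_left, real_inner_smul_left, inner_add_left,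
      real_inner_smul_left]
  have hxp : x - p = Ring_w p e x + Ring_t p e x • e := by rw [Ring_w]; abel
  have ho := Ring_orth he p x
  have hdist : ‖x - p‖ ≤ ‖Ring_w p e x‖ + |Ring_t p e x| := by
    rw [← dist_eq_norm]
    exact Ring_dist he p x
  obtain ⟨w', hw'e, hw'n, hw'c⟩ := hcw _ ho
  set w := Ring_w p e x with hw
  set t := Ring_t p e x with ht
  -- the first estimate
  have h3 : |D (x - p) w'| ≤ 2 * ε * (‖w‖ + |t|) * ‖w‖ := by
    have h4 := (fderiv ℝ F x - fderiv ℝ F p - D (x - p)).le_opNorm w'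
    have h5 : (fderiv ℝ F x - fderiv ℝ F p - D (x - p)) w' =
        -(D (x - p) w' + 2 * m * κ * ⟪x - p, w'⟫) := by
      rw [_root_.sub_apply, _root_.sub_apply, hfd,
        Ring_fd hpI hw'e, real_inner_comm, hw'e]
      ring
    rw [h5, norm_neg, Real.norm_eq_abs, hw'n] at h4
    have h6 : ‖fderiv ℝ F x - fderiv ℝ F p - D (x - p)‖ ≤ ε * (‖w‖ + |t|) :=
      h1.trans (mul_le_mul_of_nonneg_left hdist hε0.le)
    have h7 : |2 * m * κ * ⟪x - p, w'⟫| ≤ ε * (‖w‖ + |t|) * ‖w‖ := by
      have h8 : |⟪x - p, w'⟫| ≤ (‖w‖ + |t|) * ‖w‖ := by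
        refine (abs_real_inner_le_norm _ _).trans ?_
        rw [hw'n]
        exact mul_le_mul_of_nonneg_right hdist (norm_nonneg _)
      have h9 : 0 ≤ 2 * m * κ := by positivity
      have h10 : 2 * m * κ ≤ ε := by
        have : m * κ ≤ 2 * (l + 1) * κ := mul_le_mul_of_nonneg_right hm2 hκ0
        linarith
      rw [abs_mul, abs_of_nonneg h9, mul_assoc ε]
      exact mul_le_mul h10 h8 (abs_nonneg _) hε0.le
    have h8 := h4.trans (mul_le_mul_of_nonneg_right h6 (norm_nonneg _))
    have h9 : |D (x - p) w'| ≤ |D (x - p) w' + 2 * m * κ * ⟪x - p, w'⟫| +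
        |2 * m * κ * ⟪x - p, w'⟫| := by
      have := abs_sub (D (x - p) w' + 2 * m * κ * ⟪x - p, w'⟫) (2 * m * κ * ⟪x - p, w'⟫)
      rwa [add_sub_cancel_right] at this
    linarith
  have h7 : D (x - p) w' = D w w' + t * D e w' := by
    rw [hxp, map_add, map_smul]
    rfl
  have h8 : |D e w'| ≤ ‖D‖ * ‖w‖ := by
    have h9 := (D e).le_opNorm w'
    have h10 := D.le_opNorm e
    rw [he, mul_one] at h10
    rw [Real.norm_eq_abs, hw'n] at h9
    exact h9.trans (mul_le_mul_of_nonneg_right h10 (norm_nonneg _))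
  have h11 : c * ‖w‖ ^ 2 ≤ 2 * ε * (‖w‖ + |t|) * ‖w‖ + |t| * (‖D‖ * ‖w‖) := by
    have h12 : D w w' = D (x - p) w' - t * D e w' := by rw [h7]; ring
    have h13 : |t * D e w'| ≤ |t| * (‖D‖ * ‖w‖) := by
      rw [abs_mul]
      exact mul_le_mul_of_nonneg_left h8 (abs_nonneg _)
    have h14 := le_abs_self (D (x - p) w')
    have h15 := neg_abs_le (t * D e w')
    calc c * ‖w‖ ^ 2 ≤ D w w' := hw'c
      _ = D (x - p) w' - t * D e w' := h12
      _ ≤ 2 * ε * (‖w‖ + |t|) * ‖w‖ + |t| * (‖D‖ * ‖w‖) := by linarith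
  -- the second estimate
  have h22 : l * |t| ≤ ε * (‖w‖ + |t|) := by
    have h23 : F x - F p - fderiv ℝ F p (x - p) = l * t := by
      rw [hx0, hp0, cgLocal_grad hg]
      have h24 : (⟪x - p, e⟫ : ℝ) = t := rfl
      rw [h24]
      ring
    rw [h23, Real.norm_eq_abs, abs_mul, abs_of_pos hl] at h2
    exact h2.trans (mul_le_mul_of_nonneg_left hdist hε0.le)
  obtain ⟨h25, h26⟩ := Trim_arith hc hε0 hL hl (norm_nonneg w) (abs_nonneg t) hε1 hC hε2 h11 h22
  have ht0 : t = 0 := abs_eq_zero.1 h25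
  have hw0 : w = 0 := norm_le_zero_iff.1 h26
  rw [hw0, ht0, zero_smul, add_zero] at hxp
  exact sub_eq_zero.1 hxp

/-- For small `κ` there is no point of positive modified height where the normal is opposite to the
gradient of the modified height. -/
theorem Trim_global (F : V → ℝ) (hF : ContDiff ℝ ∞ F) (hb : Bornology.IsBounded {x | F x ≤ 0})
    (hreg : ∀ x, F x = 0 → gradient F x ≠ 0) (e : V) (he : ‖e‖ = 1) (x : V)
    (hx : Inward F e x) (j : ℕ) (hj : Idx F e x j)
    (htop : ∀ y, Inward F e y → y ≠ x → ⟪e, y⟫ < ⟪e, x⟫) :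
    ∃ k0 : ℝ, 0 < k0 ∧ ∀ κ, 0 < κ → κ < k0 → ∀ y, F y = 0 → 0 < trimf e x κ y →
      ∀ m : ℝ, 0 < m → gradient F y ≠ -(m • (e + (2 * κ) • (y - x))) := by
  have hprop : ProperSpace V := FiniteDimensional.proper ℝ V
  obtain ⟨ρ, hρ, k1, hk1, hloc⟩ := Trim_local F hF e he x hx j hj
  have hK : IsCompact {y | F y = 0} :=
    Metric.isCompact_of_isClosed_isBounded (isClosed_eq hF.continuous continuous_const)
      (hb.subset fun y hy => le_of_eq hy)
  have hgc : Continuous (gradient F) := by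
    have h1 : Continuous (fderiv ℝ F) := hF.continuous_fderiv (by simp)
    exact (InnerProductSpace.toDual ℝ V).symm.continuous.comp h1
  have hbc : Continuous fun q : ℝ × V => trimf e x q.1 q.2 := by
    unfold trimf
    fun_prop
  have key : ∀ᶠ κ in 𝓝 (0 : ℝ), ∀ y ∈ {y | F y = 0}, F y = 0 → 0 < κ → 0 < trimf e x κ y →
      ∀ m : ℝ, 0 < m → gradient F y ≠ -(m • (e + (2 * κ) • (y - x))) := by
    refine hK.eventually_forall_of_forall_eventually ?_
    intro y hy
    have hy0 : F y = 0 := hy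
    by_cases hyx : y = x
    · rw [hyx]
      have h1 : ∀ᶠ q : ℝ × V in 𝓝 ((0 : ℝ), x), q.1 < k1 :=
        (continuous_fst.tendsto _).eventually_lt_const hk1
      have h2 : ∀ᶠ q : ℝ × V in 𝓝 ((0 : ℝ), x), dist q.2 x < ρ := by
        have hc : Continuous fun q : ℝ × V => dist q.2 x := by fun_prop
        refine (hc.tendsto _).eventually_lt_const ?_
        rw [dist_self]
        exact hρ
      filter_upwards [h1, h2] with q hq1 hq2 hq0 hq3 hq4 m hm hgq
      have h3 := hloc q.1 hq3.le hq1 q.2 hq2 hq0 m hm hgq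
      rw [h3] at hq4
      simp [trimf] at hq4
    · by_cases hlow : ⟪e, y - x⟫ < 0
      · have h1 : ∀ᶠ q : ℝ × V in 𝓝 ((0 : ℝ), y), trimf e x q.1 q.2 < 0 := by
          refine (hbc.tendsto _).eventually_lt_const ?_
          simp only [trimf, zero_mul, add_zero]
          exact hlow
        filter_upwards [h1] with q hq1 _ _ hq4
        linarith
      · have hnI : ¬ Inward F e y := by
          intro hI
          have := htop y hI hyx
          rw [inner_sub_right] at hlow
          linarith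
        have hc : Continuous fun q : ℝ × V => ‖e + (2 * q.1) • (q.2 - x)‖ • gradient F q.2 +
            ‖gradient F q.2‖ • (e + (2 * q.1) • (q.2 - x)) := by
          have h1 : Continuous fun q : ℝ × V => gradient F q.2 := hgc.comp continuous_snd
          have h2 : Continuous fun q : ℝ × V => e + (2 * q.1) • (q.2 - x) := by fun_prop
          exact (h2.norm.smul h1).add (h1.norm.smul h2)
        have hne : ‖e + (2 * (0 : ℝ)) • (y - x)‖ • gradient F y +
            ‖gradient F y‖ • (e + (2 * (0 : ℝ)) • (y - x)) ≠ 0 := by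
          rw [mul_zero, zero_smul, add_zero, he, one_smul]
          intro h0
          exact hnI ⟨hy0, _, norm_pos_iff.2 (hreg y hy0), eq_neg_of_add_eq_zero_left h0⟩
        have h1 := (hc.tendsto ((0 : ℝ), y)).eventually_ne hne
        filter_upwards [h1] with q hq1 _ _ _ m hm hgq
        apply hq1
        have h2 : ‖gradient F q.2‖ = m * ‖e + (2 * q.1) • (q.2 - x)‖ := by
          rw [hgq, norm_neg, norm_smul, Real.norm_of_nonneg hm.le]
        rw [h2, hgq]
        module
  obtain ⟨k0, hk0, h⟩ := Metric.eventually_nhds_iff.1 key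
  refine ⟨k0, hk0, fun κ h1 h2 y hy h3 m hm => ?_⟩
  exact h (by rw [Real.dist_eq, sub_zero, abs_of_pos h1]; exact h2) y hy hy h1 h3 m hm

/-- Two vectors which are not opposite have a common descent direction. -/
theorem Trim_common {W : Type*} [NormedAddCommGroup W] [InnerProductSpace ℝ W] {a b : W}
    (ha : a ≠ 0) (hb : b ≠ 0) (h : ∀ m : ℝ, 0 < m → a ≠ -(m • b)) :
    ∃ v : W, ⟪a, v⟫ < 0 ∧ ⟪b, v⟫ < 0 := by
  have ha0 : 0 < ‖a‖ := norm_pos_iff.2 ha
  have hb0 : 0 < ‖b‖ := norm_pos_iff.2 hb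
  have key : 0 < ‖a‖ * ‖b‖ + ⟪a, b⟫ := by
    by_contra hc
    push Not at hc
    have h1 : ‖‖b‖ • a + ‖a‖ • b‖ ^ 2 = 2 * ‖a‖ * ‖b‖ * (‖a‖ * ‖b‖ + ⟪a, b⟫) := by
      rw [norm_add_sq_real, norm_smul, norm_smul, norm_norm, norm_norm, real_inner_smul_left,
        real_inner_smul_right]
      ring
    have h2 : ‖‖b‖ • a + ‖a‖ • b‖ ^ 2 ≤ 0 := by
      rw [h1]
      have : 0 < 2 * ‖a‖ * ‖b‖ := by positivity
      exact mul_nonpos_of_nonneg_of_nonpos this.le hc
    have h3 : ‖b‖ • a + ‖a‖ • b = 0 := by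
      have h4 : ‖‖b‖ • a + ‖a‖ • b‖ ^ 2 = 0 := le_antisymm h2 (sq_nonneg _)
      exact norm_eq_zero.1 (pow_eq_zero_iff (two_ne_zero) |>.1 h4)
    refine h (‖a‖ / ‖b‖) (by positivity) ?_
    have h4 : a = -((‖b‖)⁻¹ • ‖a‖ • b) := by
      rw [eq_neg_of_add_eq_zero_right h3, smul_neg, neg_neg, smul_smul, inv_mul_cancel₀ hb0.ne',
        one_smul]
    rw [div_eq_inv_mul, mul_smul]
    exact h4
  refine ⟨-(‖b‖ • a + ‖a‖ • b), ?_, ?_⟩
  · rw [inner_neg_right, inner_add_right, real_inner_smul_right, real_inner_smul_right,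
      real_inner_self_eq_norm_sq]
    have := mul_pos ha0 key
    nlinarith
  · rw [inner_neg_right, inner_add_right, real_inner_smul_right, real_inner_smul_right,
      real_inner_self_eq_norm_sq, real_inner_comm]
    have := mul_pos hb0 key
    nlinarith

/-- Cutting off the part of large modified height does not change the homotopy class. -/
theorem hx_trim (F : V → ℝ) (hF : ContDiff ℝ ∞ F) (hb : Bornology.IsBounded {x | F x ≤ 0})
    (hreg : ∀ x, F x = 0 → gradient F x ≠ 0) (e x : V) (g : ℝ) (he : ‖e‖ = 1) (hg : 0 < g)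
    (hx : Inward F e x) (j : ℕ) (hj : Idx F e x j)
    (hgap : ∀ y, Inward F e y → y ≠ x → ⟪e, y⟫ < ⟪e, x⟫ - g) :
    ∃ κ₀ : ℝ, 0 < κ₀ ∧ ∀ κ, 0 < κ → κ < κ₀ → ∀ ε : ℝ, 0 < ε →
      Hom F (fun y => max (F y) (trimf e x κ y - ε)) := by
  obtain ⟨k0, hk0, h0⟩ := Trim_global F hF hb hreg e he x hx j hj
    (fun y hy hyx => by linarith [hgap y hy hyx])
  refine ⟨k0, hk0, fun κ hκ0 hκ ε hε => ?_⟩
  have hbC := trimf_contDiff e x κ
  have hbc := hbC.continuous
  have hgood : Good F := good_of_regular hF (hb.subset fun x hx => le_of_eq hx)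
    (fun x hx h => hreg x hx (by rw [gradient, h, map_zero]))
  -- a level above the body
  obtain ⟨S, hεS, hS⟩ : ∃ S : ℝ, ε ≤ S ∧ ∀ y, F y ≤ 0 → trimf e x κ y < S := by
    obtain ⟨R, hR⟩ := hb.exists_norm_le
    refine ⟨max ε ((R + ‖x‖) + κ * (R + ‖x‖) ^ 2 + 1), le_max_left _ _, fun y hy => ?_⟩
    refine lt_of_lt_of_le ?_ (le_max_right _ _)
    have h1 : ‖y - x‖ ≤ R + ‖x‖ := (norm_sub_le _ _).trans (by linarith [hR y hy])
    have h2 : ⟪e, y - x⟫ ≤ R + ‖x‖ := by
      refine (real_inner_le_norm _ _).trans ?_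
      rw [he, one_mul]
      exact h1
    have h3 : κ * ‖y - x‖ ^ 2 ≤ κ * (R + ‖x‖) ^ 2 :=
      mul_le_mul_of_nonneg_left (pow_le_pow_left₀ (norm_nonneg _) h1 2) hκ0.le
    unfold trimf
    linarith
  have hfirst : Hom F (fun y => max (F y) (trimf e x κ y - S)) := by
    refine Hom.of_eq_near hgood (hF.continuous.max (hbc.sub continuous_const)) ?_ ?_ ?_
    · intro y
      constructor
      · intro h
        exact max_lt h (by linarith [hS y h.le])
      · intro h
        exact (le_max_left _ _).trans_lt h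
    · intro y
      constructor
      · intro h
        exact max_le h (by linarith [hS y h])
      · intro h
        exact (le_max_left _ _).trans h
    · intro y hy
      have h1 : trimf e x κ y - S < F y := by
        rw [hy]
        linarith [hS y hy.le]
      filter_upwards [(hbc.sub continuous_const).continuousAt.eventually_lt
        hF.continuous.continuousAt h1] with z hz
      exact (max_eq_left hz.le).symm
  refine hfirst.trans (Hom.symm ?_)
  refine ⟨fun t y => max (F y) (trimf e x κ y + -(ε + t * (S - ε))), ?_, ?_, ?_, ?_, ?_⟩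
  · have h1 : Continuous fun p : ℝ × V => F p.2 := hF.continuous.comp continuous_snd
    have h2 : Continuous fun p : ℝ × V => trimf e x κ p.2 := hbc.comp continuous_snd
    exact h1.max (h2.add (by fun_prop))
  · funext y
    show max (F y) (trimf e x κ y + -(ε + 0 * (S - ε))) = max (F y) (trimf e x κ y - ε)
    rw [zero_mul, add_zero, sub_eq_add_neg]
  · funext y
    show max (F y) (trimf e x κ y + -(ε + 1 * (S - ε))) = max (F y) (trimf e x κ y - S)
    rw [one_mul, add_sub_cancel, sub_eq_add_neg]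
  · obtain ⟨R, hR⟩ := hb.exists_norm_le
    exact ⟨R, fun t _ y hy => hR y ((le_max_left _ _).trans (le_of_eq hy))⟩
  · intro t ht y hy
    have hlev : ε ≤ ε + t * (S - ε) := by
      have := mul_nonneg ht.1 (sub_nonneg.2 hεS)
      linarith
    -- the two gradients
    have hbg : ∀ v, fderiv ℝ (trimf e x κ) y v = ⟪e + (2 * κ) • (y - x), v⟫ := trimf_fderiv e x κ y
    have hFg : ∀ v, fderiv ℝ F y v = ⟪gradient F y, v⟫ := fun v => (inner_gradient_left).symm
    have hbne : trimf e x κ y + -(ε + t * (S - ε)) = 0 → e + (2 * κ) • (y - x) ≠ 0 := by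
      intro h1 h2
      have h3 : trimf e x κ y ≤ 0 := by
        have h4 : e = -((2 * κ) • (y - x)) := eq_neg_of_add_eq_zero_left h2
        unfold trimf
        rw [h4, inner_neg_left, real_inner_smul_left, real_inner_self_eq_norm_sq]
        have : 0 ≤ κ * ‖y - x‖ ^ 2 := by positivity
        linarith
      linarith
    obtain ⟨v, hv1, hv2⟩ : ∃ v : V, (F y = 0 → fderiv ℝ F y v < 0) ∧
        (trimf e x κ y + -(ε + t * (S - ε)) = 0 → fderiv ℝ (trimf e x κ) y v < 0) := by
      by_cases hA : F y = 0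
      · by_cases hB : trimf e x κ y + -(ε + t * (S - ε)) = 0
        · obtain ⟨v, h1, h2⟩ := Trim_common (hreg y hA) (hbne hB)
            (h0 κ hκ0 hκ y hA (by linarith))
          refine ⟨v, fun _ => ?_, fun _ => ?_⟩
          · rw [hFg]
            exact h1
          · rw [hbg]
            exact h2
        · refine ⟨-gradient F y, fun _ => ?_, fun h => absurd h hB⟩
          rw [hFg, inner_neg_right, real_inner_self_eq_norm_sq]
          have := norm_pos_iff.2 (hreg y hA)
          have : 0 < ‖gradient F y‖ ^ 2 := by positivity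
          linarith
      · by_cases hB : trimf e x κ y + -(ε + t * (S - ε)) = 0
        · refine ⟨-(e + (2 * κ) • (y - x)), fun h => absurd h hA, fun _ => ?_⟩
          rw [hbg, inner_neg_right, real_inner_self_eq_norm_sq]
          have := norm_pos_iff.2 (hbne hB)
          have : 0 < ‖e + (2 * κ) • (y - x)‖ ^ 2 := by positivity
          linarith
        · exact ⟨0, fun h => absurd h hA, fun h => absurd h hB⟩
    refine ⟨v, ?_⟩
    have hd1 : DZ (fun _ : ℝ => F) t y v := dz_static fun h =>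
      desc1_smooth (hF.contDiffAt.of_le (by norm_cast)) (hv1 h)
    have hd2 : DZ (fun s z => trimf e x κ z + -(ε + s * (S - ε))) t y v :=
      dz_add_const (fun s => -(ε + s * (S - ε))) fun h =>
        desc1_smooth (hbC.contDiffAt.of_le (by norm_cast)) (hv2 h)
    have hc1 : Continuous fun p : ℝ × V => (fun _ : ℝ => F) p.1 p.2 :=
      hF.continuous.comp continuous_snd
    have hc2 : Continuous fun p : ℝ × V =>
        (fun s z => trimf e x κ z + -(ε + s * (S - ε))) p.1 p.2 := by
      have h2 : Continuous fun p : ℝ × V => trimf e x κ p.2 := hbc.comp continuous_snd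
      exact h2.add (by fun_prop)
    exact dz_max hc1 hc2 hd1 hd2 hy

end Pool.Schoen
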