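import Pool.Agent.H.MP_6c077c_gt.Hx.Local
import Pool.Agent.H.MP_6c077c_gt.Hx.Trim
import Pool.Agent.H.MP_6c077c_gt.Hx.RayS
import Pool.Agent.H.MP_6c077c_gt.Hx.RayW

/-! Hexasecant theorem: the body trimmed by a big ball is radial in the weak sense with respect to
the points of an open set just below the inward point `x`, if no line which crosses the hypersurface
six times meets it near `x`. -/

set_option autoImplicit false

namespace Pool.Schoen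

open Filter Set
open scoped Topology RealInnerProductSpace ContDiff

variable {V : Type*} [NormedAddCommGroup V] [InnerProductSpace ℝ V]

/-- Small positive parameters. -/
theorem LocalS_ev (φ : ℝ → ℝ) (a : ℝ) (hφ : Continuous φ) (h : φ 0 < a) :
    ∀ᶠ r in 𝓝[>] (0 : ℝ), φ r < a :=
  (hφ.continuousAt.eventually_lt continuousAt_const h).filter_mono nhdsWithin_le_nhds

/-- The dichotomy for rays in the direction of unit vectors, from the points `o` of an open set just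
below the inward point `x`: the opposite ray meets the open body, or the body trimmed by the big
ball has the ray property. -/
theorem hx_local_unit_s {F : V → ℝ} (hF : ContDiff ℝ ∞ F) {e x : V} (he : ‖e‖ = 1) {l : ℝ}
    (hl : 0 < l) (hx : F x = 0) (hgrad : ∀ w, fderiv ℝ F x w = -(l * ⟪e, w⟫)) {κ : ℝ}
    (hκ : 0 < κ) {R : ℝ} (hR : 0 < R) :
    ∃ ε τ : ℝ, 0 < ε ∧ 0 < τ ∧ ∀ o : V, ‖o - x‖ < 2 * τ → ⟪e, o - x⟫ < -(τ / 2) →
      0 < F o ∧ trimf e x κ o - ε < 0 ∧ ∀ v : V, ‖v‖ = 1 →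
        (∃ t : ℝ, t < 0 ∧ F (o + t • v) < 0 ∧ ∀ t' ∈ Icc t 0, ‖o + t' • v - x‖ < R) ∨
        RayNeg (fun y => max (F y) (trimf e x κ y - ε)) o v := by
  obtain ⟨r1, B, L, hr1, hB, hL, hT1', hT2'⟩ := hx_taylor hF x
  obtain ⟨r0, hr0, hr01, hr0R⟩ : ∃ r0 : ℝ, 0 < r0 ∧ r0 ≤ r1 ∧ r0 ≤ R :=
    ⟨min r1 R, lt_min hr1 hR, min_le_left _ _, min_le_right _ _⟩
  have hT1 : ∀ w : V, ‖w‖ < r0 → |F (x + w) - F x - fderiv ℝ F x w| ≤ B * ‖w‖ ^ 2 :=
    fun w hw => hT1' w (hw.trans_le hr01)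
  have hT2 : ∀ w : V, ‖w‖ < r0 → ∀ v : V, ‖v‖ = 1 →
      |fderiv ℝ (fderiv ℝ F) (x + w) v v - fderiv ℝ (fderiv ℝ F) x v v| ≤ L * ‖w‖ :=
    fun w hw => hT2' w (hw.trans_le hr01)
  -- the constant `c`
  obtain ⟨c, hc0, hc1, hc2⟩ : ∃ c : ℝ, 0 < c ∧ 16 * c < κ ∧ 128 * B * c < l * κ ^ 2 := by
    have h1 : ∀ᶠ r in 𝓝[>] (0 : ℝ), 16 * r < κ := LocalS_ev _ _ (by fun_prop) (by simpa using hκ)
    have h2 : ∀ᶠ r in 𝓝[>] (0 : ℝ), 128 * B * r < l * κ ^ 2 :=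
      LocalS_ev _ _ (by fun_prop) (by rw [mul_zero]; positivity)
    obtain ⟨c, hc⟩ := ((h1.and h2).and self_mem_nhdsWithin).exists
    exact ⟨c, hc.2, hc.1.1, hc.1.2⟩
  -- the radius `ρ`
  obtain ⟨ρ, hρ0, hρ1, hρ2, hρ4, hρ5, hρ6, hρ7⟩ : ∃ ρ : ℝ, 0 < ρ ∧ 16 * (c * ρ ^ 2) < ρ ∧
      16 * B * (c * ρ ^ 2) < l ∧ 2 * ρ < r0 ∧ l * κ * ρ / (8 * B) + ρ < r0 ∧
      16 * L * ρ < l * c ∧ 4 * κ * (c * ρ ^ 2) < 1 := by
    have h1 : ∀ᶠ r in 𝓝[>] (0 : ℝ), 16 * c * r < 1 := LocalS_ev _ _ (by fun_prop) (by simp)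
    have h2 : ∀ᶠ r in 𝓝[>] (0 : ℝ), 16 * B * (c * r ^ 2) < l :=
      LocalS_ev _ _ (by fun_prop) (by simpa using hl)
    have h4 : ∀ᶠ r in 𝓝[>] (0 : ℝ), 2 * r < r0 := LocalS_ev _ _ (by fun_prop) (by simpa using hr0)
    have h5 : ∀ᶠ r in 𝓝[>] (0 : ℝ), l * κ * r / (8 * B) + r < r0 :=
      LocalS_ev _ _ (by fun_prop) (by simpa using hr0)
    have h6 : ∀ᶠ r in 𝓝[>] (0 : ℝ), 16 * L * r < l * c :=
      LocalS_ev _ _ (by fun_prop) (by rw [mul_zero]; positivity)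
    have h7 : ∀ᶠ r in 𝓝[>] (0 : ℝ), 4 * κ * (c * r ^ 2) < 1 :=
      LocalS_ev _ _ (by fun_prop) (by simp)
    obtain ⟨ρ, hρ⟩ := ((h1.and (h2.and (h4.and (h5.and (h6.and h7))))).and
      self_mem_nhdsWithin).exists
    obtain ⟨⟨a1, a2, a4, a5, a6, a9⟩, a7⟩ := hρ
    have a8 : (0 : ℝ) < ρ := a7
    refine ⟨ρ, a8, ?_, a2, a4, a5, a6, a9⟩
    have := mul_lt_mul_of_pos_right a1 a8
    linarith
  set τ : ℝ := c * ρ ^ 2 with hτ
  have hτ0 : 0 < τ := by positivity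
  refine ⟨τ, τ, hτ0, hτ0, fun o ho1 ho2 => ?_⟩
  set w0 : V := o - x with hw0
  have hox : ∀ w : V, o + w = x + (w0 + w) := fun w => by rw [hw0]; abel
  have hnw : ∀ (s : ℝ) (v : V), ‖v‖ = 1 → ‖w0 + s • v‖ ≤ |s| + 2 * τ := fun s v hv => by
    calc ‖w0 + s • v‖ ≤ ‖w0‖ + ‖s • v‖ := norm_add_le _ _
      _ = ‖w0‖ + |s| := by rw [norm_smul, hv, mul_one, Real.norm_eq_abs]
      _ ≤ |s| + 2 * τ := by linarith
  have hβ0 : |⟪e, w0⟫| ≤ ‖w0‖ := by
    have := abs_real_inner_le_norm e w0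
    rwa [he, one_mul] at this
  have hβ1 : -⟪e, w0⟫ ≤ 2 * τ := by linarith [(abs_le.1 hβ0).1]
  -- values of `F`
  have hval : ∀ (s : ℝ) (v : V), ‖v‖ = 1 → |s| + 2 * τ < r0 →
      |F (o + s • v) + l * (s * ⟪e, v⟫ - -⟪e, w0⟫)| ≤ B * (|s| + 2 * τ) ^ 2 := fun s v hv hs => by
    have h1 := hT1 (w0 + s • v) (lt_of_le_of_lt (hnw s v hv) hs)
    rw [← hox, hx, sub_zero, hgrad, inner_add_right, inner_smul_right, sub_neg_eq_add] at h1
    have h2 : l * (s * ⟪e, v⟫ - -⟪e, w0⟫) = l * (⟪e, w0⟫ + s * ⟪e, v⟫) := by ring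
    rw [h2]
    refine h1.trans (mul_le_mul_of_nonneg_left ?_ hB.le)
    exact pow_le_pow_left₀ (norm_nonneg _) (hnw s v hv) 2
  have hFo : l * τ / 4 ≤ F o := by
    have h1 := hval 0 e he (by rw [abs_zero]; linarith)
    rw [zero_smul, add_zero, zero_mul, abs_zero, zero_add, abs_le] at h1
    have h2 : B * (2 * τ) ^ 2 ≤ l * τ / 4 := by
      have h3 := mul_le_mul_of_nonneg_right hρ2.le hτ0.le
      have h4 : B * (2 * τ) ^ 2 = 16 * B * τ * τ / 4 := by ring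
      rw [h4]
      linarith
    have h3 : l * (τ / 2) ≤ l * -⟪e, w0⟫ := mul_le_mul_of_nonneg_left (by linarith) hl.le
    linarith [h1.1]
  have hFo0 : 0 < F o := lt_of_lt_of_le (by positivity) hFo
  have hho : trimf e x κ o - τ < 0 := by
    have h1 : ‖w0‖ ^ 2 ≤ (2 * τ) ^ 2 := pow_le_pow_left₀ (norm_nonneg _) ho1.le 2
    have h2 := mul_le_mul_of_nonneg_left h1 hκ.le
    have h3 : κ * (2 * τ) ^ 2 = 4 * κ * τ * τ := by ring
    have h4 : 4 * κ * τ * τ < 1 * τ := mul_lt_mul_of_pos_right hρ7 hτ0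
    have h5 : trimf e x κ o = ⟪e, w0⟫ + κ * ‖w0‖ ^ 2 := rfl
    rw [h5]
    linarith
  refine ⟨hFo0, hho, fun v hv => ?_⟩
  set a : ℝ := ⟪e, v⟫ with ha
  have hv0 : v ≠ 0 := by
    rintro rfl
    simp at hv
  rcases lt_or_ge a (-(κ * ρ / 2)) with hc | hc
  · -- the opposite ray meets the interior
    have h8 : 0 < l * κ * ρ / (8 * B) := by positivity
    refine Or.inl ⟨-(l * κ * ρ / (8 * B)), by linarith, ?_, fun t' ht' => ?_⟩
    swap
    · have h2 : o + t' • v - x = w0 + t' • v := by rw [hw0]; abel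
      rw [h2]
      refine (hnw t' v hv).trans_lt ?_
      rw [abs_of_nonpos ht'.2]
      linarith [ht'.1]
    have h1 := hval (-(l * κ * ρ / (8 * B))) v hv (by
      rw [abs_neg, abs_of_pos h8]
      linarith)
    rw [abs_neg, abs_of_pos h8, abs_le] at h1
    exact hx_far hl hκ hρ0 hB hc0 hτ hρ2 hc2 hβ1 hc h1.2
  · -- the ray stays near `x`
    refine Or.inr fun s r t hs hsr hrt h1 h2 => ?_
    have hFs : F (o + s • v) ≤ 0 := (le_max_left _ _).trans h1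
    have hFt : F (o + t • v) ≤ 0 := (le_max_left _ _).trans h2
    have hhs : trimf e x κ (o + s • v) - τ ≤ 0 := (le_max_right _ _).trans h1
    have hht : trimf e x κ (o + t • v) - τ ≤ 0 := (le_max_right _ _).trans h2
    rw [trimf_ray, add_sub_assoc, hv, one_pow, mul_one] at hhs hht
    refine max_lt ?_ ?_
    · have htρ : t ≤ ρ := by
        refine hx_close hκ hρ0 hτ hc1 hρ1 ?_ ?_ (by linarith) hht
        · have h3 : |⟪w0, v⟫| ≤ ‖w0‖ := by
            have := abs_real_inner_le_norm w0 v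
            rwa [hv, mul_one] at this
          have h4 : -(2 * τ) ≤ ⟪w0, v⟫ := by linarith [(abs_le.1 h3).1]
          have h5 := mul_le_mul_of_nonneg_left h4 (by positivity : 0 ≤ 2 * κ)
          linarith
        · have h3 : 0 ≤ κ * ‖w0‖ ^ 2 := by positivity
          linarith
      obtain ⟨hG, hG1⟩ := hx_line hF o v
      refine hx_tri hG hG1 (ρ := ρ) (M := 2 * L * ρ) (q := fderiv ℝ (fderiv ℝ F) x v v)
        (m := l * τ / 4) hρ0 (by positivity) (fun u hu => ?_) (by positivity) ?_ ?_ hs hsr hrt htρ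
        hFs hFt
      · have hn : ‖w0 + u • v‖ ≤ 2 * ρ := by
          refine (hnw u v hv).trans ?_
          rw [abs_of_nonneg hu.1]
          linarith [hu.2]
        have h3 := hT2 (w0 + u • v) (lt_of_le_of_lt hn hρ4) v hv
        rw [← hox] at h3
        refine h3.trans ?_
        calc L * ‖w0 + u • v‖ ≤ L * (2 * ρ) := mul_le_mul_of_nonneg_left hn hL
          _ = 2 * L * ρ := by ring
      · simpa using hFo
      · have h3 : 2 * (2 * L * ρ) * ρ ^ 2 = (16 * L * ρ) * ρ ^ 2 / 4 := by ring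
        have h4 : (16 * L * ρ) * ρ ^ 2 < l * c * ρ ^ 2 :=
          mul_lt_mul_of_pos_right hρ6 (by positivity)
        rw [h3, hτ]
        linarith
    · show trimf e x κ (o + r • v) - τ < 0
      rw [trimf_ray, add_sub_assoc, hv, one_pow, mul_one]
      exact hx_quad hκ hsr hrt hhs hht

/-- The dichotomy for all directions. -/
theorem hx_local_near_s [FiniteDimensional ℝ V] (F : V → ℝ) (hF : ContDiff ℝ ∞ F) (e x : V)
    (he : ‖e‖ = 1) (hx : Inward F e x) (κ : ℝ) (hκ : 0 < κ) (R : ℝ) (hR : 0 < R) :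
    ∃ ε τ : ℝ, 0 < ε ∧ 0 < τ ∧ ∀ o : V, ‖o - x‖ < 2 * τ → ⟪e, o - x⟫ < -(τ / 2) →
      0 < F o ∧ trimf e x κ o - ε < 0 ∧ ∀ v : V,
        (∃ t : ℝ, t < 0 ∧ F (o + t • v) < 0 ∧ ∀ t' ∈ Icc t 0, ‖o + t' • v - x‖ < R) ∨
        RayNeg (fun y => max (F y) (trimf e x κ y - ε)) o v := by
  obtain ⟨hx0, l, hl, hgr⟩ := hx
  have hgrad : ∀ w, fderiv ℝ F x w = -(l * ⟪e, w⟫) := fun w => by
    rw [RayK_grad, hgr, inner_neg_left, inner_smul_left, conj_trivial]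
  obtain ⟨ε, τ, hε, hτ, hU⟩ := hx_local_unit_s hF he hl hx0 hgrad hκ hR
  refine ⟨ε, τ, hε, hτ, fun o ho1 ho2 => ?_⟩
  obtain ⟨hFo, hho, hU⟩ := hU o ho1 ho2
  refine ⟨hFo, hho, fun v => ?_⟩
  rcases eq_or_ne v 0 with hv | hv
  · right
    intro s r t hs hsr hrt h1 h2
    rw [hv, smul_zero, add_zero] at h1
    exact absurd ((le_max_left _ _).trans h1) (not_le.2 hFo)
  have hn : 0 < ‖v‖ := norm_pos_iff.2 hv
  have hu : ‖‖v‖⁻¹ • v‖ = 1 := by
    rw [norm_smul, norm_inv, norm_norm, inv_mul_cancel₀ hn.ne']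
  rcases hU (‖v‖⁻¹ • v) hu with ⟨t, ht, h1, h2⟩ | h1
  · left
    refine ⟨t * ‖v‖⁻¹, mul_neg_of_neg_of_pos ht (inv_pos.2 hn), ?_, fun t' ht' => ?_⟩
    · rw [smul_smul] at h1
      exact h1
    · have h3 := h2 (t' * ‖v‖) ⟨?_, mul_nonpos_of_nonpos_of_nonneg ht'.2 hn.le⟩
      · rwa [smul_smul, mul_assoc, mul_inv_cancel₀ hn.ne', mul_one] at h3
      · have h4 := mul_le_mul_of_nonneg_right ht'.1 hn.le
        rwa [mul_assoc, inv_mul_cancel₀ hn.ne', mul_one] at h4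
  · exact Or.inr (rayNeg_scale hn h1)

/-- Trimming and the weak ray property, for rays whose opposite rays meet the open body near `x`. -/
theorem rayW_trim [CompleteSpace V] {F : V → ℝ} (hF : ContDiff ℝ ∞ F)
    (hreg : ∀ x, F x = 0 → gradient F x ≠ 0) {c : V} {ρ : ℝ} (h6 : NoSixNear F c ρ)
    {e x o v : V} {κ ε : ℝ} (hκ : 0 < κ) (hv : v ≠ 0) (hFo : 0 < F o)
    (hho : trimf e x κ o - ε < 0)
    (hneg : ∃ t : ℝ, t < 0 ∧ F (o + t • v) < 0 ∧ ∀ t' ∈ Icc t 0, ‖o + t' • v - c‖ < ρ) :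
    RayW (fun y => max (F y) (trimf e x κ y - ε)) o v := by
  intro s r t hs hsr hrt h1 h2
  have hn : 0 < ‖v‖ := norm_pos_iff.2 hv
  have hA : 0 < κ * ‖v‖ ^ 2 := by positivity
  -- the ball is strictly convex on the ray
  have hq : ∀ a b c : ℝ, a < b → b < c → trimf e x κ (o + a • v) - ε ≤ 0 →
      trimf e x κ (o + c • v) - ε ≤ 0 → trimf e x κ (o + b • v) - ε < 0 := by
    intro a b c h3 h4 h5 h6'
    rw [trimf_ray, add_sub_assoc] at h5 h6' ⊢
    exact hx_quad hA h3 h4 h5 h6'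
  have hF1 := (le_max_left _ _).trans h1
  have hF2 := (le_max_left _ _).trans h2
  have hhr : trimf e x κ (o + r • v) - ε < 0 :=
    hq s r t hsr hrt ((le_max_right _ _).trans h1) ((le_max_right _ _).trans h2)
  rcases hx_ray_s hF hreg h6 hFo hneg hs hsr hrt hF1 hF2 with h3 | ⟨h3, h4, w, hw⟩
  · exact Or.inl (max_lt h3 hhr)
  right
  have h0 : ∀ m : ℝ, 0 < m → 0 ≤ max (F (o + m • v)) (trimf e x κ (o + m • v) - ε) :=
    fun m hm => (h4 m hm).trans (le_max_left _ _)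
  refine ⟨?_, h0, ?_⟩
  · show max (F (o + r • v)) (trimf e x κ (o + r • v) - ε) = 0
    rw [h3, max_eq_left hhr.le]
  have cS : ContDiff ℝ ∞ fun y : V => trimf e x κ y - ε := (trimf_contDiff e x κ).sub contDiff_const
  have cF1 : ∀ z, ContDiffAt ℝ 1 F z := fun z => (hF.of_le (by norm_cast)).contDiffAt
  have cS1 : ∀ z, ContDiffAt ℝ 1 (fun y : V => trimf e x κ y - ε) z := fun z =>
    (cS.of_le (by norm_cast)).contDiffAt
  -- the zeros
  have hz : ∀ m : ℝ, 0 < m → max (F (o + m • v)) (trimf e x κ (o + m • v) - ε) = 0 →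
      F (o + m • v) = 0 ∧ trimf e x κ (o + m • v) - ε ≤ 0 := fun m hm hm0 =>
    ⟨le_antisymm ((le_max_left _ _).trans hm0.le) (h4 m hm), (le_max_right _ _).trans hm0.le⟩
  by_cases hex : ∃ m : ℝ, 0 < m ∧ F (o + m • v) = 0 ∧ trimf e x κ (o + m • v) - ε = 0
  · -- there is an exit point
    obtain ⟨m0, hm0, hFm0, hhm0⟩ := hex
    have hDh : 0 < fderiv ℝ (trimf e x κ) (o + m0 • v) v := by
      rw [trimf_fderiv]
      have h7 := hhm0
      rw [trimf_ray] at h7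
      have h70 : ⟪e, o - x⟫ + κ * ‖o - x‖ ^ 2 - ε < 0 := hho
      have h8 : ⟪e + (2 * κ) • (o + m0 • v - x), v⟫ =
          κ * ‖v‖ ^ 2 * m0 + (κ * ‖v‖ ^ 2 * m0 + (⟪e, v⟫ + 2 * κ * ⟪o - x, v⟫)) := by
        have h9 : o + m0 • v - x = (o - x) + m0 • v := by abel
        rw [h9, inner_add_left, real_inner_smul_left, inner_add_left, real_inner_smul_left,
          real_inner_self_eq_norm_sq]
        ring
      rw [h8]
      have h9 : 0 < (κ * ‖v‖ ^ 2 * m0 + (⟪e, v⟫ + 2 * κ * ⟪o - x, v⟫)) * m0 := by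
        have : (κ * ‖v‖ ^ 2 * m0 + (⟪e, v⟫ + 2 * κ * ⟪o - x, v⟫)) * m0 =
          κ * ‖v‖ ^ 2 * m0 ^ 2 + (⟪e, v⟫ + 2 * κ * ⟪o - x, v⟫) * m0 := by ring
        rw [this]
        linarith
      have h10 := (mul_pos_iff_of_pos_right hm0).1 h9
      have h11 : 0 < κ * ‖v‖ ^ 2 * m0 := by positivity
      linarith
    obtain ⟨D, hD⟩ : ∃ D, D = fderiv ℝ (trimf e x κ) (o + m0 • v) v := ⟨_, rfl⟩
    obtain ⟨E, hE⟩ : ∃ E, E = fderiv ℝ (trimf e x κ) (o + m0 • v) w := ⟨_, rfl⟩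
    rw [← hD] at hDh
    refine ⟨w + (-((|E| + 1) / D)) • v, fun m hm hm0' => ?_⟩
    obtain ⟨hFm, hhm⟩ := hz m hm hm0'
    obtain ⟨hw1, hw2⟩ := hw m hm hFm
    have hF' : fderiv ℝ F (o + m • v) (w + (-((|E| + 1) / D)) • v) < 0 := by
      rw [map_add, map_smul, hw2, smul_zero, add_zero]
      exact hw1
    rcases hhm.lt_or_eq with h5 | h5
    · exact desc1_max_left hF.continuous.continuousAt cS.continuous.continuousAt
        (desc1_smooth (cF1 _) hF') (by rw [hFm]; exact h5)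
    · have hmm : m = m0 := by
        have h01 : trimf e x κ (o + (0 : ℝ) • v) - ε ≤ 0 := by
          rw [zero_smul, add_zero]
          exact hho.le
        rcases lt_trichotomy m m0 with h7 | h7 | h7
        · exact absurd h5 (hq 0 m m0 hm h7 h01 hhm0.le).ne
        · exact h7
        · exact absurd hhm0 (hq 0 m0 m hm0 h7 h01 h5.le).ne
      refine desc1_max (desc1_smooth (cF1 _) hF') (desc1_smooth (cS1 _) ?_)
      rw [fderiv_sub_const, hmm, map_add, map_smul, ← hD, ← hE, smul_eq_mul, neg_mul,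
        div_mul_cancel₀ _ hDh.ne']
      linarith [le_abs_self E]
  · -- all zeros are inside the ball
    refine ⟨w, fun m hm hm0 => ?_⟩
    obtain ⟨hFm, hhm⟩ := hz m hm hm0
    have h5 : trimf e x κ (o + m • v) - ε < 0 :=
      lt_of_le_of_ne hhm fun h => hex ⟨m, hm, hFm, h⟩
    exact desc1_max_left hF.continuous.continuousAt cS.continuous.continuousAt
      (desc1_smooth (cF1 _) (hw m hm hFm).1) (by rw [hFm]; exact h5)

/-- The weak ray property of the body trimmed by a big ball, with respect to all points of an open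
set just below the inward point `x`. -/
theorem hx_local_open [FiniteDimensional ℝ V] (F : V → ℝ) (hF : ContDiff ℝ ∞ F)
    (hreg : ∀ x, F x = 0 → gradient F x ≠ 0) (e x : V) (he : ‖e‖ = 1)
    (hx : Inward F e x) {ρ : ℝ} (hρ : 0 < ρ) (h6 : NoSixNear F x ρ) (κ : ℝ) (hκ : 0 < κ) :
    ∃ ε τ : ℝ, 0 < ε ∧ 0 < τ ∧ ∀ o : V, ‖o - x‖ < 2 * τ → ⟪e, o - x⟫ < -(τ / 2) →
      0 < F o ∧ ∀ v, RayW (fun y => max (F y) (trimf e x κ y - ε)) o v := by
  obtain ⟨ε, τ, hε, hτ, hU⟩ := hx_local_near_s F hF e x he hx κ hκ ρ hρ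
  refine ⟨ε, τ, hε, hτ, fun o ho1 ho2 => ?_⟩
  obtain ⟨hFo, hho, hU⟩ := hU o ho1 ho2
  refine ⟨hFo, fun v => ?_⟩
  rcases hU v with h | h
  · have hv : v ≠ 0 := by
      rintro rfl
      obtain ⟨t, -, h1, -⟩ := h
      rw [smul_zero, add_zero] at h1
      exact absurd h1 (not_lt.2 hFo.le)
    exact rayW_trim hF hreg h6 hκ hv hFo hho h
  · exact h.rayW

/-- The statement in the form of `hx_local`. -/
theorem hx_local_s [FiniteDimensional ℝ V] (F : V → ℝ) (hF : ContDiff ℝ ∞ F)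
    (hreg : ∀ x, F x = 0 → gradient F x ≠ 0) (e x : V) (he : ‖e‖ = 1)
    (hx : Inward F e x) {ρ : ℝ} (hρ : 0 < ρ) (h6 : NoSixNear F x ρ) (κ : ℝ) (hκ : 0 < κ) :
    ∃ ε τ : ℝ, 0 < ε ∧ 0 < τ ∧ 0 < max (F (x - τ • e)) (trimf e x κ (x - τ • e) - ε) ∧
      ∀ v, RayW (fun y => max (F y) (trimf e x κ y - ε)) (x - τ • e) v := by
  obtain ⟨ε, τ, hε, hτ, hU⟩ := hx_local_open F hF hreg e x he hx hρ h6 κ hκ
  obtain ⟨h1, h2⟩ := hU (x - τ • e) (hx_local_pt he hτ).1 (hx_local_pt he hτ).2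
  exact ⟨ε, τ, hε, hτ, lt_max_of_lt_left h1, h2⟩

end Pool.Schoen
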