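import Pool.Agent.H.MP_6c077c_gt.Hx.Top

/-! Hexasecant theorem: directions near a given one with exactly one highest inward point. -/

set_option autoImplicit false

namespace Pool.Schoen

open Filter Set Module
open scoped Topology RealInnerProductSpace ContDiff

variable {V : Type*} [NormedAddCommGroup V] [InnerProductSpace ℝ V] [FiniteDimensional ℝ V]

/-- A direction `e` with exactly one highest inward point `x`, with a gap `g` to the others; all
inward points for `e` are nondegenerate.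

PROOF.  `v` a regular value of the normal (`exists_regular_near`); all values of the normal within
`r` of `v` are regular.  Let `x` be a maximum point of `hxPsi F v C` on the points of the hypersurface
with `‖nrm F x - v‖ ≤ r`, where `2 * R < C * r ^ 2`; then `‖nrm F x - v‖ < r`.  `e = -nrm F x`.  Another
inward point of at least the same height is a maximum point as well, and `hx_crit` shows that both
have the same projection to the hyperplane orthogonal to `e`. -/
theorem hx_top_reg_near (n : ℕ) (hn : Module.finrank ℝ V = n + 1) (F : V → ℝ) (hF : ContDiff ℝ ∞ F)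
    (hb : Bornology.IsBounded {x | F x ≤ 0}) (hreg : ∀ x, F x = 0 → gradient F x ≠ 0)
    (hne : {x | F x = 0}.Nonempty) (w : V) (hw : ‖w‖ = 1) (δ : ℝ) (hδ : 0 < δ) :
    ∃ (e x : V) (g : ℝ), ‖e‖ = 1 ∧ ‖e + w‖ < δ ∧ 0 < g ∧ Inward F e x ∧
      (∀ y, Inward F e y → gaussK F y ≠ 0) ∧ {y | Inward F e y}.Finite ∧
      (∀ y, Inward F e y → y ≠ x → ⟪e, y⟫ < ⟪e, x⟫ - g) := by
  have hF2 : ContDiff ℝ 2 F := hF.of_le (by norm_cast)
  have hgc : Continuous (gradient F) := (gradient_contDiff F hF2).continuous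
  have hcp : IsCompact {x | F x = 0} := Metric.isCompact_of_isClosed_isBounded
    (isClosed_eq hF.continuous continuous_const) (hb.subset fun _ hx => le_of_eq hx)
  have hnt : Nontrivial V := Module.nontrivial_of_finrank_pos (R := ℝ) (by omega)
  obtain ⟨v, hv1, hvw, hvK⟩ := exists_regular_near n hn F hF hreg hcp w hw (δ / 2) (by linarith)
  have hnc : ContinuousOn (nrm F) {x | F x = 0} := fun x hx =>
    ((hgc.continuousAt.norm.inv₀ (norm_ne_zero_iff.2 (hreg x hx))).smul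
      hgc.continuousAt).continuousWithinAt
  -- a ball of regular values
  obtain ⟨r, hr, hrδ, hrK⟩ : ∃ r : ℝ, 0 < r ∧ r ≤ δ / 2 ∧
      ∀ x, F x = 0 → ‖nrm F x - v‖ ≤ r → gaussK F x ≠ 0 := by
    have hgK : ContinuousOn (gaussK F) {x | F x = 0} := fun x hx =>
      (gaussK_continuousAt F hF2 x (hreg x hx)).continuousWithinAt
    have hZ0 : IsClosed ({x | F x = 0} ∩ gaussK F ⁻¹' {0}) :=
      hgK.preimage_isClosed_of_isClosed hcp.isClosed isClosed_singleton
    have hZ : IsCompact ({x | F x = 0} ∩ gaussK F ⁻¹' {0}) :=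
      hcp.of_isClosed_subset hZ0 inter_subset_left
    have hI : IsCompact (nrm F '' ({x | F x = 0} ∩ gaussK F ⁻¹' {0})) :=
      hZ.image_of_continuousOn (hnc.mono inter_subset_left)
    have hv : v ∈ (nrm F '' ({x | F x = 0} ∩ gaussK F ⁻¹' {0}))ᶜ := by
      rintro ⟨x, ⟨hx0, hx1⟩, hx2⟩
      exact hvK x hx0 hx2 hx1
    obtain ⟨r, hr, hrs⟩ := Metric.isOpen_iff.1 hI.isClosed.isOpen_compl v hv
    refine ⟨min (r / 2) (δ / 2), lt_min (by linarith) (by linarith), min_le_right _ _,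
      fun x hx0 hx1 hx2 => ?_⟩
    have h1 : nrm F x ∈ Metric.ball v r := by
      rw [Metric.mem_ball, dist_eq_norm]
      have := hx1.trans (min_le_left _ _)
      linarith
    exact hrs h1 ⟨x, ⟨hx0, hx2⟩, rfl⟩
  -- a point with normal `v`
  obtain ⟨x₀, hx₀, hx₀v⟩ : ∃ x, F x = 0 ∧ nrm F x = v := by
    have hcW : IsCompact {x | F x ≤ 0} :=
      Metric.isCompact_of_isClosed_isBounded (isClosed_le hF.continuous continuous_const) hb
    have hneW : {x : V | F x ≤ 0}.Nonempty := hne.mono fun x hx => le_of_eq hx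
    obtain ⟨m, hm, hmin⟩ := hcW.exists_isMinOn hneW
      (f := fun x => ⟪x, -v⟫) (by fun_prop)
    obtain ⟨⟨h0, l, hl, hg⟩, -⟩ := ix_lowest F hF hreg (-v) (by rw [norm_neg, hv1]) m hm
      (fun x hx => hmin hx)
    refine ⟨m, h0, ?_⟩
    rw [smul_neg, neg_neg] at hg
    rw [nrm, hg, norm_smul, hv1, mul_one, Real.norm_of_nonneg hl.le, smul_smul,
      inv_mul_cancel₀ hl.ne', one_smul]
  obtain ⟨R, hR0, hR⟩ := hb.exists_pos_norm_lt
  have hR' : ∀ y, F y = 0 → ‖y‖ < R := fun y hy => hR y (le_of_eq hy)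
  obtain ⟨C, hC⟩ : ∃ C : ℝ, 2 * R < C * r ^ 2 := by
    refine ⟨(2 * R + 1) / r ^ 2, ?_⟩
    rw [div_mul_cancel₀ _ (by positivity)]
    linarith
  have hC0 : 0 < C := by
    by_contra h
    push Not at h
    nlinarith [sq_nonneg r]
  have hin : ∀ y, F y = 0 → |⟪nrm F y, y⟫| < R := fun y hy => by
    have h1 := abs_real_inner_le_norm (nrm F y) y
    rw [norm_nrm F y (hreg y hy), one_mul] at h1
    exact h1.trans_lt (hR' y hy)
  -- the maximum point
  have hPc : ContinuousOn (hxPsi F v C) {x | F x = 0} := by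
    have h1 : ContinuousOn (fun x => ⟪nrm F x, x⟫) {x | F x = 0} := hnc.inner continuousOn_id
    have h2 : ContinuousOn (fun x => ‖nrm F x - v‖ ^ 2) {x | F x = 0} :=
      ((hnc.sub continuousOn_const).norm).pow 2
    exact h1.neg.sub (h2.const_smul C)
  have hKc : IsCompact ({x | F x = 0} ∩ (fun x => ‖nrm F x - v‖) ⁻¹' Iic r) := by
    refine hcp.of_isClosed_subset ?_ inter_subset_left
    exact ((hnc.sub continuousOn_const).norm).preimage_isClosed_of_isClosed hcp.isClosed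
      isClosed_Iic
  have hx₀K : x₀ ∈ {x | F x = 0} ∩ (fun x => ‖nrm F x - v‖) ⁻¹' Iic r := by
    refine ⟨hx₀, ?_⟩
    show ‖nrm F x₀ - v‖ ≤ r
    rw [hx₀v, sub_self, norm_zero]
    exact hr.le
  obtain ⟨x, ⟨hx0, hxr⟩, hxmax⟩ := hKc.exists_isMaxOn ⟨x₀, hx₀K⟩ (hPc.mono inter_subset_left)
  have hxr : ‖nrm F x - v‖ ≤ r := hxr
  have hx0 : F x = 0 := hx0
  have hstrict : ∀ y, F y = 0 → ‖nrm F y - v‖ ≤ r → hxPsi F v C x₀ ≤ hxPsi F v C y →
      ‖nrm F y - v‖ < r := by
    intro y hy hyr hle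
    refine lt_of_le_of_ne hyr fun h => ?_
    have h1 : hxPsi F v C x₀ = -⟪nrm F x₀, x₀⟫ := by
      rw [hxPsi, hx₀v, sub_self, norm_zero]
      ring
    have h2 : hxPsi F v C y = -⟪nrm F y, y⟫ - C * r ^ 2 := by rw [hxPsi, h]
    rw [h1, h2] at hle
    have h3 := abs_lt.1 (hin y hy)
    have h4 := abs_lt.1 (hin x₀ hx₀)
    linarith
  have hcrit : ∀ y, F y = 0 → ‖nrm F y - v‖ < r → hxPsi F v C x ≤ hxPsi F v C y →
      ∃ t : ℝ, y + (2 * C) • (nrm F y - v) = t • nrm F y := by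
    intro y hy hyr hle
    refine hx_crit F hF2 v C y hy (hreg y hy) (hrK y hy hyr.le) ?_
    have h1 : ContinuousAt (nrm F) y :=
      (hgc.continuousAt.norm.inv₀ (norm_ne_zero_iff.2 (hreg y hy))).smul hgc.continuousAt
    have h2 : ∀ᶠ z in 𝓝 y, ‖nrm F z - v‖ < r :=
      ((h1.sub continuousAt_const).norm).eventually_lt continuousAt_const hyr
    filter_upwards [h2] with z hz hz0
    exact (hxmax ⟨hz0, hz.le⟩).trans hle
  have hxmax₀ : hxPsi F v C x₀ ≤ hxPsi F v C x := hxmax hx₀K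
  have hxs := hstrict x hx0 hxr hxmax₀
  obtain ⟨t, ht⟩ := hcrit x hx0 hxs le_rfl
  have hν : ‖nrm F x‖ = 1 := norm_nrm F x (hreg x hx0)
  have hgpos : 0 < ‖gradient F x‖ := norm_pos_iff.2 (hreg x hx0)
  have hInw : Inward F (-nrm F x) x := by
    refine ⟨hx0, ‖gradient F x‖, hgpos, ?_⟩
    rw [smul_neg, neg_neg, nrm, smul_smul, mul_inv_cancel₀ hgpos.ne', one_smul]
  have hnrm : ∀ y, Inward F (-nrm F x) y → nrm F y = nrm F x := by
    rintro y ⟨-, l, hl, hg⟩
    rw [smul_neg, neg_neg] at hg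
    rw [nrm, hg, norm_smul, hν, mul_one, Real.norm_of_nonneg hl.le, smul_smul,
      inv_mul_cancel₀ hl.ne', one_smul]
  have hKall : ∀ y, Inward F (-nrm F x) y → gaussK F y ≠ 0 := fun y hy =>
    hrK y hy.1 (by rw [hnrm y hy]; exact hxr)
  have hfin : {y | Inward F (-nrm F x) y}.Finite :=
    ix_finite F hF hb hreg (-nrm F x) (by rw [norm_neg, hν]) fun y hy =>
      ⟨_, idx_of_gaussK n hn F hF (-nrm F x) (by rw [norm_neg, hν]) y hy (hKall y hy)⟩
  -- uniqueness
  have huniq : ∀ y, Inward F (-nrm F x) y → y ≠ x → ⟪-nrm F x, y⟫ < ⟪-nrm F x, x⟫ := by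
    intro y hy hne
    by_contra hcon
    push Not at hcon
    have hny := hnrm y hy
    have h1 : hxPsi F v C x ≤ hxPsi F v C y := by
      rw [hxPsi, hxPsi, hny]
      rw [inner_neg_left, inner_neg_left] at hcon
      linarith
    have h2 : hxPsi F v C y ≤ hxPsi F v C x := hxmax ⟨hy.1, by
      show ‖nrm F y - v‖ ≤ r
      rw [hny]
      exact hxr⟩
    obtain ⟨t', ht'⟩ := hcrit y hy.1 (by rw [hny]; exact hxs) h1
    have h3 : ⟪nrm F x, y⟫ = ⟪nrm F x, x⟫ := by
      have h4 := le_antisymm h1 h2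
      rw [hxPsi, hxPsi, hny] at h4
      linarith
    rw [hny] at ht'
    have h5 : y - x = (t' - t) • nrm F x := by
      rw [sub_smul, ← ht, ← ht']
      abel
    have h6 : t' - t = 0 := by
      have h7 : ⟪nrm F x, y - x⟫ = 0 := by rw [inner_sub_right, h3, sub_self]
      rw [h5, real_inner_smul_right, real_inner_self_eq_norm_sq, hν, one_pow, mul_one] at h7
      exact h7
    rw [h6, zero_smul] at h5
    exact hne (sub_eq_zero.1 h5)
  -- the gap
  obtain ⟨g, hg, hgap⟩ : ∃ g : ℝ, 0 < g ∧ ∀ y, Inward F (-nrm F x) y → y ≠ x →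
      ⟪-nrm F x, y⟫ < ⟪-nrm F x, x⟫ - g := by
    have hfin' : ({y | Inward F (-nrm F x) y} \ {x}).Finite := hfin.subset sdiff_subset
    rcases ({y | Inward F (-nrm F x) y} \ {x}).eq_empty_or_nonempty with h0 | h0
    · refine ⟨1, one_pos, fun y hy hne => ?_⟩
      have : y ∈ ({y | Inward F (-nrm F x) y} \ {x}) := ⟨hy, hne⟩
      rw [h0] at this
      exact this.elim
    · obtain ⟨m, ⟨hm, hmx⟩, hmmax⟩ := hfin'.exists_maximalFor (fun y => ⟪-nrm F x, y⟫) _ h0
      have h1 := huniq m hm hmx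
      refine ⟨(⟪-nrm F x, x⟫ - ⟪-nrm F x, m⟫) / 2, by linarith, fun y hy hne => ?_⟩
      have h2 : ⟪-nrm F x, y⟫ ≤ ⟪-nrm F x, m⟫ := by
        by_contra hcon
        push Not at hcon
        have := hmmax (j := y) ⟨hy, hne⟩ hcon.le
        exact absurd this (not_le.2 hcon)
      linarith
  have hew : ‖-nrm F x + w‖ < δ := by
    have h1 : -nrm F x + w = -((nrm F x - v) + (v - w)) := by abel
    rw [h1, norm_neg]
    exact (norm_add_le _ _).trans_lt (by linarith)
  exact ⟨-nrm F x, x, g, by rw [norm_neg, hν], hew, hg, hInw, hKall, hfin, hgap⟩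

/-- A direction near a given one with exactly one highest inward point, which is nondegenerate. -/
theorem hx_top_near (n : ℕ) (hn : Module.finrank ℝ V = n + 1) (F : V → ℝ) (hF : ContDiff ℝ ∞ F)
    (hb : Bornology.IsBounded {x | F x ≤ 0}) (hreg : ∀ x, F x = 0 → gradient F x ≠ 0)
    (hne : {x | F x = 0}.Nonempty) (w : V) (hw : ‖w‖ = 1) (δ : ℝ) (hδ : 0 < δ) :
    ∃ (e x : V) (g : ℝ), ‖e‖ = 1 ∧ ‖e + w‖ < δ ∧ 0 < g ∧ Inward F e x ∧ (∃ k, Idx F e x k) ∧
      (∀ y, Inward F e y → y ≠ x → ⟪e, y⟫ < ⟪e, x⟫ - g) := by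
  obtain ⟨e, x, g, he, hew, hg, hx, hK, -, hgap⟩ :=
    hx_top_reg_near n hn F hF hb hreg hne w hw δ hδ
  exact ⟨e, x, g, he, hew, hg, hx, ⟨_, idx_of_gaussK n hn F hF e he x hx (hK x hx)⟩, hgap⟩

end Pool.Schoen
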