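import Pool.Agent.H.MP_6c077c_gt.Hx.Core
import Pool.Agent.H.MP_6c077c_gt.Hx.TopN
import Pool.Agent.H.MP_6c077c_gt.Hx.Trim
import Pool.Agent.H.MP_6c077c_gt.Hx.LocalS
import Pool.Agent.H.MP_6c077c_gt.Hx.WinS

/-! Hexasecant theorem: assembly. -/

set_option autoImplicit false

namespace Pool.Schoen

open Filter Set
open scoped Topology RealInnerProductSpace ContDiff

variable {V : Type*} [NormedAddCommGroup V] [InnerProductSpace ℝ V] [FiniteDimensional ℝ V]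

/-- The lines which cross the hypersurface `F = 0` six times do not meet it at points where the
normal is within `δ` of `w`. -/
def NoSixDir (F : V → ℝ) (w : V) (δ : ℝ) : Prop :=
  ∀ (p d : V) (t₁ t₂ t₃ t₄ t₅ : ℝ), t₁ < t₂ → t₂ < t₃ → t₃ < t₄ → t₄ < t₅ →
    F (p + t₁ • d) < 0 → 0 < F (p + t₂ • d) → F (p + t₃ • d) < 0 → 0 < F (p + t₄ • d) →
    F (p + t₅ • d) < 0 → ∀ t : ℝ, F (p + t • d) = 0 → δ ≤ ‖nrm F (p + t • d) - w‖

theorem NoSix.dir {F : V → ℝ} (h : NoSix F) (w : V) (δ : ℝ) : NoSixDir F w δ :=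
  fun p d t₁ t₂ t₃ t₄ t₅ h1 h2 h3 h4 s1 s2 s3 s4 s5 _ _ =>
    (h p d t₁ t₂ t₃ t₄ t₅ h1 h2 h3 h4 s1 s2 s3 s4 s5).elim

theorem hexasecant_ball (hdim : Module.finrank ℝ V = 4)
    (hA : ∀ e : V, ‖e‖ = 1 → ∀ F : (ℝ ∙ e)ᗮ → ℝ, Dom F → IsPreconnected {x | 0 < F x} → IsBall F)
    (F : V → ℝ) (hF : ContDiff ℝ ∞ F) (hb : Bornology.IsBounded {x | F x ≤ 0})
    (hreg : ∀ x, F x = 0 → gradient F x ≠ 0) (hMc : IsConnected {x | F x = 0})
    (hMl : LiftS {x | F x = 0}) (w : V) (hw : ‖w‖ = 1) (δ : ℝ) (hδ : 0 < δ)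
    (h6 : NoSixDir F w δ) : IsBall F := by
  obtain ⟨e, x, g, he, hew, hg, hx, ⟨j, hj⟩, hgap⟩ :=
    hx_top_near 3 hdim F hF hb hreg hMc.nonempty w hw δ hδ
  have hx0 : F x = 0 := hx.1
  -- the normal at `x` is `-e`
  have hnx : nrm F x = -e := by
    obtain ⟨-, l, hl, hgr⟩ := hx
    rw [nrm, hgr, norm_neg, norm_smul, he, mul_one, Real.norm_of_nonneg hl.le, smul_neg, smul_smul,
      inv_mul_cancel₀ hl.ne', one_smul]
  have hF2 : ContDiff ℝ 2 F := hF.of_le (by norm_cast)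
  have hgc : Continuous (gradient F) := (gradient_contDiff F hF2).continuous
  have hnc : ContinuousAt (nrm F) x :=
    (hgc.continuousAt.norm.inv₀ (norm_ne_zero_iff.2 (hreg x hx0))).smul hgc.continuousAt
  have hnw : ‖nrm F x - w‖ < δ := by
    have h1 : nrm F x - w = -(e + w) := by
      rw [hnx]
      abel
    rw [h1, norm_neg]
    exact hew
  have hev : ∀ᶠ y in 𝓝 x, ‖nrm F y - w‖ < δ :=
    ((hnc.sub continuousAt_const).norm).eventually_lt continuousAt_const hnw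
  obtain ⟨ρ, hρ, hρ'⟩ := Metric.eventually_nhds_iff.1 hev
  have hnear : NoSixNear F x ρ := by
    intro p d t₁ t₂ t₃ t₄ t₅ h1 h2 h3 h4 s1 s2 s3 s4 s5 t ht
    by_contra hcon
    push Not at hcon
    have h7 := h6 p d t₁ t₂ t₃ t₄ t₅ h1 h2 h3 h4 s1 s2 s3 s4 s5 t ht
    exact absurd (hρ' (by rw [dist_eq_norm]; exact hcon)) (not_lt.2 h7)
  -- trimming
  obtain ⟨κ₀, hκ₀, htrim⟩ := hx_trim F hF hb hreg e x g he hg hx j hj hgap
  obtain ⟨ε, τ, hε, hτ, ho, hray⟩ :=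
    hx_local_s F hF hreg e x he hx hρ hnear (κ₀ / 2) (by linarith)
  exact ray_core hdim hA F hF.continuous hb hMc hMl
    (fun y => max (F y) (trimf e x (κ₀ / 2) y - ε))
    (htrim (κ₀ / 2) (by linarith) (by linarith) ε hε) (x - τ • e) ho
    (fun v => (hray v).rayC)

theorem hexasecant_carries (hdim : Module.finrank ℝ V = 4)
    (hA : ∀ e : V, ‖e‖ = 1 → ∀ F : (ℝ ∙ e)ᗮ → ℝ, Dom F → IsPreconnected {x | 0 < F x} → IsBall F)
    (F : V → ℝ) (hF : ContDiff ℝ ∞ F) (hb : Bornology.IsBounded {x | F x ≤ 0})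
    (hreg : ∀ x, F x = 0 → gradient F x ≠ 0) (hMc : IsConnected {x | F x = 0})
    (hMl : LiftS {x | F x = 0}) (w : V) (hw : ‖w‖ = 1) (δ : ℝ) (hδ : 0 < δ)
    (h6 : NoSixDir F w δ) : Carries {x : V | F x = 0} (Metric.sphere (0 : V) 1) :=
  carries_of_isBall F hF (hexasecant_ball hdim hA F hF hb hreg hMc hMl w hw δ hδ h6)

end Pool.Schoen
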