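import Pool.Agent.H.MP_6c077c_gt.Hx.OpenE
import Pool.Agent.H.MP_6c077c_gt.Hx.Core

/-! Bodies which meet all lines of one direction in segments: an open smooth embedding of the space,
which maps rays from the origin to lines of the given direction, reduces them to the bodies which meet
the rays from an outer point in segments. -/

set_option autoImplicit false

namespace Pool.Schoen

open Filter Set
open scoped Topology RealInnerProductSpace ContDiff

variable {V : Type*} [NormedAddCommGroup V] [InnerProductSpace ℝ V]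

/-- Strictly between two points of `{F ≤ 0}` on a line parallel to `e` the function `F` is
negative. -/
def LineNeg (F : V → ℝ) (e : V) : Prop :=
  ∀ (p : V) (s r t : ℝ), s < r → r < t → F (p + s • e) ≤ 0 → F (p + t • e) ≤ 0 →
    F (p + r • e) < 0

section

variable {Th Ps : V → V} {F : V → ℝ}

theorem OpenEmb.set_eq (hE : OpenEmb Th Ps) {S : Set V} (hS : S ⊆ range Th) :
    {u | Th u ∈ S} = Ps '' S := by
  ext u
  constructor
  · intro hu
    exact ⟨Th u, hu, hE.left u⟩
  · rintro ⟨x, hx, rfl⟩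
    show Th (Ps x) ∈ S
    rwa [hE.right (hS hx)]

theorem OpenEmb.comp_bdd [FiniteDimensional ℝ V] (hE : OpenEmb Th Ps) (hF : Continuous F)
    (hb : Bornology.IsBounded {x | F x ≤ 0}) (hM : ∀ x, F x ≤ 0 → x ∈ range Th) :
    Bornology.IsBounded {u | F (Th u) ≤ 0} := by
  have hc : IsCompact {x | F x ≤ 0} :=
    Metric.isCompact_of_isClosed_isBounded (isClosed_le hF continuous_const) hb
  have hsub : {x | F x ≤ 0} ⊆ range Th := fun x hx => hM x hx
  have h1 : {u | F (Th u) ≤ 0} = Ps '' {x | F x ≤ 0} := hE.set_eq hsub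
  rw [h1]
  exact (hc.image_of_continuousOn (hE.smooth'.continuousOn.mono hsub)).isBounded

/-- The zero sets are homeomorphic. -/
noncomputable def OpenEmb.zeroHomeo (hE : OpenEmb Th Ps) (hM : ∀ x, F x = 0 → x ∈ range Th) :
    ({x | F x = 0} : Set V) ≃ₜ ({u | F (Th u) = 0} : Set V) where
  toFun x := ⟨Ps x.1, by
    show F (Th (Ps x.1)) = 0
    rw [hE.right (hM _ x.2)]
    exact x.2⟩
  invFun u := ⟨Th u.1, u.2⟩
  left_inv x := Subtype.ext (hE.right (hM _ x.2))
  right_inv u := Subtype.ext (hE.left u.1)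
  continuous_toFun := by
    refine Continuous.subtype_mk ?_ _
    have h1 : ContinuousOn Ps {x | F x = 0} :=
      hE.smooth'.continuousOn.mono fun x hx => hM x hx
    exact continuousOn_iff_continuous_domRestrict.1 h1
  continuous_invFun :=
    Continuous.subtype_mk (hE.smooth.continuous.comp continuous_subtype_val) _

theorem OpenEmb.comp_conn (hE : OpenEmb Th Ps) (hM : ∀ x, F x = 0 → x ∈ range Th)
    (hc : IsConnected {x | F x = 0}) : IsConnected {u | F (Th u) = 0} := by
  have h1 : {u | F (Th u) = 0} = Ps '' {x | F x = 0} := hE.set_eq fun x hx => hM x hx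
  rw [h1]
  exact hc.image _ (hE.smooth'.continuousOn.mono fun x hx => hM x hx)

theorem OpenEmb.comp_lift (hE : OpenEmb Th Ps) (hM : ∀ x, F x = 0 → x ∈ range Th)
    (hl : LiftS {x | F x = 0}) : LiftS {u | F (Th u) = 0} := hl.homeo (hE.zeroHomeo hM)

theorem OpenEmb.comp_reg [FiniteDimensional ℝ V] (hE : OpenEmb Th Ps) (hF : ContDiff ℝ ∞ F)
    (hreg : ∀ x, F x = 0 → gradient F x ≠ 0) (u : V) (hu : F (Th u) = 0) :
    gradient (fun u => F (Th u)) u ≠ 0 := by
  intro h0
  apply hreg _ hu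
  have hd : Differentiable ℝ F := hF.differentiable (by norm_num)
  have hde : Differentiable ℝ Th := hE.smooth.differentiable (by norm_num)
  have hdl : DifferentiableAt ℝ Ps (Th u) :=
    (hE.smooth'.contDiffAt (hE.opn.mem_nhds (mem_range_self u))).differentiableAt (by norm_num)
  have hz : fderiv ℝ (fun u => F (Th u)) u = 0 := by
    rw [gradient] at h0
    exact (InnerProductSpace.toDual ℝ V).symm.map_eq_zero_iff.1 h0
  have heq : F =ᶠ[𝓝 (Th u)] fun x => (fun u => F (Th u)) (Ps x) := by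
    filter_upwards [hE.opn.mem_nhds (mem_range_self u)] with x hx
    show F x = F (Th (Ps x))
    rw [hE.right hx]
  have h1 : fderiv ℝ F (Th u) = 0 := by
    rw [heq.fderiv_eq]
    have h2 : DifferentiableAt ℝ (fun u => F (Th u)) (Ps (Th u)) := (hd.comp hde).differentiableAt
    have h3 := _root_.fderiv_comp (Th u) h2 hdl
    rw [hE.left] at h3
    have h4 : (fun x => (fun u => F (Th u)) (Ps x)) = (fun u => F (Th u)) ∘ Ps := rfl
    rw [h4, h3, hz, ContinuousLinearMap.zero_comp]
  rw [gradient, h1, map_zero]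

end

/-- Positive, and the identity on the half line `[1, ∞)`. -/
noncomputable def rhoA (t : ℝ) : ℝ :=
  Real.smoothTransition (2 * t - 1) * t + (1 - Real.smoothTransition (2 * t - 1))

theorem rhoA_contDiff : ContDiff ℝ ∞ rhoA := by
  have h1 : ContDiff ℝ ∞ fun t : ℝ => Real.smoothTransition (2 * t - 1) :=
    Real.smoothTransition.contDiff.comp ((contDiff_const.mul contDiff_id).sub contDiff_const)
  exact (h1.mul contDiff_id).add (contDiff_const.sub h1)

theorem rhoA_pos (t : ℝ) : 0 < rhoA t := by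
  have h0 := Real.smoothTransition.nonneg (2 * t - 1)
  have h1 := Real.smoothTransition.le_one (2 * t - 1)
  rcases le_or_gt t (1 / 2) with h | h
  · have h2 : Real.smoothTransition (2 * t - 1) = 0 :=
      Real.smoothTransition.zero_of_nonpos (by linarith)
    rw [rhoA, h2]
    norm_num
  · rw [rhoA]
    nlinarith

theorem rhoA_of_one_le {t : ℝ} (ht : 1 ≤ t) : rhoA t = t := by
  have h2 : Real.smoothTransition (2 * t - 1) = 1 :=
    Real.smoothTransition.one_of_one_le (by linarith)
  rw [rhoA, h2]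
  ring

/-- The embedding: rays from the origin go to lines parallel to `e`. -/
noncomputable def thA (e : V) (c d : ℝ) (x : V) : V :=
  (rhoA ⟪e, x⟫)⁻¹ • (x - ⟪e, x⟫ • e) + (d + c * Real.exp (-⟪e, x⟫)) • e

/-- The inverse map. -/
noncomputable def psA (e : V) (c d : ℝ) (y : V) : V :=
  rhoA (Real.log (c / (⟪e, y⟫ - d))) • (y - ⟪e, y⟫ • e) + Real.log (c / (⟪e, y⟫ - d)) • e

section

variable {e : V} {c d : ℝ}

theorem thA_inner (he : ‖e‖ = 1) (x : V) : ⟪e, thA e c d x⟫ = d + c * Real.exp (-⟪e, x⟫) := by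
  have h1 : ⟪e, e⟫ = (1 : ℝ) := by rw [real_inner_self_eq_norm_sq, he, one_pow]
  rw [thA, inner_add_right, inner_smul_right, inner_smul_right, inner_sub_right, inner_smul_right,
    h1]
  ring

theorem psA_thA (he : ‖e‖ = 1) (hc : 0 < c) (x : V) : psA e c d (thA e c d x) = x := by
  have h2 : Real.log (c / (⟪e, thA e c d x⟫ - d)) = ⟪e, x⟫ := by
    rw [thA_inner he, add_sub_cancel_left]
    have h3 : c / (c * Real.exp (-⟪e, x⟫)) = Real.exp ⟪e, x⟫ := by
      rw [Real.exp_neg]
      field_simp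
    rw [h3, Real.log_exp]
  rw [psA, h2]
  have h4 : thA e c d x - ⟪e, thA e c d x⟫ • e = (rhoA ⟪e, x⟫)⁻¹ • (x - ⟪e, x⟫ • e) := by
    rw [thA_inner he, thA, add_sub_cancel_right]
  rw [h4, smul_smul, mul_inv_cancel₀ (rhoA_pos _).ne', one_smul, sub_add_cancel]

theorem thA_psA (he : ‖e‖ = 1) (hc : 0 < c) {y : V} (hy : d < ⟪e, y⟫) :
    thA e c d (psA e c d y) = y := by
  have h1 : ⟪e, e⟫ = (1 : ℝ) := by rw [real_inner_self_eq_norm_sq, he, one_pow]
  have h2 : ⟪e, psA e c d y⟫ = Real.log (c / (⟪e, y⟫ - d)) := by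
    rw [psA, inner_add_right, inner_smul_right, inner_smul_right, inner_sub_right,
      inner_smul_right, h1]
    ring
  have hp : 0 < ⟪e, y⟫ - d := by linarith
  have h3 : c * Real.exp (-Real.log (c / (⟪e, y⟫ - d))) = ⟪e, y⟫ - d := by
    rw [Real.exp_neg, Real.exp_log (div_pos hc hp)]
    field_simp
  rw [thA, h2, h3]
  have h4 : psA e c d y - Real.log (c / (⟪e, y⟫ - d)) • e =
      rhoA (Real.log (c / (⟪e, y⟫ - d))) • (y - ⟪e, y⟫ • e) := by
    rw [psA, add_sub_cancel_right]
  rw [h4, smul_smul, inv_mul_cancel₀ (rhoA_pos _).ne', one_smul]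
  module

theorem thA_range (he : ‖e‖ = 1) (hc : 0 < c) : range (thA e c d) = {y | d < ⟪e, y⟫} := by
  ext y
  constructor
  · rintro ⟨x, rfl⟩
    show d < ⟪e, thA e c d x⟫
    rw [thA_inner he]
    have := mul_pos hc (Real.exp_pos (-⟪e, x⟫))
    linarith
  · intro hy
    exact ⟨_, thA_psA he hc hy⟩

theorem thA_contDiff : ContDiff ℝ ∞ (thA e c d) := by
  have h1 : ContDiff ℝ ∞ fun x : V => ⟪e, x⟫ := contDiff_const.inner ℝ contDiff_id
  have h2 : ContDiff ℝ ∞ fun x : V => (rhoA ⟪e, x⟫)⁻¹ :=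
    (rhoA_contDiff.comp h1).inv fun x => (rhoA_pos _).ne'
  have h3 : ContDiff ℝ ∞ fun x : V => x - ⟪e, x⟫ • e := contDiff_id.sub (h1.smul contDiff_const)
  have h4 : ContDiff ℝ ∞ fun x : V => d + c * Real.exp (-⟪e, x⟫) :=
    contDiff_const.add (contDiff_const.mul h1.neg.exp)
  exact (h2.smul h3).add (h4.smul contDiff_const)

theorem psA_contDiffOn (hc : 0 < c) : ContDiffOn ℝ ∞ (psA e c d) {y | d < ⟪e, y⟫} := by
  have h1 : ContDiff ℝ ∞ fun x : V => ⟪e, x⟫ := contDiff_const.inner ℝ contDiff_id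
  have h0 : ContDiffOn ℝ ∞ (fun y : V => c / (⟪e, y⟫ - d)) {y | d < ⟪e, y⟫} := by
    refine ContDiffOn.div contDiffOn_const (h1.sub contDiff_const).contDiffOn fun y hy => ?_
    have : d < ⟪e, y⟫ := hy
    exact sub_ne_zero.2 this.ne'
  have h2 : ContDiffOn ℝ ∞ (fun y : V => Real.log (c / (⟪e, y⟫ - d))) {y | d < ⟪e, y⟫} := by
    refine h0.log fun y hy => ?_
    have : d < ⟪e, y⟫ := hy
    exact (div_pos hc (by linarith)).ne'
  have h3 : ContDiff ℝ ∞ fun x : V => x - ⟪e, x⟫ • e := contDiff_id.sub (h1.smul contDiff_const)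
  exact ((rhoA_contDiff.comp_contDiffOn h2).smul h3.contDiffOn).add (h2.smul contDiffOn_const)

theorem thA_emb (he : ‖e‖ = 1) (hc : 0 < c) : OpenEmb (thA e c d) (psA e c d) where
  smooth := thA_contDiff
  left := psA_thA he hc
  opn := by
    rw [thA_range he hc]
    exact isOpen_lt continuous_const (continuous_const.inner continuous_id)
  smooth' := by
    rw [thA_range he hc]
    exact psA_contDiffOn hc

/-- Rays go to lines. -/
theorem thA_ray {v : V} {m : ℝ} (hm : 1 ≤ m * ⟪e, v⟫) :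
    thA e c d (m • v) = ((⟪e, v⟫)⁻¹ • v - e) + (d + c * Real.exp (-(m * ⟪e, v⟫))) • e := by
  have h1 : ⟪e, m • v⟫ = m * ⟪e, v⟫ := inner_smul_right _ _ _
  have hm0 : m ≠ 0 := by
    rintro rfl
    rw [zero_mul] at hm
    linarith
  have hv0 : ⟪e, v⟫ ≠ 0 := by
    intro h
    rw [h, mul_zero] at hm
    linarith
  rw [thA, h1, rhoA_of_one_le hm]
  congr 1
  rw [smul_sub, smul_smul, smul_smul, inv_mul_cancel₀ (mul_ne_zero hm0 hv0), one_smul]
  congr 2
  field_simp

end

/-- A body which meets all lines of one direction in segments is a ball, if the Alexander theorem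
holds in the hyperplanes. -/
theorem line_ball [FiniteDimensional ℝ V] (hdim : Module.finrank ℝ V = 4)
    (hA : ∀ e : V, ‖e‖ = 1 → ∀ F : (ℝ ∙ e)ᗮ → ℝ, Dom F → IsPreconnected {x | 0 < F x} → IsBall F)
    (F : V → ℝ) (hF : ContDiff ℝ ∞ F) (hb : Bornology.IsBounded {x | F x ≤ 0})
    (hreg : ∀ x, F x = 0 → gradient F x ≠ 0)
    (hMc : IsConnected {x | F x = 0}) (hMl : LiftS {x | F x = 0})
    (e : V) (he : ‖e‖ = 1) (hL : LineNeg F e) : IsBall F := by
  obtain ⟨R, hR⟩ := hb.exists_norm_le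
  have hRn : ∀ x, F x ≤ 0 → |⟪e, x⟫| ≤ R := fun x hx => by
    have h1 := abs_real_inner_le_norm e x
    rw [he, one_mul] at h1
    exact h1.trans (hR x hx)
  obtain ⟨d, hd⟩ : ∃ d : ℝ, d = -R - 1 := ⟨_, rfl⟩
  obtain ⟨c, hc⟩ : ∃ c : ℝ, c = Real.exp 1 * (2 * |R| + 2) := ⟨_, rfl⟩
  have hc0 : 0 < c := by
    rw [hc]
    positivity
  have hE : OpenEmb (thA e c d) (psA e c d) := thA_emb he hc0
  have hsub : ∀ x, F x ≤ 0 → x ∈ range (thA e c d) := fun x hx => by
    rw [thA_range he hc0]
    show d < ⟪e, x⟫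
    have := (abs_le.1 (hRn x hx)).1
    linarith
  have hsub0 : ∀ x, F x = 0 → x ∈ range (thA e c d) := fun x hx => hsub x hx.le
  -- points of the transported body
  have hone : ∀ u, F (thA e c d u) ≤ 0 → 1 ≤ ⟪e, u⟫ := by
    intro u hu
    have h1 := (abs_le.1 (hRn _ hu)).2
    rw [thA_inner he] at h1
    by_contra hlt
    push Not at hlt
    have h2 : Real.exp (-1) < Real.exp (-⟪e, u⟫) := Real.exp_lt_exp.2 (by linarith)
    have h3 : c * Real.exp (-1) < c * Real.exp (-⟪e, u⟫) := mul_lt_mul_of_pos_left h2 hc0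
    have h4 : c * Real.exp (-1) = 2 * |R| + 2 := by
      rw [hc, mul_comm (Real.exp 1), mul_assoc, ← Real.exp_add]
      norm_num
    linarith [le_abs_self R]
  have hk : Good fun u => F (thA e c d u) := by
    refine good_of_regular (hF.comp hE.smooth)
      ((hE.comp_bdd hF.continuous hb hsub).subset fun x hx => le_of_eq hx) fun x hx h0 => ?_
    refine hE.comp_reg hF hreg x hx ?_
    rw [gradient, h0, map_zero]
  have h1 : IsBall fun u => F (thA e c d u) := by
    refine ray_core hdim hA _ (hF.continuous.comp hE.smooth.continuous)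
      (hE.comp_bdd hF.continuous hb hsub) (hE.comp_conn hsub0 hMc) (hE.comp_lift hsub0 hMl)
      (fun u => F (thA e c d u)) hk.refl 0 ?_ ?_
    · by_contra h0
      have h2 := hone 0 (not_lt.1 h0)
      rw [inner_zero_right] at h2
      linarith
    · intro v
      left
      intro s r t hs hsr hrt h2 h3
      rw [zero_add] at h2 h3 ⊢
      have h4 := hone _ h2
      rw [inner_smul_right] at h4
      have hv : 0 < ⟪e, v⟫ := by
        by_contra h5
        nlinarith [mul_nonneg hs.le (neg_nonneg.2 (not_lt.1 h5))]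
      have h5 : s * ⟪e, v⟫ < r * ⟪e, v⟫ := mul_lt_mul_of_pos_right hsr hv
      have h6 : r * ⟪e, v⟫ < t * ⟪e, v⟫ := mul_lt_mul_of_pos_right hrt hv
      have h7 : 1 ≤ r * ⟪e, v⟫ := by linarith
      have h8 : 1 ≤ t * ⟪e, v⟫ := by linarith
      simp only [thA_ray h4] at h2
      simp only [thA_ray h8] at h3
      simp only [thA_ray h7]
      have hexp : ∀ a b : ℝ, a < b → d + c * Real.exp (-b) < d + c * Real.exp (-a) := by
        intro a b hab
        have h9 : Real.exp (-b) < Real.exp (-a) := Real.exp_lt_exp.2 (by linarith)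
        have h10 := mul_lt_mul_of_pos_left h9 hc0
        linarith
      exact hL _ _ _ _ (hexp _ _ h6) (hexp _ _ h5) h3 h2
  refine isBall_open hE.smooth hE.left hE.opn hE.smooth' F ?_ hb hsub h1
  refine good_of_regular hF (hb.subset fun x hx => le_of_eq hx) fun x hx h0 => hreg x hx ?_
  rw [gradient, h0, map_zero]

end Pool.Schoen
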