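import Mathlib

/-!
# Hexasecant theorem, algebraic hypersurfaces

A bounded clopen part `M` of the zero set of a real polynomial of total degree at most `k` meets
every straight line in at most `k` points.
-/

set_option autoImplicit false

namespace Pool.Schoen

open Set Polynomial

section poly

variable {n : ℕ}

/-- the restriction of a polynomial to a line -/
noncomputable def linePoly (P : MvPolynomial (Fin n) ℝ) (p d : EuclideanSpace ℝ (Fin n)) : ℝ[X] :=
  MvPolynomial.aeval (fun i => C (p i) + C (d i) * X) P

theorem linePoly_eval (P : MvPolynomial (Fin n) ℝ) (p d : EuclideanSpace ℝ (Fin n)) (t : ℝ) :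
    (linePoly P p d).eval t = MvPolynomial.eval (fun i => (p + t • d) i) P := by
  unfold linePoly
  rw [← Polynomial.coe_evalRingHom, MvPolynomial.aeval_def, MvPolynomial.hom_eval₂,
    MvPolynomial.eval, MvPolynomial.coe_eval₂Hom]
  congr 1
  · refine RingHom.ext fun x => ?_
    rw [RingHom.comp_apply, Polynomial.coe_evalRingHom, Polynomial.algebraMap_eq,
      Polynomial.eval_C, RingHom.id_apply]
  · funext i
    rw [Polynomial.coe_evalRingHom, Polynomial.eval_add, Polynomial.eval_mul, Polynomial.eval_C,
      Polynomial.eval_C, Polynomial.eval_X, PiLp.add_apply, PiLp.smul_apply, smul_eq_mul, mul_comm]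

theorem linePoly_natDegree {k : ℕ} {P : MvPolynomial (Fin n) ℝ} (hP : P.totalDegree ≤ k)
    (p d : EuclideanSpace ℝ (Fin n)) : (linePoly P p d).natDegree ≤ k := by
  have h := MvPolynomial.aeval_natDegree_le P hP
    (fun i => (C (p i) + C (d i) * X : ℝ[X])) (n := 1) (fun i => by compute_degree)
  simpa [linePoly] using h

/-- A bounded, relatively clopen part `M` of the real zero set of a polynomial of total degree at
most `k` meets every line in at most `k` points. -/
theorem hx_poly_encard {k : ℕ} {P : MvPolynomial (Fin n) ℝ} (hP : P.totalDegree ≤ k)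
    {M U : Set (EuclideanSpace ℝ (Fin n))} (hM : IsClosed M) (hU : IsOpen U)
    (hMU : M = U ∩ {x | MvPolynomial.eval (fun i => x i) P = 0}) (hb : Bornology.IsBounded M)
    (p : EuclideanSpace ℝ (Fin n)) {d : EuclideanSpace ℝ (Fin n)} (hd : d ≠ 0) :
    {t : ℝ | p + t • d ∈ M}.encard ≤ k := by
  have hcont : Continuous fun t : ℝ => p + t • d := by fun_prop
  have hMZ : ∀ x ∈ M, MvPolynomial.eval (fun i => x i) P = 0 := by
    intro x hx
    rw [hMU] at hx
    exact hx.2
  by_cases hq : linePoly P p d = 0
  · have hZ : ∀ t : ℝ, MvPolynomial.eval (fun i => (p + t • d) i) P = 0 := by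
      intro t
      rw [← linePoly_eval, hq, Polynomial.eval_zero]
    have e : {t : ℝ | p + t • d ∈ M} = (fun t : ℝ => p + t • d) ⁻¹' U := by
      ext t
      constructor
      · intro ht
        have : p + t • d ∈ M := ht
        rw [hMU] at this
        exact this.1
      · intro ht
        show p + t • d ∈ M
        rw [hMU]
        exact ⟨ht, hZ t⟩
    have hclopen : IsClopen {t : ℝ | p + t • d ∈ M} := by
      refine ⟨hM.preimage hcont, ?_⟩
      rw [e]
      exact hU.preimage hcont
    rcases isClopen_iff.1 hclopen with h | h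
    · rw [h, encard_empty]
      exact zero_le
    · exfalso
      obtain ⟨R, hR⟩ := hb.exists_norm_le
      have hd' : 0 < ‖d‖ := norm_pos_iff.2 hd
      have h1 : ∀ t : ℝ, ‖p + t • d‖ ≤ R := by
        intro t
        apply hR
        have : t ∈ {t : ℝ | p + t • d ∈ M} := by rw [h]; trivial
        exact this
      have h2 := h1 ((R + ‖p‖ + 1) / ‖d‖)
      have hR0 : 0 ≤ R := (norm_nonneg _).trans (h1 0)
      have h3 : ‖((R + ‖p‖ + 1) / ‖d‖) • d‖ = R + ‖p‖ + 1 := by
        rw [norm_smul, Real.norm_of_nonneg (by positivity), div_mul_cancel₀ _ hd'.ne']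
      have h4 : ‖((R + ‖p‖ + 1) / ‖d‖) • d‖ ≤ ‖p + ((R + ‖p‖ + 1) / ‖d‖) • d‖ + ‖p‖ := by
        have := norm_sub_le (p + ((R + ‖p‖ + 1) / ‖d‖) • d) p
        rwa [add_sub_cancel_left] at this
      linarith
  · have hsub : {t : ℝ | p + t • d ∈ M} ⊆ ((linePoly P p d).roots.toFinset : Set ℝ) := by
      intro t ht
      rw [Finset.mem_coe, Multiset.mem_toFinset, Polynomial.mem_roots hq, Polynomial.IsRoot.def,
        linePoly_eval]
      exact hMZ _ ht
    calc {t : ℝ | p + t • d ∈ M}.encard ≤ ((linePoly P p d).roots.toFinset : Set ℝ).encard :=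
          encard_le_encard hsub
      _ = ((linePoly P p d).roots.toFinset.card : ℕ∞) := encard_coe_eq_coe_finsetCard _
      _ ≤ (k : ℕ∞) := by
          exact_mod_cast (Multiset.toFinset_card_le _).trans
            ((Polynomial.card_roots' _).trans (linePoly_natDegree hP p d))

end poly

end Pool.Schoen
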