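import Pool.Agent.H.MP_6c077c_gt.CG.Defining
import Pool.Agent.H.MP_6c077c_gt.Hx.Defs
import Pool.Agent.H.MP_6c077c_gt.Hx.Poly

/-! Hexasecant theorem, algebraic hypersurfaces: a compact connected open and closed part of a
regular zero set is a regular level set of a smooth function which is positive near infinity. -/

set_option autoImplicit false

namespace Pool.Schoen

open Set Filter
open scoped Topology ContDiff

section side

variable {V : Type*} [NormedAddCommGroup V] [InnerProductSpace ℝ V] [FiniteDimensional ℝ V]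

/-- The two sides: a continuous function with zero set `M` which equals `f` near `M`. -/
theorem polym_side {f : V → ℝ} (hf : Continuous f) {M U : Set V} (hM : IsCompact M)
    (hconn : IsConnected M) (hU : IsOpen U) (hMU : M = U ∩ {x | f x = 0}) :
    ∃ g : V → ℝ, Continuous g ∧ (∀ x, g x = 0 ↔ x ∈ M) ∧ ∀ x ∈ M, g =ᶠ[𝓝 x] f := by
  classical
  have hMsub : M ⊆ U := by
    rw [hMU]
    exact inter_subset_left
  have hMf : ∀ x ∈ M, f x = 0 := by
    intro x hx
    rw [hMU] at hx
    exact hx.2
  obtain ⟨K, hK, hMK, hKU⟩ := exists_compact_between hM hU hMsub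
  have hKM : ∀ x ∈ K, f x = 0 → x ∈ M := by
    intro x hx h0
    rw [hMU]
    exact ⟨hKU hx, h0⟩
  have hfrK : frontier K ⊆ K := hK.isClosed.frontier_subset
  have hfr : IsCompact (frontier K) := hK.of_isClosed_subset isClosed_frontier hfrK
  have hne : ∀ x ∈ frontier K, f x ≠ 0 := by
    intro x hx h0
    exact hx.2 (hMK (hKM x (hfrK hx) h0))
  obtain ⟨δ, hδ, hδf⟩ : ∃ δ : ℝ, 0 < δ ∧ ∀ x ∈ frontier K, δ < |f x| := by
    rcases (frontier K).eq_empty_or_nonempty with h | h
    · exact ⟨1, one_pos, by simp [h]⟩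
    · obtain ⟨x, hx, hmin⟩ := hfr.exists_isMinOn h (f := fun x => |f x|) hf.abs.continuousOn
      have h1 := abs_pos.2 (hne x hx)
      refine ⟨|f x| / 2, by positivity, fun y hy => ?_⟩
      have h2 : |f x| ≤ |f y| := hmin hy
      linarith
  set T : Set V := K ∩ {x | |f x| ≤ δ} with hT
  set Z : Set V := (interior K ∩ {x | |f x| < δ})ᶜ with hZ
  have hTc : IsClosed T := hK.isClosed.inter (isClosed_le hf.abs continuous_const)
  have hZc : IsClosed Z :=
    (isOpen_interior.inter (isOpen_lt hf.abs continuous_const)).isClosed_compl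
  have hTZ : T ∪ Z = univ := by
    ext x
    simp only [mem_union, mem_univ, iff_true]
    by_cases hx : x ∈ Z
    · exact Or.inr hx
    · left
      rw [hZ, mem_compl_iff, not_not] at hx
      exact ⟨interior_subset hx.1, (show |f x| < δ from hx.2).le⟩
  set χ : V → AddCircle (2 * δ) := fun x => if x ∈ T then ((f x + δ : ℝ) : AddCircle (2 * δ)) else 0
    with hχ
  have hχT : ∀ x ∈ T, χ x = ((f x + δ : ℝ) : AddCircle (2 * δ)) := fun x hx => if_pos hx
  have hχZ : ∀ x ∈ Z, χ x = 0 := by
    intro x hx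
    by_cases hxT : x ∈ T
    · rw [hχT x hxT]
      have h1 : |f x| = δ := by
        refine le_antisymm hxT.2 ?_
        by_contra h2
        have h2' : |f x| < δ := not_le.1 h2
        have h3 : x ∉ interior K := fun h4 => hx ⟨h4, h2'⟩
        have h4 : x ∈ frontier K := ⟨subset_closure hxT.1, h3⟩
        have h5 := hδf x h4
        linarith
      rcases (abs_eq hδ.le).1 h1 with h2 | h2
      · rw [h2, ← two_mul]
        exact AddCircle.coe_period _
      · rw [h2]
        simp
    · exact if_neg hxT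
  have hχc : Continuous χ := by
    have h1 : ContinuousOn χ T := by
      have h2 : Continuous fun x : V => ((f x + δ : ℝ) : AddCircle (2 * δ)) :=
        (AddCircle.continuous_mk' (2 * δ)).comp (by fun_prop)
      exact h2.continuousOn.congr fun x hx => hχT x hx
    have h3 : ContinuousOn χ Z :=
      (continuousOn_const (c := (0 : AddCircle (2 * δ)))).congr fun x hx => hχZ x hx
    have h4 := h1.union_of_isClosed h3 hTc hZc
    rw [hTZ] at h4
    exact continuousOn_univ.1 h4
  have hMT : ∀ x ∈ M, x ∈ T := by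
    intro x hx
    refine ⟨interior_subset (hMK hx), ?_⟩
    show |f x| ≤ δ
    rw [hMf x hx, abs_zero]
    exact hδ.le
  have hTnhds : ∀ x ∈ M, T ∈ 𝓝 x := by
    intro x hx
    refine Filter.inter_mem ?_ ?_
    · exact mem_interior_iff_mem_nhds.1 (hMK hx)
    · have h1 : {y | |f y| < δ} ∈ 𝓝 x := by
        refine (isOpen_lt hf.abs continuous_const).mem_nhds ?_
        show |f x| < δ
        rw [hMf x hx, abs_zero]
        exact hδ
      exact Filter.mem_of_superset h1 fun y hy => (show |f y| < δ from hy).le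
  -- the lift
  obtain ⟨p₀, hp₀⟩ := hconn.nonempty
  have h0 : ((δ : ℝ) : AddCircle (2 * δ)) = χ p₀ := by
    rw [hχT p₀ (hMT p₀ hp₀), hMf p₀ hp₀, zero_add]
  obtain ⟨θ, ⟨hθ0, hθ⟩, -⟩ :=
    (AddCircle.isCoveringMap_coe (2 * δ)).existsUnique_continuousMap_lifts
      (⟨χ, hχc⟩ : C(V, AddCircle (2 * δ))) p₀ δ h0
  have hθ' : ∀ x, ((θ x : ℝ) : AddCircle (2 * δ)) = χ x := fun x => congrFun hθ x
  have hint : ∀ x ∈ T, ∃ n : ℤ, θ x - (f x + δ) = n * (2 * δ) := by
    intro x hx
    have h : ((θ x - (f x + δ) : ℝ) : AddCircle (2 * δ)) = 0 := by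
      rw [AddCircle.coe_sub, hθ', hχT x hx]
      simp
    obtain ⟨n, hn⟩ := (AddCircle.coe_eq_zero_iff (2 * δ)).1 h
    refine ⟨n, ?_⟩
    rw [← hn, zsmul_eq_mul]
  have hsmall : ∀ x ∈ T, |θ x - (f x + δ)| < 2 * δ → θ x = f x + δ := by
    intro x hx hs
    obtain ⟨n, hn⟩ := hint x hx
    rw [hn, abs_mul, abs_of_pos (by positivity : (0 : ℝ) < 2 * δ)] at hs
    have h1 : |(n : ℝ)| < 1 := by
      by_contra h2
      have h3 : 1 ≤ |(n : ℝ)| := not_lt.1 h2
      have h4 : 1 * (2 * δ) ≤ |(n : ℝ)| * (2 * δ) :=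
        mul_le_mul_of_nonneg_right h3 (by positivity)
      linarith
    have h2 : n = 0 := by
      have h3 : |n| < 1 := by exact_mod_cast h1
      exact Int.abs_lt_one_iff.1 h3
    rw [h2] at hn
    simp at hn
    linarith
  have hwc : Continuous fun x => θ x - (f x + δ) := by
    have := θ.continuous
    fun_prop
  have hMθ : ∀ x ∈ M, θ x = f x + δ := by
    intro x hx
    by_contra hne'
    have h1 : ¬ |θ x - (f x + δ)| < 2 * δ := fun h => hne' (hsmall x (hMT x hx) h)
    have h2 : IsPreconnected ((fun x => |θ x - (f x + δ)|) '' M) :=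
      hconn.isPreconnected.image _ hwc.abs.continuousOn
    have h3 : (0 : ℝ) ∈ (fun x => |θ x - (f x + δ)|) '' M := by
      refine ⟨p₀, hp₀, ?_⟩
      show |θ p₀ - (f p₀ + δ)| = 0
      rw [hMf p₀ hp₀]
      have h4 : θ p₀ = δ := hθ0
      rw [h4]
      simp
    have h4 : |θ x - (f x + δ)| ∈ (fun x => |θ x - (f x + δ)|) '' M := ⟨x, hx, rfl⟩
    have h5 : δ ∈ (fun x => |θ x - (f x + δ)|) '' M :=
      h2.ordConnected.out h3 h4 ⟨hδ.le, by linarith [not_lt.1 h1]⟩
    obtain ⟨y, hy, hy'⟩ := h5
    have hy'' : |θ y - (f y + δ)| = δ := hy'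
    have h6 := hsmall y (hMT y hy) (by rw [hy'']; linarith)
    rw [h6] at hy''
    simp at hy''
    linarith
  refine ⟨fun x => θ x - δ, ?_, ?_, ?_⟩
  · have := θ.continuous
    fun_prop
  · intro x
    constructor
    · intro hx
      have hx' : θ x = δ := sub_eq_zero.1 hx
      have hxT : x ∈ T := by
        by_contra h1
        have h2 : χ x = 0 := if_neg h1
        rw [← hθ' x, hx'] at h2
        obtain ⟨n, hn⟩ := (AddCircle.coe_eq_zero_iff (2 * δ)).1 h2
        rw [zsmul_eq_mul] at hn
        have h3 : (n : ℝ) * 2 = 1 := by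
          have h4 : ((n : ℝ) * 2) * δ = 1 * δ := by linarith
          exact mul_right_cancel₀ hδ.ne' h4
        have h4 : n * 2 = 1 := by exact_mod_cast h3
        omega
      have h1 : θ x = f x + δ := by
        refine hsmall x hxT ?_
        rw [hx']
        have h2 : |f x| ≤ δ := hxT.2
        have h3 : δ - (f x + δ) = - f x := by ring
        rw [h3, abs_neg]
        linarith
      refine hKM x hxT.1 ?_
      linarith
    · intro hx
      have h1 := hMθ x hx
      rw [hMf x hx, zero_add] at h1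
      show θ x - δ = 0
      rw [h1, sub_self]
  · intro x hx
    have h1 : {y | |θ y - (f y + δ)| < 2 * δ} ∈ 𝓝 x := by
      refine (isOpen_lt hwc.abs continuous_const).mem_nhds ?_
      show |θ x - (f x + δ)| < 2 * δ
      rw [hMθ x hx, sub_self, abs_zero]
      positivity
    filter_upwards [hTnhds x hx, h1] with y hy hy'
    have h2 := hsmall y hy hy'
    show θ y - δ = f y
    rw [h2]
    ring

/-- Smoothing off `M`. -/
theorem polym_smooth {f : V → ℝ} (hf : ContDiff ℝ ∞ f) {g : V → ℝ} (hg : Continuous g)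
    (hgf : ∀ x, g x = 0 → g =ᶠ[𝓝 x] f) :
    ∃ F : V → ℝ, ContDiff ℝ ∞ F ∧ (∀ x, F x = 0 ↔ g x = 0) ∧ (∀ x, 0 < F x ↔ 0 < g x) ∧
      ∀ x, g x = 0 → F =ᶠ[𝓝 x] f := by
  have hZ : IsClosed {x | g x = 0} := isClosed_eq hg continuous_const
  have hsub : {x | g x = 0} ⊆ interior {x | g x = f x} := by
    intro x hx
    rw [mem_interior_iff_mem_nhds]
    exact hgf x hx
  obtain ⟨χ, h1, h2, h3⟩ :=
    exists_contMDiffMap_one_nhds_of_subset_interior (modelWithCornersSelf ℝ V)
      (n := (⊤ : ℕ∞)) hZ hsub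
  have hχ : ContDiff ℝ ∞ χ := χ.contMDiff.contDiff
  have hnear : ∀ x, g x = 0 → ∀ᶠ y in 𝓝 x, χ y = 1 := fun x hx =>
    h1.filter_mono (nhds_le_nhdsSet (show x ∈ {y | g y = 0} from hx))
  let G : V → ℝ := fun x => χ x * f x + (1 - χ x) * (if g x < 0 then -1 else 1)
  have hGf : ∀ x, g x = 0 → G =ᶠ[𝓝 x] f := by
    intro x hx
    filter_upwards [hnear x hx] with y hy
    simp [G, hy]
  have hGs : ContDiff ℝ ∞ G := by
    rw [contDiff_iff_contDiffAt]
    intro x
    rcases lt_trichotomy (g x) 0 with h | h | h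
    · have h4 : G =ᶠ[𝓝 x] fun y => χ y * f y + (1 - χ y) * (-1) := by
        filter_upwards [(isOpen_lt hg continuous_const).mem_nhds h] with y hy
        have hy' : g y < 0 := hy
        simp only [G, if_pos hy']
      refine ContDiffAt.congr_of_eventuallyEq ?_ h4
      exact ((hχ.mul hf).add ((contDiff_const.sub hχ).mul contDiff_const)).contDiffAt
    · exact hf.contDiffAt.congr_of_eventuallyEq (hGf x h)
    · have h4 : G =ᶠ[𝓝 x] fun y => χ y * f y + (1 - χ y) * 1 := by
        filter_upwards [(isOpen_lt continuous_const hg).mem_nhds h] with y hy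
        have hy' : ¬ g y < 0 := not_lt.2 (le_of_lt hy)
        simp only [G, if_neg hy']
      refine ContDiffAt.congr_of_eventuallyEq ?_ h4
      exact ((hχ.mul hf).add ((contDiff_const.sub hχ).mul contDiff_const)).contDiffAt
  have hχf : ∀ x, χ x ≠ 0 → g x = f x := by
    intro x hx
    by_contra hne
    exact hx (h2 x hne)
  have hneg : ∀ x, g x < 0 → G x < 0 := by
    intro x hx
    have hG : G x = χ x * f x + (1 - χ x) * (-1) := by simp only [G, if_pos hx]
    rw [hG]
    have h5 := (h3 x).1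
    have h6 := (h3 x).2
    rcases eq_or_ne (χ x) 0 with h7 | h7
    · rw [h7]
      norm_num
    · have h8 := hχf x h7
      rw [← h8]
      have h9 : 0 < χ x := lt_of_le_of_ne h5 (Ne.symm h7)
      nlinarith [mul_neg_of_pos_of_neg h9 hx]
  have hpos : ∀ x, 0 < g x → 0 < G x := by
    intro x hx
    have hG : G x = χ x * f x + (1 - χ x) * 1 := by
      simp only [G, if_neg (not_lt.2 hx.le)]
    rw [hG]
    have h5 := (h3 x).1
    have h6 := (h3 x).2
    rcases eq_or_ne (χ x) 0 with h7 | h7
    · rw [h7]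
      norm_num
    · have h8 := hχf x h7
      rw [← h8]
      have h9 : 0 < χ x := lt_of_le_of_ne h5 (Ne.symm h7)
      nlinarith [mul_pos h9 hx]
  have hzero : ∀ x, g x = 0 → G x = 0 := by
    intro x hx
    rw [(hGf x hx).eq_of_nhds, ← (hgf x hx).eq_of_nhds, hx]
  refine ⟨G, hGs, ?_, ?_, hGf⟩
  · intro x
    refine ⟨fun hx => ?_, hzero x⟩
    rcases lt_trichotomy (g x) 0 with h | h | h
    · exact absurd hx (hneg x h).ne
    · exact h
    · exact absurd hx (hpos x h).ne'
  · intro x
    refine ⟨fun hx => ?_, hpos x⟩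
    rcases lt_trichotomy (g x) 0 with h | h | h
    · exact absurd hx (hneg x h).le.not_gt
    · exact absurd hx (hzero x h).le.not_gt
    · exact h

/-- A compact connected, relatively open part of a regular zero set is a regular level set. -/
theorem polym_defining (hdim : 2 ≤ Module.finrank ℝ V) {f : V → ℝ} (hf : ContDiff ℝ ∞ f)
    {M U : Set V} (hM : IsCompact M) (hconn : IsConnected M) (hU : IsOpen U)
    (hMU : M = U ∩ {x | f x = 0}) (hreg : ∀ x ∈ M, gradient f x ≠ 0) :
    ∃ F : V → ℝ, ContDiff ℝ ∞ F ∧ Bornology.IsBounded {x | F x ≤ 0} ∧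
      (∀ x, F x = 0 → gradient F x ≠ 0) ∧ {x | F x = 0} = M := by
  obtain ⟨g, hg, hg0, hgf⟩ := polym_side hf.continuous hM hconn hU hMU
  obtain ⟨F, hF, hF0, -, hFf⟩ := polym_smooth hf hg fun x hx => hgf x ((hg0 x).1 hx)
  have hFM : ∀ x, F x = 0 ↔ x ∈ M := fun x => (hF0 x).trans (hg0 x)
  have hgr : ∀ x, F x = 0 → gradient F x ≠ 0 := by
    intro x hx
    have h1 : gradient F x = gradient f x := by
      unfold gradient
      rw [(hFf x ((hF0 x).1 hx)).fderiv_eq]
    rw [h1]
    exact hreg x ((hFM x).1 hx)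
  obtain ⟨R₀, hR₀⟩ := hM.isBounded.subset_closedBall (0 : V)
  set R : ℝ := max R₀ 0 with hR
  have hR0 : 0 ≤ R := le_max_right _ _
  have hval : ∀ y : V, R < ‖y‖ → F y ≠ 0 := by
    intro y hy h0
    have h1 := hR₀ ((hFM y).1 h0)
    rw [mem_closedBall_zero_iff] at h1
    have h2 : R₀ ≤ R := le_max_left _ _
    linarith
  have hconst : (∀ y : V, R < ‖y‖ → F y < 0) ∨ (∀ y : V, R < ‖y‖ → 0 < F y) := by
    by_cases hex : ∃ a : V, R < ‖a‖ ∧ F a < 0
    · left
      obtain ⟨a, ha, hFa⟩ := hex
      intro b hb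
      by_contra hFb
      have h1 := (Defining_conn hdim hR0).intermediate_value ha hb hF.continuous.continuousOn
      obtain ⟨c, hc, hFc⟩ := h1 ⟨hFa.le, not_lt.1 hFb⟩
      exact hval c hc hFc
    · right
      intro b hb
      refine lt_of_le_of_ne ?_ (Ne.symm (hval b hb))
      by_contra h1
      exact hex ⟨b, hb, not_le.1 h1⟩
  rcases hconst with hc | hc
  · refine ⟨fun y => -F y, hF.neg, ?_, ?_, ?_⟩
    · refine (Metric.isBounded_closedBall (x := (0 : V)) (r := R)).subset ?_
      intro y hy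
      rw [mem_closedBall_zero_iff]
      by_contra h1
      push Not at h1
      have h2 : -F y ≤ 0 := hy
      have h3 := hc y h1
      linarith
    · intro y hy h1
      apply hgr y (neg_eq_zero.1 hy)
      have h2 : gradient (fun y => -F y) y = - gradient F y := by
        unfold gradient
        rw [fderiv_fun_neg, map_neg]
      rw [h2, neg_eq_zero] at h1
      exact h1
    · ext y
      rw [← hFM y]
      exact neg_eq_zero
  · refine ⟨F, hF, ?_, hgr, ?_⟩
    · refine (Metric.isBounded_closedBall (x := (0 : V)) (r := R)).subset ?_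
      intro y hy
      rw [mem_closedBall_zero_iff]
      by_contra h1
      push Not at h1
      have h2 : F y ≤ 0 := hy
      have h3 := hc y h1
      linarith
    · ext y
      exact hFM y

end side

section poly

variable {n : ℕ}

theorem polym_contDiff (P : MvPolynomial (Fin n) ℝ) :
    ContDiff ℝ ∞ fun x : EuclideanSpace ℝ (Fin n) => MvPolynomial.eval (fun i => x i) P := by
  induction P using MvPolynomial.induction_on with
  | C a => simpa using contDiff_const
  | add p q hp hq => simpa using hp.add hq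
  | mul_X p i hp =>
    simp only [map_mul, MvPolynomial.eval_X]
    refine hp.mul ?_
    fun_prop

/-- Compact connected nonsingular parts of real algebraic hypersurfaces of degree at most five. -/
theorem hx_polyM (hn : 2 ≤ n) {P : MvPolynomial (Fin n) ℝ} (hP : P.totalDegree ≤ 5)
    {M U : Set (EuclideanSpace ℝ (Fin n))} (hM : IsCompact M) (hconn : IsConnected M)
    (hU : IsOpen U) (hMU : M = U ∩ {x | MvPolynomial.eval (fun i => x i) P = 0})
    (hreg : ∀ x ∈ M, gradient (fun x : EuclideanSpace ℝ (Fin n) =>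
      MvPolynomial.eval (fun i => x i) P) x ≠ 0) :
    ∃ F : EuclideanSpace ℝ (Fin n) → ℝ, ContDiff ℝ ∞ F ∧ Bornology.IsBounded {x | F x ≤ 0} ∧
      (∀ x, F x = 0 → gradient F x ≠ 0) ∧ {x | F x = 0} = M ∧ LineFive F := by
  obtain ⟨F, h1, h2, h3, h4⟩ := polym_defining (by simpa using hn) (polym_contDiff P) hM hconn hU
    hMU hreg
  refine ⟨F, h1, h2, h3, h4, ?_⟩
  intro p d hd
  have h5 := hx_poly_encard hP hM.isClosed hU hMU hM.isBounded p hd
  have h6 : {t : ℝ | F (p + t • d) = 0} = {t : ℝ | p + t • d ∈ M} := by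
    ext t
    rw [← h4]
    rfl
  rw [h6]
  exact h5

end poly

end Pool.Schoen
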