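import Pool.Agent.H.MP_6c077c_gt.Hx.LineA
import Pool.Agent.H.MP_6c077c_gt.Hx.PolyM
import Pool.Agent.H.MP_6c077c_gt.Hx.RayK

/-! Hypersurfaces in the zero set of a function whose restrictions to the lines of one direction are
polynomials of degree at most three. -/

set_option autoImplicit false

namespace Pool.Schoen

open Filter Set Polynomial
open scoped Topology RealInnerProductSpace ContDiff

/-- The sum of the multiplicities over a finite set. -/
theorem LineP_sum (q : ℝ[X]) (S : Finset ℝ) : ∑ z ∈ S, q.rootMultiplicity z ≤ q.natDegree := by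
  classical
  have h1 : ∑ z ∈ S ∪ q.roots.toFinset, q.roots.count z = Multiset.card q.roots :=
    Multiset.sum_count_eq_card fun a ha => Finset.mem_union_right _ (Multiset.mem_toFinset.2 ha)
  calc ∑ z ∈ S, q.rootMultiplicity z = ∑ z ∈ S, q.roots.count z :=
        Finset.sum_congr rfl fun z _ => (count_roots q).symm
    _ ≤ ∑ z ∈ S ∪ q.roots.toFinset, q.roots.count z :=
        Finset.sum_le_sum_of_subset Finset.subset_union_left
    _ = Multiset.card q.roots := h1
    _ ≤ q.natDegree := card_roots' q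

section line

variable {g : ℝ → ℝ} {q : ℝ[X]}

theorem LineP_near (hg : Differentiable ℝ g) {t ε : ℝ} (h0 : g t = 0) (hd : deriv g t ≠ 0)
    (hε : 0 < ε) : ∃ t', |t' - t| < ε ∧ 0 < g t' := by
  have e : ∀ t' : ℝ, (0 : ℝ) + t' • (1 : ℝ) = t' := fun t' => by simp
  obtain ⟨t', h1, h2⟩ := RayK_near (F := g) (p := 0) (d := 1) (t := t) (ε := ε)
    (by rw [e]; exact hg t) (by rw [e]; exact h0) (by rw [e]; simpa using hd) hε
  rw [e] at h2
  exact ⟨t', h1, h2⟩

theorem LineP_near' (hg : Differentiable ℝ g) {t ε : ℝ} (h0 : g t = 0) (hd : deriv g t ≠ 0)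
    (hε : 0 < ε) : ∃ t', |t' - t| < ε ∧ g t' < 0 := by
  obtain ⟨t', h1, h2⟩ := LineP_near (g := fun x => -g x) hg.neg (by simpa using h0)
    (by
      have : deriv (fun x => -g x) t = -deriv g t := deriv.fun_neg
      rw [this]
      simpa using hd) hε
  exact ⟨t', h1, by linarith⟩

/-- Left of a point with positive value: multiplicity two. -/
theorem LineP_left (hg : Differentiable ℝ g) (hq : q ≠ 0) (hz : ∀ t, g t = 0 → q.IsRoot t)
    (hd : ∀ t, g t = 0 → deriv g t = 0 → q.derivative.IsRoot t)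
    {R : ℝ} (hR : ∀ t, R < |t| → 0 < g t) {s r : ℝ} (hsr : s < r) (hs : g s ≤ 0) (hr : 0 < g r) :
    ∃ S : Finset ℝ, (∀ z ∈ S, z < r) ∧ 2 ≤ ∑ z ∈ S, q.rootMultiplicity z := by
  have hpos : ∀ z, g z = 0 → 1 ≤ q.rootMultiplicity z := fun z h =>
    (rootMultiplicity_pos hq).2 (hz z h)
  have main : ∀ s' : ℝ, s' < r → g s' < 0 →
      ∃ S : Finset ℝ, (∀ z ∈ S, z < r) ∧ 2 ≤ ∑ z ∈ S, q.rootMultiplicity z := by
    intro s' hs'r hs'
    have hfar : 0 < g (min (s' - 1) (-|R| - 1)) := by
      apply hR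
      have h1 : min (s' - 1) (-|R| - 1) ≤ -|R| - 1 := min_le_right _ _
      have h2 := le_abs_self R
      have h3 := neg_le_abs (min (s' - 1) (-|R| - 1))
      linarith
    obtain ⟨z1, h1, h2, h3⟩ := RayK_dn hg.continuous
      (lt_of_le_of_lt (min_le_left (s' - 1) (-|R| - 1)) (by linarith)) hfar hs'
    obtain ⟨z2, h4, h5, h6⟩ := RayK_up hg.continuous hs'r hs' hr
    refine ⟨{z1, z2}, ?_, ?_⟩
    · intro z hz'
      rcases Finset.mem_insert.1 hz' with rfl | h
      · linarith
      · rw [Finset.mem_singleton.1 h]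
        exact h5
    · rw [Finset.sum_pair (by linarith : z1 < z2).ne]
      have := hpos z1 h3
      have := hpos z2 h6
      omega
  rcases hs.lt_or_eq with h | h
  · exact main s hsr h
  · by_cases h0 : deriv g s = 0
    · refine ⟨{s}, ?_, ?_⟩
      · intro z hz'
        rw [Finset.mem_singleton.1 hz']
        exact hsr
      · rw [Finset.sum_singleton]
        exact (one_lt_rootMultiplicity_iff_isRoot hq).2 ⟨hz s h, hd s h h0⟩
    · obtain ⟨s', h1, h2⟩ := LineP_near' hg h h0 (sub_pos.2 hsr)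
      refine main s' ?_ h2
      have := (abs_lt.1 h1).2
      linarith

/-- Right of a point with positive value: multiplicity two. -/
theorem LineP_right (hg : Differentiable ℝ g) (hq : q ≠ 0) (hz : ∀ t, g t = 0 → q.IsRoot t)
    (hd : ∀ t, g t = 0 → deriv g t = 0 → q.derivative.IsRoot t)
    {R : ℝ} (hR : ∀ t, R < |t| → 0 < g t) {r t : ℝ} (hrt : r < t) (ht : g t ≤ 0) (hr : 0 < g r) :
    ∃ S : Finset ℝ, (∀ z ∈ S, r < z) ∧ 2 ≤ ∑ z ∈ S, q.rootMultiplicity z := by
  have hpos : ∀ z, g z = 0 → 1 ≤ q.rootMultiplicity z := fun z h =>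
    (rootMultiplicity_pos hq).2 (hz z h)
  have main : ∀ t' : ℝ, r < t' → g t' < 0 →
      ∃ S : Finset ℝ, (∀ z ∈ S, r < z) ∧ 2 ≤ ∑ z ∈ S, q.rootMultiplicity z := by
    intro t' hrt' ht'
    have hfar : 0 < g (max (t' + 1) (|R| + 1)) := by
      apply hR
      have h1 : |R| + 1 ≤ max (t' + 1) (|R| + 1) := le_max_right _ _
      have h2 := le_abs_self R
      have h3 := le_abs_self (max (t' + 1) (|R| + 1))
      linarith
    obtain ⟨z1, h1, h2, h3⟩ := RayK_up hg.continuous
      (lt_of_lt_of_le (by linarith : t' < t' + 1) (le_max_left (t' + 1) (|R| + 1))) ht' hfar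
    obtain ⟨z2, h4, h5, h6⟩ := RayK_dn hg.continuous hrt' hr ht'
    refine ⟨{z2, z1}, ?_, ?_⟩
    · intro z hz'
      rcases Finset.mem_insert.1 hz' with rfl | h
      · exact h4
      · rw [Finset.mem_singleton.1 h]
        linarith
    · rw [Finset.sum_pair (by linarith : z2 < z1).ne]
      have := hpos z1 h3
      have := hpos z2 h6
      omega
  rcases ht.lt_or_eq with h | h
  · exact main t hrt h
  · by_cases h0 : deriv g t = 0
    · refine ⟨{t}, ?_, ?_⟩
      · intro z hz'
        rw [Finset.mem_singleton.1 hz']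
        exact hrt
      · rw [Finset.sum_singleton]
        exact (one_lt_rootMultiplicity_iff_isRoot hq).2 ⟨hz t h, hd t h h0⟩
    · obtain ⟨t', h1, h2⟩ := LineP_near' hg h h0 (sub_pos.2 hrt)
      refine main t' ?_ h2
      have := (abs_lt.1 h1).1
      linarith

theorem LineP_pos (hg : Differentiable ℝ g) (hq : q ≠ 0) (hdeg : q.natDegree ≤ 3)
    (hz : ∀ t, g t = 0 → q.IsRoot t)
    (hd : ∀ t, g t = 0 → deriv g t = 0 → q.derivative.IsRoot t)
    {R : ℝ} (hR : ∀ t, R < |t| → 0 < g t) {s r t : ℝ} (hsr : s < r) (hrt : r < t) (hs : g s ≤ 0)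
    (ht : g t ≤ 0) (hr : 0 < g r) : False := by
  classical
  obtain ⟨S, h1, h2⟩ := LineP_left hg hq hz hd hR hsr hs hr
  obtain ⟨T, h3, h4⟩ := LineP_right hg hq hz hd hR hrt ht hr
  have h5 : Disjoint S T := by
    rw [Finset.disjoint_left]
    intro z hz1 hz2
    exact absurd (h1 z hz1) (not_lt.2 (h3 z hz2).le)
  have h6 := LineP_sum q (S ∪ T)
  rw [Finset.sum_union h5] at h6
  omega

/-- A function of one variable which is positive far away, whose zeros are zeros (and double zeros
are double zeros) of a polynomial of degree at most three, is negative strictly between two points of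
`g ≤ 0`. -/
theorem LineP_line (hg : Differentiable ℝ g) (hq : q ≠ 0) (hdeg : q.natDegree ≤ 3)
    (hz : ∀ t, g t = 0 → q.IsRoot t)
    (hd : ∀ t, g t = 0 → deriv g t = 0 → q.derivative.IsRoot t)
    {R : ℝ} (hR : ∀ t, R < |t| → 0 < g t) {s r t : ℝ} (hsr : s < r) (hrt : r < t) (hs : g s ≤ 0)
    (ht : g t ≤ 0) : g r < 0 := by
  by_contra hr
  rcases (not_lt.1 hr).lt_or_eq with h | h
  · exact LineP_pos hg hq hdeg hz hd hR hsr hrt hs ht h
  · have h' : g r = 0 := h.symm
    by_cases h0 : deriv g r = 0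
    · have hm : 2 ≤ q.rootMultiplicity r :=
        (one_lt_rootMultiplicity_iff_isRoot hq).2 ⟨hz r h', hd r h' h0⟩
      have hpos : ∀ z, g z = 0 → 1 ≤ q.rootMultiplicity z := fun z h =>
        (rootMultiplicity_pos hq).2 (hz z h)
      obtain ⟨z1, h1, h2⟩ : ∃ z, z ≤ s ∧ g z = 0 := by
        rcases hs.lt_or_eq with h3 | h3
        · have hfar : 0 < g (min (s - 1) (-|R| - 1)) := by
            apply hR
            have h1 : min (s - 1) (-|R| - 1) ≤ -|R| - 1 := min_le_right _ _
            have h2 := le_abs_self R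
            have h3 := neg_le_abs (min (s - 1) (-|R| - 1))
            linarith
          obtain ⟨z1, h1, h2, h3⟩ := RayK_dn hg.continuous
            (lt_of_le_of_lt (min_le_left (s - 1) (-|R| - 1)) (by linarith)) hfar h3
          exact ⟨z1, h2.le, h3⟩
        · exact ⟨s, le_refl s, h3⟩
      obtain ⟨z2, h3, h4⟩ : ∃ z, t ≤ z ∧ g z = 0 := by
        rcases ht.lt_or_eq with h3 | h3
        · have hfar : 0 < g (max (t + 1) (|R| + 1)) := by
            apply hR
            have h1 : |R| + 1 ≤ max (t + 1) (|R| + 1) := le_max_right _ _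
            have h2 := le_abs_self R
            have h3 := le_abs_self (max (t + 1) (|R| + 1))
            linarith
          obtain ⟨z1, h1, h2, h3⟩ := RayK_up hg.continuous
            (lt_of_lt_of_le (by linarith : t < t + 1) (le_max_left (t + 1) (|R| + 1))) h3 hfar
          exact ⟨z1, h1.le, h3⟩
        · exact ⟨t, le_refl t, h3⟩
      have h5 := LineP_sum q {z1, r, z2}
      rw [Finset.sum_insert (by
          intro h6
          rcases Finset.mem_insert.1 h6 with h7 | h7
          · linarith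
          · have := Finset.mem_singleton.1 h7
            linarith), Finset.sum_pair (by linarith : r < z2).ne] at h5
      have := hpos z1 h2
      have := hpos z2 h4
      omega
    · obtain ⟨r', h1, h2⟩ := LineP_near hg h' h0
        (ε := min (r - s) (t - r)) (lt_min (by linarith) (by linarith))
      have h3 := (abs_lt.1 h1).1
      have h4 := (abs_lt.1 h1).2
      have h5 := min_le_left (r - s) (t - r)
      have h6 := min_le_right (r - s) (t - r)
      exact LineP_pos hg hq hdeg hz hd hR (by linarith) (by linarith) hs ht h2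

end line

variable {V : Type*} [NormedAddCommGroup V] [InnerProductSpace ℝ V]

/-- Multipliers: if `G` vanishes on the regular zero set of `F`, its derivative at the points of
this set is a multiple of the derivative of `F`. -/
theorem LineP_mult [CompleteSpace V] {F G : V → ℝ} (hF : ContDiff ℝ ∞ F) (hG : ContDiff ℝ 1 G)
    (hFG : ∀ x, F x = 0 → G x = 0) {y : V} (hy : F y = 0) (hreg : gradient F y ≠ 0) :
    ∃ l : ℝ, fderiv ℝ G y = l • fderiv ℝ F y := by
  have h1 : HasStrictFDerivAt F (fderiv ℝ F y) y :=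
    hF.contDiffAt.hasStrictFDerivAt (by norm_num)
  have h2 : HasStrictFDerivAt G (fderiv ℝ G y) y :=
    hG.contDiffAt.hasStrictFDerivAt (by norm_num)
  have h3 : IsLocalExtrOn G {x | F x = F y} y := by
    left
    filter_upwards [self_mem_nhdsWithin] with x hx
    have h4 : F x = 0 := (show F x = F y from hx).trans hy
    rw [hFG x h4, hFG y hy]
  obtain ⟨a, b, hab, h5⟩ := h3.exists_multipliers_of_hasStrictFDerivAt_1d h1 h2
  have hb : b ≠ 0 := by
    rintro rfl
    have ha : a ≠ 0 := by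
      rintro rfl
      exact hab rfl
    rw [zero_smul, add_zero, smul_eq_zero] at h5
    rcases h5 with h6 | h6
    · exact ha h6
    · apply hreg
      rw [gradient, h6, map_zero]
  refine ⟨-(a / b), ?_⟩
  have h6 : b • fderiv ℝ G y = -(a • fderiv ℝ F y) := by
    rw [eq_neg_iff_add_eq_zero, add_comm]
    exact h5
  have h7 : fderiv ℝ G y = b⁻¹ • (b • fderiv ℝ G y) := by
    rw [smul_smul, inv_mul_cancel₀ hb, one_smul]
  rw [h7, h6, smul_neg, smul_smul, ← neg_smul]
  congr 1
  field_simp

/-- Bodies of one direction of degree three. -/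
theorem lineNeg_of_cubic [CompleteSpace V] {F G : V → ℝ} (hF : ContDiff ℝ ∞ F)
    (hb : Bornology.IsBounded {x | F x ≤ 0}) (hreg : ∀ x, F x = 0 → gradient F x ≠ 0)
    (hG : ContDiff ℝ 1 G) (hFG : ∀ x, F x = 0 → G x = 0) {e : V} (he : e ≠ 0)
    (hq : ∀ x, F x = 0 → ∃ q : ℝ[X], q ≠ 0 ∧ q.natDegree ≤ 3 ∧
      ∀ t : ℝ, G (x + t • e) = q.eval t) : LineNeg F e := by
  intro p s r t hsr hrt hs ht
  -- a point of the hypersurface on the line
  obtain ⟨R, hR⟩ := RayK_far hb p he
  obtain ⟨z, hz⟩ : ∃ z : ℝ, F (p + z • e) = 0 := by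
    rcases hs.lt_or_eq with h | h
    · have hfar : 0 < F (p + (max (s + 1) (|R| + 1)) • e) := by
        apply hR
        have h1 : |R| + 1 ≤ max (s + 1) (|R| + 1) := le_max_right _ _
        have h2 := le_abs_self R
        have h3 := le_abs_self (max (s + 1) (|R| + 1))
        linarith
      obtain ⟨z, -, -, h3⟩ := RayK_up (RayK_cont hF.continuous p e)
        (lt_of_lt_of_le (by linarith : s < s + 1) (le_max_left (s + 1) (|R| + 1))) h hfar
      exact ⟨z, h3⟩
    · exact ⟨s, h⟩
  obtain ⟨q, hq0, hq3, hqe⟩ := hq _ hz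
  set x := p + z • e with hx
  have hxe : ∀ t : ℝ, p + t • e = x + (t - z) • e := fun t => by
    rw [hx]
    module
  obtain ⟨R', hR'⟩ := RayK_far hb x he
  have hFd : Differentiable ℝ F := hF.differentiable (by norm_num)
  have hGd : Differentiable ℝ G := hG.differentiable (by norm_num)
  have hline : ∀ τ : ℝ, HasDerivAt (fun τ : ℝ => x + τ • e) e τ := fun τ => by
    simpa using ((hasDerivAt_id τ).smul_const e).const_add x
  have hFl : ∀ τ : ℝ, HasDerivAt (fun τ : ℝ => F (x + τ • e)) (fderiv ℝ F (x + τ • e) e) τ :=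
    fun τ => (hFd _).hasFDerivAt.comp_hasDerivAt τ (hline τ)
  have hGl : ∀ τ : ℝ, HasDerivAt (fun τ : ℝ => G (x + τ • e)) (fderiv ℝ G (x + τ • e) e) τ :=
    fun τ => (hGd _).hasFDerivAt.comp_hasDerivAt τ (hline τ)
  rw [hxe] at hs ht ⊢
  refine LineP_line (g := fun τ : ℝ => F (x + τ • e)) (q := q) (R := R') (s := s - z)
    (t := t - z) (r := r - z) (fun τ => (hFl τ).differentiableAt) hq0 hq3 ?_ ?_ hR'
    (by linarith) (by linarith) hs ht
  · intro τ hτ
    rw [IsRoot.def, ← hqe τ]
    exact hFG _ hτ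
  · intro τ hτ hτ'
    obtain ⟨l, hl⟩ := LineP_mult hF hG hFG hτ (hreg _ hτ)
    rw [(hFl τ).deriv] at hτ'
    have h1 : HasDerivAt (fun τ : ℝ => G (x + τ • e)) (q.derivative.eval τ) τ := by
      have h2 : (fun τ : ℝ => G (x + τ • e)) = fun τ => q.eval τ := funext hqe
      rw [h2]
      exact q.hasDerivAt τ
    rw [IsRoot.def, h1.unique (hGl τ), hl]
    show l • (fderiv ℝ F (x + τ • e)) e = 0
    rw [hτ', smul_zero]

/-- If `G` vanishes on the regular zero set of `F` and has a nonzero derivative at the point `y` of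
this set, then near `y` the two zero sets are the same. -/
theorem LineP_nonsing [CompleteSpace V] {F G : V → ℝ} (hF : ContDiff ℝ ∞ F) (hG : ContDiff ℝ 1 G)
    (hFG : ∀ x, F x = 0 → G x = 0) {y : V} (hy : F y = 0) (hreg : gradient F y ≠ 0)
    (hGy : gradient G y ≠ 0) : ∀ᶠ z in 𝓝 y, G z = 0 → F z = 0 := by
  obtain ⟨l, hl⟩ := LineP_mult hF hG hFG hy hreg
  have hFd : Differentiable ℝ F := hF.differentiable (by norm_num)
  have hGd : Differentiable ℝ G := hG.differentiable (by norm_num)
  have hl0 : l ≠ 0 := by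
    rintro rfl
    apply hGy
    rw [gradient, hl, zero_smul, map_zero]
  obtain ⟨v, hv⟩ : ∃ v, v = gradient F y := ⟨_, rfl⟩
  have hv0 : 0 < fderiv ℝ F y v := by
    rw [hv]
    exact RayK_grad_pos hreg
  -- `l * dG v` is positive near `y`
  have hGv : Continuous fun z => l * fderiv ℝ G z v := by
    have h1 : Continuous (fderiv ℝ G) := hG.continuous_fderiv (by norm_num)
    exact continuous_const.mul (h1.clm_apply continuous_const)
  have hpos : 0 < l * fderiv ℝ G y v := by
    rw [hl]
    show 0 < l * (l * fderiv ℝ F y v)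
    rw [← mul_assoc]
    exact mul_pos (mul_self_pos.2 hl0) hv0
  obtain ⟨ρ, hρ, hρ'⟩ := Metric.eventually_nhds_iff.1 (hGv.continuousAt.eventually_const_lt hpos)
  -- the ends
  have ha := RayK_pos (hFd y) hy hv0
  have hb := RayK_neg (v := -v) (hFd y) hy (by rw [map_neg]; linarith)
  have hc : ∀ᶠ s in 𝓝[>] (0 : ℝ), s * ‖v‖ < ρ / 2 := by
    have h1 : Continuous fun s : ℝ => s * ‖v‖ := by fun_prop
    have h2 : (0 : ℝ) * ‖v‖ < ρ / 2 := by
      rw [zero_mul]
      linarith
    exact nhdsWithin_le_nhds (h1.continuousAt.eventually_lt_const h2)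
  obtain ⟨τ, h1, h2, h3, h4⟩ := (ha.and (hb.and (hc.and self_mem_nhdsWithin))).exists
  have h4' : 0 < τ := h4
  have e1 : ∀ᶠ z in 𝓝 y, 0 < F (z + τ • v) := by
    have : Continuous fun z : V => F (z + τ • v) := hF.continuous.comp (by fun_prop)
    exact this.continuousAt.eventually_const_lt h1
  have e2 : ∀ᶠ z in 𝓝 y, F (z + τ • -v) < 0 := by
    have : Continuous fun z : V => F (z + τ • -v) := hF.continuous.comp (by fun_prop)
    exact this.continuousAt.eventually_lt_const h2
  have e3 : ∀ᶠ z in 𝓝 y, dist z y < ρ / 2 := Metric.ball_mem_nhds y (by linarith)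
  filter_upwards [e1, e2, e3] with z f1 f2 f3 hGz
  have hball : ∀ t : ℝ, t ∈ Icc (-τ) τ → dist (z + t • v) y < ρ := by
    intro t ht
    have h5 : dist (z + t • v) z ≤ τ * ‖v‖ := by
      rw [dist_eq_norm, add_sub_cancel_left, norm_smul, Real.norm_eq_abs]
      exact mul_le_mul_of_nonneg_right (abs_le.2 ht) (norm_nonneg v)
    have h6 := dist_triangle (z + t • v) z y
    linarith
  have hline : ∀ t : ℝ, HasDerivAt (fun t : ℝ => z + t • v) v t := fun t => by
    simpa using ((hasDerivAt_id t).smul_const v).const_add z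
  have hGl : ∀ t : ℝ, HasDerivAt (fun t : ℝ => l * G (z + t • v))
      (l * fderiv ℝ G (z + t • v) v) t := fun t =>
    ((hGd _).hasFDerivAt.comp_hasDerivAt t (hline t)).const_mul l
  have hmono : StrictMonoOn (fun t : ℝ => l * G (z + t • v)) (Icc (-τ) τ) := by
    refine strictMonoOn_of_deriv_pos (convex_Icc _ _)
      (fun t _ => (hGl t).continuousAt.continuousWithinAt) fun t ht => ?_
    rw [(hGl t).deriv]
    exact hρ' (hball t (interior_subset ht))
  obtain ⟨t, ht, ht0⟩ := intermediate_value_Icc (by linarith : -τ ≤ τ)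
    (RayK_cont hF.continuous z v).continuousOn
    (show (0 : ℝ) ∈ Icc (F (z + (-τ) • v)) (F (z + τ • v)) from
      ⟨by rw [neg_smul, ← smul_neg]; exact f2.le, f1.le⟩)
  have ht0' : F (z + t • v) = 0 := ht0
  have h5 : t = 0 := by
    refine hmono.injOn ht ⟨by linarith, by linarith⟩ ?_
    show l * G (z + t • v) = l * G (z + (0 : ℝ) • v)
    rw [hFG _ ht0', zero_smul, add_zero, hGz]
  rw [h5, zero_smul, add_zero] at ht0'
  exact ht0'

/-- `G` does not vanish on a whole line which meets the hypersurface, if at the points of the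
hypersurface on this line its derivative is not zero. -/
theorem LineP_whole [CompleteSpace V] {F G : V → ℝ} (hF : ContDiff ℝ ∞ F)
    (hb : Bornology.IsBounded {x | F x ≤ 0}) (hreg : ∀ x, F x = 0 → gradient F x ≠ 0)
    (hG : ContDiff ℝ 1 G) (hFG : ∀ x, F x = 0 → G x = 0) {e : V} (he : e ≠ 0)
    (hne : ∀ x, F x = 0 → (∃ t : ℝ, G (x + t • e) ≠ 0) ∨ gradient G x ≠ 0) {x : V}
    (hx : F x = 0) : ∃ t : ℝ, G (x + t • e) ≠ 0 := by
  by_contra hcon
  push Not at hcon
  have hcont : Continuous fun t : ℝ => F (x + t • e) := RayK_cont hF.continuous x e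
  have hcl : IsClopen {t : ℝ | F (x + t • e) = 0} := by
    refine ⟨isClosed_eq hcont continuous_const, ?_⟩
    rw [isOpen_iff_mem_nhds]
    intro t ht
    have ht' : F (x + t • e) = 0 := ht
    rcases hne _ ht' with ⟨t', h1⟩ | h1
    · exfalso
      apply h1
      have h2 : x + t • e + t' • e = x + (t + t') • e := by module
      rw [h2]
      exact hcon _
    · have h2 := LineP_nonsing hF hG hFG ht' (hreg _ ht') h1
      have h3 : Tendsto (fun t : ℝ => x + t • e) (𝓝 t) (𝓝 (x + t • e)) :=
        Continuous.tendsto (by fun_prop) t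
      exact (h3.eventually h2).mono fun t' h4 => h4 (hcon t')
  rcases isClopen_iff.1 hcl with h | h
  · have h0 : (0 : ℝ) ∈ {t : ℝ | F (x + t • e) = 0} := by
      show F (x + (0 : ℝ) • e) = 0
      rw [zero_smul, add_zero]
      exact hx
    rw [h] at h0
    exact h0
  · obtain ⟨R, hR⟩ := RayK_far hb x he
    have h1 := hR (|R| + 1) (by
      rw [abs_of_pos (by positivity)]
      linarith [le_abs_self R])
    have h2 : (|R| + 1) ∈ {t : ℝ | F (x + t • e) = 0} := by
      rw [h]
      exact mem_univ _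
    have h3 : F (x + (|R| + 1) • e) = 0 := h2
    linarith

section poly

variable {n : ℕ}

theorem linePoly_degreeOf (P : MvPolynomial (Fin n) ℝ) (j : Fin n)
    (p : EuclideanSpace ℝ (Fin n)) :
    (linePoly P p (EuclideanSpace.single j 1)).natDegree ≤ P.degreeOf j := by
  rw [linePoly, MvPolynomial.aeval_def, MvPolynomial.eval₂_eq']
  refine natDegree_sum_le_of_forall_le _ _ fun m hm => ?_
  have h1 : m j ≤ P.degreeOf j := MvPolynomial.monomial_le_degreeOf j hm
  refine (natDegree_C_mul_le _ _).trans ((natDegree_prod_le _ _).trans ?_)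
  rw [Finset.sum_eq_single j]
  · refine (natDegree_pow_le).trans ?_
    have h2 : (C (p j) + C ((EuclideanSpace.single j (1 : ℝ)) j) * X : ℝ[X]).natDegree ≤ 1 := by
      compute_degree
    calc m j * _ ≤ m j * 1 := Nat.mul_le_mul_left _ h2
      _ ≤ P.degreeOf j := by rw [mul_one]; exact h1
  · intro i _ hij
    have h3 : (EuclideanSpace.single j (1 : ℝ)) i = 0 := by
      simp [hij]
    rw [h3, C_0, zero_mul, add_zero, ← C_pow, natDegree_C]
  · intro h
    exact absurd (Finset.mem_univ j) h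

/-- Hypersurfaces of degree at most three in one of the variables. -/
theorem lineNeg_of_degreeOf {F : EuclideanSpace ℝ (Fin n) → ℝ} (hF : ContDiff ℝ ∞ F)
    (hb : Bornology.IsBounded {x | F x ≤ 0}) (hreg : ∀ x, F x = 0 → gradient F x ≠ 0)
    {P : MvPolynomial (Fin n) ℝ} {j : Fin n} (hP : P.degreeOf j ≤ 3)
    (hFP : ∀ x, F x = 0 → MvPolynomial.eval (fun i => x i) P = 0)
    (hne : ∀ x, F x = 0 →
      (∃ t : ℝ, MvPolynomial.eval (fun i => (x + t • EuclideanSpace.single j (1 : ℝ)) i) P ≠ 0) ∨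
        gradient (fun y : EuclideanSpace ℝ (Fin n) => MvPolynomial.eval (fun i => y i) P) x ≠ 0) :
    LineNeg F (EuclideanSpace.single j 1) := by
  have he : (EuclideanSpace.single j (1 : ℝ) : EuclideanSpace ℝ (Fin n)) ≠ 0 := by
    intro h
    have h1 : ‖(EuclideanSpace.single j (1 : ℝ) : EuclideanSpace ℝ (Fin n))‖ = 1 := by simp
    rw [h, norm_zero] at h1
    norm_num at h1
  have hG : ContDiff ℝ 1 fun y : EuclideanSpace ℝ (Fin n) => MvPolynomial.eval (fun i => y i) P :=
    (polym_contDiff P).of_le (by norm_cast)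
  refine lineNeg_of_cubic hF hb hreg hG hFP he fun x hx =>
    ⟨linePoly P x (EuclideanSpace.single j 1), ?_, (linePoly_degreeOf P j x).trans hP,
      fun t => (linePoly_eval P x _ t).symm⟩
  obtain ⟨t, ht⟩ := LineP_whole hF hb hreg hG hFP he hne hx
  intro h0
  apply ht
  have h1 := linePoly_eval P x (EuclideanSpace.single j 1) t
  rw [h0, Polynomial.eval_zero] at h1
  exact h1.symm

end poly

/-- Hypersurfaces in the zero set of a function which is a polynomial of degree at most three on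
each line of one direction. -/
theorem cubic_ball [FiniteDimensional ℝ V] (hdim : Module.finrank ℝ V = 4)
    (hA : ∀ e : V, ‖e‖ = 1 → ∀ F : (ℝ ∙ e)ᗮ → ℝ, Dom F → IsPreconnected {x | 0 < F x} → IsBall F)
    (F : V → ℝ) (hF : ContDiff ℝ ∞ F) (hb : Bornology.IsBounded {x | F x ≤ 0})
    (hreg : ∀ x, F x = 0 → gradient F x ≠ 0)
    (hMc : IsConnected {x | F x = 0}) (hMl : LiftS {x | F x = 0}) (e : V) (he : ‖e‖ = 1)
    (G : V → ℝ) (hG : ContDiff ℝ 1 G) (hFG : ∀ x, F x = 0 → G x = 0)
    (hq : ∀ x, F x = 0 → ∃ q : ℝ[X], q ≠ 0 ∧ q.natDegree ≤ 3 ∧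
      ∀ t : ℝ, G (x + t • e) = q.eval t) : IsBall F :=
  line_ball hdim hA F hF hb hreg hMc hMl e he
    (lineNeg_of_cubic hF hb hreg hG hFG (by
      rintro rfl
      rw [norm_zero] at he
      norm_num at he) hq)

/-- Hypersurfaces of degree at most three in one of the four variables. -/
theorem degreeOf_ball
    (hA : ∀ e : EuclideanSpace ℝ (Fin 4), ‖e‖ = 1 → ∀ F : (ℝ ∙ e)ᗮ → ℝ, Dom F →
      IsPreconnected {x | 0 < F x} → IsBall F)
    (F : EuclideanSpace ℝ (Fin 4) → ℝ) (hF : ContDiff ℝ ∞ F)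
    (hb : Bornology.IsBounded {x | F x ≤ 0}) (hreg : ∀ x, F x = 0 → gradient F x ≠ 0)
    (hMc : IsConnected {x | F x = 0}) (hMl : LiftS {x | F x = 0})
    (P : MvPolynomial (Fin 4) ℝ) (j : Fin 4) (hP : P.degreeOf j ≤ 3)
    (hFP : ∀ x, F x = 0 → MvPolynomial.eval (fun i => x i) P = 0)
    (hne : ∀ x, F x = 0 →
      (∃ t : ℝ, MvPolynomial.eval (fun i => (x + t • EuclideanSpace.single j (1 : ℝ)) i) P ≠ 0) ∨
        gradient (fun y : EuclideanSpace ℝ (Fin 4) => MvPolynomial.eval (fun i => y i) P) x ≠ 0) :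
    IsBall F :=
  line_ball (by simp) hA F hF hb hreg hMc hMl (EuclideanSpace.single j 1) (by simp)
    (lineNeg_of_degreeOf hF hb hreg hP hFP hne)

end Pool.Schoen
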