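import Pool.Agent.H.MP_6c077c_gt.Hx.Defs
import Pool.Agent.H.MP_6c077c_gt.Hx.RayK

/-! Hexasecant theorem: the ray lemma for hypersurfaces without segments which no line crosses six
times. -/

set_option autoImplicit false

namespace Pool.Schoen

open Filter Set
open scoped Topology RealInnerProductSpace ContDiff

variable {V : Type*} [NormedAddCommGroup V] [InnerProductSpace ℝ V]

theorem lineFive_noSix {F : V → ℝ} (hF : Continuous F) (hb : Bornology.IsBounded {x | F x ≤ 0})
    (h : LineFive F) : NoSix F :=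
  RayK_six hF hb h

theorem lineFive_noSeg {F : V → ℝ} (h : LineFive F) : NoSeg F := by
  intro p d hd
  by_contra hc
  push Not at hc
  have hfin : {t : ℝ | F (p + t • d) = 0}.Finite :=
    finite_of_encard_le_coe (k := 5) (by exact_mod_cast h p d hd)
  exact (Icc_infinite (zero_lt_one (α := ℝ))) (hfin.subset fun z hz => hc z hz)

/-- No segment: between two parameters there is a point off the hypersurface. -/
theorem NoSeg.between {F : V → ℝ} (h : NoSeg F) {p d : V} (hd : d ≠ 0) {a b : ℝ} (hab : a < b) :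
    ∃ m, a < m ∧ m < b ∧ F (p + m • d) ≠ 0 := by
  have hc : (b - a) / 3 ≠ 0 := by
    have : 0 < (b - a) / 3 := by linarith
    exact this.ne'
  obtain ⟨t, ht, h1⟩ := h (p + (a + (b - a) / 3) • d) (((b - a) / 3) • d) (smul_ne_zero hc hd)
  refine ⟨a + (b - a) / 3 + t * ((b - a) / 3), ?_, ?_, ?_⟩
  · nlinarith [ht.1]
  · nlinarith [ht.2]
  · have h2 : p + (a + (b - a) / 3 + t * ((b - a) / 3)) • d =
        p + (a + (b - a) / 3) • d + t • ((b - a) / 3) • d := by module
    rw [h2]
    exact h1

variable [CompleteSpace V]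

/-- The ray lemma from `NoSix` and `NoSeg`. -/
theorem hx_ray_n {F : V → ℝ} (hF : ContDiff ℝ ∞ F) (hreg : ∀ x, F x = 0 → gradient F x ≠ 0)
    (h6 : NoSix F) (hseg : NoSeg F) {p d : V} (hp : 0 < F p)
    (hneg : ∃ t : ℝ, t < 0 ∧ F (p + t • d) < 0) {s r t : ℝ} (hs : 0 < s)
    (hsr : s < r) (hrt : r < t) (es : F (p + s • d) ≤ 0) (et : F (p + t • d) ≤ 0) :
    F (p + r • d) < 0 := by
  have hd : d ≠ 0 := by
    rintro rfl
    rw [smul_zero, add_zero] at es
    exact absurd es (not_le.2 hp)
  exact hx_ray_seg hF hreg h6 (fun a b hab => hseg.between hd hab) hp hneg hs hsr hrt es et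

end Pool.Schoen
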