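import Pool.Agent.H.MP_6c077c_gt.Hx.Defs
import Pool.Agent.H.MP_6c077c_gt.Hx.RayN

/-! Hexasecant theorem: the body trimmed by a big ball is radial with respect to a point just below
the highest inward point. -/

set_option autoImplicit false

namespace Pool.Schoen

open Filter Set
open scoped Topology RealInnerProductSpace ContDiff

variable {V : Type*} [NormedAddCommGroup V] [InnerProductSpace ℝ V]

/-- Small positive parameters. -/
private theorem ev_lt (φ : ℝ → ℝ) (a : ℝ) (hφ : Continuous φ) (h : φ 0 < a) :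
    ∀ᶠ r in 𝓝[>] (0 : ℝ), φ r < a :=
  (hφ.continuousAt.eventually_lt continuousAt_const h).filter_mono nhdsWithin_le_nhds

/-- A quadratic polynomial with positive leading coefficient. -/
theorem hx_quad {κ b c s r t : ℝ} (hκ : 0 < κ) (hsr : s < r) (hrt : r < t)
    (hs : κ * s ^ 2 + b * s + c ≤ 0) (ht : κ * t ^ 2 + b * t + c ≤ 0) :
    κ * r ^ 2 + b * r + c < 0 := by
  have h1 : (κ * r ^ 2 + b * r + c) * (t - s) = (κ * s ^ 2 + b * s + c) * (t - r) +
      (κ * t ^ 2 + b * t + c) * (r - s) - κ * ((t - s) * ((r - s) * (t - r))) := by ring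
  have h2 : 0 < t - s := by linarith
  have h3 : 0 < r - s := by linarith
  have h4 : 0 < t - r := by linarith
  have h5 : 0 < κ * ((t - s) * ((r - s) * (t - r))) := by positivity
  have h6 : (κ * s ^ 2 + b * s + c) * (t - r) ≤ 0 := mul_nonpos_of_nonpos_of_nonneg hs h4.le
  have h7 : (κ * t ^ 2 + b * t + c) * (r - s) ≤ 0 := mul_nonpos_of_nonpos_of_nonneg ht h3.le
  have h8 : (κ * r ^ 2 + b * r + c) * (t - s) < 0 := by linarith
  by_contra hc
  push Not at hc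
  exact absurd h8 (not_lt.2 (mul_nonneg hc h2.le))

/-- The trichotomy on a short interval: `G` with second derivative close to a constant, `G 0`
positive compared with the third powers. -/
theorem hx_tri {G G1 G2 : ℝ → ℝ} {ρ M q m s r t : ℝ} (hG : ∀ u, HasDerivAt G (G1 u) u)
    (hG1 : ∀ u, HasDerivAt G1 (G2 u) u) (hρ : 0 < ρ) (hM : 0 ≤ M)
    (hq : ∀ u ∈ Icc (0 : ℝ) ρ, |G2 u - q| ≤ M) (hm : 0 < m) (hG0 : m ≤ G 0)
    (hmM : 2 * M * ρ ^ 2 < m) (hs : 0 < s) (hsr : s < r) (hrt : r < t) (htρ : t ≤ ρ)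
    (hGs : G s ≤ 0) (hGt : G t ≤ 0) : G r < 0 := by
  have hGc : Continuous G := continuous_iff_continuousAt.2 fun u => (hG u).continuousAt
  have hG1c : Continuous G1 := continuous_iff_continuousAt.2 fun u => (hG1 u).continuousAt
  -- slopes
  obtain ⟨x1, hx1, hx1'⟩ := exists_hasDerivAt_eq_slope G G1 hsr hGc.continuousOn
    fun u _ => hG u
  obtain ⟨x2, hx2, hx2'⟩ := exists_hasDerivAt_eq_slope G G1 hrt hGc.continuousOn
    fun u _ => hG u
  obtain ⟨x0, hx0, hx0'⟩ := exists_hasDerivAt_eq_slope G G1 hs hGc.continuousOn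
    fun u _ => hG u
  rw [eq_div_iff (by linarith)] at hx1' hx2' hx0'
  have hsp : s ≤ ρ := by linarith
  rcases lt_or_ge M q with hc | hc
  · -- convex case
    obtain ⟨y, hy, hy'⟩ := exists_hasDerivAt_eq_slope G1 G2 (hx1.2.trans hx2.1) hG1c.continuousOn
      fun u _ => hG1 u
    have h1 := hq y ⟨by linarith [hy.1, hx1.1], by linarith [hy.2, hx2.2]⟩
    rw [abs_le] at h1
    have h2 : 0 < G2 y := by linarith [h1.1]
    rw [hy'] at h2
    have h3 : 0 < x2 - x1 := by linarith [hx1.2, hx2.1]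
    have h4 : G1 x1 < G1 x2 := by
      have := (div_pos_iff_of_pos_right h3).1 h2
      linarith
    by_contra hr
    push Not at hr
    have h5 : 0 ≤ G1 x1 := by
      by_contra h6
      push Not at h6
      have : G1 x1 * (r - s) < 0 := mul_neg_of_neg_of_pos h6 (by linarith)
      linarith
    have h6 : 0 < G1 x2 * (t - r) := mul_pos (by linarith) (by linarith)
    linarith
  · -- the slope at `x1` is negative
    have h0 : G1 x0 * s ≤ -m := by
      have : s - 0 = s := sub_zero s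
      rw [this] at hx0'
      linarith
    have h00 : G1 x0 < 0 := by
      by_contra h
      push Not at h
      have : 0 ≤ G1 x0 * s := mul_nonneg h hs.le
      linarith
    have h01 : x0 < x1 := hx0.2.trans hx1.1
    have h1 : G1 x1 < 0 := by
      obtain ⟨y, hy, hy'⟩ := exists_hasDerivAt_eq_slope G1 G2 h01 hG1c.continuousOn
        fun u _ => hG1 u
      have h2 := hq y ⟨by linarith [hy.1, hx0.1], by linarith [hy.2, hx1.2]⟩
      rw [abs_le] at h2
      have h3 : G2 y ≤ 2 * M := by linarith [h2.2]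
      rw [eq_div_iff (by linarith)] at hy'
      -- `G1 x1 = G1 x0 + G2 y * (x1 - x0)`
      have h4 : G2 y * (x1 - x0) ≤ 2 * M * ρ := by
        have h5 : x1 - x0 ≤ ρ := by linarith [hx1.2, hx0.1]
        have h6 : 0 ≤ x1 - x0 := by linarith
        calc G2 y * (x1 - x0) ≤ 2 * M * (x1 - x0) := mul_le_mul_of_nonneg_right h3 h6
          _ ≤ 2 * M * ρ := mul_le_mul_of_nonneg_left h5 (by linarith)
      have h7 : G1 x0 * ρ ≤ -m := by
        have : G1 x0 * ρ ≤ G1 x0 * s := mul_le_mul_of_nonpos_left hsp h00.le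
        linarith
      have h8 : G1 x1 * ρ < 0 := by
        have : G1 x1 * ρ = G1 x0 * ρ + G2 y * (x1 - x0) * ρ := by rw [hy']; ring
        have h9 : G2 y * (x1 - x0) * ρ ≤ 2 * M * ρ * ρ := mul_le_mul_of_nonneg_right h4 hρ.le
        nlinarith
      by_contra h
      push Not at h
      exact absurd h8 (not_lt.2 (mul_nonneg h hρ.le))
    have h2 : G1 x1 * (r - s) < 0 := mul_neg_of_neg_of_pos h1 (by linarith)
    linarith

/-- Taylor estimates at `x`. -/
theorem hx_taylor {F : V → ℝ} (hF : ContDiff ℝ ∞ F) (x : V) : ∃ r B L : ℝ, 0 < r ∧ 0 < B ∧ 0 ≤ L ∧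
    (∀ w : V, ‖w‖ < r → |F (x + w) - F x - fderiv ℝ F x w| ≤ B * ‖w‖ ^ 2) ∧
    ∀ w : V, ‖w‖ < r → ∀ v : V, ‖v‖ = 1 →
      |fderiv ℝ (fderiv ℝ F) (x + w) v v - fderiv ℝ (fderiv ℝ F) x v v| ≤ L * ‖w‖ := by
  have h1 : ContDiff ℝ ∞ (fderiv ℝ F) := hF.fderiv_right (m := ∞) (by norm_cast)
  have h2 : ContDiff ℝ ∞ (fderiv ℝ (fderiv ℝ F)) := h1.fderiv_right (m := ∞) (by norm_cast)
  obtain ⟨K1, t1, ht1, hK1⟩ := (h1.of_le (m := 1) (by norm_cast)).contDiffAt.exists_lipschitzOnWith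
    (x := x)
  obtain ⟨K2, t2, ht2, hK2⟩ := (h2.of_le (m := 1) (by norm_cast)).contDiffAt.exists_lipschitzOnWith
    (x := x)
  obtain ⟨r, hr, hrt⟩ := Metric.mem_nhds_iff.1 (inter_mem ht1 ht2)
  refine ⟨r, K1 + 1, K2, hr, by positivity, K2.2, fun w hw => ?_, fun w hw v hv => ?_⟩
  · have hsub : Metric.closedBall x ‖w‖ ⊆ t1 := fun y hy =>
      (hrt (Metric.mem_ball.2 (lt_of_le_of_lt (Metric.mem_closedBall.1 hy) hw))).1
    have h3 := (convex_closedBall x ‖w‖).norm_image_sub_le_of_norm_hasFDerivWithin_le'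
      (f := F) (f' := fderiv ℝ F) (φ := fderiv ℝ F x) (C := K1 * ‖w‖) (x := x) (y := x + w)
      (fun y _ => ((hF.differentiable (by simp)) y).hasFDerivAt.hasFDerivWithinAt)
      (fun y hy => by
        have h4 := hK1.norm_sub_le (hsub hy) (hsub (Metric.mem_closedBall_self (norm_nonneg w)))
        refine h4.trans (mul_le_mul_of_nonneg_left ?_ K1.2)
        simpa [dist_eq_norm] using Metric.mem_closedBall.1 hy)
      (Metric.mem_closedBall_self (norm_nonneg w))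
      (by simp [Metric.mem_closedBall, dist_eq_norm])
    rw [add_sub_cancel_left, Real.norm_eq_abs] at h3
    nlinarith [sq_nonneg ‖w‖]
  · have h3 : x + w ∈ t2 := (hrt (by simpa [Metric.mem_ball, dist_eq_norm] using hw)).2
    have h4 : x ∈ t2 := (hrt (Metric.mem_ball_self hr)).2
    have h5 := hK2.norm_sub_le h3 h4
    rw [add_sub_cancel_left] at h5
    have h6 : fderiv ℝ (fderiv ℝ F) (x + w) v v - fderiv ℝ (fderiv ℝ F) x v v =
        (fderiv ℝ (fderiv ℝ F) (x + w) - fderiv ℝ (fderiv ℝ F) x) v v := by simp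
    rw [h6, ← Real.norm_eq_abs]
    calc ‖(fderiv ℝ (fderiv ℝ F) (x + w) - fderiv ℝ (fderiv ℝ F) x) v v‖
        ≤ ‖(fderiv ℝ (fderiv ℝ F) (x + w) - fderiv ℝ (fderiv ℝ F) x) v‖ * ‖v‖ :=
          ContinuousLinearMap.le_opNorm _ _
      _ ≤ ‖fderiv ℝ (fderiv ℝ F) (x + w) - fderiv ℝ (fderiv ℝ F) x‖ * ‖v‖ * ‖v‖ :=
          mul_le_mul_of_nonneg_right (ContinuousLinearMap.le_opNorm _ _) (norm_nonneg _)
      _ ≤ K2 * ‖w‖ := by rw [hv, mul_one, mul_one]; exact h5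

/-- The derivatives of `F` along a line. -/
theorem hx_line {F : V → ℝ} (hF : ContDiff ℝ ∞ F) (o v : V) :
    (∀ u : ℝ, HasDerivAt (fun s : ℝ => F (o + s • v)) (fderiv ℝ F (o + u • v) v) u) ∧
    ∀ u : ℝ, HasDerivAt (fun s : ℝ => fderiv ℝ F (o + s • v) v)
      (fderiv ℝ (fderiv ℝ F) (o + u • v) v v) u := by
  have h1 : ContDiff ℝ ∞ (fderiv ℝ F) := hF.fderiv_right (m := ∞) (by norm_cast)
  have hl : ∀ u : ℝ, HasDerivAt (fun s : ℝ => o + s • v) v u := fun u => by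
    simpa using ((hasDerivAt_id u).smul_const v).const_add o
  constructor
  · intro u
    exact ((hF.differentiable (by simp)) (o + u • v)).hasFDerivAt.comp_hasDerivAt u (hl u)
  · intro u
    have h2 := ((h1.differentiable (by simp)) (o + u • v)).hasFDerivAt.comp_hasDerivAt u (hl u)
    have h3 := HasDerivAt.clm_apply (c := fun s : ℝ => fderiv ℝ F (o + s • v)) h2
      (hasDerivAt_const u v)
    simpa using h3

/-- Numerical estimate on the opposite ray. -/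
theorem hx_far {l κ ρ B c τ a X β : ℝ} (hl : 0 < l) (hκ : 0 < κ) (hρ0 : 0 < ρ) (hB : 0 < B)
    (hc0 : 0 < c) (hτ : τ = c * ρ ^ 2) (hρ2 : 16 * B * τ < l) (hc2 : 128 * B * c < l * κ ^ 2)
    (hβ : β ≤ 2 * τ) (hc : a < -(κ * ρ / 2))
    (h10 : X + l * (-(l * κ * ρ / (8 * B)) * a - β) ≤ B * (l * κ * ρ / (8 * B) + 2 * τ) ^ 2) :
    X < 0 := by
  have h8 : 0 < l * κ * ρ / (8 * B) := by positivity
  have hτ0 : 0 < τ := by rw [hτ]; positivity
  set σ : ℝ := l * κ * ρ / (8 * B) with hσ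
  have h2 : B * σ = l * κ * ρ / 8 := by rw [hσ]; field_simp
  have h3 : (σ + 2 * τ) ^ 2 ≤ 2 * σ ^ 2 + 8 * τ ^ 2 := by nlinarith [sq_nonneg (σ - 2 * τ)]
  have h4 : B * (σ + 2 * τ) ^ 2 ≤ 2 * (B * σ) * σ + 8 * (B * τ) * τ := by
    have := mul_le_mul_of_nonneg_left h3 hB.le
    linarith
  have h5 : l * (σ * a) < -(l * σ * (κ * ρ / 2)) := by
    have h51 : 0 < l * σ := by positivity
    have h52 := mul_lt_mul_of_pos_left hc h51
    linarith
  have h6 : 16 * (B * τ) * τ ≤ l * τ := by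
    have := mul_le_mul_of_nonneg_right hρ2.le hτ0.le
    linarith
  have h61 : l * β ≤ 2 * (l * τ) := by
    have := mul_le_mul_of_nonneg_left hβ hl.le
    linarith
  have h7 : 5 / 2 * (l * τ) < l * σ * (κ * ρ / 4) := by
    have h9 : l * σ * (κ * ρ / 4) * (32 * B) = l * (l * κ ^ 2) * ρ ^ 2 := by
      rw [hσ]; field_simp; ring
    have h12 : 0 < ρ ^ 2 := by positivity
    have h13 : 80 * B * c < l * κ ^ 2 := by
      have := mul_pos hB hc0
      linarith
    have h10 : 5 / 2 * (l * τ) * (32 * B) < l * (l * κ ^ 2) * ρ ^ 2 := by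
      have h11 : 5 / 2 * (l * τ) * (32 * B) = l * (80 * B * c) * ρ ^ 2 := by rw [hτ]; ring
      rw [h11]
      exact mul_lt_mul_of_pos_right (mul_lt_mul_of_pos_left h13 hl) h12
    have h14 : 0 < 32 * B := by positivity
    exact lt_of_mul_lt_mul_right (by rw [h9]; exact h10) h14.le
  have h9 : 2 * (B * σ) * σ = l * σ * (κ * ρ / 4) := by rw [h2]; ring
  have h11 : l * (-σ * a - β) = -(l * (σ * a)) - l * β := by ring
  rw [h11] at h10
  linarith

/-- In the directions which do not point downwards the ball is short. -/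
theorem hx_close {κ ρ c τ b C u : ℝ} (hκ : 0 < κ) (hρ0 : 0 < ρ)
    (hτ : τ = c * ρ ^ 2) (hc1 : 16 * c < κ) (hρ3 : 16 * τ < ρ)
    (hb : -(κ * ρ / 2) - 4 * κ * τ ≤ b) (hC : -(3 * τ) ≤ C) (hu : 0 < u)
    (h1 : κ * u ^ 2 + b * u + C ≤ 0) : u ≤ ρ := by
  by_contra h2
  push Not at h2
  have h3 : -(3 / 4 * (κ * ρ)) ≤ b := by
    have := mul_lt_mul_of_pos_left hρ3 hκ
    linarith
  have h31 : -(3 / 4 * (κ * ρ)) * u ≤ b * u := mul_le_mul_of_nonneg_right h3 hu.le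
  have h4 : κ * ρ * u < κ * u ^ 2 := by
    have := mul_pos (mul_pos hκ hu) (sub_pos.2 h2)
    nlinarith
  have h5 : κ * ρ * ρ < κ * ρ * u := mul_lt_mul_of_pos_left h2 (by positivity)
  have h6 : 3 * τ < κ * ρ * ρ / 4 := by
    rw [hτ]
    have h7 : 0 < ρ ^ 2 := by positivity
    have h8 := mul_lt_mul_of_pos_right hc1 h7
    have h9 : κ * ρ * ρ / 4 = κ * ρ ^ 2 / 4 := by ring
    rw [h9]
    have h10 : 0 < κ * ρ ^ 2 := by positivity
    linarith
  linarith

/-- The trimming function on a ray. -/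
theorem trimf_ray (e x o v : V) (κ u : ℝ) : trimf e x κ (o + u • v) =
    κ * ‖v‖ ^ 2 * u ^ 2 + (⟪e, v⟫ + 2 * κ * ⟪o - x, v⟫) * u +
      (⟪e, o - x⟫ + κ * ‖o - x‖ ^ 2) := by
  have h1 : o + u • v - x = (o - x) + u • v := by abel
  rw [trimf, h1, inner_add_right, norm_add_sq_real, norm_smul, inner_smul_right, inner_smul_right,
    mul_pow, Real.norm_eq_abs, sq_abs]
  ring

/-- Trimming preserves the ray property. -/
theorem rayNeg_trim {F : V → ℝ} {e x o v : V} {κ ε : ℝ} (hκ : 0 < κ) (hv : v ≠ 0)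
    (h : RayNeg F o v) : RayNeg (fun y => max (F y) (trimf e x κ y - ε)) o v := by
  intro s r t hs hsr hrt h1 h2
  have h3 : 0 < κ * ‖v‖ ^ 2 := by
    have := norm_pos_iff.2 hv
    positivity
  have h4 : trimf e x κ (o + s • v) - ε ≤ 0 := (le_max_right _ _).trans h1
  have h5 : trimf e x κ (o + t • v) - ε ≤ 0 := (le_max_right _ _).trans h2
  rw [trimf_ray] at h4 h5
  refine max_lt (h s r t hs hsr hrt ((le_max_left _ _).trans h1) ((le_max_left _ _).trans h2)) ?_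
  show trimf e x κ (o + r • v) - ε < 0
  rw [trimf_ray, add_sub_assoc]
  rw [add_sub_assoc] at h4 h5
  exact hx_quad h3 hsr hrt h4 h5

/-- The dichotomy for rays in the direction of unit vectors, from the points `o` of an open set just
below the inward point `x`: the opposite ray meets the open body, or the body trimmed by the big
ball has the ray property. -/
theorem hx_local_unit {F : V → ℝ} (hF : ContDiff ℝ ∞ F) {e x : V} (he : ‖e‖ = 1) {l : ℝ}
    (hl : 0 < l) (hx : F x = 0) (hgrad : ∀ w, fderiv ℝ F x w = -(l * ⟪e, w⟫)) {κ : ℝ}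
    (hκ : 0 < κ) {R : ℝ} (hR : 0 < R) :
    ∃ ε τ : ℝ, 0 < ε ∧ 0 < τ ∧ ∀ o : V, ‖o - x‖ < 2 * τ → ⟪e, o - x⟫ < -(τ / 2) →
      0 < F o ∧ ∀ v : V, ‖v‖ = 1 →
        (∃ t : ℝ, t < 0 ∧ F (o + t • v) < 0 ∧ ∀ t' ∈ Icc t 0, ‖o + t' • v - x‖ < R) ∨
        RayNeg (fun y => max (F y) (trimf e x κ y - ε)) o v := by
  obtain ⟨r1, B, L, hr1, hB, hL, hT1', hT2'⟩ := hx_taylor hF x
  obtain ⟨r0, hr0, hr01, hr0R⟩ : ∃ r0 : ℝ, 0 < r0 ∧ r0 ≤ r1 ∧ r0 ≤ R :=
    ⟨min r1 R, lt_min hr1 hR, min_le_left _ _, min_le_right _ _⟩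
  have hT1 : ∀ w : V, ‖w‖ < r0 → |F (x + w) - F x - fderiv ℝ F x w| ≤ B * ‖w‖ ^ 2 :=
    fun w hw => hT1' w (hw.trans_le hr01)
  have hT2 : ∀ w : V, ‖w‖ < r0 → ∀ v : V, ‖v‖ = 1 →
      |fderiv ℝ (fderiv ℝ F) (x + w) v v - fderiv ℝ (fderiv ℝ F) x v v| ≤ L * ‖w‖ :=
    fun w hw => hT2' w (hw.trans_le hr01)
  -- the constant `c`
  obtain ⟨c, hc0, hc1, hc2⟩ : ∃ c : ℝ, 0 < c ∧ 16 * c < κ ∧ 128 * B * c < l * κ ^ 2 := by
    have h1 : ∀ᶠ r in 𝓝[>] (0 : ℝ), 16 * r < κ := ev_lt _ _ (by fun_prop) (by simpa using hκ)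
    have h2 : ∀ᶠ r in 𝓝[>] (0 : ℝ), 128 * B * r < l * κ ^ 2 :=
      ev_lt _ _ (by fun_prop) (by rw [mul_zero]; positivity)
    obtain ⟨c, hc⟩ := ((h1.and h2).and self_mem_nhdsWithin).exists
    exact ⟨c, hc.2, hc.1.1, hc.1.2⟩
  -- the radius `ρ`
  obtain ⟨ρ, hρ0, hρ1, hρ2, hρ4, hρ5, hρ6⟩ : ∃ ρ : ℝ, 0 < ρ ∧ 16 * (c * ρ ^ 2) < ρ ∧
      16 * B * (c * ρ ^ 2) < l ∧ 2 * ρ < r0 ∧ l * κ * ρ / (8 * B) + ρ < r0 ∧
      16 * L * ρ < l * c := by
    have h1 : ∀ᶠ r in 𝓝[>] (0 : ℝ), 16 * c * r < 1 := ev_lt _ _ (by fun_prop) (by simp)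
    have h2 : ∀ᶠ r in 𝓝[>] (0 : ℝ), 16 * B * (c * r ^ 2) < l :=
      ev_lt _ _ (by fun_prop) (by simpa using hl)
    have h4 : ∀ᶠ r in 𝓝[>] (0 : ℝ), 2 * r < r0 := ev_lt _ _ (by fun_prop) (by simpa using hr0)
    have h5 : ∀ᶠ r in 𝓝[>] (0 : ℝ), l * κ * r / (8 * B) + r < r0 :=
      ev_lt _ _ (by fun_prop) (by simpa using hr0)
    have h6 : ∀ᶠ r in 𝓝[>] (0 : ℝ), 16 * L * r < l * c :=
      ev_lt _ _ (by fun_prop) (by rw [mul_zero]; positivity)
    obtain ⟨ρ, hρ⟩ := ((h1.and (h2.and (h4.and (h5.and h6)))).and self_mem_nhdsWithin).exists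
    obtain ⟨⟨a1, a2, a4, a5, a6⟩, a7⟩ := hρ
    have a8 : (0 : ℝ) < ρ := a7
    refine ⟨ρ, a8, ?_, a2, a4, a5, a6⟩
    have := mul_lt_mul_of_pos_right a1 a8
    linarith
  set τ : ℝ := c * ρ ^ 2 with hτ
  have hτ0 : 0 < τ := by positivity
  refine ⟨τ, τ, hτ0, hτ0, fun o ho1 ho2 => ?_⟩
  set w0 : V := o - x with hw0
  have hox : ∀ w : V, o + w = x + (w0 + w) := fun w => by rw [hw0]; abel
  have hnw : ∀ (s : ℝ) (v : V), ‖v‖ = 1 → ‖w0 + s • v‖ ≤ |s| + 2 * τ := fun s v hv => by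
    calc ‖w0 + s • v‖ ≤ ‖w0‖ + ‖s • v‖ := norm_add_le _ _
      _ = ‖w0‖ + |s| := by rw [norm_smul, hv, mul_one, Real.norm_eq_abs]
      _ ≤ |s| + 2 * τ := by linarith
  have hβ0 : |⟪e, w0⟫| ≤ ‖w0‖ := by
    have := abs_real_inner_le_norm e w0
    rwa [he, one_mul] at this
  have hβ1 : -⟪e, w0⟫ ≤ 2 * τ := by linarith [(abs_le.1 hβ0).1]
  -- values of `F`
  have hval : ∀ (s : ℝ) (v : V), ‖v‖ = 1 → |s| + 2 * τ < r0 →
      |F (o + s • v) + l * (s * ⟪e, v⟫ - -⟪e, w0⟫)| ≤ B * (|s| + 2 * τ) ^ 2 := fun s v hv hs => by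
    have h1 := hT1 (w0 + s • v) (lt_of_le_of_lt (hnw s v hv) hs)
    rw [← hox, hx, sub_zero, hgrad, inner_add_right, inner_smul_right, sub_neg_eq_add] at h1
    have h2 : l * (s * ⟪e, v⟫ - -⟪e, w0⟫) = l * (⟪e, w0⟫ + s * ⟪e, v⟫) := by ring
    rw [h2]
    refine h1.trans (mul_le_mul_of_nonneg_left ?_ hB.le)
    exact pow_le_pow_left₀ (norm_nonneg _) (hnw s v hv) 2
  have hFo : l * τ / 4 ≤ F o := by
    have h1 := hval 0 e he (by rw [abs_zero]; linarith)
    rw [zero_smul, add_zero, zero_mul, abs_zero, zero_add, abs_le] at h1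
    have h2 : B * (2 * τ) ^ 2 ≤ l * τ / 4 := by
      have h3 := mul_le_mul_of_nonneg_right hρ2.le hτ0.le
      have h4 : B * (2 * τ) ^ 2 = 16 * B * τ * τ / 4 := by ring
      rw [h4]
      linarith
    have h3 : l * (τ / 2) ≤ l * -⟪e, w0⟫ := mul_le_mul_of_nonneg_left (by linarith) hl.le
    linarith [h1.1]
  have hFo0 : 0 < F o := lt_of_lt_of_le (by positivity) hFo
  refine ⟨hFo0, fun v hv => ?_⟩
  set a : ℝ := ⟪e, v⟫ with ha
  have hv0 : v ≠ 0 := by
    rintro rfl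
    simp at hv
  rcases lt_or_ge a (-(κ * ρ / 2)) with hc | hc
  · -- the opposite ray meets the interior
    have h8 : 0 < l * κ * ρ / (8 * B) := by positivity
    refine Or.inl ⟨-(l * κ * ρ / (8 * B)), by linarith, ?_, fun t' ht' => ?_⟩
    swap
    · have h2 : o + t' • v - x = w0 + t' • v := by rw [hw0]; abel
      rw [h2]
      refine (hnw t' v hv).trans_lt ?_
      rw [abs_of_nonpos ht'.2]
      linarith [ht'.1]
    have h1 := hval (-(l * κ * ρ / (8 * B))) v hv (by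
      rw [abs_neg, abs_of_pos h8]
      linarith)
    rw [abs_neg, abs_of_pos h8, abs_le] at h1
    exact hx_far hl hκ hρ0 hB hc0 hτ hρ2 hc2 hβ1 hc h1.2
  · -- the ray stays near `x`
    refine Or.inr fun s r t hs hsr hrt h1 h2 => ?_
    have hFs : F (o + s • v) ≤ 0 := (le_max_left _ _).trans h1
    have hFt : F (o + t • v) ≤ 0 := (le_max_left _ _).trans h2
    have hhs : trimf e x κ (o + s • v) - τ ≤ 0 := (le_max_right _ _).trans h1
    have hht : trimf e x κ (o + t • v) - τ ≤ 0 := (le_max_right _ _).trans h2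
    rw [trimf_ray, add_sub_assoc, hv, one_pow, mul_one] at hhs hht
    refine max_lt ?_ ?_
    · have htρ : t ≤ ρ := by
        refine hx_close hκ hρ0 hτ hc1 hρ1 ?_ ?_ (by linarith) hht
        · have h3 : |⟪w0, v⟫| ≤ ‖w0‖ := by
            have := abs_real_inner_le_norm w0 v
            rwa [hv, mul_one] at this
          have h4 : -(2 * τ) ≤ ⟪w0, v⟫ := by linarith [(abs_le.1 h3).1]
          have h5 := mul_le_mul_of_nonneg_left h4 (by positivity : 0 ≤ 2 * κ)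
          linarith
        · have h3 : 0 ≤ κ * ‖w0‖ ^ 2 := by positivity
          linarith
      obtain ⟨hG, hG1⟩ := hx_line hF o v
      refine hx_tri hG hG1 (ρ := ρ) (M := 2 * L * ρ) (q := fderiv ℝ (fderiv ℝ F) x v v)
        (m := l * τ / 4) hρ0 (by positivity) (fun u hu => ?_) (by positivity) ?_ ?_ hs hsr hrt htρ
        hFs hFt
      · have hn : ‖w0 + u • v‖ ≤ 2 * ρ := by
          refine (hnw u v hv).trans ?_
          rw [abs_of_nonneg hu.1]
          linarith [hu.2]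
        have h3 := hT2 (w0 + u • v) (lt_of_le_of_lt hn hρ4) v hv
        rw [← hox] at h3
        refine h3.trans ?_
        calc L * ‖w0 + u • v‖ ≤ L * (2 * ρ) := mul_le_mul_of_nonneg_left hn hL
          _ = 2 * L * ρ := by ring
      · simpa using hFo
      · have h3 : 2 * (2 * L * ρ) * ρ ^ 2 = (16 * L * ρ) * ρ ^ 2 / 4 := by ring
        have h4 : (16 * L * ρ) * ρ ^ 2 < l * c * ρ ^ 2 :=
          mul_lt_mul_of_pos_right hρ6 (by positivity)
        rw [h3, hτ]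
        linarith
    · show trimf e x κ (o + r • v) - τ < 0
      rw [trimf_ray, add_sub_assoc, hv, one_pow, mul_one]
      exact hx_quad hκ hsr hrt hhs hht

/-- The ray property only depends on the ray. -/
theorem rayNeg_scale {k : V → ℝ} {o v : V} {c : ℝ} (hc : 0 < c) (h : RayNeg k o (c⁻¹ • v)) :
    RayNeg k o v := by
  intro s r t hs hsr hrt h1 h2
  have hs' : ∀ u : ℝ, u • v = (u * c) • (c⁻¹ • v) := fun u => by
    rw [smul_smul, mul_assoc, mul_inv_cancel₀ hc.ne', mul_one]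
  rw [hs' s] at h1
  rw [hs' t] at h2
  rw [hs' r]
  exact h (s * c) (r * c) (t * c) (mul_pos hs hc) (mul_lt_mul_of_pos_right hsr hc)
    (mul_lt_mul_of_pos_right hrt hc) h1 h2

/-- The dichotomy for rays from the points `o` of an open set just below the inward point `x`: the
opposite ray meets the open body near `x`, or the body trimmed by the big ball has the ray property.
The rays with `⟪e, v⟫ < -κρ/2` are of the first kind, the other ones are treated by the trichotomy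
convex / concave / small second derivative. -/
theorem hx_local_near [FiniteDimensional ℝ V] (F : V → ℝ) (hF : ContDiff ℝ ∞ F) (e x : V)
    (he : ‖e‖ = 1) (hx : Inward F e x) (κ : ℝ) (hκ : 0 < κ) (R : ℝ) (hR : 0 < R) :
    ∃ ε τ : ℝ, 0 < ε ∧ 0 < τ ∧ ∀ o : V, ‖o - x‖ < 2 * τ → ⟪e, o - x⟫ < -(τ / 2) →
      0 < F o ∧ ∀ v : V,
        (∃ t : ℝ, t < 0 ∧ F (o + t • v) < 0 ∧ ∀ t' ∈ Icc t 0, ‖o + t' • v - x‖ < R) ∨
        RayNeg (fun y => max (F y) (trimf e x κ y - ε)) o v := by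
  obtain ⟨hx0, l, hl, hgr⟩ := hx
  have hgrad : ∀ w, fderiv ℝ F x w = -(l * ⟪e, w⟫) := fun w => by
    have h1 : ⟪gradient F x, w⟫ = fderiv ℝ F x w := by
      rw [gradient, InnerProductSpace.toDual_symm_apply]
    rw [← h1, hgr, inner_neg_left, inner_smul_left, conj_trivial]
  obtain ⟨ε, τ, hε, hτ, hU⟩ := hx_local_unit hF he hl hx0 hgrad hκ hR
  refine ⟨ε, τ, hε, hτ, fun o ho1 ho2 => ?_⟩
  obtain ⟨hFo, hU⟩ := hU o ho1 ho2
  refine ⟨hFo, fun v => ?_⟩
  rcases eq_or_ne v 0 with hv | hv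
  · right
    intro s r t hs hsr hrt h1 h2
    rw [hv, smul_zero, add_zero] at h1
    exact absurd ((le_max_left _ _).trans h1) (not_le.2 hFo)
  have hn : 0 < ‖v‖ := norm_pos_iff.2 hv
  have hu : ‖‖v‖⁻¹ • v‖ = 1 := by
    rw [norm_smul, norm_inv, norm_norm, inv_mul_cancel₀ hn.ne']
  rcases hU (‖v‖⁻¹ • v) hu with ⟨t, ht, h1, h2⟩ | h1
  · left
    refine ⟨t * ‖v‖⁻¹, mul_neg_of_neg_of_pos ht (inv_pos.2 hn), ?_, fun t' ht' => ?_⟩
    · rw [smul_smul] at h1
      exact h1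
    · have h3 := h2 (t' * ‖v‖) ⟨?_, mul_nonpos_of_nonpos_of_nonneg ht'.2 hn.le⟩
      · rwa [smul_smul, mul_assoc, mul_inv_cancel₀ hn.ne', mul_one] at h3
      · have h4 := mul_le_mul_of_nonneg_right ht'.1 hn.le
        rwa [mul_assoc, inv_mul_cancel₀ hn.ne', mul_one] at h4
  · exact Or.inr (rayNeg_scale hn h1)

/-- The same without the remark that the opposite ray meets the open body near `x`. -/
theorem hx_local_dich [FiniteDimensional ℝ V] (F : V → ℝ) (hF : ContDiff ℝ ∞ F) (e x : V)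
    (he : ‖e‖ = 1) (hx : Inward F e x) (κ : ℝ) (hκ : 0 < κ) :
    ∃ ε τ : ℝ, 0 < ε ∧ 0 < τ ∧ ∀ o : V, ‖o - x‖ < 2 * τ → ⟪e, o - x⟫ < -(τ / 2) →
      0 < F o ∧ ∀ v : V, (∃ t : ℝ, t < 0 ∧ F (o + t • v) < 0) ∨
        RayNeg (fun y => max (F y) (trimf e x κ y - ε)) o v := by
  obtain ⟨ε, τ, hε, hτ, hU⟩ := hx_local_near F hF e x he hx κ hκ 1 one_pos
  refine ⟨ε, τ, hε, hτ, fun o ho1 ho2 => ⟨(hU o ho1 ho2).1, fun v => ?_⟩⟩
  rcases (hU o ho1 ho2).2 v with ⟨t, ht, h1, _⟩ | h1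
  · exact Or.inl ⟨t, ht, h1⟩
  · exact Or.inr h1

/-- The distinguished point of the open set in `hx_local_dich`. -/
theorem hx_local_pt {e x : V} (he : ‖e‖ = 1) {τ : ℝ} (hτ : 0 < τ) :
    ‖x - τ • e - x‖ < 2 * τ ∧ ⟪e, x - τ • e - x⟫ < -(τ / 2) := by
  have h1 : x - τ • e - x = -(τ • e) := by abel
  rw [h1, norm_neg, norm_smul, he, mul_one, Real.norm_eq_abs, abs_of_pos hτ, inner_neg_right,
    inner_smul_right, real_inner_self_eq_norm_sq, he]
  constructor <;> linarith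

/-- If the rays from `o` whose opposite rays meet the open body have the ray property for `F`, for all
`o` in the open set, then all rays have the ray property for the trimmed function. -/
theorem hx_local_of [FiniteDimensional ℝ V] (F : V → ℝ) (hF : ContDiff ℝ ∞ F) (e x : V)
    (he : ‖e‖ = 1) (hx : Inward F e x) (κ : ℝ) (hκ : 0 < κ)
    (hray : ∀ p d : V, 0 < F p → (∃ t : ℝ, t < 0 ∧ F (p + t • d) < 0) → RayNeg F p d) :
    ∃ ε τ : ℝ, 0 < ε ∧ 0 < τ ∧ 0 < max (F (x - τ • e)) (trimf e x κ (x - τ • e) - ε) ∧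
      ∀ v, RayNeg (fun y => max (F y) (trimf e x κ y - ε)) (x - τ • e) v := by
  obtain ⟨ε, τ, hε, hτ, hU⟩ := hx_local_dich F hF e x he hx κ hκ
  obtain ⟨h1, h2⟩ := hx_local_pt (x := x) he hτ
  obtain ⟨hFo, h3⟩ := hU _ h1 h2
  refine ⟨ε, τ, hε, hτ, lt_max_of_lt_left hFo, fun v => ?_⟩
  rcases h3 v with h4 | h4
  · refine rayNeg_trim hκ ?_ (hray _ v hFo h4)
    rintro rfl
    obtain ⟨t, _, h5⟩ := h4
    rw [smul_zero, add_zero] at h5
    exact absurd hFo (not_lt.2 h5.le)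
  · exact h4

/-- The case of hypersurfaces which every line meets in at most five points. -/
theorem hx_local [FiniteDimensional ℝ V] (F : V → ℝ) (hF : ContDiff ℝ ∞ F)
    (hb : Bornology.IsBounded {x | F x ≤ 0})
    (hreg : ∀ x, F x = 0 → gradient F x ≠ 0) (hL : LineFive F) (e x : V) (he : ‖e‖ = 1)
    (hx : Inward F e x) (κ : ℝ) (hκ : 0 < κ) :
    ∃ ε τ : ℝ, 0 < ε ∧ 0 < τ ∧ 0 < max (F (x - τ • e)) (trimf e x κ (x - τ • e) - ε) ∧
      ∀ v, RayNeg (fun y => max (F y) (trimf e x κ y - ε)) (x - τ • e) v :=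
  hx_local_of F hF e x he hx κ hκ fun _ _ hp hn _ _ _ hs hsr hrt h1 h2 =>
    hx_ray hF hb hreg hL hp hn hs hsr hrt h1 h2

/-- The case of hypersurfaces without segments which no line crosses six times. -/
theorem hx_local_n [FiniteDimensional ℝ V] (F : V → ℝ) (hF : ContDiff ℝ ∞ F)
    (hreg : ∀ x, F x = 0 → gradient F x ≠ 0) (h6 : NoSix F) (hseg : NoSeg F) (e x : V)
    (he : ‖e‖ = 1) (hx : Inward F e x) (κ : ℝ) (hκ : 0 < κ) :
    ∃ ε τ : ℝ, 0 < ε ∧ 0 < τ ∧ 0 < max (F (x - τ • e)) (trimf e x κ (x - τ • e) - ε) ∧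
      ∀ v, RayNeg (fun y => max (F y) (trimf e x κ y - ε)) (x - τ • e) v :=
  hx_local_of F hF e x he hx κ hκ fun _ _ hp hn _ _ _ hs hsr hrt h1 h2 =>
    hx_ray_n hF hreg h6 hseg hp hn hs hsr hrt h1 h2

end Pool.Schoen
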