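import Pool.Agent.H.MP_6c077c_gt.Hx.ChartB

/-! Hexasecant theorem: bodies in the image of an open smooth embedding. -/

set_option autoImplicit false

namespace Pool.Schoen

open Filter Set
open scoped Topology RealInnerProductSpace ContDiff

variable {V : Type*} [NormedAddCommGroup V] [InnerProductSpace ℝ V]

/-- The data of an open smooth embedding. -/
structure OpenEmb (Th Ps : V → V) : Prop where
  smooth : ContDiff ℝ ∞ Th
  left : ∀ u, Ps (Th u) = u
  opn : IsOpen (range Th)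
  smooth' : ContDiffOn ℝ ∞ Ps (range Th)

open scoped Classical in
/-- A function transported by the embedding, one outside of the image. -/
noncomputable def opt (Th Ps : V → V) (K : V → ℝ) (x : V) : ℝ :=
  if x ∈ range Th then K (Ps x) else 1

variable {Th Ps : V → V}

theorem OpenEmb.right (h : OpenEmb Th Ps) {x : V} (hx : x ∈ range Th) : Th (Ps x) = x := by
  obtain ⟨u, rfl⟩ := hx
  rw [h.left]

omit [InnerProductSpace ℝ V] in
theorem opt_of_mem {K : V → ℝ} {x : V} (hx : x ∈ range Th) : opt Th Ps K x = K (Ps x) := if_pos hx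

omit [InnerProductSpace ℝ V] in
theorem opt_of_not {K : V → ℝ} {x : V} (hx : x ∉ range Th) : opt Th Ps K x = 1 := if_neg hx

theorem OpenEmb.contAt (h : OpenEmb Th Ps) {x : V} (hx : x ∈ range Th) : ContinuousAt Ps x :=
  h.smooth'.continuousOn.continuousAt (h.opn.mem_nhds hx)

theorem OpenEmb.cont [FiniteDimensional ℝ V] (h : OpenEmb Th Ps) {K : ℝ → V → ℝ}
    (hK : Continuous fun p : ℝ × V => K p.1 p.2) {R : ℝ} (hR : ∀ t u, R ≤ ‖u‖ → K t u = 1) :
    Continuous fun p : ℝ × V => opt Th Ps (K p.1) p.2 := by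
  rw [continuous_iff_continuousAt]
  rintro ⟨t, x⟩
  by_cases hx : x ∈ range Th
  · have h1 : ContinuousAt (fun p : ℝ × V => K p.1 (Ps p.2)) (t, x) := by
      have h2 : ContinuousAt (fun p : ℝ × V => Ps p.2) (t, x) :=
        ContinuousAt.comp (g := Ps) (f := fun p : ℝ × V => p.2) (x := (t, x)) (h.contAt hx)
          continuousAt_snd
      exact ContinuousAt.comp (g := fun p : ℝ × V => K p.1 p.2)
        (f := fun p : ℝ × V => (p.1, Ps p.2)) (x := (t, x)) hK.continuousAt
        (continuousAt_fst.prodMk h2)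
    refine h1.congr ?_
    have h3 : ∀ᶠ p : ℝ × V in 𝓝 (t, x), p.2 ∈ range Th :=
      (continuousAt_snd : ContinuousAt (fun p : ℝ × V => p.2) (t, x)) (h.opn.mem_nhds hx)
    filter_upwards [h3] with p hp
    exact (opt_of_mem hp).symm
  · have hC : IsCompact (Th '' Metric.closedBall 0 R) :=
      (isCompact_closedBall _ _).image h.smooth.continuous
    have hxC : x ∈ (Th '' Metric.closedBall 0 R)ᶜ := by
      rintro ⟨u, -, hu⟩
      exact hx ⟨u, hu⟩
    have h3 : ∀ᶠ p : ℝ × V in 𝓝 (t, x), p.2 ∈ (Th '' Metric.closedBall 0 R)ᶜ :=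
      (continuousAt_snd : ContinuousAt (fun p : ℝ × V => p.2) (t, x))
        (hC.isClosed.isOpen_compl.mem_nhds hxC)
    have h4 : (fun p : ℝ × V => opt Th Ps (K p.1) p.2) =ᶠ[𝓝 (t, x)] fun _ => (1 : ℝ) := by
      filter_upwards [h3] with p hp
      by_cases hp' : p.2 ∈ range Th
      · rw [opt_of_mem hp']
        apply hR
        by_contra hlt
        apply hp
        refine ⟨Ps p.2, ?_, h.right hp'⟩
        rw [Metric.mem_closedBall, dist_zero_right]
        exact (not_le.1 hlt).le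
      · exact opt_of_not hp'
    exact (continuousAt_const (y := (1 : ℝ))).congr h4.symm

theorem OpenEmb.strict (h : OpenEmb Th Ps) {x : V} (hx : x ∈ range Th) :
    HasStrictFDerivAt Ps (fderiv ℝ Ps x) x := by
  have h1 : ContDiffAt ℝ ∞ Ps x := h.smooth'.contDiffAt (h.opn.mem_nhds hx)
  exact h1.hasStrictFDerivAt (by simp)

/-- The derivatives are inverse to each other. -/
theorem OpenEmb.fderiv_comp (h : OpenEmb Th Ps) (u w : V) :
    fderiv ℝ Ps (Th u) (fderiv ℝ Th u w) = w := by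
  have h1 : HasFDerivAt Ps (fderiv ℝ Ps (Th u)) (Th u) := (h.strict ⟨u, rfl⟩).hasFDerivAt
  have h2 : HasFDerivAt Th (fderiv ℝ Th u) u :=
    (h.smooth.differentiable (by simp) u).hasFDerivAt
  have h3 := h1.comp u h2
  have h4 : (Ps ∘ Th) = fun u => u := by
    funext z
    exact h.left z
  rw [h4] at h3
  have h5 := h3.unique (hasFDerivAt_id u)
  have h6 := congrArg (fun A : V →L[ℝ] V => A w) h5
  simpa using h6

theorem OpenEmb.desc (h : OpenEmb Th Ps) {K : ℝ → V → ℝ} {l : Filter ℝ} {x w : V}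
    (hx : x ∈ range Th) (hd : Desc K l (Ps x) w) :
    Desc (fun t => opt Th Ps (K t)) l x (fderiv ℝ Th (Ps x) w) := by
  have h1 : fderiv ℝ Ps x (fderiv ℝ Th (Ps x) w) = w := by
    have := h.fderiv_comp (Ps x) w
    rwa [h.right hx] at this
  have h2 : Desc (fun t y => K t (Ps y)) l x (fderiv ℝ Th (Ps x) w) :=
    Desc.comp_strict (h.strict hx) (by rw [h1]; exact hd)
  refine h2.congr ?_
  have h3 : ∀ᶠ p : ℝ × V in l ×ˢ 𝓝 x, p.2 ∈ range Th :=
    tendsto_snd.eventually (h.opn.mem_nhds hx)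
  filter_upwards [h3] with p hp
  exact (opt_of_mem hp).symm

theorem opt_mem_of_lt {K : V → ℝ} {x : V} (h : opt Th Ps K x < 1) : x ∈ range Th := by
  by_contra h'
  rw [opt_of_not h'] at h
  exact lt_irrefl _ h

/-- Transport of a homotopy. -/
theorem OpenEmb.hom [FiniteDimensional ℝ V] (h : OpenEmb Th Ps) {K : ℝ → V → ℝ} {a b : ℝ}
    (hab : a ≤ b) (hK : Continuous fun p : ℝ × V => K p.1 p.2) {R : ℝ}
    (hR : ∀ t u, R ≤ ‖u‖ → K t u = 1)
    (hd : ∀ t ∈ Icc a b, ∀ u, K t u = 0 → ∃ w, Desc K (𝓝[Icc a b] t) u w) :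
    Hom (opt Th Ps (K a)) (opt Th Ps (K b)) := by
  have hC : IsCompact (Th '' Metric.closedBall 0 R) :=
    (isCompact_closedBall _ _).image h.smooth.continuous
  obtain ⟨R', hR'⟩ := hC.isBounded.exists_norm_le
  refine Hom.of_family hab (fun t => opt Th Ps (K t)) (h.cont hK hR).continuousOn ⟨R', ?_⟩ ?_
  · intro t _ x hx
    have hx' : x ∈ range Th := opt_mem_of_lt (by rw [hx]; exact one_pos)
    apply hR'
    refine ⟨Ps x, ?_, h.right hx'⟩
    rw [Metric.mem_closedBall, dist_zero_right]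
    by_contra hlt
    have h1 := hR t (Ps x) (not_le.1 hlt).le
    change opt Th Ps (K t) x = 0 at hx
    rw [opt_of_mem hx', h1] at hx
    exact one_ne_zero hx
  · intro t ht x hx
    change opt Th Ps (K t) x = 0 at hx
    have hx' : x ∈ range Th := opt_mem_of_lt (by rw [hx]; exact one_pos)
    rw [opt_of_mem hx'] at hx
    obtain ⟨w, hw⟩ := hd t ht _ hx
    exact ⟨_, h.desc hx' hw⟩

/-- Small balls have star-shaped images. -/
theorem OpenEmb.star (h : OpenEmb Th Ps) : ∃ s0 : ℝ, 0 < s0 ∧ ∀ u : V, u ≠ 0 → ‖u‖ ^ 2 ≤ s0 →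
    ⟪u, fderiv ℝ Ps (Th u) (Th 0 - Th u)⟫ < 0 := by
  set B : V →L[ℝ] V := fderiv ℝ Th 0 with hB
  have hPc : ContinuousAt (fun x => fderiv ℝ Ps x) (Th 0) := by
    have h1 : ContDiffOn ℝ ∞ Ps (range Th) := h.smooth'
    have h2 := h1.continuousOn_fderiv_of_isOpen h.opn (by simp)
    exact h2.continuousAt (h.opn.mem_nhds ⟨0, rfl⟩)
  have hA : ContinuousAt (fun u => fderiv ℝ Ps (Th u)) 0 :=
    ContinuousAt.comp (g := fun x => fderiv ℝ Ps x) (f := Th) (x := 0) hPc
      h.smooth.continuous.continuousAt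
  set M : ℝ := ‖fderiv ℝ Ps (Th 0)‖ + 1 with hM
  have hMp : 0 < M := by positivity
  have e1 : ∀ᶠ u in 𝓝 (0 : V), ‖fderiv ℝ Ps (Th u)‖ < M :=
    hA.norm.eventually_lt continuousAt_const (by rw [hM]; linarith)
  have e2 : ∀ᶠ u in 𝓝 (0 : V),
      ‖(fderiv ℝ Ps (Th u)).comp B - (fderiv ℝ Ps (Th 0)).comp B‖ < 1 / 4 := by
    have h1 : ContinuousAt (fun u => ‖(fderiv ℝ Ps (Th u)).comp B -
        (fderiv ℝ Ps (Th 0)).comp B‖) 0 :=
      ((hA.clm_comp continuousAt_const).sub continuousAt_const).norm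
    refine h1.eventually_lt continuousAt_const ?_
    rw [sub_self, norm_zero]
    norm_num
  have e3 : ∀ᶠ u in 𝓝 (0 : V), ‖Th u - Th 0 - B (u - 0)‖ ≤ 1 / (4 * M) * ‖u - 0‖ := by
    have h1 : HasFDerivAt Th B 0 := (h.smooth.differentiable (by simp) 0).hasFDerivAt
    exact h1.isLittleO.def (by positivity)
  obtain ⟨ε, hε, hball⟩ := Metric.eventually_nhds_iff.1 (e1.and (e2.and e3))
  refine ⟨(ε / 2) ^ 2, by positivity, fun u hu hus => ?_⟩
  have hn : 0 < ‖u‖ := norm_pos_iff.2 hu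
  have h1 : ‖u‖ ≤ ε / 2 := (pow_le_pow_iff_left₀ hn.le (by positivity) two_ne_zero).1 hus
  obtain ⟨f1, f2, f3⟩ := hball (by rw [dist_zero_right]; linarith : dist u 0 < ε)
  rw [sub_zero] at f3
  have h2 : Th 0 - Th u = -(B u) - (Th u - Th 0 - B u) := by abel
  have h3 : fderiv ℝ Ps (Th 0) (B u) = u := h.fderiv_comp 0 u
  have h4 : fderiv ℝ Ps (Th u) (B u) =
      u + ((fderiv ℝ Ps (Th u)).comp B - (fderiv ℝ Ps (Th 0)).comp B) u := by
    simp only [ContinuousLinearMap.sub_apply, ContinuousLinearMap.comp_apply, h3]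
    abel
  rw [h2, map_sub, map_neg, h4, inner_sub_right, inner_neg_right, inner_add_right,
    real_inner_self_eq_norm_sq]
  have h5 : |⟪u, ((fderiv ℝ Ps (Th u)).comp B - (fderiv ℝ Ps (Th 0)).comp B) u⟫| ≤
      ‖u‖ * (1 / 4 * ‖u‖) := by
    refine (abs_real_inner_le_norm _ _).trans (mul_le_mul_of_nonneg_left ?_ hn.le)
    exact (ContinuousLinearMap.le_opNorm _ _).trans (mul_le_mul_of_nonneg_right f2.le hn.le)
  have h6 : |⟪u, fderiv ℝ Ps (Th u) (Th u - Th 0 - B u)⟫| ≤ ‖u‖ * (1 / 4 * ‖u‖) := by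
    refine (abs_real_inner_le_norm _ _).trans (mul_le_mul_of_nonneg_left ?_ hn.le)
    refine (ContinuousLinearMap.le_opNorm _ _).trans ?_
    calc ‖fderiv ℝ Ps (Th u)‖ * ‖Th u - Th 0 - B u‖ ≤ M * (1 / (4 * M) * ‖u‖) :=
          mul_le_mul f1.le f3 (norm_nonneg _) hMp.le
      _ = 1 / 4 * ‖u‖ := by field_simp
  have h7 := abs_le.1 h5
  have h8 := abs_le.1 h6
  nlinarith [h7.1, h8.1, mul_pos hn hn]

theorem isBall_open [FiniteDimensional ℝ V] {Th Ps : V → V} (hTh : ContDiff ℝ ∞ Th)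
    (hinj : ∀ u, Ps (Th u) = u) (hO : IsOpen (range Th)) (hPs : ContDiffOn ℝ ∞ Ps (range Th))
    (F : V → ℝ) (hF : Good F) (hb : Bornology.IsBounded {x | F x ≤ 0})
    (hsub : ∀ x, F x ≤ 0 → x ∈ range Th) (h : IsBall (fun u => F (Th u))) : IsBall F := by
  have hE : OpenEmb Th Ps := ⟨hTh, hinj, hO, hPs⟩
  obtain ⟨H, hc, h0, h1, ⟨R0, hR0⟩, hd⟩ := h
  set R : ℝ := max R0 1 with hRdef
  have hR1 : 1 ≤ R := le_max_right _ _
  have hpos : ∀ t ∈ Icc (0 : ℝ) 1, ∀ u, H t u ≤ 0 → ‖u‖ ≤ R := by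
    intro t ht u hu
    by_contra hlt
    push Not at hlt
    have hne : ∀ s ∈ Icc (0 : ℝ) 1, H s u ≠ 0 := fun s hs h2 =>
      absurd ((hR0 s hs u h2).trans (le_max_left _ _)) (not_le.2 hlt)
    have h2 : 0 < H 1 u := by
      rw [h1]
      show 0 < ‖u‖ ^ 2 - 1
      nlinarith
    have hcont : ContinuousOn (fun s : ℝ => H s u) (Icc t 1) :=
      (hc.comp (Continuous.prodMk continuous_id continuous_const)).continuousOn
    have h3 : (0 : ℝ) ∈ Icc (H t u) (H 1 u) := ⟨hu, h2.le⟩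
    obtain ⟨s, hs, hs'⟩ := intermediate_value_Icc ht.2 hcont h3
    exact hne s ⟨ht.1.trans hs.1, hs.2⟩ hs'
  -- the truncated family
  set K : ℝ → V → ℝ := fun t u => min 1 (max (H t u) (‖u‖ - R - 1)) with hKdef
  have hKc : Continuous fun p : ℝ × V => K p.1 p.2 :=
    continuous_const.min (hc.max (by fun_prop))
  have hKR : ∀ t u, R + 2 ≤ ‖u‖ → K t u = 1 := by
    intro t u hu
    exact min_eq_left (le_max_of_le_right (by linarith))
  have hKle : ∀ t ∈ Icc (0 : ℝ) 1, ∀ u, K t u ≤ 0 ↔ H t u ≤ 0 := by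
    intro t ht u
    constructor
    · intro h2
      rcases min_le_iff.1 h2 with h3 | h3
      · linarith
      · exact (le_max_left _ _).trans h3
    · intro h2
      have h3 := hpos t ht u h2
      exact min_le_of_right_le (max_le h2 (by linarith))
  have hKlt : ∀ t ∈ Icc (0 : ℝ) 1, ∀ u, K t u < 0 ↔ H t u < 0 := by
    intro t ht u
    constructor
    · intro h2
      rcases min_lt_iff.1 h2 with h3 | h3
      · linarith
      · exact (le_max_left _ _).trans_lt h3
    · intro h2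
      have h3 := hpos t ht u h2.le
      exact min_lt_of_right_lt (max_lt h2 (by linarith))
  have hnear : ∀ t ∈ Icc (0 : ℝ) 1, ∀ u, K t u = 0 → H t u = 0 ∧
      ∀ᶠ p : ℝ × V in 𝓝 (t, u), H p.1 p.2 = K p.1 p.2 := by
    intro t ht u hu
    have h2 : H t u ≤ 0 := (hKle t ht u).1 hu.le
    have h3 : ¬ H t u < 0 := fun h4 => absurd ((hKlt t ht u).2 h4) (by rw [hu]; exact lt_irrefl _)
    have h4 : H t u = 0 := le_antisymm h2 (not_lt.1 h3)
    refine ⟨h4, ?_⟩
    have h5 := hpos t ht u h2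
    have h6 : ∀ᶠ p : ℝ × V in 𝓝 (t, u), H p.1 p.2 < 1 := by
      refine hc.continuousAt.eventually_lt continuousAt_const ?_
      show H t u < 1
      rw [h4]
      exact one_pos
    have h7 : ∀ᶠ p : ℝ × V in 𝓝 (t, u), ‖p.2‖ - R - 1 < H p.1 p.2 := by
      have h8 : Continuous fun p : ℝ × V => ‖p.2‖ - R - 1 := by fun_prop
      refine h8.continuousAt.eventually_lt hc.continuousAt ?_
      show ‖u‖ - R - 1 < H t u
      rw [h4]
      linarith
    filter_upwards [h6, h7] with p hp hp'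
    show H p.1 p.2 = min 1 (max (H p.1 p.2) (‖p.2‖ - R - 1))
    rw [max_eq_left hp'.le, min_eq_right hp.le]
  have hKd : ∀ t ∈ Icc (0 : ℝ) 1, ∀ u, K t u = 0 → ∃ w, Desc K (𝓝[Icc 0 1] t) u w := by
    intro t ht u hu
    obtain ⟨h2, h3⟩ := hnear t ht u hu
    obtain ⟨w, hw⟩ := hd t ht u h2
    refine ⟨w, hw.congr ?_⟩
    have hl : 𝓝[Icc (0 : ℝ) 1] t ×ˢ 𝓝 u ≤ 𝓝 ((t, u) : ℝ × V) := by
      rw [nhds_prod_eq]
      exact Filter.prod_mono nhdsWithin_le_nhds le_rfl
    exact hl h3
  have hH1 := hE.hom zero_le_one hKc hKR hKd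
  -- the first step
  have hm0 : (0 : ℝ) ∈ Icc (0 : ℝ) 1 := ⟨le_rfl, zero_le_one⟩
  have hm1 : (1 : ℝ) ∈ Icc (0 : ℝ) 1 := ⟨zero_le_one, le_rfl⟩
  have hH0 : ∀ u, H 0 u = F (Th u) := fun u => by rw [h0]
  have hstep1 : Hom F (opt Th Ps (K 0)) := by
    have hcont : Continuous (opt Th Ps (K 0)) :=
      (hE.cont hKc hKR).comp (Continuous.prodMk (continuous_const (y := (0 : ℝ))) continuous_id)
    refine Hom.of_eq_near hF hcont ?_ ?_ ?_
    · intro x
      constructor
      · intro h2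
        have h3 := hsub x h2.le
        rw [opt_of_mem h3, hKlt 0 hm0, hH0, hE.right h3]
        exact h2
      · intro h2
        have h3 : x ∈ range Th := opt_mem_of_lt (h2.trans one_pos)
        rw [opt_of_mem h3, hKlt 0 hm0, hH0, hE.right h3] at h2
        exact h2
    · intro x
      constructor
      · intro h2
        have h3 := hsub x h2
        rw [opt_of_mem h3, hKle 0 hm0, hH0, hE.right h3]
        exact h2
      · intro h2
        have h3 : x ∈ range Th := opt_mem_of_lt (h2.trans_lt one_pos)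
        rw [opt_of_mem h3, hKle 0 hm0, hH0, hE.right h3] at h2
        exact h2
    · intro x h2
      have h3 := hsub x h2.le
      have h4 : K 0 (Ps x) = 0 := by
        have h5 : H 0 (Ps x) = 0 := by rw [hH0, hE.right h3, h2]
        refine le_antisymm ((hKle 0 hm0 _).2 h5.le) (not_lt.1 fun h6 => ?_)
        have := (hKlt 0 hm0 _).1 h6
        linarith
      have h5 := (hnear 0 hm0 _ h4).2
      have h6 : ContinuousAt (fun y : V => ((0 : ℝ), Ps y)) x :=
        continuousAt_const.prodMk (hE.contAt h3)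
      filter_upwards [h6.eventually h5, hO.mem_nhds h3] with y hy hy'
      rw [opt_of_mem hy', ← hy, hH0, hE.right hy']
  -- the shrinking balls
  obtain ⟨s0, hs0, hstar⟩ := hE.star
  set s1 : ℝ := min s0 1 with hs1
  have hs1p : 0 < s1 := lt_min hs0 one_pos
  set L : ℝ → V → ℝ := fun s u => min 1 (‖u‖ ^ 2 - s) with hL
  have hquad : ∀ u : V, u ≠ 0 → ∀ w : V, ⟪u, w⟫ < 0 → Desc1 (fun z : V => ‖z‖ ^ 2) u w := by
    intro u _ w hw
    have hd : HasFDerivAt (fun y : V => ‖y‖ ^ 2) (2 • innerSL ℝ u) u :=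
      (hasStrictFDerivAt_norm_sq u).hasFDerivAt
    refine desc1_smooth (contDiff_norm_sq ℝ).contDiffAt ?_
    rw [hd.fderiv]
    show (2 • innerSL ℝ u) w < 0
    rw [two_nsmul, ContinuousLinearMap.add_apply, innerSL_apply_apply]
    linarith
  have hLc : Continuous fun p : ℝ × V => L (max 0 (min 1 p.1)) p.2 := by
    show Continuous fun p : ℝ × V => min 1 (‖p.2‖ ^ 2 - max 0 (min 1 p.1))
    fun_prop
  have hclamp : ∀ s ∈ Icc s1 1, max 0 (min 1 s) = s := by
    intro s hs
    rw [min_eq_right hs.2, max_eq_right (hs1p.le.trans hs.1)]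
  have hLd : ∀ s ∈ Icc s1 1, ∀ u, L s u = 0 → ∀ w, ⟪u, w⟫ < 0 →
      Desc (fun s => L (max 0 (min 1 s))) (𝓝[Icc s1 1] s) u w := by
    intro s hs u hu w hw
    have hsp : 0 < s := hs1p.trans_le hs.1
    have h2 : ‖u‖ ^ 2 - s = 0 := by
      change min 1 (‖u‖ ^ 2 - s) = 0 at hu
      rcases min_choice 1 (‖u‖ ^ 2 - s) with h3 | h3
      · rw [h3] at hu
        norm_num at hu
      · rw [h3] at hu
        exact hu
    have hu0 : u ≠ 0 := by
      rintro rfl
      rw [norm_zero] at h2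
      norm_num at h2
      linarith
    have h3 : Desc (fun (s : ℝ) (z : V) => ‖z‖ ^ 2 + -(max 0 (min 1 s))) (𝓝[Icc s1 1] s) u w :=
      desc_add_const ((hquad u hu0 w hw).const _) (fun s => -(max 0 (min 1 s)))
    refine h3.congr ?_
    have hl : 𝓝[Icc s1 1] s ×ˢ 𝓝 u ≤ 𝓝 ((s, u) : ℝ × V) := by
      rw [nhds_prod_eq]
      exact Filter.prod_mono nhdsWithin_le_nhds le_rfl
    apply hl
    have h4 : Continuous fun p : ℝ × V => ‖p.2‖ ^ 2 + -(max 0 (min 1 p.1)) := by fun_prop
    have h5 : ∀ᶠ p : ℝ × V in 𝓝 (s, u), ‖p.2‖ ^ 2 + -(max 0 (min 1 p.1)) < 1 := by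
      refine h4.continuousAt.eventually_lt continuousAt_const ?_
      show ‖u‖ ^ 2 + -(max 0 (min 1 s)) < 1
      rw [hclamp s hs]
      linarith
    filter_upwards [h5] with p hp
    show ‖p.2‖ ^ 2 + -(max 0 (min 1 p.1)) = min 1 (‖p.2‖ ^ 2 - max 0 (min 1 p.1))
    rw [← sub_eq_add_neg] at hp ⊢
    exact (min_eq_right hp.le).symm
  have hLR : ∀ s u, 2 ≤ ‖u‖ → L (max 0 (min 1 s)) u = 1 := by
    intro s u hu
    have h2 : max 0 (min 1 s) ≤ 1 := max_le zero_le_one (min_le_left _ _)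
    refine min_eq_left ?_
    nlinarith
  have hzero : ∀ s ∈ Icc s1 1, ∀ u, L (max 0 (min 1 s)) u = 0 → u ≠ 0 := by
    intro s hs u hu
    rw [hclamp s hs] at hu
    rintro rfl
    change min 1 (‖(0 : V)‖ ^ 2 - s) = 0 at hu
    have hsp : 0 < s := hs1p.trans_le hs.1
    rw [norm_zero, min_eq_right (by norm_num; linarith)] at hu
    norm_num at hu
    linarith
  have hH2 := hE.hom (K := fun s => L (max 0 (min 1 s))) (a := s1) (b := 1) (min_le_right _ _) hLc
    hLR (fun s hs u hu => ⟨-u, hLd s hs u (by rwa [hclamp s hs] at hu) (-u) (by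
      have h2 := hzero s hs u hu
      rw [inner_neg_right, real_inner_self_eq_norm_sq]
      have := pow_pos (norm_pos_iff.2 h2) 2
      linarith)⟩)
  -- the second step
  have hm1' : (1 : ℝ) ∈ Icc s1 1 := ⟨min_le_right _ _, le_rfl⟩
  have hms : s1 ∈ Icc s1 1 := ⟨le_rfl, min_le_right _ _⟩
  have hstep2 : Hom (opt Th Ps (K 1)) (opt Th Ps (L (max 0 (min 1 1)))) := by
    have hcont : Continuous (opt Th Ps (L (max 0 (min 1 1)))) :=
      (hE.cont hLc hLR).comp (Continuous.prodMk (continuous_const (y := (1 : ℝ))) continuous_id)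
    have e1 : ∀ u, H 1 u = ‖u‖ ^ 2 - 1 := fun u => by rw [h1]
    rw [hclamp 1 hm1'] at hcont ⊢
    have hKL : ∀ u, (K 1 u ≤ 0 ↔ L 1 u ≤ 0) ∧ (K 1 u < 0 ↔ L 1 u < 0) := by
      intro u
      rw [hKle 1 hm1, hKlt 1 hm1, e1]
      constructor
      · constructor
        · intro h2
          exact min_le_of_right_le h2
        · intro h2
          rcases min_le_iff.1 h2 with h3 | h3
          · linarith
          · exact h3
      · constructor
        · intro h2
          exact min_lt_of_right_lt h2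
        · intro h2
          rcases min_lt_iff.1 h2 with h3 | h3
          · linarith
          · exact h3
    refine Hom.of_eq_near hH1.good_right hcont ?_ ?_ ?_
    · intro x
      by_cases hx : x ∈ range Th
      · rw [opt_of_mem hx, opt_of_mem hx]
        exact (hKL _).2
      · rw [opt_of_not hx, opt_of_not hx]
    · intro x
      by_cases hx : x ∈ range Th
      · rw [opt_of_mem hx, opt_of_mem hx]
        exact (hKL _).1
      · rw [opt_of_not hx, opt_of_not hx]
    · intro x h2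
      have h3 : x ∈ range Th := opt_mem_of_lt (by rw [h2]; exact one_pos)
      rw [opt_of_mem h3] at h2
      obtain ⟨h4, h5⟩ := hnear 1 hm1 _ h2
      rw [e1] at h4
      have h6 : ContinuousAt (fun y : V => ((1 : ℝ), Ps y)) x :=
        continuousAt_const.prodMk (hE.contAt h3)
      have h7 : ContinuousAt (fun y : V => ‖Ps y‖ ^ 2 - 1) x :=
        ((hE.contAt h3).norm.pow 2).sub continuousAt_const
      have h8 : ∀ᶠ y in 𝓝 x, ‖Ps y‖ ^ 2 - 1 < 1 := by
        refine h7.eventually_lt continuousAt_const ?_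
        rw [h4]
        exact one_pos
      filter_upwards [h6.eventually h5, hO.mem_nhds h3, h8] with y hy hy' hy''
      rw [opt_of_mem hy', opt_of_mem hy', ← hy]
      show H 1 (Ps y) = min 1 (‖Ps y‖ ^ 2 - 1)
      rw [e1, min_eq_right hy''.le]
  -- the last body
  have hlast : IsBall (opt Th Ps (L (max 0 (min 1 s1)))) := by
    have hcont : Continuous (opt Th Ps (L (max 0 (min 1 s1)))) :=
      (hE.cont hLc hLR).comp (Continuous.prodMk (continuous_const (y := s1)) continuous_id)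
    rw [hclamp s1 hms] at hcont ⊢
    refine isBall_star hcont (o := Th 0) ?_ ?_ ?_
    · rw [opt_of_mem ⟨0, rfl⟩, hE.left]
      show min 1 (‖(0 : V)‖ ^ 2 - s1) < 0
      refine min_lt_of_right_lt ?_
      rw [norm_zero]
      norm_num
      exact hs1p
    · have hC : IsCompact (Th '' Metric.closedBall 0 2) :=
        (isCompact_closedBall _ _).image hTh.continuous
      refine hC.isBounded.subset fun x hx => ?_
      have hx' : x ∈ range Th := opt_mem_of_lt (lt_of_le_of_lt hx one_pos)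
      refine ⟨Ps x, ?_, hE.right hx'⟩
      rw [Metric.mem_closedBall, dist_zero_right]
      by_contra hlt
      have h2 := hLR s1 (Ps x) (not_le.1 hlt).le
      rw [hclamp s1 hms] at h2
      change opt Th Ps (L s1) x ≤ 0 at hx
      rw [opt_of_mem hx', h2] at hx
      linarith
    · intro x hx
      have hx' : x ∈ range Th := opt_mem_of_lt (by rw [hx]; exact one_pos)
      rw [opt_of_mem hx'] at hx
      have h2 : Ps x ≠ 0 := hzero s1 hms (Ps x) (by rw [hclamp s1 hms]; exact hx)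
      have h3 : ‖Ps x‖ ^ 2 ≤ s0 := by
        change min 1 (‖Ps x‖ ^ 2 - s1) = 0 at hx
        rcases min_choice 1 (‖Ps x‖ ^ 2 - s1) with h4 | h4
        · rw [h4] at hx
          norm_num at hx
        · rw [h4] at hx
          have : s1 ≤ s0 := min_le_left _ _
          linarith
      have h4 := hstar (Ps x) h2 h3
      rw [hE.right hx'] at h4
      have h5 : Desc1 (L s1) (Ps x) (fderiv ℝ Ps x (Th 0 - x)) := by
        have h6 := hLd s1 hms (Ps x) hx _ h4
        have h7 := Desc.static h6 (pure_le_nhdsWithin hms)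
        rwa [hclamp s1 hms] at h7
      have h6 : Desc1 (fun y => L s1 (Ps y)) x (Th 0 - x) :=
        Desc1.comp_strict (hE.strict hx') h5
      refine h6.congr ?_
      filter_upwards [hO.mem_nhds hx'] with y hy
      exact (opt_of_mem hy).symm
  exact (((hstep1.trans hH1).trans hstep2).trans hH2.symm).trans hlast

end Pool.Schoen
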