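import Pool.Agent.H.MP_6c077c_gt.Hx.SubN
import Pool.Agent.H.MP_6c077c_gt.IxB.Lift
import Pool.Agent.H.MP_6c077c_gt.CG.Defs

/-! Hexasecant theorem: signomials with at most two negative coefficients on the open positive
orthant; the change of coordinates `x = exp u`. -/

set_option autoImplicit false

namespace Pool.Schoen

open Filter Set
open scoped Topology RealInnerProductSpace ContDiff

variable {n : ℕ}

/-- The coordinatewise exponential. -/
noncomputable def exMap (u : EuclideanSpace ℝ (Fin n)) : EuclideanSpace ℝ (Fin n) :=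
  WithLp.toLp 2 fun j => Real.exp (u j)

/-- The coordinatewise logarithm. -/
noncomputable def lgMap (x : EuclideanSpace ℝ (Fin n)) : EuclideanSpace ℝ (Fin n) :=
  WithLp.toLp 2 fun j => Real.log (x j)

/-- The open positive orthant. -/
def orthant (n : ℕ) : Set (EuclideanSpace ℝ (Fin n)) := {x | ∀ j, 0 < x j}

theorem exMap_apply (u : EuclideanSpace ℝ (Fin n)) (j : Fin n) : exMap u j = Real.exp (u j) := rfl

theorem lgMap_apply (x : EuclideanSpace ℝ (Fin n)) (j : Fin n) : lgMap x j = Real.log (x j) := rfl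

theorem exMap_mem (u : EuclideanSpace ℝ (Fin n)) : exMap u ∈ orthant n := fun _ => Real.exp_pos _

theorem lgMap_exMap (u : EuclideanSpace ℝ (Fin n)) : lgMap (exMap u) = u := by
  ext j
  rw [lgMap_apply, exMap_apply, Real.log_exp]

theorem exMap_lgMap {x : EuclideanSpace ℝ (Fin n)} (hx : x ∈ orthant n) :
    exMap (lgMap x) = x := by
  ext j
  rw [exMap_apply, lgMap_apply, Real.exp_log (hx j)]

theorem range_exMap : range (exMap : EuclideanSpace ℝ (Fin n) → _) = orthant n :=
  Subset.antisymm (range_subset_iff.2 exMap_mem) fun x hx => ⟨lgMap x, exMap_lgMap hx⟩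

theorem isOpen_orthant : IsOpen (orthant n) := by
  unfold orthant
  rw [Set.ofPred_forall]
  refine isOpen_iInter_of_finite fun j => isOpen_lt continuous_const ?_
  fun_prop

theorem exMap_contDiff : ContDiff ℝ ∞ (exMap : EuclideanSpace ℝ (Fin n) → _) := by
  rw [contDiff_euclidean]
  intro j
  show ContDiff ℝ ∞ fun u : EuclideanSpace ℝ (Fin n) => Real.exp (u j)
  exact Real.contDiff_exp.comp (EuclideanSpace.proj j : _ →L[ℝ] ℝ).contDiff

theorem lgMap_contDiffOn : ContDiffOn ℝ ∞ (lgMap : EuclideanSpace ℝ (Fin n) → _) (orthant n) := by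
  rw [contDiffOn_euclidean]
  intro j
  show ContDiffOn ℝ ∞ (fun x : EuclideanSpace ℝ (Fin n) => Real.log (x j)) (orthant n)
  refine ContDiffOn.log (EuclideanSpace.proj j : _ →L[ℝ] ℝ).contDiff.contDiffOn fun x hx => ?_
  exact (hx j).ne'

/-- The body lies in the orthant if its boundary does. -/
theorem body_orthant {F : EuclideanSpace ℝ (Fin n) → ℝ} (hF : Continuous F)
    (hb : Bornology.IsBounded {x | F x ≤ 0}) (hM : ∀ x, F x = 0 → x ∈ orthant n)
    {x : EuclideanSpace ℝ (Fin n)} (hx : F x ≤ 0) : x ∈ orthant n := by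
  intro j
  have hc : IsCompact {x | F x ≤ 0} :=
    Metric.isCompact_of_isClosed_isBounded (isClosed_le hF continuous_const) hb
  obtain ⟨y, hy, hmin⟩ := hc.exists_isMinOn ⟨x, hx⟩
    (f := fun z : EuclideanSpace ℝ (Fin n) => z j) (by fun_prop)
  have hy' : F y ≤ 0 := hy
  have h0 : F y = 0 := by
    by_contra hne
    have hlt : F y < 0 := lt_of_le_of_ne hy' hne
    have h1 : Tendsto (fun t : ℝ => y + t • EuclideanSpace.single j (-1 : ℝ)) (𝓝 0) (𝓝 y) := by
      have h3 : Continuous fun t : ℝ => y + t • EuclideanSpace.single j (-1 : ℝ) := by fun_prop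
      have h4 := h3.tendsto 0
      simpa using h4
    have h2 : ∀ᶠ t in 𝓝 (0 : ℝ), F (y + t • EuclideanSpace.single j (-1 : ℝ)) < 0 :=
      ((hF.tendsto y).comp h1).eventually_lt_const hlt
    obtain ⟨t, ht, ht0⟩ := ((h2.filter_mono nhdsWithin_le_nhds).and
      (self_mem_nhdsWithin : Ioi (0 : ℝ) ∈ 𝓝[>] 0)).exists
    have h5 := hmin (show y + t • EuclideanSpace.single j (-1 : ℝ) ∈ {x | F x ≤ 0} from ht.le)
    have h6 : y j ≤ (y + t • EuclideanSpace.single j (-1 : ℝ)) j := h5
    have h7 : (y + t • EuclideanSpace.single j (-1 : ℝ)) j = y j - t := by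
      simp [sub_eq_add_neg]
    rw [h7] at h6
    have ht0' : 0 < t := ht0
    linarith
  exact (hM y h0 j).trans_le (hmin hx)

section comp

variable {F : EuclideanSpace ℝ (Fin n) → ℝ}

theorem comp_set_eq {S : Set (EuclideanSpace ℝ (Fin n))} (hS : S ⊆ orthant n) :
    {u | exMap u ∈ S} = lgMap '' S := by
  ext u
  constructor
  · intro hu
    exact ⟨exMap u, hu, lgMap_exMap u⟩
  · rintro ⟨x, hx, rfl⟩
    show exMap (lgMap x) ∈ S
    rwa [exMap_lgMap (hS hx)]

theorem comp_bdd (hF : Continuous F) (hb : Bornology.IsBounded {x | F x ≤ 0})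
    (hM : ∀ x, F x = 0 → x ∈ orthant n) : Bornology.IsBounded {u | F (exMap u) ≤ 0} := by
  have hc : IsCompact {x | F x ≤ 0} :=
    Metric.isCompact_of_isClosed_isBounded (isClosed_le hF continuous_const) hb
  have hsub : {x | F x ≤ 0} ⊆ orthant n := fun x hx => body_orthant hF hb hM hx
  have h1 : {u | F (exMap u) ≤ 0} = lgMap '' {x | F x ≤ 0} := comp_set_eq hsub
  rw [h1]
  exact (hc.image_of_continuousOn (lgMap_contDiffOn.continuousOn.mono hsub)).isBounded

/-- The zero sets are homeomorphic. -/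
noncomputable def zeroHomeo (hM : ∀ x, F x = 0 → x ∈ orthant n) :
    ({x | F x = 0} : Set (EuclideanSpace ℝ (Fin n))) ≃ₜ
      ({u | F (exMap u) = 0} : Set (EuclideanSpace ℝ (Fin n))) where
  toFun x := ⟨lgMap x.1, by
    show F (exMap (lgMap x.1)) = 0
    rw [exMap_lgMap (hM _ x.2)]
    exact x.2⟩
  invFun u := ⟨exMap u.1, u.2⟩
  left_inv x := Subtype.ext (exMap_lgMap (hM _ x.2))
  right_inv u := Subtype.ext (lgMap_exMap u.1)
  continuous_toFun := by
    refine Continuous.subtype_mk ?_ _
    have h1 : ContinuousOn lgMap {x | F x = 0} :=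
      lgMap_contDiffOn.continuousOn.mono fun x hx => hM x hx
    exact continuousOn_iff_continuous_domRestrict.1 h1
  continuous_invFun :=
    Continuous.subtype_mk (exMap_contDiff.continuous.comp continuous_subtype_val) _

theorem comp_conn (hM : ∀ x, F x = 0 → x ∈ orthant n) (hc : IsConnected {x | F x = 0}) :
    IsConnected {u | F (exMap u) = 0} := by
  have h1 : {u | F (exMap u) = 0} = lgMap '' {x | F x = 0} := comp_set_eq fun x hx => hM x hx
  rw [h1]
  exact hc.image _ (lgMap_contDiffOn.continuousOn.mono fun x hx => hM x hx)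

theorem comp_lift (hM : ∀ x, F x = 0 → x ∈ orthant n) (hl : LiftS {x | F x = 0}) :
    LiftS {u | F (exMap u) = 0} := hl.homeo (zeroHomeo hM)

theorem comp_smooth (hF : ContDiff ℝ ∞ F) : ContDiff ℝ ∞ fun u => F (exMap u) :=
  hF.comp exMap_contDiff

theorem comp_reg (hF : ContDiff ℝ ∞ F) (hreg : ∀ x, F x = 0 → gradient F x ≠ 0)
    (u : EuclideanSpace ℝ (Fin n)) (hu : F (exMap u) = 0) :
    gradient (fun u => F (exMap u)) u ≠ 0 := by
  intro h0
  apply hreg _ hu
  have hd : Differentiable ℝ F := hF.differentiable (by norm_num)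
  have hde : Differentiable ℝ (exMap : EuclideanSpace ℝ (Fin n) → _) :=
    exMap_contDiff.differentiable (by norm_num)
  have hdl : DifferentiableAt ℝ (lgMap : EuclideanSpace ℝ (Fin n) → _) (exMap u) :=
    (lgMap_contDiffOn.contDiffAt (isOpen_orthant.mem_nhds (exMap_mem u))).differentiableAt
      (by norm_num)
  have hz : fderiv ℝ (fun u => F (exMap u)) u = 0 := by
    rw [gradient] at h0
    exact (InnerProductSpace.toDual ℝ (EuclideanSpace ℝ (Fin n))).symm.map_eq_zero_iff.1 h0
  have heq : F =ᶠ[𝓝 (exMap u)] fun x => (fun u => F (exMap u)) (lgMap x) := by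
    filter_upwards [isOpen_orthant.mem_nhds (exMap_mem u)] with x hx
    show F x = F (exMap (lgMap x))
    rw [exMap_lgMap hx]
  have h1 : fderiv ℝ F (exMap u) = 0 := by
    rw [heq.fderiv_eq]
    have h2 : DifferentiableAt ℝ (fun u => F (exMap u)) (lgMap (exMap u)) :=
      (hd.comp hde).differentiableAt
    have h3 := fderiv_comp (exMap u) h2 hdl
    rw [lgMap_exMap] at h3
    have h4 : (fun x => (fun u => F (exMap u)) (lgMap x)) = (fun u => F (exMap u)) ∘ lgMap := rfl
    rw [h4, h3, hz, ContinuousLinearMap.zero_comp]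
  rw [gradient, h1, map_zero]

end comp

/-- The exponents as vectors. -/
noncomputable def expVec {ι : Type*} (a : ι → Fin n → ℝ) (i : ι) : EuclideanSpace ℝ (Fin n) :=
  WithLp.toLp 2 (a i)

theorem signomial_exMap {ι : Type*} (s : Finset ι) (c : ι → ℝ) (a : ι → Fin n → ℝ)
    (u : EuclideanSpace ℝ (Fin n)) :
    ∑ i ∈ s, c i * ∏ j, exMap u j ^ a i j = expSum s c (expVec a) u := by
  unfold expSum
  refine Finset.sum_congr rfl fun i _ => ?_
  congr 1
  have h1 : ⟪expVec a i, u⟫ = ∑ j, u j * a i j := by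
    rw [PiLp.inner_apply]
    refine Finset.sum_congr rfl fun j _ => ?_
    rfl
  rw [h1, Real.exp_sum]
  refine Finset.prod_congr rfl fun j _ => ?_
  rw [exMap_apply, Real.exp_mul]

/-- Hypersurfaces in the open positive orthant contained in the zero set of a signomial with at most
two negative coefficients are not crossed six times by a logarithmic line. -/
theorem noSix_signomial {ι : Type*} {s : Finset ι} {c : ι → ℝ} {a : ι → Fin n → ℝ}
    (h2 : (s.filter fun i => c i < 0).card ≤ 2) {F : EuclideanSpace ℝ (Fin n) → ℝ}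
    (hF : Continuous F) (hb : Bornology.IsBounded {x | F x ≤ 0})
    (hM : ∀ x, F x = 0 → x ∈ orthant n)
    (hG : ∀ x, F x = 0 → ∑ i ∈ s, c i * ∏ j, x j ^ a i j = 0)
    (hne : ∃ x ∈ orthant n, ∑ i ∈ s, c i * ∏ j, x j ^ a i j ≠ 0) :
    NoSix fun u => F (exMap u) := by
  refine noSix_of_expSum (a := expVec a) h2 ?_ (hF.comp exMap_contDiff.continuous)
    (comp_bdd hF hb hM) ?_
  · obtain ⟨x, hx, hxne⟩ := hne
    refine ⟨lgMap x, ?_⟩
    rw [← signomial_exMap, exMap_lgMap hx]
    exact hxne
  · intro u hu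
    rw [← signomial_exMap]
    exact hG _ hu

end Pool.Schoen
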