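import Pool.Agent.H.MP_6c077c_gt.Hx.Signom
import Pool.Agent.H.MP_6c077c_gt.Hx.OpenE
import Pool.Agent.H.MP_6c077c_gt.Hx.Final

/-! Hexasecant theorem: closed hypersurfaces in the open positive orthant contained in the zero set
of a signomial with at most two negative coefficients. -/

set_option autoImplicit false

namespace Pool.Schoen

open Filter Set
open scoped Topology RealInnerProductSpace ContDiff

/-- A three-sphere in the open positive orthant of four-space whose image under the coordinatewise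
logarithm has no line crossing it six times bounds a ball. -/
theorem logHexasecant_ball
    (hA : ∀ e : EuclideanSpace ℝ (Fin 4), ‖e‖ = 1 → ∀ F : (ℝ ∙ e)ᗮ → ℝ, Dom F →
      IsPreconnected {x | 0 < F x} → IsBall F)
    (F : EuclideanSpace ℝ (Fin 4) → ℝ) (hF : ContDiff ℝ ∞ F)
    (hb : Bornology.IsBounded {x | F x ≤ 0}) (hreg : ∀ x, F x = 0 → gradient F x ≠ 0)
    (hMc : IsConnected {x | F x = 0}) (hMl : LiftS {x | F x = 0})
    (hM : ∀ x, F x = 0 → x ∈ orthant 4)
    (w : EuclideanSpace ℝ (Fin 4)) (hw : ‖w‖ = 1) (δ : ℝ) (hδ : 0 < δ)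
    (h6 : NoSixDir (fun u => F (exMap u)) w δ) : IsBall F := by
  have h1 : IsBall fun u => F (exMap u) :=
    hexasecant_ball (by simp) hA (fun u => F (exMap u)) (comp_smooth hF)
      (comp_bdd hF.continuous hb hM) (fun u hu => comp_reg hF hreg u hu) (comp_conn hM hMc)
      (comp_lift hM hMl) w hw δ hδ h6
  refine isBall_open exMap_contDiff lgMap_exMap ?_ ?_ F ?_ hb ?_ h1
  · rw [range_exMap]
    exact isOpen_orthant
  · rw [range_exMap]
    exact lgMap_contDiffOn
  · refine good_of_regular hF (hb.subset fun x hx => le_of_eq hx) fun x hx h0 => hreg x hx ?_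
    rw [gradient, h0, map_zero]
  · intro x hx
    rw [range_exMap]
    exact body_orthant hF.continuous hb hM hx

theorem signomial_ball
    (hA : ∀ e : EuclideanSpace ℝ (Fin 4), ‖e‖ = 1 → ∀ F : (ℝ ∙ e)ᗮ → ℝ, Dom F →
      IsPreconnected {x | 0 < F x} → IsBall F)
    {ι : Type*} {s : Finset ι} {c : ι → ℝ} {a : ι → Fin 4 → ℝ}
    (h2 : (s.filter fun i => c i < 0).card ≤ 2)
    (F : EuclideanSpace ℝ (Fin 4) → ℝ) (hF : ContDiff ℝ ∞ F)
    (hb : Bornology.IsBounded {x | F x ≤ 0}) (hreg : ∀ x, F x = 0 → gradient F x ≠ 0)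
    (hMc : IsConnected {x | F x = 0}) (hMl : LiftS {x | F x = 0})
    (hM : ∀ x, F x = 0 → x ∈ orthant 4)
    (hG : ∀ x, F x = 0 → ∑ i ∈ s, c i * ∏ j, x j ^ a i j = 0)
    (hne : ∃ x ∈ orthant 4, ∑ i ∈ s, c i * ∏ j, x j ^ a i j ≠ 0) : IsBall F := by
  have h6 : NoSix fun u => F (exMap u) := noSix_signomial h2 hF.continuous hb hM hG hne
  have hw : ‖(EuclideanSpace.single (0 : Fin 4) (1 : ℝ))‖ = 1 := by simp
  exact logHexasecant_ball hA F hF hb hreg hMc hMl hM _ hw 1 one_pos (h6.dir _ _)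

end Pool.Schoen
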