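import Pool.Agent.H.MP_6c077c_gt.Hx.RayN
import Pool.Agent.H.MP_6c077c_gt.Hx.Poly
import Pool.Agent.H.MP_6c077c_gt.Hx.ExpSum

/-! Hexasecant theorem: hypersurfaces contained in the zero set of a function which has few zeros on
every line on which it does not vanish identically. -/

set_option autoImplicit false

namespace Pool.Schoen

open Filter Set
open scoped Topology RealInnerProductSpace ContDiff

variable {V : Type*} [NormedAddCommGroup V] [InnerProductSpace ℝ V]

/-- Six crossings of a line give six zeros on this line. -/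
theorem six_zeros {F : V → ℝ} (hF : Continuous F) (hb : Bornology.IsBounded {x | F x ≤ 0})
    (p d : V) (t1 t2 t3 t4 t5 : ℝ) (h12 : t1 < t2) (h23 : t2 < t3) (h34 : t3 < t4)
    (h45 : t4 < t5) (s1 : F (p + t1 • d) < 0) (s2 : 0 < F (p + t2 • d))
    (s3 : F (p + t3 • d) < 0) (s4 : 0 < F (p + t4 • d)) (s5 : F (p + t5 • d) < 0) :
    5 < {t : ℝ | F (p + t • d) = 0}.encard := by
  have hd : d ≠ 0 := by
    rintro rfl
    rw [smul_zero, add_zero] at s1 s2
    linarith
  obtain ⟨R, hR⟩ := RayK_far hb p hd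
  have hg : Continuous fun t : ℝ => F (p + t • d) := RayK_cont hF p d
  obtain ⟨t0, h01, s0⟩ : ∃ t0 : ℝ, t0 < t1 ∧ 0 < F (p + t0 • d) := by
    refine ⟨-|t1| - |R| - 1, by linarith [abs_nonneg R, neg_abs_le t1], hR _ ?_⟩
    rw [abs_of_neg (by linarith [abs_nonneg R, abs_nonneg t1])]
    linarith [le_abs_self R, abs_nonneg t1]
  obtain ⟨t6, h56, s6⟩ : ∃ t6 : ℝ, t5 < t6 ∧ 0 < F (p + t6 • d) := by
    refine ⟨|t5| + |R| + 1, by linarith [abs_nonneg R, le_abs_self t5], hR _ ?_⟩
    rw [abs_of_pos (by linarith [abs_nonneg R, abs_nonneg t5])]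
    linarith [le_abs_self R, abs_nonneg t5]
  obtain ⟨z1, a1, b1, e1⟩ := RayK_dn hg h01 s0 s1
  obtain ⟨z2, a2, b2, e2⟩ := RayK_up hg h12 s1 s2
  obtain ⟨z3, a3, b3, e3⟩ := RayK_dn hg h23 s2 s3
  obtain ⟨z4, a4, b4, e4⟩ := RayK_up hg h34 s3 s4
  obtain ⟨z5, a5, b5, e5⟩ := RayK_dn hg h45 s4 s5
  obtain ⟨z6, a6, b6, e6⟩ := RayK_up hg h56 s5 s6
  exact RayK_enc (g := fun t : ℝ => F (p + t • d))
    (by linarith) (by linarith) (by linarith) (by linarith) (by linarith) e1 e2 e3 e4 e5 e6

/-- A function which has finitely many zeros on every line on which it does not vanish identically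
and which is not zero does not vanish on an open set. -/
theorem dense_ne_of_line {G : V → ℝ}
    (hG : ∀ p d : V, (∃ t : ℝ, G (p + t • d) ≠ 0) → {t : ℝ | G (p + t • d) = 0}.encard ≤ 5)
    (hne : ∃ x, G x ≠ 0) : Dense {x | G x ≠ 0} := by
  intro x
  rw [mem_closure_iff_nhds]
  by_contra hcon
  push Not at hcon
  obtain ⟨U, hU, hUe⟩ := hcon
  obtain ⟨x₁, hx₁⟩ := hne
  have h1 : G (x + (1 : ℝ) • (x₁ - x)) ≠ 0 := by
    rw [one_smul, add_sub_cancel]
    exact hx₁
  have h2 := hG x (x₁ - x) ⟨1, h1⟩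
  have hfin : {t : ℝ | G (x + t • (x₁ - x)) = 0}.Finite :=
    finite_of_encard_le_coe (k := 5) (by exact_mod_cast h2)
  have hc : Tendsto (fun t : ℝ => x + t • (x₁ - x)) (𝓝 0) (𝓝 x) := by
    have h3 : Continuous fun t : ℝ => x + t • (x₁ - x) := by fun_prop
    have h4 := h3.tendsto 0
    simpa using h4
  obtain ⟨r, hr, h5⟩ := Metric.eventually_nhds_iff.1 (hc.eventually hU)
  have h6 : Ioo (0 : ℝ) r ⊆ {t : ℝ | G (x + t • (x₁ - x)) = 0} := by
    intro t ht
    by_contra h7
    have h8 : x + t • (x₁ - x) ∈ U := h5 (by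
      rw [Real.dist_eq, sub_zero, abs_of_pos ht.1]
      exact ht.2)
    have h9 : x + t • (x₁ - x) ∈ U ∩ {x | G x ≠ 0} := ⟨h8, h7⟩
    rw [hUe] at h9
    exact h9
  exact (Ioo_infinite hr) (hfin.subset h6)

/-- A hypersurface contained in the zero set of a nonzero function which has at most five zeros on
every line on which it does not vanish identically is not crossed six times by a line. -/
theorem noSix_of_line {F G : V → ℝ} (hF : Continuous F) (hb : Bornology.IsBounded {x | F x ≤ 0})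
    (hG : ∀ p d : V, (∃ t : ℝ, G (p + t • d) ≠ 0) → {t : ℝ | G (p + t • d) = 0}.encard ≤ 5)
    (hne : ∃ x, G x ≠ 0) (hsub : ∀ x, F x = 0 → G x = 0) : NoSix F := by
  intro p d t1 t2 t3 t4 t5 h12 h23 h34 h45 s1 s2 s3 s4 s5
  have hc : ∀ t : ℝ, Continuous fun q : V => F (q + t • d) := fun t => hF.comp (by fun_prop)
  have e1 := (hc t1).tendsto p |>.eventually_lt_const s1
  have e2 := (hc t2).tendsto p |>.eventually_const_lt s2
  have e3 := (hc t3).tendsto p |>.eventually_lt_const s3
  have e4 := (hc t4).tendsto p |>.eventually_const_lt s4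
  have e5 := (hc t5).tendsto p |>.eventually_lt_const s5
  have hD : ∃ᶠ q in 𝓝 p, G q ≠ 0 := by
    have := (dense_ne_of_line hG hne) p
    rwa [mem_closure_iff_frequently] at this
  obtain ⟨q, hq, f1, f2, f3, f4, f5⟩ :=
    (hD.and_eventually (e1.and (e2.and (e3.and (e4.and e5))))).exists
  have h6 := six_zeros hF hb q d t1 t2 t3 t4 t5 h12 h23 h34 h45 f1 f2 f3 f4 f5
  have h7 := hG q d ⟨0, by rw [zero_smul, add_zero]; exact hq⟩
  have h8 : {t : ℝ | F (q + t • d) = 0}.encard ≤ {t : ℝ | G (q + t • d) = 0}.encard :=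
    encard_le_encard fun t ht => hsub _ ht
  exact absurd (h6.trans_le (h8.trans h7)) (lt_irrefl _)

/-- Real algebraic hypersurfaces of degree at most five. -/
theorem noSix_of_poly {n : ℕ} {P : MvPolynomial (Fin n) ℝ} (hP0 : P ≠ 0) (hP : P.totalDegree ≤ 5)
    {F : EuclideanSpace ℝ (Fin n) → ℝ} (hF : Continuous F)
    (hb : Bornology.IsBounded {x | F x ≤ 0})
    (hsub : ∀ x : EuclideanSpace ℝ (Fin n), F x = 0 → MvPolynomial.eval (fun i => x i) P = 0) :
    NoSix F := by
  refine noSix_of_line (G := fun x => MvPolynomial.eval (fun i => x i) P) hF hb ?_ ?_ hsub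
  · rintro p d ⟨t, ht⟩
    have h1 : linePoly P p d ≠ 0 := by
      intro h0
      apply ht
      show MvPolynomial.eval (fun i => (p + t • d) i) P = 0
      rw [← linePoly_eval, h0, Polynomial.eval_zero]
    have h2 : {t : ℝ | MvPolynomial.eval (fun i => (p + t • d) i) P = 0} ⊆
        ((linePoly P p d).roots.toFinset : Set ℝ) := by
      intro s hs
      rw [Finset.mem_coe, Multiset.mem_toFinset, Polynomial.mem_roots h1, Polynomial.IsRoot,
        linePoly_eval]
      exact hs
    refine (encard_le_encard h2).trans ?_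
    rw [encard_coe_eq_coe_finsetCard]
    have h3 : (linePoly P p d).roots.toFinset.card ≤ 5 :=
      (Multiset.toFinset_card_le _).trans ((Polynomial.card_roots' _).trans
        (linePoly_natDegree hP p d))
    exact_mod_cast h3
  · by_contra hcon
    push Not at hcon
    apply hP0
    apply MvPolynomial.funext
    intro x
    have := hcon (WithLp.toLp 2 x)
    rw [map_zero]
    exact this

/-- Exponential sums with at most two negative coefficients. -/
theorem noSix_of_expSum {ι : Type*} {s : Finset ι} {c : ι → ℝ} {a : ι → V}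
    (h2 : (s.filter fun i => c i < 0).card ≤ 2) (hne : ∃ x, expSum s c a x ≠ 0) {F : V → ℝ}
    (hF : Continuous F) (hb : Bornology.IsBounded {x | F x ≤ 0})
    (hsub : ∀ x, F x = 0 → expSum s c a x = 0) : NoSix F := by
  refine noSix_of_line (G := expSum s c a) hF hb ?_ hne hsub
  rintro p d ⟨t, ht⟩
  obtain ⟨β₁, β₂, hβ⟩ := exists_two_of_card h2 (fun i => ⟪a i, d⟫)
  have hβ' : ∀ i ∈ s, c i * Real.exp ⟪a i, p⟫ < 0 → ⟪a i, d⟫ = β₁ ∨ ⟪a i, d⟫ = β₂ := by
    intro i hi h
    apply hβ i hi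
    by_contra h3
    push Not at h3
    have := mul_nonneg h3 (Real.exp_pos ⟪a i, p⟫).le
    linarith
  rcases expSum_zeros s (fun i => ⟪a i, d⟫) (fun i => c i * Real.exp ⟪a i, p⟫) β₁ β₂ hβ' with h | h
  · exact absurd ((expSum_line s c a p d t).trans (h t)) ht
  · simp only [expSum_line]
    exact h.trans (by norm_num)

end Pool.Schoen
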