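import Pool.Agent.H.MP_6c077c_gt.AreaLoc
import Pool.Agent.H.MP_6c077c_gt.Hy.Dir
import Pool.Agent.H.MP_6c077c_gt.IxB.Isol
import Pool.Agent.H.MP_6c077c_gt.IxB.SpecB
import Pool.Agent.H.MP_6c077c_gt.IxB.NoTop

/-! Hexasecant theorem: a direction with exactly one highest inward point, all of whose inward points
are nondegenerate. -/

set_option autoImplicit false

namespace Pool.Schoen

open Filter Set Module
open scoped Topology RealInnerProductSpace ContDiff

variable {V : Type*} [NormedAddCommGroup V] [InnerProductSpace ℝ V] [FiniteDimensional ℝ V]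

/-- The function which is maximised: the height `⟪-N, x⟫` with a penalty for the distance of `N`
from `v`. -/
noncomputable def hxPsi (F : V → ℝ) (v : V) (C : ℝ) (x : V) : ℝ :=
  -⟪nrm F x, x⟫ - C * ‖nrm F x - v‖ ^ 2

/-- The derivative of the normal is orthogonal to the normal. -/
theorem hx_nrm_orth (F : V → ℝ) (hF : ContDiff ℝ 2 F) (x : V) (hx : gradient F x ≠ 0)
    (A : V →L[ℝ] V) (hA : HasFDerivAt (nrm F) A x) (w : V) : ⟪nrm F x, A w⟫ = 0 := by
  have h1 : HasFDerivAt (fun y => ⟪nrm F y, nrm F y⟫)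
      ((fderivInnerCLM ℝ (nrm F x, nrm F x)).comp (A.prod A)) x := hA.inner ℝ hA
  have hev : ∀ᶠ y in 𝓝 x, gradient F y ≠ 0 :=
    ((gradient_contDiff F hF).continuous.continuousAt).eventually_ne hx
  have h2 : HasFDerivAt (fun y => ⟪nrm F y, nrm F y⟫) (0 : V →L[ℝ] ℝ) x := by
    have h3 : HasFDerivAt (fun _ : V => (1 : ℝ)) (0 : V →L[ℝ] ℝ) x := hasFDerivAt_const _ _
    refine h3.congr_of_eventuallyEq ?_
    filter_upwards [hev] with y hy
    rw [real_inner_self_eq_norm_sq, norm_nrm F y hy, one_pow]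
  have h4 := h1.unique h2
  have h5 := congrArg (fun L : V →L[ℝ] ℝ => L w) h4
  simp only [ContinuousLinearMap.comp_apply, ContinuousLinearMap.prod_apply,
    fderivInnerCLM_apply, ContinuousLinearMap.zero_apply] at h5
  rw [real_inner_comm (nrm F x) (A w)] at h5
  linarith

/-- The critical point equation at a local maximum on the hypersurface. -/
theorem hx_crit (F : V → ℝ) (hF : ContDiff ℝ 2 F) (v : V) (C : ℝ) (x : V) (hx0 : F x = 0)
    (hx : gradient F x ≠ 0) (hK : gaussK F x ≠ 0)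
    (hmax : ∀ᶠ y in 𝓝 x, F y = 0 → hxPsi F v C y ≤ hxPsi F v C x) :
    ∃ t : ℝ, x + (2 * C) • (nrm F x - v) = t • nrm F x := by
  obtain ⟨c, hc⟩ := nrm_hasStrict F hF x hx
  set H : V →L[ℝ] V := fderiv ℝ (gradient F) x with hH
  set A : V →L[ℝ] V := ‖gradient F x‖⁻¹ • H + c.smulRight (gradient F x) with hAdef
  have hA : HasFDerivAt (nrm F) A x := hc.hasFDerivAt
  have hν : ‖nrm F x‖ = 1 := norm_nrm F x hx
  have hgu : gradient F x = ‖gradient F x‖ • nrm F x := by
    rw [nrm, smul_smul, mul_inv_cancel₀ (norm_ne_zero_iff.2 hx), one_smul]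
  have hgpos : 0 < ‖gradient F x‖ := norm_pos_iff.2 hx
  set q : V := x + (2 * C) • (nrm F x - v) with hq
  -- the strict derivative of the function
  have hid : HasStrictFDerivAt (fun y : V => y) (ContinuousLinearMap.id ℝ V) x :=
    hasStrictFDerivAt_id x
  have hcv : HasStrictFDerivAt (fun y => nrm F y - v) A x := hc.sub_const v
  have hP1 : HasStrictFDerivAt (fun y => ⟪nrm F y, y⟫)
      ((fderivInnerCLM ℝ (nrm F x, x)).comp (A.prod (ContinuousLinearMap.id ℝ V))) x :=
    hc.inner ℝ hid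
  have hP2 : HasStrictFDerivAt (fun y => ⟪nrm F y - v, nrm F y - v⟫)
      ((fderivInnerCLM ℝ (nrm F x - v, nrm F x - v)).comp (A.prod A)) x := hcv.inner ℝ hcv
  have hPsi : HasStrictFDerivAt (hxPsi F v C)
      (-((fderivInnerCLM ℝ (nrm F x, x)).comp (A.prod (ContinuousLinearMap.id ℝ V))) -
        C • ((fderivInnerCLM ℝ (nrm F x - v, nrm F x - v)).comp (A.prod A))) x := by
    have h1 := hP1.neg.sub (hP2.const_mul C)
    refine h1.congr_of_eventuallyEq (Eventually.of_forall fun y => ?_)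
    show -⟪nrm F y, y⟫ - C * ⟪nrm F y - v, nrm F y - v⟫ =
      -⟪nrm F y, y⟫ - C * ‖nrm F y - v‖ ^ 2
    rw [real_inner_self_eq_norm_sq]
  have hFd : HasStrictFDerivAt F (fderiv ℝ F x) x :=
    hF.contDiffAt.hasStrictFDerivAt two_ne_zero
  have hext : IsLocalExtrOn (hxPsi F v C) {y | F y = F x} x := by
    right
    filter_upwards [nhdsWithin_le_nhds hmax, self_mem_nhdsWithin] with y hy hy'
    have h1 : F y = F x := hy'
    exact hy (h1.trans hx0)
  obtain ⟨a, b, hab, hsum⟩ := hext.exists_multipliers_of_hasStrictFDerivAt_1d hFd hPsi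
  have hb : b ≠ 0 := by
    intro hb0
    rw [hb0, zero_smul, add_zero] at hsum
    have ha0 : a ≠ 0 := by
      intro ha0
      exact hab (by rw [ha0, hb0]; rfl)
    have h1 := congrArg (fun L : V →L[ℝ] ℝ => L (gradient F x)) hsum
    simp only [ContinuousLinearMap.smul_apply, smul_eq_mul, ContinuousLinearMap.zero_apply] at h1
    rw [← inner_gradient', real_inner_self_eq_norm_sq] at h1
    rcases mul_eq_zero.1 h1 with h | h
    · exact ha0 h
    · exact hgpos.ne' (by simpa using h)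
  -- tangent vectors
  have key : ∀ w : V, ⟪nrm F x, w⟫ = 0 → ⟪A w, q⟫ = 0 := by
    intro w hw
    have h1 := congrArg (fun L : V →L[ℝ] ℝ => L w) hsum
    simp only [ContinuousLinearMap.add_apply, ContinuousLinearMap.smul_apply, smul_eq_mul,
      ContinuousLinearMap.zero_apply, ContinuousLinearMap.sub_apply,
      ContinuousLinearMap.neg_apply, ContinuousLinearMap.comp_apply,
      ContinuousLinearMap.prod_apply, fderivInnerCLM_apply,
      ContinuousLinearMap.id_apply] at h1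
    have h2 : fderiv ℝ F x w = 0 := by
      rw [← inner_gradient', hgu, real_inner_smul_left, hw, mul_zero]
    rw [h2, mul_zero, zero_add, hw] at h1
    have h3 := (mul_eq_zero.1 h1).resolve_left hb
    rw [hq, inner_add_right, real_inner_smul_right]
    rw [real_inner_comm (A w) (nrm F x - v)] at h3
    linarith
  -- the compressed derivative is surjective
  set P := (ℝ ∙ nrm F x)ᗮ.orthogonalProjectionOnto with hP
  have hdet : (cshape F x).det ≠ 0 := by
    rw [cshape_det F x hx]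
    exact hK
  have hPc : ∀ z : V, (P z : V) = z - ⟪nrm F x, z⟫ • nrm F x := fun z =>
    coe_projT (nrm F x) hν z
  have hsurj : Function.Surjective (cshape F x) := by
    have h1 : IsUnit ((cshape F x : (ℝ ∙ nrm F x)ᗮ →ₗ[ℝ] (ℝ ∙ nrm F x)ᗮ)) := by
      rw [LinearMap.isUnit_iff_isUnit_det]
      exact isUnit_iff_ne_zero.2 hdet
    exact LinearMap.range_eq_top.1 ((LinearMap.isUnit_iff_range_eq_top _).1 h1)
  obtain ⟨w, hw⟩ := hsurj (P q)
  have hwν : ⟪nrm F x, (w : V)⟫ = 0 :=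
    Submodule.mem_orthogonal_singleton_iff_inner_right.1 w.2
  have h1 := key w hwν
  have h2 := hx_nrm_orth F hF x hx A hA w
  have h3 : (P q : V) = A w := by
    have h4 : (cshape F x w : V) = (P (‖gradient F x‖⁻¹ • H (w : V)) : V) := rfl
    rw [← hw, h4, hPc]
    have h5 : A (w : V) = ‖gradient F x‖⁻¹ • H (w : V) + c (w : V) • gradient F x := rfl
    rw [h5] at h2 ⊢
    rw [inner_add_right, real_inner_smul_right (nrm F x) (gradient F x)] at h2
    have h6 : ⟪nrm F x, gradient F x⟫ = ‖gradient F x‖ := by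
      calc ⟪nrm F x, gradient F x⟫ = ⟪nrm F x, ‖gradient F x‖ • nrm F x⟫ := by rw [← hgu]
        _ = ‖gradient F x‖ := by
          rw [real_inner_smul_right, real_inner_self_eq_norm_sq, hν, one_pow, mul_one]
    have h8 : c (w : V) • gradient F x = (c (w : V) * ‖gradient F x‖) • nrm F x := by
      rw [mul_smul, ← hgu]
    rw [h6] at h2
    have h7 : ⟪nrm F x, ‖gradient F x‖⁻¹ • H (w : V)⟫ = -(c (w : V) * ‖gradient F x‖) := by
      linarith
    rw [h7, h8, neg_smul, sub_neg_eq_add]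
  have h4 : ⟪(P q : V), q⟫ = ‖(P q : V)‖ ^ 2 := by
    have h5 : q = (P q : V) + ⟪nrm F x, q⟫ • nrm F x := by rw [hPc]; abel
    have h6 : ⟪(P q : V), nrm F x⟫ = 0 :=
      Submodule.mem_orthogonal_singleton_iff_inner_left.1 (P q).2
    conv_lhs => rw [h5]
    have h7 : P ((P q : V) + ⟪nrm F x, q⟫ • nrm F x) = P q := by rw [← h5]
    rw [h7, inner_add_right, real_inner_smul_right, h6, mul_zero, add_zero,
      real_inner_self_eq_norm_sq]
  rw [h3, h1] at h4
  have h5 : A (w : V) = 0 := by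
    have : ‖A (w : V)‖ ^ 2 = 0 := h4.symm
    simpa using this
  rw [h5] at h3
  refine ⟨⟪nrm F x, q⟫, ?_⟩
  have h6 := hPc q
  rw [h3] at h6
  exact (sub_eq_zero.1 h6.symm)

/-- A direction `e` with exactly one highest inward point `x`, with a gap `g` to the others; all
inward points for `e` are nondegenerate.

PROOF.  `v` a regular value of the normal (`exists_regular_near`); all values of the normal within
`r` of `v` are regular.  Let `x` be a maximum point of `hxPsi F v C` on the points of the hypersurface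
with `‖nrm F x - v‖ ≤ r`, where `2 * R < C * r ^ 2`; then `‖nrm F x - v‖ < r`.  `e = -nrm F x`.  Another
inward point of at least the same height is a maximum point as well, and `hx_crit` shows that both
have the same projection to the hyperplane orthogonal to `e`. -/
theorem hx_top_reg (n : ℕ) (hn : Module.finrank ℝ V = n + 1) (F : V → ℝ) (hF : ContDiff ℝ ∞ F)
    (hb : Bornology.IsBounded {x | F x ≤ 0}) (hreg : ∀ x, F x = 0 → gradient F x ≠ 0)
    (hne : {x | F x = 0}.Nonempty) :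
    ∃ (e x : V) (g : ℝ), ‖e‖ = 1 ∧ 0 < g ∧ Inward F e x ∧
      (∀ y, Inward F e y → gaussK F y ≠ 0) ∧ {y | Inward F e y}.Finite ∧
      (∀ y, Inward F e y → y ≠ x → ⟪e, y⟫ < ⟪e, x⟫ - g) := by
  have hF2 : ContDiff ℝ 2 F := hF.of_le (by norm_cast)
  have hgc : Continuous (gradient F) := (gradient_contDiff F hF2).continuous
  have hcp : IsCompact {x | F x = 0} := Metric.isCompact_of_isClosed_isBounded
    (isClosed_eq hF.continuous continuous_const) (hb.subset fun _ hx => le_of_eq hx)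
  have hnt : Nontrivial V := Module.nontrivial_of_finrank_pos (R := ℝ) (by omega)
  obtain ⟨u₀, hu₀⟩ := exists_norm_eq V (zero_le_one (α := ℝ))
  obtain ⟨v, hv1, -, hvK⟩ := exists_regular_near n hn F hF hreg hcp u₀ hu₀ 1 one_pos
  have hnc : ContinuousOn (nrm F) {x | F x = 0} := fun x hx =>
    ((hgc.continuousAt.norm.inv₀ (norm_ne_zero_iff.2 (hreg x hx))).smul
      hgc.continuousAt).continuousWithinAt
  -- a ball of regular values
  obtain ⟨r, hr, hrK⟩ : ∃ r : ℝ, 0 < r ∧ ∀ x, F x = 0 → ‖nrm F x - v‖ ≤ r → gaussK F x ≠ 0 := by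
    have hgK : ContinuousOn (gaussK F) {x | F x = 0} := fun x hx =>
      (gaussK_continuousAt F hF2 x (hreg x hx)).continuousWithinAt
    have hZ0 : IsClosed ({x | F x = 0} ∩ gaussK F ⁻¹' {0}) :=
      hgK.preimage_isClosed_of_isClosed hcp.isClosed isClosed_singleton
    have hZ : IsCompact ({x | F x = 0} ∩ gaussK F ⁻¹' {0}) :=
      hcp.of_isClosed_subset hZ0 inter_subset_left
    have hI : IsCompact (nrm F '' ({x | F x = 0} ∩ gaussK F ⁻¹' {0})) :=
      hZ.image_of_continuousOn (hnc.mono inter_subset_left)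
    have hv : v ∈ (nrm F '' ({x | F x = 0} ∩ gaussK F ⁻¹' {0}))ᶜ := by
      rintro ⟨x, ⟨hx0, hx1⟩, hx2⟩
      exact hvK x hx0 hx2 hx1
    obtain ⟨r, hr, hrs⟩ := Metric.isOpen_iff.1 hI.isClosed.isOpen_compl v hv
    refine ⟨r / 2, by linarith, fun x hx0 hx1 hx2 => ?_⟩
    have h1 : nrm F x ∈ Metric.ball v r := by
      rw [Metric.mem_ball, dist_eq_norm]
      linarith
    exact hrs h1 ⟨x, ⟨hx0, hx2⟩, rfl⟩
  -- a point with normal `v`
  obtain ⟨x₀, hx₀, hx₀v⟩ : ∃ x, F x = 0 ∧ nrm F x = v := by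
    have hcW : IsCompact {x | F x ≤ 0} :=
      Metric.isCompact_of_isClosed_isBounded (isClosed_le hF.continuous continuous_const) hb
    have hneW : {x : V | F x ≤ 0}.Nonempty := hne.mono fun x hx => le_of_eq hx
    obtain ⟨m, hm, hmin⟩ := hcW.exists_isMinOn hneW
      (f := fun x => ⟪x, -v⟫) (by fun_prop)
    obtain ⟨⟨h0, l, hl, hg⟩, -⟩ := ix_lowest F hF hreg (-v) (by rw [norm_neg, hv1]) m hm
      (fun x hx => hmin hx)
    refine ⟨m, h0, ?_⟩
    rw [smul_neg, neg_neg] at hg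
    rw [nrm, hg, norm_smul, hv1, mul_one, Real.norm_of_nonneg hl.le, smul_smul,
      inv_mul_cancel₀ hl.ne', one_smul]
  obtain ⟨R, hR0, hR⟩ := hb.exists_pos_norm_lt
  have hR' : ∀ y, F y = 0 → ‖y‖ < R := fun y hy => hR y (le_of_eq hy)
  obtain ⟨C, hC⟩ : ∃ C : ℝ, 2 * R < C * r ^ 2 := by
    refine ⟨(2 * R + 1) / r ^ 2, ?_⟩
    rw [div_mul_cancel₀ _ (by positivity)]
    linarith
  have hC0 : 0 < C := by
    by_contra h
    push Not at h
    nlinarith [sq_nonneg r]
  have hin : ∀ y, F y = 0 → |⟪nrm F y, y⟫| < R := fun y hy => by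
    have h1 := abs_real_inner_le_norm (nrm F y) y
    rw [norm_nrm F y (hreg y hy), one_mul] at h1
    exact h1.trans_lt (hR' y hy)
  -- the maximum point
  have hPc : ContinuousOn (hxPsi F v C) {x | F x = 0} := by
    have h1 : ContinuousOn (fun x => ⟪nrm F x, x⟫) {x | F x = 0} := hnc.inner continuousOn_id
    have h2 : ContinuousOn (fun x => ‖nrm F x - v‖ ^ 2) {x | F x = 0} :=
      ((hnc.sub continuousOn_const).norm).pow 2
    exact h1.neg.sub (h2.const_smul C)
  have hKc : IsCompact ({x | F x = 0} ∩ (fun x => ‖nrm F x - v‖) ⁻¹' Iic r) := by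
    refine hcp.of_isClosed_subset ?_ inter_subset_left
    exact ((hnc.sub continuousOn_const).norm).preimage_isClosed_of_isClosed hcp.isClosed
      isClosed_Iic
  have hx₀K : x₀ ∈ {x | F x = 0} ∩ (fun x => ‖nrm F x - v‖) ⁻¹' Iic r := by
    refine ⟨hx₀, ?_⟩
    show ‖nrm F x₀ - v‖ ≤ r
    rw [hx₀v, sub_self, norm_zero]
    exact hr.le
  obtain ⟨x, ⟨hx0, hxr⟩, hxmax⟩ := hKc.exists_isMaxOn ⟨x₀, hx₀K⟩ (hPc.mono inter_subset_left)
  have hxr : ‖nrm F x - v‖ ≤ r := hxr
  have hx0 : F x = 0 := hx0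
  have hstrict : ∀ y, F y = 0 → ‖nrm F y - v‖ ≤ r → hxPsi F v C x₀ ≤ hxPsi F v C y →
      ‖nrm F y - v‖ < r := by
    intro y hy hyr hle
    refine lt_of_le_of_ne hyr fun h => ?_
    have h1 : hxPsi F v C x₀ = -⟪nrm F x₀, x₀⟫ := by
      rw [hxPsi, hx₀v, sub_self, norm_zero]
      ring
    have h2 : hxPsi F v C y = -⟪nrm F y, y⟫ - C * r ^ 2 := by rw [hxPsi, h]
    rw [h1, h2] at hle
    have h3 := abs_lt.1 (hin y hy)
    have h4 := abs_lt.1 (hin x₀ hx₀)
    linarith
  have hcrit : ∀ y, F y = 0 → ‖nrm F y - v‖ < r → hxPsi F v C x ≤ hxPsi F v C y →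
      ∃ t : ℝ, y + (2 * C) • (nrm F y - v) = t • nrm F y := by
    intro y hy hyr hle
    refine hx_crit F hF2 v C y hy (hreg y hy) (hrK y hy hyr.le) ?_
    have h1 : ContinuousAt (nrm F) y :=
      (hgc.continuousAt.norm.inv₀ (norm_ne_zero_iff.2 (hreg y hy))).smul hgc.continuousAt
    have h2 : ∀ᶠ z in 𝓝 y, ‖nrm F z - v‖ < r :=
      ((h1.sub continuousAt_const).norm).eventually_lt continuousAt_const hyr
    filter_upwards [h2] with z hz hz0
    exact (hxmax ⟨hz0, hz.le⟩).trans hle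
  have hxmax₀ : hxPsi F v C x₀ ≤ hxPsi F v C x := hxmax hx₀K
  have hxs := hstrict x hx0 hxr hxmax₀
  obtain ⟨t, ht⟩ := hcrit x hx0 hxs le_rfl
  have hν : ‖nrm F x‖ = 1 := norm_nrm F x (hreg x hx0)
  have hgpos : 0 < ‖gradient F x‖ := norm_pos_iff.2 (hreg x hx0)
  have hInw : Inward F (-nrm F x) x := by
    refine ⟨hx0, ‖gradient F x‖, hgpos, ?_⟩
    rw [smul_neg, neg_neg, nrm, smul_smul, mul_inv_cancel₀ hgpos.ne', one_smul]
  have hnrm : ∀ y, Inward F (-nrm F x) y → nrm F y = nrm F x := by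
    rintro y ⟨-, l, hl, hg⟩
    rw [smul_neg, neg_neg] at hg
    rw [nrm, hg, norm_smul, hν, mul_one, Real.norm_of_nonneg hl.le, smul_smul,
      inv_mul_cancel₀ hl.ne', one_smul]
  have hKall : ∀ y, Inward F (-nrm F x) y → gaussK F y ≠ 0 := fun y hy =>
    hrK y hy.1 (by rw [hnrm y hy]; exact hxr)
  have hfin : {y | Inward F (-nrm F x) y}.Finite :=
    ix_finite F hF hb hreg (-nrm F x) (by rw [norm_neg, hν]) fun y hy =>
      ⟨_, idx_of_gaussK n hn F hF (-nrm F x) (by rw [norm_neg, hν]) y hy (hKall y hy)⟩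
  -- uniqueness
  have huniq : ∀ y, Inward F (-nrm F x) y → y ≠ x → ⟪-nrm F x, y⟫ < ⟪-nrm F x, x⟫ := by
    intro y hy hne
    by_contra hcon
    push Not at hcon
    have hny := hnrm y hy
    have h1 : hxPsi F v C x ≤ hxPsi F v C y := by
      rw [hxPsi, hxPsi, hny]
      rw [inner_neg_left, inner_neg_left] at hcon
      linarith
    have h2 : hxPsi F v C y ≤ hxPsi F v C x := hxmax ⟨hy.1, by
      show ‖nrm F y - v‖ ≤ r
      rw [hny]
      exact hxr⟩
    obtain ⟨t', ht'⟩ := hcrit y hy.1 (by rw [hny]; exact hxs) h1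
    have h3 : ⟪nrm F x, y⟫ = ⟪nrm F x, x⟫ := by
      have h4 := le_antisymm h1 h2
      rw [hxPsi, hxPsi, hny] at h4
      linarith
    rw [hny] at ht'
    have h5 : y - x = (t' - t) • nrm F x := by
      rw [sub_smul, ← ht, ← ht']
      abel
    have h6 : t' - t = 0 := by
      have h7 : ⟪nrm F x, y - x⟫ = 0 := by rw [inner_sub_right, h3, sub_self]
      rw [h5, real_inner_smul_right, real_inner_self_eq_norm_sq, hν, one_pow, mul_one] at h7
      exact h7
    rw [h6, zero_smul] at h5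
    exact hne (sub_eq_zero.1 h5)
  -- the gap
  obtain ⟨g, hg, hgap⟩ : ∃ g : ℝ, 0 < g ∧ ∀ y, Inward F (-nrm F x) y → y ≠ x →
      ⟪-nrm F x, y⟫ < ⟪-nrm F x, x⟫ - g := by
    have hfin' : ({y | Inward F (-nrm F x) y} \ {x}).Finite := hfin.subset sdiff_subset
    rcases ({y | Inward F (-nrm F x) y} \ {x}).eq_empty_or_nonempty with h0 | h0
    · refine ⟨1, one_pos, fun y hy hne => ?_⟩
      have : y ∈ ({y | Inward F (-nrm F x) y} \ {x}) := ⟨hy, hne⟩
      rw [h0] at this
      exact this.elim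
    · obtain ⟨m, ⟨hm, hmx⟩, hmmax⟩ := hfin'.exists_maximalFor (fun y => ⟪-nrm F x, y⟫) _ h0
      have h1 := huniq m hm hmx
      refine ⟨(⟪-nrm F x, x⟫ - ⟪-nrm F x, m⟫) / 2, by linarith, fun y hy hne => ?_⟩
      have h2 : ⟪-nrm F x, y⟫ ≤ ⟪-nrm F x, m⟫ := by
        by_contra hcon
        push Not at hcon
        have := hmmax (j := y) ⟨hy, hne⟩ hcon.le
        exact absurd this (not_le.2 hcon)
      linarith
  exact ⟨-nrm F x, x, g, by rw [norm_neg, hν], hg, hInw, hKall, hfin, hgap⟩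

/-- A direction with exactly one highest inward point, which is nondegenerate. -/
theorem hx_top (n : ℕ) (hn : Module.finrank ℝ V = n + 1) (F : V → ℝ) (hF : ContDiff ℝ ∞ F)
    (hb : Bornology.IsBounded {x | F x ≤ 0}) (hreg : ∀ x, F x = 0 → gradient F x ≠ 0)
    (hne : {x | F x = 0}.Nonempty) :
    ∃ (e x : V) (g : ℝ), ‖e‖ = 1 ∧ 0 < g ∧ Inward F e x ∧ (∃ k, Idx F e x k) ∧
      (∀ y, Inward F e y → y ≠ x → ⟪e, y⟫ < ⟪e, x⟫ - g) := by
  obtain ⟨e, x, g, he, hg, hx, hK, -, hgap⟩ := hx_top_reg n hn F hF hb hreg hne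
  exact ⟨e, x, g, he, hg, hx, ⟨_, idx_of_gaussK n hn F hF e he x hx (hK x hx)⟩, hgap⟩

end Pool.Schoen
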