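import Pool.Agent.H.MP_6c077c_gt.Ix.Dz

/-! Hexasecant theorem: minima over dilation windows. -/

set_option autoImplicit false

namespace Pool.Schoen

open Filter Set
open scoped Topology RealInnerProductSpace

variable {V : Type*} [NormedAddCommGroup V] [InnerProductSpace ℝ V]

/-- On every ray from the origin: between two zeros of `k` there is a point where `k` is negative
(so `{k ≤ 0}` meets the ray in nothing, a point or a segment with `k < 0` inside). -/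
def RadU (k : V → ℝ) : Prop :=
  ∀ (x : V) (s₁ s₂ : ℝ), 0 < s₁ → s₁ < s₂ → k (s₁ • x) = 0 → k (s₂ • x) = 0 →
    ∃ s ∈ Icc s₁ s₂, k (s • x) < 0

/-- The minimum of `k` over the points `exp σ • x`, `|σ| ≤ t`. -/
noncomputable def win (k : V → ℝ) (t : ℝ) (x : V) : ℝ :=
  sInf ((fun u : ℝ => k (Real.exp (t * u) • x)) '' Icc (-1) 1)

theorem win_continuous {k : V → ℝ} (hk : Continuous k) :
    Continuous fun p : ℝ × V => win k p.1 p.2 := by
  unfold win
  refine IsCompact.continuous_sInf (f := fun (p : ℝ × V) (u : ℝ) => k (Real.exp (p.1 * u) • p.2))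
    isCompact_Icc ?_
  have : Continuous fun q : (ℝ × V) × ℝ => k (Real.exp (q.1.1 * q.2) • q.1.2) := by fun_prop
  exact this

theorem win_min {k : V → ℝ} (hk : Continuous k) (t : ℝ) (x : V) :
    ∃ u ∈ Icc (-1 : ℝ) 1, k (Real.exp (t * u) • x) = win k t x ∧
      ∀ u' ∈ Icc (-1 : ℝ) 1, win k t x ≤ k (Real.exp (t * u') • x) := by
  have hc : ContinuousOn (fun u : ℝ => k (Real.exp (t * u) • x)) (Icc (-1) 1) := by fun_prop
  obtain ⟨u, hu, h1, h2⟩ := isCompact_Icc.exists_sInf_image_eq_and_le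
    (nonempty_Icc.2 (by norm_num : (-1 : ℝ) ≤ 1)) hc
  refine ⟨u, hu, h1.symm, fun u' hu' => ?_⟩
  unfold win
  rw [h1]
  exact h2 u' hu'

theorem win_le {k : V → ℝ} (hk : Continuous k) {t σ : ℝ} (hσ : |σ| ≤ t) (x : V) :
    win k t x ≤ k (Real.exp σ • x) := by
  obtain ⟨u, hu, h1, h2⟩ := win_min hk t x
  rcases (abs_nonneg σ |>.trans hσ).eq_or_lt with h | h
  · have h3 : σ = 0 := abs_nonpos_iff.1 (hσ.trans h.symm.le)
    have := h2 0 (by norm_num)
    rw [mul_zero] at this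
    rwa [h3]
  · have := h2 (σ / t) ?_
    · rwa [mul_div_cancel₀ _ h.ne'] at this
    · rw [abs_le] at hσ
      constructor
      · rw [le_div_iff₀ h]
        linarith
      · rw [div_le_iff₀ h]
        linarith

theorem win_zero (k : V → ℝ) (x : V) : win k 0 x = k x := by
  unfold win
  have h : (fun u : ℝ => k (Real.exp (0 * u) • x)) '' Icc (-1) 1 = {k x} := by
    ext y
    constructor
    · rintro ⟨u, -, rfl⟩
      simp
    · rintro rfl
      exact ⟨0, by norm_num, by simp⟩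
  rw [h, csInf_singleton]

/-- The logarithm of the dilation of a minimum. -/
theorem win_attained {k : V → ℝ} (hk : Continuous k) {t : ℝ} (ht : 0 ≤ t) (x : V) :
    ∃ σ : ℝ, |σ| ≤ t ∧ k (Real.exp σ • x) = win k t x := by
  obtain ⟨u, hu, h1, -⟩ := win_min hk t x
  refine ⟨t * u, ?_, h1⟩
  rw [abs_mul, abs_of_nonneg ht]
  have : |u| ≤ 1 := abs_le.2 hu
  nlinarith

/-- Uniqueness of the minimum at a zero. -/
theorem win_unique {k : V → ℝ} (hk : Continuous k) (hU : RadU k) {t : ℝ} {x : V}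
    (hz : win k t x = 0) {σ τ : ℝ} (hσ : |σ| ≤ t) (hτ : |τ| ≤ t)
    (h1 : k (Real.exp σ • x) = 0) (h2 : k (Real.exp τ • x) = 0) : σ = τ := by
  have key : ∀ σ τ : ℝ, |σ| ≤ t → |τ| ≤ t → k (Real.exp σ • x) = 0 → k (Real.exp τ • x) = 0 →
      ¬ σ < τ := by
    intro σ τ hσ hτ h1 h2 h
    obtain ⟨s, hs, hs'⟩ := hU x _ _ (Real.exp_pos σ) (Real.exp_lt_exp.2 h) h1 h2
    have hs0 : 0 < s := (Real.exp_pos σ).trans_le hs.1
    have h3 : |Real.log s| ≤ t := by
      rw [abs_le] at hσ hτ ⊢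
      have h4 : σ ≤ Real.log s := (Real.le_log_iff_exp_le hs0).2 hs.1
      have h5 : Real.log s ≤ τ := (Real.log_le_iff_le_exp hs0).2 hs.2
      exact ⟨by linarith, by linarith⟩
    have h6 := win_le hk h3 x
    rw [Real.exp_log hs0, hz] at h6
    linarith
  rcases lt_trichotomy σ τ with h | h | h
  · exact absurd h (key σ τ hσ hτ h1 h2)
  · exact h
  · exact absurd h (key τ σ hτ hσ h2 h1)

/-- Minimum points near `(t₀, x)` are near the minimum point at `(t₀, x)`. -/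
theorem win_near {k : V → ℝ} (hk : Continuous k) (hU : RadU k) {t₀ σ₀ : ℝ} {x : V}
    (hz : win k t₀ x = 0) (hσ₀ : |σ₀| ≤ t₀) (h1 : k (Real.exp σ₀ • x) = 0) {δ : ℝ} (hδ : 0 < δ) :
    ∀ᶠ p : ℝ × V in 𝓝 (t₀, x), ∀ u ∈ Icc (-1 : ℝ) 1,
      k (Real.exp (p.1 * u) • p.2) = win k p.1 p.2 → |p.1 * u - σ₀| < δ := by
  have ht₀ : 0 ≤ t₀ := (abs_nonneg σ₀).trans hσ₀
  have hP : ∀ u ∈ Icc (-1 : ℝ) 1, ∀ᶠ z : (ℝ × V) × ℝ in 𝓝 ((t₀, x), u),
      (k (Real.exp (z.1.1 * z.2) • z.1.2) = win k z.1.1 z.1.2 → |z.1.1 * z.2 - σ₀| < δ) := by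
    intro u hu
    have hu' : |t₀ * u| ≤ t₀ := by
      rw [abs_mul, abs_of_nonneg ht₀]
      have : |u| ≤ 1 := abs_le.2 hu
      nlinarith
    by_cases h : |t₀ * u - σ₀| < δ
    · have hc : Continuous fun z : (ℝ × V) × ℝ => |z.1.1 * z.2 - σ₀| := by fun_prop
      have := hc.continuousAt.eventually_lt (x₀ := ((t₀, x), u)) continuousAt_const h
      filter_upwards [this] with z hz _
      exact hz
    · have h2 : win k t₀ x < k (Real.exp (t₀ * u) • x) := by
        have h3 := win_le hk hu' x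
        refine lt_of_le_of_ne h3 fun h4 => h ?_
        have h5 := win_unique hk hU hz hu' hσ₀ (h4.symm.trans hz) h1
        rw [h5, sub_self, abs_zero]
        exact hδ
      have hc1 : Continuous fun z : (ℝ × V) × ℝ => win k z.1.1 z.1.2 :=
        (win_continuous hk).comp continuous_fst
      have hc2 : Continuous fun z : (ℝ × V) × ℝ => k (Real.exp (z.1.1 * z.2) • z.1.2) := by
        fun_prop
      have := hc1.continuousAt.eventually_lt (x₀ := ((t₀, x), u)) hc2.continuousAt h2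
      filter_upwards [this] with z hz h6
      exact absurd h6 hz.ne'
  exact isCompact_Icc.eventually_forall_of_forall_eventually hP

/-- A choice of a minimum point. -/
noncomputable def wmin (k : V → ℝ) (p : ℝ × V) : ℝ :=
  open Classical in
  if h : ∃ u ∈ Icc (-1 : ℝ) 1, k (Real.exp (p.1 * u) • p.2) = win k p.1 p.2 then
    p.1 * Classical.choose h else 0

theorem wmin_spec {k : V → ℝ} (hk : Continuous k) (p : ℝ × V) :
    ∃ u ∈ Icc (-1 : ℝ) 1, k (Real.exp (p.1 * u) • p.2) = win k p.1 p.2 ∧ wmin k p = p.1 * u := by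
  have h : ∃ u ∈ Icc (-1 : ℝ) 1, k (Real.exp (p.1 * u) • p.2) = win k p.1 p.2 := by
    obtain ⟨u, hu, h1, -⟩ := win_min hk p.1 p.2
    exact ⟨u, hu, h1⟩
  refine ⟨Classical.choose h, (Classical.choose_spec h).1, (Classical.choose_spec h).2, ?_⟩
  unfold wmin
  rw [dif_pos h]

theorem wmin_eq {k : V → ℝ} (hk : Continuous k) (p : ℝ × V) :
    k (Real.exp (wmin k p) • p.2) = win k p.1 p.2 := by
  obtain ⟨u, -, h1, h2⟩ := wmin_spec hk p
  rw [h2, h1]

theorem wmin_abs {k : V → ℝ} (hk : Continuous k) {p : ℝ × V} (hp : 0 ≤ p.1) : |wmin k p| ≤ p.1 := by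
  obtain ⟨u, hu, -, h2⟩ := wmin_spec hk p
  rw [h2, abs_mul, abs_of_nonneg hp]
  have : |u| ≤ 1 := abs_le.2 hu
  nlinarith

theorem wmin_tendsto {k : V → ℝ} (hk : Continuous k) (hU : RadU k) {t₀ σ₀ : ℝ} {x : V}
    (hz : win k t₀ x = 0) (hσ₀ : |σ₀| ≤ t₀) (h1 : k (Real.exp σ₀ • x) = 0) :
    Tendsto (wmin k) (𝓝 (t₀, x)) (𝓝 σ₀) := by
  rw [Metric.tendsto_nhds]
  intro δ hδ
  filter_upwards [win_near hk hU hz hσ₀ h1 hδ] with p hp
  obtain ⟨u, hu, h2, h3⟩ := wmin_spec hk p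
  rw [Real.dist_eq, h3]
  exact hp u hu h2

/-- Descent directions of the window minima: a descent direction of `k` at the minimum point,
carried back, plus a multiple of `x` allowed by the window. -/
theorem win_desc {k : V → ℝ} (hk : Continuous k) (hU : RadU k) {t₀ σ₀ : ℝ} {x w : V}
    (hz : win k t₀ x = 0) (hσ₀ : |σ₀| ≤ t₀) (h1 : k (Real.exp σ₀ • x) = 0)
    (hw : Desc1 k (Real.exp σ₀ • x) w) {a : ℝ} (ha : σ₀ < t₀ ∨ a ≤ 0) (ha' : -t₀ < σ₀ ∨ 0 ≤ a)
    {l : Filter ℝ} (hl : l ≤ 𝓝 t₀) (hl' : ∀ᶠ t in l, 0 ≤ t) :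
    Desc (fun t y => win k t y) l x (Real.exp (-σ₀) • w - a • x) := by
  set v₀ := Real.exp (-σ₀) • w - a • x with hv₀
  obtain ⟨c, hc, hc'⟩ := hw
  refine ⟨c, hc, ?_⟩
  set L : Filter (ℝ × (V × (V × ℝ))) := l ×ˢ (𝓝 x ×ˢ (𝓝 v₀ ×ˢ 𝓝[>] (0 : ℝ))) with hL
  have T1 : Tendsto (fun q : ℝ × (V × (V × ℝ)) => q.1) L (𝓝 t₀) := tendsto_fst.mono_right hl
  have T2 : Tendsto (fun q : ℝ × (V × (V × ℝ)) => q.2.1) L (𝓝 x) := tendsto_fst.comp tendsto_snd
  have T3 : Tendsto (fun q : ℝ × (V × (V × ℝ)) => q.2.2.1) L (𝓝 v₀) := DescC_dir l x v₀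
  have T4' : Tendsto (fun q : ℝ × (V × (V × ℝ)) => q.2.2.2) L (𝓝[>] 0) := DescC_time l x v₀
  have T4 : Tendsto (fun q : ℝ × (V × (V × ℝ)) => q.2.2.2) L (𝓝 0) :=
    T4'.mono_right nhdsWithin_le_nhds
  have Tσ : Tendsto (fun q : ℝ × (V × (V × ℝ)) => wmin k (q.1, q.2.1)) L (𝓝 σ₀) :=
    (wmin_tendsto hk hU hz hσ₀ h1).comp (T1.prodMk_nhds T2)
  have Te : Tendsto (fun q : ℝ × (V × (V × ℝ)) => (Real.exp (a * q.2.2.2) - 1) / q.2.2.2) L
      (𝓝 a) := by
    have h2 : HasDerivAt (fun s : ℝ => Real.exp (a * s)) (a * Real.exp (a * 0)) 0 := by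
      have := ((hasDerivAt_id (0 : ℝ)).const_mul a).exp
      simpa [mul_comm] using this
    have h3 := h2.tendsto_slope_zero_right
    simp only [mul_zero, Real.exp_zero, mul_one, zero_add, smul_eq_mul] at h3
    refine (h3.comp T4').congr fun q => ?_
    simp only [Function.comp]
    rw [div_eq_inv_mul]
  have Ta : Tendsto (fun q : ℝ × (V × (V × ℝ)) => Real.exp (a * q.2.2.2)) L (𝓝 1) := by
    have : Continuous fun s : ℝ => Real.exp (a * s) := by fun_prop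
    have h2 := (this.tendsto 0).comp T4
    rw [mul_zero, Real.exp_zero] at h2
    exact h2
  have TW : Tendsto (fun q : ℝ × (V × (V × ℝ)) => Real.exp (wmin k (q.1, q.2.1)) •
      (((Real.exp (a * q.2.2.2) - 1) / q.2.2.2) • q.2.1 + Real.exp (a * q.2.2.2) • q.2.2.1)) L
      (𝓝 w) := by
    have h2 := ((Real.continuous_exp.tendsto σ₀).comp Tσ).smul ((Te.smul T2).add (Ta.smul T3))
    have h3 : Real.exp σ₀ • (a • x + (1 : ℝ) • v₀) = w := by
      rw [hv₀, one_smul, add_sub_cancel, smul_smul, ← Real.exp_add, add_neg_cancel, Real.exp_zero,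
        one_smul]
    rw [h3] at h2
    exact h2
  have Tx : Tendsto (fun q : ℝ × (V × (V × ℝ)) => Real.exp (wmin k (q.1, q.2.1)) • q.2.1) L
      (𝓝 (Real.exp σ₀ • x)) :=
    ((Real.continuous_exp.tendsto σ₀).comp Tσ).smul T2
  have hall : Tendsto (fun q : ℝ × (V × (V × ℝ)) => (((), (Real.exp (wmin k (q.1, q.2.1)) • q.2.1,
      (Real.exp (wmin k (q.1, q.2.1)) •
      (((Real.exp (a * q.2.2.2) - 1) / q.2.2.2) • q.2.1 + Real.exp (a * q.2.2.2) • q.2.2.1),
      q.2.2.2))) : Unit × (V × (V × ℝ)))) L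
      (⊤ ×ˢ (𝓝 (Real.exp σ₀ • x) ×ˢ (𝓝 w ×ˢ 𝓝[>] (0 : ℝ)))) :=
    tendsto_top.prodMk (Tx.prodMk (TW.prodMk T4'))
  have hup : ∀ᶠ q in L, wmin k (q.1, q.2.1) + a * q.2.2.2 ≤ q.1 := by
    rcases ha with h | h
    · have : Tendsto (fun q : ℝ × (V × (V × ℝ)) => wmin k (q.1, q.2.1) + a * q.2.2.2) L
          (𝓝 (σ₀ + a * 0)) := Tσ.add (T4.const_mul a)
      rw [mul_zero, add_zero] at this
      exact (this.eventually_lt T1 h).mono fun q hq => hq.le
    · filter_upwards [DescC_pos l x v₀, tendsto_fst.eventually hl'] with q hq hq'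
      have h2 := (abs_le.1 (wmin_abs hk (p := (q.1, q.2.1)) hq')).2
      simp only at h2
      nlinarith
  have hlo : ∀ᶠ q in L, -q.1 ≤ wmin k (q.1, q.2.1) + a * q.2.2.2 := by
    rcases ha' with h | h
    · have : Tendsto (fun q : ℝ × (V × (V × ℝ)) => wmin k (q.1, q.2.1) + a * q.2.2.2) L
          (𝓝 (σ₀ + a * 0)) := Tσ.add (T4.const_mul a)
      rw [mul_zero, add_zero] at this
      exact (T1.neg.eventually_lt this h).mono fun q hq => hq.le
    · filter_upwards [DescC_pos l x v₀, tendsto_fst.eventually hl'] with q hq hq'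
      have h2 := (abs_le.1 (wmin_abs hk (p := (q.1, q.2.1)) hq')).1
      simp only at h2
      nlinarith
  filter_upwards [hall.eventually hc', hup, hlo, DescC_pos l x v₀] with q hq h2 h3 h4
  have h5 := win_le hk (abs_le.2 ⟨h3, h2⟩) (q.2.1 + q.2.2.2 • q.2.2.1)
  have h6 : Real.exp (wmin k (q.1, q.2.1) + a * q.2.2.2) • (q.2.1 + q.2.2.2 • q.2.2.1) =
      Real.exp (wmin k (q.1, q.2.1)) • q.2.1 + q.2.2.2 • (Real.exp (wmin k (q.1, q.2.1)) •
      (((Real.exp (a * q.2.2.2) - 1) / q.2.2.2) • q.2.1 +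
        Real.exp (a * q.2.2.2) • q.2.2.1)) := by
    rw [Real.exp_add]
    generalize Real.exp (wmin k (q.1, q.2.1)) = A
    generalize Real.exp (a * q.2.2.2) = B
    have h7 : q.2.2.2 ≠ 0 := h4.ne'
    match_scalars
    · field_simp
      ring
    · ring
  rw [h6] at h5
  have h8 := wmin_eq hk (q.1, q.2.1)
  simp only at h8
  rw [h8] at hq
  exact h5.trans hq

end Pool.Schoen
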