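import Pool.Agent.H.MP_6c077c_gt.Hx.WinB0

/-! Hexasecant theorem: a body which is convex along the rays from the origin is homotopic to the
shell over its set of directions. -/

set_option autoImplicit false

namespace Pool.Schoen

open Filter Set
open scoped Topology RealInnerProductSpace ContDiff

variable {V : Type*} [NormedAddCommGroup V] [InnerProductSpace ℝ V]

theorem dz1_max_at {f g : V → ℝ} {x v : V} (hf : ContinuousAt f x) (hg : ContinuousAt g x)
    (h : DZ1 f x v) (h' : DZ1 g x v) : DZ1 (fun y => max (f y) (g y)) x v := by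
  intro h0
  change max (f x) (g x) = 0 at h0
  rcases lt_trichotomy (f x) (g x) with h1 | h1 | h1
  · rw [max_eq_right h1.le] at h0
    exact desc1_max_right hf hg (h' h0) h1
  · have h2 : f x = 0 := by rwa [h1, max_self, ← h1] at h0
    exact desc1_max (h h2) (h' (h1 ▸ h2))
  · rw [max_eq_left h1.le] at h0
    exact desc1_max_left hf hg (h h0) h1

/-- The logarithm of the norm. -/
theorem desc1_lognorm {x v : V} (hx : x ≠ 0) (h : ⟪x, v⟫ < 0) (c : ℝ) :
    Desc1 (fun y : V => Real.log ‖y‖ - c) x v := by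
  have hn : ‖x‖ ≠ 0 := norm_ne_zero_iff.2 hx
  have hs : HasStrictFDerivAt (fun y : V => ‖y‖) (fderiv ℝ (fun y : V => ‖y‖) x) x :=
    (contDiffAt_norm ℝ hx (n := 1)).hasStrictFDerivAt one_ne_zero
  have h1 : ContDiffAt ℝ 1 (fun y : V => Real.log ‖y‖ - c) x :=
    ((contDiffAt_norm ℝ hx).log hn).sub contDiffAt_const
  refine desc1_smooth h1 ?_
  have h2 : HasFDerivAt (fun y : V => ‖y‖ ^ 2) (2 • innerSL ℝ x) x :=
    (hasStrictFDerivAt_norm_sq x).hasFDerivAt
  have h3 : HasFDerivAt (fun y : V => Real.log (‖y‖ ^ 2)) ((‖x‖ ^ 2)⁻¹ • (2 • innerSL ℝ x)) x :=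
    h2.log (pow_ne_zero 2 hn)
  have h4 : (fun y : V => Real.log ‖y‖ - c) = fun y => 2⁻¹ * Real.log (‖y‖ ^ 2) - c := by
    funext y
    rw [Real.log_pow]
    push_cast
    ring
  have h5 : HasFDerivAt (fun y : V => Real.log ‖y‖ - c)
      ((2⁻¹ : ℝ) • ((‖x‖ ^ 2)⁻¹ • (2 • innerSL ℝ x))) x := by
    rw [h4]
    exact (h3.const_mul 2⁻¹).sub_const c
  rw [h5.fderiv]
  simp only [smul_apply, innerSL_apply_apply, nsmul_eq_mul, smul_eq_mul]
  have h6 : 0 < (‖x‖ ^ 2)⁻¹ := by positivity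
  push_cast
  have h7 : (2 : ℝ)⁻¹ * ((‖x‖ ^ 2)⁻¹ * (2 * ⟪x, v⟫)) = (‖x‖ ^ 2)⁻¹ * ⟪x, v⟫ := by ring
  rw [h7]
  exact mul_neg_of_pos_of_neg h6 h

theorem desc1_lognorm' {x v : V} (hx : x ≠ 0) (h : 0 < ⟪x, v⟫) (c : ℝ) :
    Desc1 (fun y : V => -Real.log ‖y‖ - c) x v := by
  have h1 : ⟪x, -v⟫ < 0 := by
    rw [inner_neg_right]
    linarith
  have h2 := (desc1_lognorm hx h1 (-c)).neg
  rw [neg_neg] at h2
  have h3 : (fun (t : Unit) (y : V) => -(Real.log ‖y‖ - -c)) = fun _ y => -Real.log ‖y‖ - c := by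
    funext _ y
    ring
  unfold Desc1
  rwa [h3] at h2

theorem lognorm_cont {x : V} (hx : x ≠ 0) : ContinuousAt (fun y : V => Real.log ‖y‖) x :=
  continuous_norm.continuousAt.log (norm_ne_zero_iff.2 hx)

section shell

variable {ψ : V → ℝ}

theorem shell_org : shell ψ 0 = 1 := by
  unfold shell
  rw [if_pos rfl]

theorem shell_of_ne {x : V} (hx : x ≠ 0) :
    shell ψ x = min 1 (max (ψ x) (|Real.log ‖x‖| - 1)) := by
  unfold shell
  rw [if_neg hx]

theorem shell_lt {x : V} : shell ψ x < 0 ↔ x ≠ 0 ∧ ψ x < 0 ∧ |Real.log ‖x‖| < 1 := by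
  by_cases hx : x = 0
  · subst hx
    rw [shell_org]
    constructor
    · intro h
      linarith
    · rintro ⟨h, -⟩
      exact absurd rfl h
  · rw [shell_of_ne hx, min_lt_iff, max_lt_iff]
    constructor
    · rintro (h | h)
      · linarith
      · exact ⟨hx, h.1, by linarith [h.2]⟩
    · rintro ⟨-, h1, h2⟩
      exact Or.inr ⟨h1, by linarith⟩

theorem shell_le {x : V} : shell ψ x ≤ 0 ↔ x ≠ 0 ∧ ψ x ≤ 0 ∧ |Real.log ‖x‖| ≤ 1 := by
  by_cases hx : x = 0
  · subst hx
    rw [shell_org]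
    constructor
    · intro h
      linarith
    · rintro ⟨h, -⟩
      exact absurd rfl h
  · rw [shell_of_ne hx, min_le_iff, max_le_iff]
    constructor
    · rintro (h | h)
      · linarith
      · exact ⟨hx, h.1, by linarith [h.2]⟩
    · rintro ⟨-, h1, h2⟩
      exact Or.inr ⟨h1, by linarith⟩

theorem shell_eventually {x : V} (hx : x ≠ 0) :
    ∀ᶠ y in 𝓝 x, min 1 (max (ψ y) (|Real.log ‖y‖| - 1)) = shell ψ y := by
  filter_upwards [isOpen_ne.mem_nhds hx] with y hy
  exact (shell_of_ne hy).symm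

theorem shell_cont (hψ : ContinuousOn ψ {0}ᶜ) : Continuous (shell ψ) := by
  rw [continuous_iff_continuousAt]
  intro x
  by_cases hx : x = 0
  · subst hx
    have h : ∀ᶠ y in 𝓝 (0 : V), (1 : ℝ) = shell ψ y := by
      filter_upwards [Metric.ball_mem_nhds (0 : V) (Real.exp_pos (-2))] with y hy
      by_cases hy0 : y = 0
      · rw [hy0, shell_org]
      · rw [shell_of_ne hy0]
        rw [mem_ball_zero_iff] at hy
        have h1 : Real.log ‖y‖ < -2 := (Real.log_lt_iff_lt_exp (norm_pos_iff.2 hy0)).2 hy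
        have h2 : 2 < |Real.log ‖y‖| := by
          have := neg_le_abs (Real.log ‖y‖)
          linarith
        have h3 : 1 ≤ max (ψ y) (|Real.log ‖y‖| - 1) := le_max_of_le_right (by linarith)
        exact (min_eq_left h3).symm
    exact (continuousAt_const (y := (1 : ℝ))).congr h
  · have h1 : ContinuousAt ψ x := hψ.continuousAt (isOpen_compl_singleton.mem_nhds hx)
    have h2 : ContinuousAt (fun y : V => |Real.log ‖y‖| - 1) x :=
      (lognorm_cont hx).abs.sub continuousAt_const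
    exact ContinuousAt.congr (continuousAt_const.min (h1.max h2)) (shell_eventually hx)

/-- Descent directions of the shell. -/
theorem shell_desc {x v : V} (hψ : ContinuousOn ψ {0}ᶜ) (hs : shell ψ x = 0)
    (h1 : ψ x = 0 → Desc1 ψ x v) (h2 : Real.log ‖x‖ = 1 → ⟪x, v⟫ < 0)
    (h3 : Real.log ‖x‖ = -1 → 0 < ⟪x, v⟫) : Desc1 (shell ψ) x v := by
  have hx : x ≠ 0 := (shell_le.1 hs.le).1
  have c1 : ContinuousAt ψ x := hψ.continuousAt (isOpen_compl_singleton.mem_nhds hx)
  have c2 : ContinuousAt (fun y : V => Real.log ‖y‖ - 1) x := (lognorm_cont hx).sub continuousAt_const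
  have c3 : ContinuousAt (fun y : V => -Real.log ‖y‖ - 1) x :=
    (lognorm_cont hx).neg.sub continuousAt_const
  have h4 : ∀ y : V, max (ψ y) (max (Real.log ‖y‖ - 1) (-Real.log ‖y‖ - 1)) =
      max (ψ y) (|Real.log ‖y‖| - 1) := by
    intro y
    rw [abs_eq_max_neg, max_sub_sub_right]
  have h5 : DZ1 (fun y => max (ψ y) (max (Real.log ‖y‖ - 1) (-Real.log ‖y‖ - 1))) x v := by
    refine dz1_max_at c1 (c2.max c3) h1 (dz1_max_at c2 c3 ?_ ?_)
    · intro h
      exact desc1_lognorm hx (h2 (by linarith)) 1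
    · intro h
      exact desc1_lognorm' hx (h3 (by linarith)) 1
  have h6 : max (ψ x) (max (Real.log ‖x‖ - 1) (-Real.log ‖x‖ - 1)) = 0 := by
    rw [h4]
    rw [shell_of_ne hx] at hs
    rcases min_choice 1 (max (ψ x) (|Real.log ‖x‖| - 1)) with h | h
    · rw [h] at hs
      norm_num at hs
    · rwa [h] at hs
  refine (h5 h6).congr ?_
  have h7 : ∀ᶠ y in 𝓝 x, max (ψ y) (max (Real.log ‖y‖ - 1) (-Real.log ‖y‖ - 1)) < 1 := by
    refine (c1.max (c2.max c3)).eventually_lt continuousAt_const ?_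
    show max (ψ x) (max (Real.log ‖x‖ - 1) (-Real.log ‖x‖ - 1)) < 1
    rw [h6]
    norm_num
  filter_upwards [h7, shell_eventually (ψ := ψ) hx] with y hy hy'
  rw [h4] at hy ⊢
  rw [← hy', min_eq_right hy.le]

end shell

/-- Radial windows: if every ray from the origin meets `{k ≤ 0}` in nothing, a point, or a segment with
`k < 0` inside, then `k` is homotopic to the shell over a function `ψ` of the directions. -/
theorem window {k : V → ℝ} (hk : Good k) (hb : Bornology.IsBounded {x | k x ≤ 0}) (h0 : 0 < k 0)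
    (hN : RadN k) :
    ∃ ψ : V → ℝ, ContinuousOn ψ {0}ᶜ ∧ (∀ (x : V) (s : ℝ), 0 < s → ψ (s • x) = ψ x) ∧
      (∀ x, x ≠ 0 → (ψ x ≤ 0 ↔ ∃ s : ℝ, 0 < s ∧ k (s • x) ≤ 0)) ∧
      (∀ x, x ≠ 0 → (ψ x < 0 ↔ ∃ s : ℝ, 0 < s ∧ k (s • x) < 0)) ∧
      (∀ x, x ≠ 0 → ψ x = 0 → ∃ w, ∀ a : ℝ, Desc1 ψ x (w + a • x)) ∧
      Hom k (shell ψ) := by
  have hU := hN.radU
  obtain ⟨M, hM1, hM⟩ := win_bound hk.cont hb h0
  obtain ⟨T, hT⟩ : ∃ T : ℝ, M + 1 < T := ⟨M + 2, by linarith⟩
  have hT0 : 0 ≤ T := by linarith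
  have hgood : Good (win k T) := (win_hom hk hM hU hT0).good_right
  -- signs of the window minimum in the annulus
  have sle : ∀ x : V, x ≠ 0 → |Real.log ‖x‖| ≤ 1 →
      (win k T x ≤ 0 ↔ ∃ s : ℝ, 0 < s ∧ k (s • x) ≤ 0) := by
    intro x hx hl
    constructor
    · intro h
      obtain ⟨σ, hσ, h1⟩ := win_attained hk.cont hT0 x
      exact ⟨Real.exp σ, Real.exp_pos σ, h1.trans_le h⟩
    · rintro ⟨s, hs, h⟩
      have h2 := (hM _ h).2
      rw [log_norm_smul hx hs] at h2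
      have h3 : |Real.log s| ≤ T := by
        rw [abs_le] at *
        exact ⟨by linarith, by linarith⟩
      have h4 := win_le hk.cont h3 x
      rw [Real.exp_log hs] at h4
      exact h4.trans h
  have slt : ∀ x : V, x ≠ 0 → |Real.log ‖x‖| ≤ 1 →
      (win k T x < 0 ↔ ∃ s : ℝ, 0 < s ∧ k (s • x) < 0) := by
    intro x hx hl
    constructor
    · intro h
      obtain ⟨σ, hσ, h1⟩ := win_attained hk.cont hT0 x
      exact ⟨Real.exp σ, Real.exp_pos σ, h1.trans_lt h⟩
    · rintro ⟨s, hs, h⟩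
      have h2 := (hM _ h.le).2
      rw [log_norm_smul hx hs] at h2
      have h3 : |Real.log s| ≤ T := by
        rw [abs_le] at *
        exact ⟨by linarith, by linarith⟩
      have h4 := win_le hk.cont h3 x
      rw [Real.exp_log hs] at h4
      exact h4.trans_lt h
  -- the function of the directions
  set ψ : V → ℝ := fun x => win k T (‖x‖⁻¹ • x) with hψ
  have hunit : ∀ x : V, x ≠ 0 → ‖x‖⁻¹ • x ≠ 0 ∧ Real.log ‖‖x‖⁻¹ • x‖ = 0 := by
    intro x hx
    have hn : ‖x‖ ≠ 0 := norm_ne_zero_iff.2 hx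
    refine ⟨smul_ne_zero (inv_ne_zero hn) hx, ?_⟩
    rw [norm_smul, norm_inv, norm_norm, inv_mul_cancel₀ hn, Real.log_one]
  have hcont : ContinuousOn ψ {0}ᶜ := by
    intro x hx
    have hx' : x ≠ 0 := hx
    have h1 : ContinuousAt (fun y : V => ‖y‖⁻¹ • y) x :=
      (continuous_norm.continuousAt.inv₀ (norm_ne_zero_iff.2 hx')).smul continuousAt_id
    exact (ContinuousAt.comp (f := fun y : V => ‖y‖⁻¹ • y) hgood.cont.continuousAt
      h1).continuousWithinAt
  have hdeg : ∀ (x : V) (s : ℝ), 0 < s → ψ (s • x) = ψ x := by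
    intro x s hs
    simp only [hψ]
    congr 1
    rw [norm_smul, Real.norm_eq_abs, abs_of_pos hs, smul_smul, mul_inv, mul_right_comm,
      inv_mul_cancel₀ hs.ne', one_mul]
  have hle : ∀ x, x ≠ 0 → (ψ x ≤ 0 ↔ ∃ s : ℝ, 0 < s ∧ k (s • x) ≤ 0) := by
    intro x hx
    obtain ⟨h1, h2⟩ := hunit x hx
    have hn : 0 < ‖x‖ := norm_pos_iff.2 hx
    simp only [hψ]
    rw [sle _ h1 (by rw [h2, abs_zero]; norm_num)]
    constructor
    · rintro ⟨s, hs, h⟩
      rw [smul_smul] at h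
      exact ⟨s * ‖x‖⁻¹, by positivity, h⟩
    · rintro ⟨s, hs, h⟩
      refine ⟨s * ‖x‖, by positivity, ?_⟩
      rwa [smul_smul, mul_assoc, mul_inv_cancel₀ hn.ne', mul_one]
  have hlt : ∀ x, x ≠ 0 → (ψ x < 0 ↔ ∃ s : ℝ, 0 < s ∧ k (s • x) < 0) := by
    intro x hx
    obtain ⟨h1, h2⟩ := hunit x hx
    have hn : 0 < ‖x‖ := norm_pos_iff.2 hx
    simp only [hψ]
    rw [slt _ h1 (by rw [h2, abs_zero]; norm_num)]
    constructor
    · rintro ⟨s, hs, h⟩
      rw [smul_smul] at h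
      exact ⟨s * ‖x‖⁻¹, by positivity, h⟩
    · rintro ⟨s, hs, h⟩
      refine ⟨s * ‖x‖, by positivity, ?_⟩
      rwa [smul_smul, mul_assoc, mul_inv_cancel₀ hn.ne', mul_one]
  -- descent directions of `ψ`
  have hdesc : ∀ (x w : V) (σ : ℝ), x ≠ 0 → ψ x = 0 → k (Real.exp σ • x) = 0 →
      Desc1 k (Real.exp σ • x) w → ∀ a : ℝ, Desc1 ψ x (Real.exp (-σ) • w - a • x) := by
    intro x w σ hx hz h1 hw a
    have hn : 0 < ‖x‖ := norm_pos_iff.2 hx
    obtain ⟨N', hN', hN2⟩ := strict_normalize hx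
    have e1 : Real.exp (σ + Real.log ‖x‖) • (‖x‖⁻¹ • x) = Real.exp σ • x := by
      rw [Real.exp_add, Real.exp_log hn, smul_smul, mul_assoc, mul_inv_cancel₀ hn.ne', mul_one]
    have h2 := (hM _ h1.le).2
    rw [log_norm_exp hx] at h2
    obtain ⟨b, hb'⟩ := hN2 (Real.exp (-σ) • w - a • x)
    have h3 : |σ + Real.log ‖x‖| < T := by linarith
    have h4 : Desc1 (win k T) (‖x‖⁻¹ • x)
        (Real.exp (-(σ + Real.log ‖x‖)) • w - ((a * ‖x‖⁻¹ - b) * ‖x‖) • (‖x‖⁻¹ • x)) :=
      win_desc1 hk hU hz h3 (by rw [e1]; exact h1) (by rw [e1]; exact hw) _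
    refine Desc1.comp_strict (f := win k T) hN' ?_
    rw [hb']
    convert h4 using 1
    rw [neg_add, Real.exp_add, Real.exp_neg (Real.log ‖x‖), Real.exp_log hn]
    match_scalars
    · ring
    · field_simp
      ring
  refine ⟨ψ, hcont, hdeg, hle, hlt, ?_, ?_⟩
  · intro x hx hz
    obtain ⟨h1, h2⟩ := hunit x hx
    have hn : 0 < ‖x‖ := norm_pos_iff.2 hx
    obtain ⟨τ, hτ, h3⟩ := win_attained hk.cont hT0 (‖x‖⁻¹ • x)
    have h4 : k (Real.exp (τ - Real.log ‖x‖) • x) = 0 := by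
      rw [Real.exp_sub, Real.exp_log hn, div_eq_mul_inv, ← smul_smul, h3]
      exact hz
    obtain ⟨w, hw⟩ := hk.desc _ h4
    refine ⟨Real.exp (-(τ - Real.log ‖x‖)) • w, fun a => ?_⟩
    have := hdesc x w _ hx hz h4 hw (-a)
    rwa [neg_smul, sub_neg_eq_add] at this
  · have hA := win_ann hk hM hM1 hU h0 hT
    refine ((win_hom hk hM hU hT0).trans hA).trans ?_
    have hsg : ∀ x : V, (max (win k T x) (ann 1 x) < 0 ↔ shell ψ x < 0) ∧
        (max (win k T x) (ann 1 x) ≤ 0 ↔ shell ψ x ≤ 0) := by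
      intro x
      by_cases hx : x = 0
      · subst hx
        rw [shell_org]
        have h1 : 0 < max (win k T (0 : V)) (ann 1 (0 : V)) := lt_max_of_lt_right (ann_zero_pos 1)
        constructor
        · constructor <;> intro h <;> linarith
        · constructor <;> intro h <;> linarith
      · rw [max_lt_iff, max_le_iff, shell_lt, shell_le, ann_lt hx, ann_le hx]
        constructor
        · constructor
          · rintro ⟨h1, h2⟩
            exact ⟨hx, (hlt x hx).2 ((slt x hx h2.le).1 h1), h2⟩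
          · rintro ⟨-, h1, h2⟩
            exact ⟨(slt x hx h2.le).2 ((hlt x hx).1 h1), h2⟩
        · constructor
          · rintro ⟨h1, h2⟩
            exact ⟨hx, (hle x hx).2 ((sle x hx h2).1 h1), h2⟩
          · rintro ⟨-, h1, h2⟩
            exact ⟨(sle x hx h2).2 ((hle x hx).1 h1), h2⟩
    refine Hom.of_sign hA.good_right (shell_cont hcont) (fun x => (hsg x).1) (fun x => (hsg x).2) ?_
    intro x hx
    have hwx : win k T x ≤ 0 := (le_max_left _ _).trans hx.le
    have hax : ann 1 x ≤ 0 := (le_max_right _ _).trans hx.le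
    have hx0 := ann_ne_zero hax
    have hl := (ann_le hx0).1 hax
    have hxx : 0 < ⟪x, x⟫ := by
      rw [real_inner_self_eq_norm_sq]
      have := norm_pos_iff.2 hx0
      positivity
    have hs0 : shell ψ x = 0 := by
      refine le_antisymm ((hsg x).2.1 hx.le) ?_
      by_contra h
      push Not at h
      exact absurd ((hsg x).1.2 h) (by rw [hx]; exact lt_irrefl _)
    suffices h : ∃ v, DZ1 (win k T) x v ∧ (ψ x = 0 → Desc1 ψ x v) ∧
        (Real.log ‖x‖ = 1 → ⟪x, v⟫ < 0) ∧ (Real.log ‖x‖ = -1 → 0 < ⟪x, v⟫) by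
      obtain ⟨v, h1, h2, h3, h4⟩ := h
      refine ⟨v, ?_, shell_desc hcont hs0 h2 h3 h4⟩
      have c2 : Continuous fun y : V => ‖y‖ ^ 2 - Real.exp (2 * 1) := by fun_prop
      have c3 : Continuous fun y : V => Real.exp (-(2 * 1)) - ‖y‖ ^ 2 := by fun_prop
      refine dz1_max_at hgood.cont.continuousAt (ann_cont 1).continuousAt h1
        (dz1_max_at c2.continuousAt c3.continuousAt ?_ ?_) hx
      · intro h5
        refine desc1_normsq (h3 ?_) _
        refine le_antisymm ((ann_outer hx0).1 h5.le) ?_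
        by_contra h
        push Not at h
        have := (ann_outer_lt (lam := 1) hx0).2 h
        linarith
      · intro h5
        refine desc1_normsq' (h4 ?_) _
        refine le_antisymm ?_ ((ann_inner hx0).1 h5.le)
        by_contra h
        push Not at h
        have := (ann_inner_lt (lam := 1) hx0).2 h
        linarith
    by_cases hw0 : win k T x = 0
    · have hψ0 : ψ x = 0 := by
        refine le_antisymm ((hle x hx0).2 ((sle x hx0 hl).1 hwx)) ?_
        by_contra h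
        push Not at h
        have := (slt x hx0 hl).2 ((hlt x hx0).1 h)
        linarith
      obtain ⟨σ, hσ, h1⟩ := win_attained hk.cont hT0 x
      rw [hw0] at h1
      obtain ⟨w, hw⟩ := hk.desc _ h1
      have h2 := (hM _ h1.le).2
      rw [log_norm_exp hx0] at h2
      have hσT : |σ| < T := by
        rw [abs_le] at h2 hl
        rw [abs_lt]
        exact ⟨by linarith, by linarith⟩
      have hd := win_desc1 hk hU hw0 hσT h1 hw
      have hd' := hdesc x w σ hx0 hψ0 h1 hw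
      by_cases hf1 : Real.log ‖x‖ = 1
      · obtain ⟨a, -, ha'⟩ := exists_neg_dir x (Real.exp (-σ) • w) hx0
        refine ⟨_, fun _ => hd a, fun _ => hd' a, fun _ => ha', fun h6 => ?_⟩
        rw [hf1] at h6
        norm_num at h6
      · by_cases hf2 : Real.log ‖x‖ = -1
        · obtain ⟨a, -, ha'⟩ := exists_pos_dir x (Real.exp (-σ) • w) hx0
          exact ⟨_, fun _ => hd a, fun _ => hd' a, fun h6 => absurd h6 hf1, fun _ => ha'⟩
        · exact ⟨_, fun _ => hd 0, fun _ => hd' 0, fun h6 => absurd h6 hf1, fun h6 => absurd h6 hf2⟩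
    · have hψ0 : ψ x ≠ 0 := by
        have h1 : win k T x < 0 := lt_of_le_of_ne hwx hw0
        exact ((hlt x hx0).2 ((slt x hx0 hl).1 h1)).ne
      by_cases hf1 : Real.log ‖x‖ = 1
      · refine ⟨-x, dz1_of_ne hw0, fun h => absurd h hψ0, fun _ => ?_, fun h6 => ?_⟩
        · rw [inner_neg_right]
          linarith
        · rw [hf1] at h6
          norm_num at h6
      · exact ⟨x, dz1_of_ne hw0, fun h => absurd h hψ0, fun h6 => absurd h6 hf1, fun _ => hxx⟩

/-- The statement used by the main theorem. -/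
theorem hx_window (k : V → ℝ) (hk : Good k) (hb : Bornology.IsBounded {x | k x ≤ 0})
    (h0 : 0 < k 0)
    (hU : ∀ (v : V) (s r t : ℝ), 0 < s → s < r → r < t → k (s • v) ≤ 0 → k (t • v) ≤ 0 →
      k (r • v) < 0) :
    ∃ ψ : V → ℝ, DegZero ψ ∧ (∀ x, x ≠ 0 → (ψ x ≤ 0 ↔ ∃ s : ℝ, 0 < s ∧ k (s • x) ≤ 0)) ∧
      Hom k (shell ψ) := by
  obtain ⟨ψ, h1, h2, h3, -, h4, h5⟩ := window hk hb h0 hU
  refine ⟨ψ, ⟨fun c x hc => h2 x c hc, h1, fun x hx hz => ?_⟩, h3, h5⟩
  obtain ⟨w, hw⟩ := h4 x hx hz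
  have hn : ‖x‖ ^ 2 ≠ 0 := pow_ne_zero 2 (norm_ne_zero_iff.2 hx)
  refine ⟨w + (-(⟪w, x⟫ / ‖x‖ ^ 2)) • x, ?_, hw _⟩
  rw [inner_add_left, real_inner_smul_left, real_inner_self_eq_norm_sq, neg_mul,
    div_mul_cancel₀ _ hn, add_neg_cancel]

end Pool.Schoen
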