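import Pool.Agent.H.MP_6c077c_gt.Hx.Defs
import Pool.Agent.H.MP_6c077c_gt.Hx.WinA
import Pool.Agent.H.MP_6c077c_gt.Hx.Comp

/-! Hexasecant theorem: a body which is convex along the rays from the origin is a radial shell. -/

set_option autoImplicit false

namespace Pool.Schoen

open Filter Set
open scoped Topology RealInnerProductSpace ContDiff

variable {V : Type*} [NormedAddCommGroup V] [InnerProductSpace ℝ V]

/-- The annulus `exp (-lam) ≤ ‖x‖ ≤ exp lam`. -/
noncomputable def ann (lam : ℝ) (x : V) : ℝ :=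
  max (‖x‖ ^ 2 - Real.exp (2 * lam)) (Real.exp (-(2 * lam)) - ‖x‖ ^ 2)

theorem ann_cont (lam : ℝ) : Continuous fun x : V => ann lam x := by
  unfold ann
  fun_prop

theorem ann_zero_pos (lam : ℝ) : 0 < ann lam (0 : V) := by
  unfold ann
  refine lt_max_of_lt_right ?_
  rw [norm_zero]
  have := Real.exp_pos (-(2 * lam))
  simp [this]

theorem ann_ne_zero {lam : ℝ} {x : V} (h : ann lam x ≤ 0) : x ≠ 0 := by
  rintro rfl
  exact absurd h (not_le.2 (ann_zero_pos lam))

theorem ann_outer {lam : ℝ} {x : V} (hx : x ≠ 0) :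
    ‖x‖ ^ 2 - Real.exp (2 * lam) ≤ 0 ↔ Real.log ‖x‖ ≤ lam := by
  have hx' := norm_pos_iff.2 hx
  rw [sub_nonpos, Real.log_le_iff_le_exp hx', mul_comm, Real.exp_mul, ← Real.rpow_natCast]
  norm_cast
  exact sq_le_sq₀ hx'.le (Real.exp_pos _).le

theorem ann_outer_lt {lam : ℝ} {x : V} (hx : x ≠ 0) :
    ‖x‖ ^ 2 - Real.exp (2 * lam) < 0 ↔ Real.log ‖x‖ < lam := by
  have hx' := norm_pos_iff.2 hx
  rw [sub_neg, Real.log_lt_iff_lt_exp hx', mul_comm, Real.exp_mul]
  norm_cast
  exact sq_lt_sq₀ hx'.le (Real.exp_pos _).le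

theorem ann_inner {lam : ℝ} {x : V} (hx : x ≠ 0) :
    Real.exp (-(2 * lam)) - ‖x‖ ^ 2 ≤ 0 ↔ -lam ≤ Real.log ‖x‖ := by
  have hx' := norm_pos_iff.2 hx
  rw [sub_nonpos, Real.le_log_iff_exp_le hx', show -(2 * lam) = (-lam) * 2 by ring, Real.exp_mul]
  norm_cast
  exact sq_le_sq₀ (Real.exp_pos _).le hx'.le

theorem ann_inner_lt {lam : ℝ} {x : V} (hx : x ≠ 0) :
    Real.exp (-(2 * lam)) - ‖x‖ ^ 2 < 0 ↔ -lam < Real.log ‖x‖ := by
  have hx' := norm_pos_iff.2 hx
  rw [sub_neg, Real.lt_log_iff_exp_lt hx', show -(2 * lam) = (-lam) * 2 by ring, Real.exp_mul]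
  norm_cast
  exact sq_lt_sq₀ (Real.exp_pos _).le hx'.le

theorem ann_le {lam : ℝ} {x : V} (hx : x ≠ 0) : ann lam x ≤ 0 ↔ |Real.log ‖x‖| ≤ lam := by
  unfold ann
  rw [max_le_iff, ann_outer hx, ann_inner hx, abs_le, and_comm]

theorem ann_lt {lam : ℝ} {x : V} (hx : x ≠ 0) : ann lam x < 0 ↔ |Real.log ‖x‖| < lam := by
  unfold ann
  rw [max_lt_iff, ann_outer_lt hx, ann_inner_lt hx, abs_lt, and_comm]

theorem desc1_normsq {x v : V} (h : ⟪x, v⟫ < 0) (c : ℝ) : Desc1 (fun y : V => ‖y‖ ^ 2 - c) x v := by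
  refine desc1_smooth ?_ ?_
  · have : ContDiff ℝ 1 fun y : V => ‖y‖ ^ 2 - c := (contDiff_norm_sq ℝ).sub contDiff_const
    exact this.contDiffAt
  · rw [fderiv_sub_const, fderiv_norm_sq_apply]
    simp only [smul_apply, innerSL_apply_apply, nsmul_eq_mul]
    push_cast
    linarith

theorem desc1_normsq' {x v : V} (h : 0 < ⟪x, v⟫) (c : ℝ) : Desc1 (fun y : V => c - ‖y‖ ^ 2) x v := by
  have h1 : ⟪x, -v⟫ < 0 := by
    rw [inner_neg_right]
    linarith
  have h2 := (desc1_normsq h1 c).neg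
  rw [neg_neg] at h2
  have h3 : (fun (t : Unit) (y : V) => -(‖y‖ ^ 2 - c)) = fun _ y => c - ‖y‖ ^ 2 := by
    funext _ y
    ring
  unfold Desc1
  rwa [h3] at h2

/-- The assumption on the rays in the form in which it is used. -/
def RadN (k : V → ℝ) : Prop :=
  ∀ (v : V) (s r t : ℝ), 0 < s → s < r → r < t → k (s • v) ≤ 0 → k (t • v) ≤ 0 → k (r • v) < 0

theorem RadN.radU {k : V → ℝ} (h : RadN k) : RadU k := by
  intro x s₁ s₂ h0 h1 h2 h3
  exact ⟨(s₁ + s₂) / 2, ⟨by linarith, by linarith⟩,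
    h x s₁ _ s₂ h0 (by linarith) (by linarith) h2.le h3.le⟩

theorem log_norm_smul {x : V} (hx : x ≠ 0) {s : ℝ} (hs : 0 < s) :
    Real.log ‖s • x‖ = Real.log s + Real.log ‖x‖ := by
  rw [norm_smul, Real.norm_eq_abs, abs_of_pos hs, Real.log_mul hs.ne' (norm_ne_zero_iff.2 hx)]

theorem log_norm_exp {x : V} (hx : x ≠ 0) (σ : ℝ) :
    Real.log ‖Real.exp σ • x‖ = σ + Real.log ‖x‖ := by
  rw [log_norm_smul hx (Real.exp_pos σ), Real.log_exp]

/-- The body lies in an annulus. -/
theorem win_bound {k : V → ℝ} (hk : Continuous k) (hb : Bornology.IsBounded {x | k x ≤ 0})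
    (h0 : 0 < k 0) : ∃ M : ℝ, 1 ≤ M ∧ ∀ x, k x ≤ 0 → x ≠ 0 ∧ |Real.log ‖x‖| ≤ M := by
  obtain ⟨R, hR⟩ := hb.exists_norm_le
  obtain ⟨r, hr, hr'⟩ := Metric.eventually_nhds_iff_ball.1 (hk.continuousAt.eventually_const_lt h0)
  refine ⟨max 1 (max (-Real.log r) (Real.log R)), le_max_left _ _, fun x hx => ?_⟩
  have hx0 : x ≠ 0 := by
    rintro rfl
    exact absurd hx (not_le.2 h0)
  refine ⟨hx0, ?_⟩
  have hx1 := norm_pos_iff.2 hx0
  have h1 : r ≤ ‖x‖ := by
    by_contra h
    push Not at h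
    have := hr' x (by rwa [mem_ball_zero_iff])
    linarith
  have h2 : ‖x‖ ≤ R := hR x hx
  have h3 := Real.log_le_log hr h1
  have h4 := Real.log_le_log hx1 h2
  rw [abs_le]
  constructor
  · have := (le_max_left (-Real.log r) (Real.log R)).trans (le_max_right 1 _)
    linarith
  · have := (le_max_right (-Real.log r) (Real.log R)).trans (le_max_right 1 _)
    linarith

section

variable {k : V → ℝ} {M : ℝ}

theorem win_pos_zero (hk : Continuous k) (h0 : 0 < k 0) (t : ℝ) : 0 < win k t (0 : V) := by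
  obtain ⟨u, -, h1, -⟩ := win_min hk t (0 : V)
  rw [← h1, smul_zero]
  exact h0

theorem win_le_bound (hk : Continuous k) (hM : ∀ x, k x ≤ 0 → x ≠ 0 ∧ |Real.log ‖x‖| ≤ M)
    {t : ℝ} (ht : 0 ≤ t) {x : V} (hx : win k t x ≤ 0) : x ≠ 0 ∧ |Real.log ‖x‖| ≤ M + t := by
  obtain ⟨σ, hσ, h1⟩ := win_attained hk ht x
  have h2 := hM _ (h1.trans_le hx)
  have hx0 : x ≠ 0 := by
    rintro rfl
    exact h2.1 (smul_zero _)
  refine ⟨hx0, ?_⟩
  have h3 := h2.2
  rw [log_norm_exp hx0] at h3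
  rw [abs_le] at *
  exact ⟨by linarith, by linarith⟩

theorem norm_le_of_log {x : V} {A : ℝ} (hx : x ≠ 0) (h : |Real.log ‖x‖| ≤ A) : ‖x‖ ≤ Real.exp A := by
  rw [← Real.log_le_iff_le_exp (norm_pos_iff.2 hx)]
  exact (le_abs_self _).trans h

/-- Thickening in the direction of the rays. -/
theorem win_hom (hk : Good k) (hM : ∀ x, k x ≤ 0 → x ≠ 0 ∧ |Real.log ‖x‖| ≤ M) (hU : RadU k)
    {T : ℝ} (hT : 0 ≤ T) : Hom k (win k T) := by
  have h := Hom.of_family hT (fun t => win k t) (win_continuous hk.cont).continuousOn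
    ⟨Real.exp (M + T), fun t ht x hx => ?_⟩ fun t ht x hx => ?_
  · have h1 : win k 0 = k := funext fun x => win_zero k x
    rwa [h1] at h
  · obtain ⟨h1, h2⟩ := win_le_bound hk.cont hM ht.1 hx.le
    exact norm_le_of_log h1 (h2.trans (by linarith [ht.2]))
  · obtain ⟨σ, hσ, h1⟩ := win_attained hk.cont ht.1 x
    rw [hx] at h1
    obtain ⟨w, hw⟩ := hk.desc _ h1
    refine ⟨_, win_desc hk.cont hU hx hσ h1 hw (a := 0) (Or.inr le_rfl) (Or.inr le_rfl)
      nhdsWithin_le_nhds ?_⟩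
    filter_upwards [self_mem_nhdsWithin] with s hs
    exact hs.1

/-- Choosing the multiple of `x`. -/
theorem exists_neg_dir (x w : V) (hx : x ≠ 0) : ∃ a : ℝ, 0 ≤ a ∧ ⟪x, w - a • x⟫ < 0 := by
  have hx' : 0 < ‖x‖ ^ 2 := by
    have := norm_pos_iff.2 hx
    positivity
  refine ⟨(|⟪x, w⟫| + 1) / ‖x‖ ^ 2, by positivity, ?_⟩
  rw [inner_sub_right, real_inner_smul_right, real_inner_self_eq_norm_sq, div_mul_cancel₀ _ hx'.ne']
  linarith [le_abs_self ⟪x, w⟫]

theorem exists_pos_dir (x w : V) (hx : x ≠ 0) : ∃ a : ℝ, a ≤ 0 ∧ 0 < ⟪x, w - a • x⟫ := by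
  obtain ⟨a, ha, h⟩ := exists_neg_dir x (-w) hx
  refine ⟨-a, by linarith, ?_⟩
  rw [show w - -a • x = -(-w - a • x) by rw [neg_smul]; abel, inner_neg_right]
  linarith

/-- The static descent directions of the window minimum. -/
theorem win_desc1 (hk : Good k) (hU : RadU k) {T σ : ℝ} {x w : V}
    (hz : win k T x = 0) (hσ : |σ| < T) (h1 : k (Real.exp σ • x) = 0)
    (hw : Desc1 k (Real.exp σ • x) w) (a : ℝ) :
    Desc1 (win k T) x (Real.exp (-σ) • w - a • x) := by
  have hT : 0 < T := (abs_nonneg σ).trans_lt hσ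
  have h := win_desc hk.cont hU hz hσ.le h1 hw (a := a) (Or.inl (abs_lt.1 hσ).2)
    (Or.inl (abs_lt.1 hσ).1) (l := 𝓝 T) le_rfl
    (by filter_upwards [lt_mem_nhds hT] with s hs using hs.le)
  exact h.static (pure_le_nhds T)

/-- Cutting the thickened body to the annulus. -/
theorem win_ann (hk : Good k) (hM : ∀ x, k x ≤ 0 → x ≠ 0 ∧ |Real.log ‖x‖| ≤ M) (hM1 : 1 ≤ M)
    (hU : RadU k) (h0 : 0 < k 0) {T : ℝ} (hT : M + 1 < T) :
    Hom (win k T) (fun x => max (win k T x) (ann 1 x)) := by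
  have hT0 : 0 ≤ T := by linarith
  set Λ : ℝ := M + T + 1 with hΛ
  have hgood : Good (win k T) := (win_hom hk hM hU hT0).good_right
  have hwc : Continuous (win k T) := hgood.cont
  -- the first step: the large annulus
  have hA : Hom (win k T) (fun x => max (win k T x) (ann Λ x)) := by
    have hneg : ∀ x, win k T x ≤ 0 → ann Λ x < 0 := by
      intro x hx
      obtain ⟨h1, h2⟩ := win_le_bound hk.cont hM hT0 hx
      rw [ann_lt h1]
      linarith
    refine Hom.of_eq_near' hgood (hwc.max (ann_cont Λ)) ?_ ?_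
    · intro x hx
      have h1 : win k T x ≤ 0 := by
        rcases hx with h | h
        · exact h.le
        · exact (le_max_left _ _).trans h.le
      have h2 := hneg x h1
      have h3 : ann Λ x < win k T x := by
        rcases hx with h | h
        · rwa [h]
        · rcases max_choice (win k T x) (ann Λ x) with h4 | h4
          · rw [h4] at h
            rwa [h]
          · rw [h4] at h
            exact absurd h h2.ne
      filter_upwards [(ann_cont Λ).continuousAt.eventually_lt hwc.continuousAt h3] with y hy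
      exact (max_eq_left hy.le).symm
    · intro x h1 h2
      rcases lt_or_gt_of_ne h1 with h | h
      · exact mul_pos_of_neg_of_neg h (max_lt h (hneg x h.le))
      · exact mul_pos h (lt_max_of_lt_left h)
  refine hA.trans (Hom.symm ?_)
  -- the family
  set H : ℝ → V → ℝ := fun t x => max (win k T x)
    (max (‖x‖ ^ 2 + -Real.exp (2 * (1 + t * (Λ - 1))))
      (-‖x‖ ^ 2 + Real.exp (-(2 * (1 + t * (Λ - 1)))))) with hH
  have hHt : ∀ t x, H t x = max (win k T x) (ann (1 + t * (Λ - 1)) x) := by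
    intro t x
    simp only [hH, ann]
    congr 2
    ring
  have e0 : H 0 = fun x => max (win k T x) (ann 1 x) := by
    funext x
    rw [hHt, zero_mul, add_zero]
  have e1 : H 1 = fun x => max (win k T x) (ann Λ x) := by
    funext x
    rw [hHt, one_mul, add_sub_cancel]
  rw [← e0, ← e1]
  refine ⟨H, ?_, rfl, rfl, ⟨Real.exp (M + T), fun t ht x hx => ?_⟩, fun t ht x hx => ?_⟩
  · simp only [hH]
    fun_prop
  · obtain ⟨h1, h2⟩ := win_le_bound hk.cont hM hT0 ((le_max_left _ _).trans hx.le)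
    exact norm_le_of_log h1 h2
  · have hΛ1 : 0 ≤ Λ - 1 := by linarith
    have hl1 : 1 ≤ 1 + t * (Λ - 1) := by nlinarith [ht.1]
    set lam := 1 + t * (Λ - 1) with hlam
    have hwx : win k T x ≤ 0 := (le_max_left _ _).trans hx.le
    obtain ⟨hx0, hlog⟩ := win_le_bound hk.cont hM hT0 hwx
    have hax : ann lam x ≤ 0 := by
      rw [← hx, hHt]
      exact le_max_right _ _
    -- it is enough to find a direction
    suffices h : ∃ v, DZ1 (win k T) x v ∧ (‖x‖ ^ 2 + -Real.exp (2 * lam) = 0 → ⟪x, v⟫ < 0) ∧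
        (-‖x‖ ^ 2 + Real.exp (-(2 * lam)) = 0 → 0 < ⟪x, v⟫) by
      obtain ⟨v, h1, h2, h3⟩ := h
      have c1 : Continuous fun p : ℝ × V => win k T p.2 := hwc.comp continuous_snd
      have c2 : Continuous fun p : ℝ × V => ‖p.2‖ ^ 2 + -Real.exp (2 * (1 + p.1 * (Λ - 1))) := by
        fun_prop
      have c3 : Continuous fun p : ℝ × V =>
          -‖p.2‖ ^ 2 + Real.exp (-(2 * (1 + p.1 * (Λ - 1)))) := by
        fun_prop
      refine ⟨v, dz_max c1 (c2.max c3) (dz_static h1) (dz_max c2 c3 ?_ ?_) hx⟩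
      · exact dz_add_const (f := fun y : V => ‖y‖ ^ 2)
          (fun s => -Real.exp (2 * (1 + s * (Λ - 1)))) fun h4 => by
            simpa using desc1_normsq (h2 h4) 0
      · exact dz_add_const (f := fun y : V => -‖y‖ ^ 2)
          (fun s => Real.exp (-(2 * (1 + s * (Λ - 1))))) fun h4 => by
            simpa using desc1_normsq' (h3 h4) 0
    have hxx : 0 < ⟪x, x⟫ := by
      rw [real_inner_self_eq_norm_sq]
      have := norm_pos_iff.2 hx0
      positivity
    have hexp : Real.exp (-(2 * lam)) < Real.exp (2 * lam) := Real.exp_lt_exp.2 (by linarith)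
    by_cases hw0 : win k T x = 0
    · obtain ⟨σ, hσ, h1⟩ := win_attained hk.cont hT0 x
      rw [hw0] at h1
      obtain ⟨w, hw⟩ := hk.desc _ h1
      have h2 := (hM _ h1.le).2
      rw [log_norm_exp hx0] at h2
      rw [abs_le] at h2 hσ
      -- the allowed multiples
      have hd : ∀ a : ℝ, (σ < T ∨ a ≤ 0) → (-T < σ ∨ 0 ≤ a) →
          Desc1 (win k T) x (Real.exp (-σ) • w - a • x) := by
        intro a h3 h4
        have := win_desc hk.cont hU hw0 (abs_le.2 hσ) h1 hw h3 h4 (l := 𝓝 T) le_rfl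
          (by filter_upwards [lt_mem_nhds (by linarith : (0 : ℝ) < T)] with s hs using hs.le)
        exact this.static (pure_le_nhds T)
      by_cases hf1 : ‖x‖ ^ 2 + -Real.exp (2 * lam) = 0
      · -- outer face
        have h5 : lam ≤ Real.log ‖x‖ := by
          by_contra h
          push Not at h
          have := (ann_outer_lt (lam := lam) hx0).2 h
          linarith
        obtain ⟨a, ha, ha'⟩ := exists_neg_dir x (Real.exp (-σ) • w) hx0
        refine ⟨_, fun _ => hd a (Or.inl (by linarith)) (Or.inr ha), fun _ => ha', fun h6 => ?_⟩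
        exfalso
        linarith
      · by_cases hf2 : -‖x‖ ^ 2 + Real.exp (-(2 * lam)) = 0
        · have h5 : Real.log ‖x‖ ≤ -lam := by
            by_contra h
            push Not at h
            have := (ann_inner_lt (lam := lam) hx0).2 h
            linarith
          obtain ⟨a, ha, ha'⟩ := exists_pos_dir x (Real.exp (-σ) • w) hx0
          exact ⟨_, fun _ => hd a (Or.inr ha) (Or.inl (by linarith)), fun h6 => absurd h6 hf1,
            fun _ => ha'⟩
        · exact ⟨_, fun _ => hd 0 (Or.inr le_rfl) (Or.inr le_rfl), fun h6 => absurd h6 hf1,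
            fun h6 => absurd h6 hf2⟩
    · by_cases hf1 : ‖x‖ ^ 2 + -Real.exp (2 * lam) = 0
      · refine ⟨-x, dz1_of_ne hw0, fun _ => ?_, fun h6 => ?_⟩
        · rw [inner_neg_right]
          linarith
        · exfalso
          linarith
      · exact ⟨x, dz1_of_ne hw0, fun h6 => absurd h6 hf1, fun _ => hxx⟩

end

end Pool.Schoen
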