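import Pool.Agent.H.MP_6c077c_gt.Hx.WinC

/-! Hexasecant theorem: a body whose intersection with every ray from the origin is a segment with
the open body inside, or consists of zeros with a common descent direction, is homotopic to the shell
over its set of directions. -/

set_option autoImplicit false

namespace Pool.Schoen

open Filter Set
open scoped Topology RealInnerProductSpace ContDiff

variable {V : Type*} [NormedAddCommGroup V] [InnerProductSpace ℝ V]

section

variable {k : V → ℝ} {M : ℝ}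

/-- Thickening in the direction of the rays. -/
theorem win_homC (hk : Good k) (hM : ∀ x, k x ≤ 0 → x ≠ 0 ∧ |Real.log ‖x‖| ≤ M)
    (hU : ∀ v, RayC k 0 v) {T : ℝ} (hT : 0 ≤ T) : Hom k (win k T) := by
  have h := Hom.of_family hT (fun t => win k t) (win_continuous hk.cont).continuousOn
    ⟨Real.exp (M + T), fun t ht x hx => ?_⟩ fun t ht x hx => ?_
  · have h1 : win k 0 = k := funext fun x => win_zero k x
    rwa [h1] at h
  · obtain ⟨h1, h2⟩ := win_le_bound hk.cont hM ht.1 hx.le
    exact norm_le_of_log h1 (h2.trans (by linarith [ht.2]))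
  · obtain ⟨w, hw⟩ := win_common hk (hU x) ht.1 hx
    refine ⟨_, win_descC hk.cont ht.1 hx hw (a := 0) (fun _ _ _ => Or.inr le_rfl)
      (fun _ _ _ => Or.inr le_rfl) nhdsWithin_le_nhds ?_⟩
    filter_upwards [self_mem_nhdsWithin] with s hs
    exact hs.1

/-- Cutting the thickened body to the annulus. -/
theorem win_annC (hk : Good k) (hM : ∀ x, k x ≤ 0 → x ≠ 0 ∧ |Real.log ‖x‖| ≤ M) (hM1 : 1 ≤ M)
    (hU : ∀ v, RayC k 0 v) {T : ℝ} (hT : M + 1 < T) :
    Hom (win k T) (fun x => max (win k T x) (ann 1 x)) := by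
  have hT0 : 0 ≤ T := by linarith
  set Λ : ℝ := M + T + 1 with hΛ
  have hgood : Good (win k T) := (win_homC hk hM hU hT0).good_right
  have hwc : Continuous (win k T) := hgood.cont
  -- the first step: the large annulus
  have hA : Hom (win k T) (fun x => max (win k T x) (ann Λ x)) := by
    have hneg : ∀ x, win k T x ≤ 0 → ann Λ x < 0 := by
      intro x hx
      obtain ⟨h1, h2⟩ := win_le_bound hk.cont hM hT0 hx
      rw [ann_lt h1]
      linarith
    refine Hom.of_eq_near' hgood (hwc.max (ann_cont Λ)) ?_ ?_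
    · intro x hx
      have h1 : win k T x ≤ 0 := by
        rcases hx with h | h
        · exact h.le
        · exact (le_max_left _ _).trans h.le
      have h2 := hneg x h1
      have h3 : ann Λ x < win k T x := by
        rcases hx with h | h
        · rwa [h]
        · rcases max_choice (win k T x) (ann Λ x) with h4 | h4
          · rw [h4] at h
            rwa [h]
          · rw [h4] at h
            exact absurd h h2.ne
      filter_upwards [(ann_cont Λ).continuousAt.eventually_lt hwc.continuousAt h3] with y hy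
      exact (max_eq_left hy.le).symm
    · intro x h1 h2
      rcases lt_or_gt_of_ne h1 with h | h
      · exact mul_pos_of_neg_of_neg h (max_lt h (hneg x h.le))
      · exact mul_pos h (lt_max_of_lt_left h)
  refine hA.trans (Hom.symm ?_)
  -- the family
  set H : ℝ → V → ℝ := fun t x => max (win k T x)
    (max (‖x‖ ^ 2 + -Real.exp (2 * (1 + t * (Λ - 1))))
      (-‖x‖ ^ 2 + Real.exp (-(2 * (1 + t * (Λ - 1)))))) with hH
  have hHt : ∀ t x, H t x = max (win k T x) (ann (1 + t * (Λ - 1)) x) := by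
    intro t x
    simp only [hH, ann]
    congr 2
    ring
  have e0 : H 0 = fun x => max (win k T x) (ann 1 x) := by
    funext x
    rw [hHt, zero_mul, add_zero]
  have e1 : H 1 = fun x => max (win k T x) (ann Λ x) := by
    funext x
    rw [hHt, one_mul, add_sub_cancel]
  rw [← e0, ← e1]
  refine ⟨H, ?_, rfl, rfl, ⟨Real.exp (M + T), fun t ht x hx => ?_⟩, fun t ht x hx => ?_⟩
  · simp only [hH]
    fun_prop
  · obtain ⟨h1, h2⟩ := win_le_bound hk.cont hM hT0 ((le_max_left _ _).trans hx.le)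
    exact norm_le_of_log h1 h2
  · have hΛ1 : 0 ≤ Λ - 1 := by linarith
    have hl1 : 1 ≤ 1 + t * (Λ - 1) := by nlinarith [ht.1]
    set lam := 1 + t * (Λ - 1) with hlam
    have hwx : win k T x ≤ 0 := (le_max_left _ _).trans hx.le
    obtain ⟨hx0, hlog⟩ := win_le_bound hk.cont hM hT0 hwx
    have hax : ann lam x ≤ 0 := by
      rw [← hx, hHt]
      exact le_max_right _ _
    -- it is enough to find a direction
    suffices h : ∃ v, DZ1 (win k T) x v ∧ (‖x‖ ^ 2 + -Real.exp (2 * lam) = 0 → ⟪x, v⟫ < 0) ∧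
        (-‖x‖ ^ 2 + Real.exp (-(2 * lam)) = 0 → 0 < ⟪x, v⟫) by
      obtain ⟨v, h1, h2, h3⟩ := h
      have c1 : Continuous fun p : ℝ × V => win k T p.2 := hwc.comp continuous_snd
      have c2 : Continuous fun p : ℝ × V => ‖p.2‖ ^ 2 + -Real.exp (2 * (1 + p.1 * (Λ - 1))) := by
        fun_prop
      have c3 : Continuous fun p : ℝ × V =>
          -‖p.2‖ ^ 2 + Real.exp (-(2 * (1 + p.1 * (Λ - 1)))) := by
        fun_prop
      refine ⟨v, dz_max c1 (c2.max c3) (dz_static h1) (dz_max c2 c3 ?_ ?_) hx⟩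
      · exact dz_add_const (f := fun y : V => ‖y‖ ^ 2)
          (fun s => -Real.exp (2 * (1 + s * (Λ - 1)))) fun h4 => by
            simpa using desc1_normsq (h2 h4) 0
      · exact dz_add_const (f := fun y : V => -‖y‖ ^ 2)
          (fun s => Real.exp (-(2 * (1 + s * (Λ - 1))))) fun h4 => by
            simpa using desc1_normsq' (h3 h4) 0
    have hxx : 0 < ⟪x, x⟫ := by
      rw [real_inner_self_eq_norm_sq]
      have := norm_pos_iff.2 hx0
      positivity
    have hexp : Real.exp (-(2 * lam)) < Real.exp (2 * lam) := Real.exp_lt_exp.2 (by linarith)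
    by_cases hw0 : win k T x = 0
    · obtain ⟨w, hw⟩ := win_common hk (hU x) hT0 hw0
      have hM2 : ∀ σ : ℝ, k (Real.exp σ • x) = 0 → |σ + Real.log ‖x‖| ≤ M := by
        intro σ h1
        have h2 := (hM _ h1.le).2
        rwa [log_norm_exp hx0] at h2
      -- the allowed multiples
      have hd : ∀ a : ℝ, (∀ σ : ℝ, |σ| ≤ T → k (Real.exp σ • x) = 0 → σ < T ∨ a ≤ 0) →
          (∀ σ : ℝ, |σ| ≤ T → k (Real.exp σ • x) = 0 → -T < σ ∨ 0 ≤ a) →
          Desc1 (win k T) x (w - a • x) := by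
        intro a h3 h4
        have := win_descC hk.cont hT0 hw0 hw h3 h4 (l := 𝓝 T) le_rfl
          (by filter_upwards [lt_mem_nhds (by linarith : (0 : ℝ) < T)] with s hs using hs.le)
        exact this.static (pure_le_nhds T)
      by_cases hf1 : ‖x‖ ^ 2 + -Real.exp (2 * lam) = 0
      · -- outer face
        have h5 : lam ≤ Real.log ‖x‖ := by
          by_contra h
          push Not at h
          have := (ann_outer_lt (lam := lam) hx0).2 h
          linarith
        obtain ⟨a, ha, ha'⟩ := exists_neg_dir x w hx0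
        refine ⟨_, fun _ => hd a (fun σ _ h1 => Or.inl ?_) (fun σ _ h1 => Or.inr ha), fun _ => ha',
          fun h6 => ?_⟩
        · have h2 := (abs_le.1 (hM2 σ h1)).2
          linarith
        · exfalso
          linarith
      · by_cases hf2 : -‖x‖ ^ 2 + Real.exp (-(2 * lam)) = 0
        · have h5 : Real.log ‖x‖ ≤ -lam := by
            by_contra h
            push Not at h
            have := (ann_inner_lt (lam := lam) hx0).2 h
            linarith
          obtain ⟨a, ha, ha'⟩ := exists_pos_dir x w hx0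
          refine ⟨_, fun _ => hd a (fun σ _ h1 => Or.inr ha) (fun σ _ h1 => Or.inl ?_),
            fun h6 => absurd h6 hf1, fun _ => ha'⟩
          have h2 := (abs_le.1 (hM2 σ h1)).1
          linarith
        · exact ⟨_, fun _ => hd 0 (fun _ _ _ => Or.inr le_rfl) (fun _ _ _ => Or.inr le_rfl),
            fun h6 => absurd h6 hf1, fun h6 => absurd h6 hf2⟩
    · by_cases hf1 : ‖x‖ ^ 2 + -Real.exp (2 * lam) = 0
      · refine ⟨-x, dz1_of_ne hw0, fun _ => ?_, fun h6 => ?_⟩
        · rw [inner_neg_right]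
          linarith
        · exfalso
          linarith
      · exact ⟨x, dz1_of_ne hw0, fun h6 => absurd h6 hf1, fun _ => hxx⟩

end

/-- Radial windows: if every ray from the origin meets `{k ≤ 0}` in nothing, a point, or a segment with
`k < 0` inside, or only in zeros with a common descent direction, then `k` is homotopic to the shell
over a function `ψ` of the directions. -/
theorem windowC {k : V → ℝ} (hk : Good k) (hb : Bornology.IsBounded {x | k x ≤ 0}) (h0 : 0 < k 0)
    (hU : ∀ v, RayC k 0 v) :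
    ∃ ψ : V → ℝ, ContinuousOn ψ {0}ᶜ ∧ (∀ (x : V) (s : ℝ), 0 < s → ψ (s • x) = ψ x) ∧
      (∀ x, x ≠ 0 → (ψ x ≤ 0 ↔ ∃ s : ℝ, 0 < s ∧ k (s • x) ≤ 0)) ∧
      (∀ x, x ≠ 0 → (ψ x < 0 ↔ ∃ s : ℝ, 0 < s ∧ k (s • x) < 0)) ∧
      (∀ x, x ≠ 0 → ψ x = 0 → ∃ w, ∀ a : ℝ, Desc1 ψ x (w + a • x)) ∧
      Hom k (shell ψ) := by
  obtain ⟨M, hM1, hM⟩ := win_bound hk.cont hb h0
  obtain ⟨T, hT⟩ : ∃ T : ℝ, M + 1 < T := ⟨M + 2, by linarith⟩
  have hT0 : 0 ≤ T := by linarith
  have hgood : Good (win k T) := (win_homC hk hM hU hT0).good_right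
  -- signs of the window minimum in the annulus
  have sle : ∀ x : V, x ≠ 0 → |Real.log ‖x‖| ≤ 1 →
      (win k T x ≤ 0 ↔ ∃ s : ℝ, 0 < s ∧ k (s • x) ≤ 0) := by
    intro x hx hl
    constructor
    · intro h
      obtain ⟨σ, hσ, h1⟩ := win_attained hk.cont hT0 x
      exact ⟨Real.exp σ, Real.exp_pos σ, h1.trans_le h⟩
    · rintro ⟨s, hs, h⟩
      have h2 := (hM _ h).2
      rw [log_norm_smul hx hs] at h2
      have h3 : |Real.log s| ≤ T := by
        rw [abs_le] at *
        exact ⟨by linarith, by linarith⟩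
      have h4 := win_le hk.cont h3 x
      rw [Real.exp_log hs] at h4
      exact h4.trans h
  have slt : ∀ x : V, x ≠ 0 → |Real.log ‖x‖| ≤ 1 →
      (win k T x < 0 ↔ ∃ s : ℝ, 0 < s ∧ k (s • x) < 0) := by
    intro x hx hl
    constructor
    · intro h
      obtain ⟨σ, hσ, h1⟩ := win_attained hk.cont hT0 x
      exact ⟨Real.exp σ, Real.exp_pos σ, h1.trans_lt h⟩
    · rintro ⟨s, hs, h⟩
      have h2 := (hM _ h.le).2
      rw [log_norm_smul hx hs] at h2
      have h3 : |Real.log s| ≤ T := by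
        rw [abs_le] at *
        exact ⟨by linarith, by linarith⟩
      have h4 := win_le hk.cont h3 x
      rw [Real.exp_log hs] at h4
      exact h4.trans_lt h
  -- the function of the directions
  set ψ : V → ℝ := fun x => win k T (‖x‖⁻¹ • x) with hψ
  have hunit : ∀ x : V, x ≠ 0 → ‖x‖⁻¹ • x ≠ 0 ∧ Real.log ‖‖x‖⁻¹ • x‖ = 0 := by
    intro x hx
    have hn : ‖x‖ ≠ 0 := norm_ne_zero_iff.2 hx
    refine ⟨smul_ne_zero (inv_ne_zero hn) hx, ?_⟩
    rw [norm_smul, norm_inv, norm_norm, inv_mul_cancel₀ hn, Real.log_one]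
  have hcont : ContinuousOn ψ {0}ᶜ := by
    intro x hx
    have hx' : x ≠ 0 := hx
    have h1 : ContinuousAt (fun y : V => ‖y‖⁻¹ • y) x :=
      (continuous_norm.continuousAt.inv₀ (norm_ne_zero_iff.2 hx')).smul continuousAt_id
    exact (ContinuousAt.comp (f := fun y : V => ‖y‖⁻¹ • y) hgood.cont.continuousAt
      h1).continuousWithinAt
  have hdeg : ∀ (x : V) (s : ℝ), 0 < s → ψ (s • x) = ψ x := by
    intro x s hs
    simp only [hψ]
    congr 1
    rw [norm_smul, Real.norm_eq_abs, abs_of_pos hs, smul_smul, mul_inv, mul_right_comm,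
      inv_mul_cancel₀ hs.ne', one_mul]
  have hle : ∀ x, x ≠ 0 → (ψ x ≤ 0 ↔ ∃ s : ℝ, 0 < s ∧ k (s • x) ≤ 0) := by
    intro x hx
    obtain ⟨h1, h2⟩ := hunit x hx
    have hn : 0 < ‖x‖ := norm_pos_iff.2 hx
    simp only [hψ]
    rw [sle _ h1 (by rw [h2, abs_zero]; norm_num)]
    constructor
    · rintro ⟨s, hs, h⟩
      rw [smul_smul] at h
      exact ⟨s * ‖x‖⁻¹, by positivity, h⟩
    · rintro ⟨s, hs, h⟩
      refine ⟨s * ‖x‖, by positivity, ?_⟩
      rwa [smul_smul, mul_assoc, mul_inv_cancel₀ hn.ne', mul_one]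
  have hlt : ∀ x, x ≠ 0 → (ψ x < 0 ↔ ∃ s : ℝ, 0 < s ∧ k (s • x) < 0) := by
    intro x hx
    obtain ⟨h1, h2⟩ := hunit x hx
    have hn : 0 < ‖x‖ := norm_pos_iff.2 hx
    simp only [hψ]
    rw [slt _ h1 (by rw [h2, abs_zero]; norm_num)]
    constructor
    · rintro ⟨s, hs, h⟩
      rw [smul_smul] at h
      exact ⟨s * ‖x‖⁻¹, by positivity, h⟩
    · rintro ⟨s, hs, h⟩
      refine ⟨s * ‖x‖, by positivity, ?_⟩
      rwa [smul_smul, mul_assoc, mul_inv_cancel₀ hn.ne', mul_one]
  -- descent directions of `ψ`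
  have hdesc : ∀ (x w : V), x ≠ 0 → ψ x = 0 → (∀ s : ℝ, 0 < s → k (s • x) = 0 →
      Desc1 k (s • x) w) → ∀ a : ℝ, Desc1 ψ x (w - a • x) := by
    intro x w hx hz hw a
    have hn : 0 < ‖x‖ := norm_pos_iff.2 hx
    obtain ⟨N', hN', hN2⟩ := strict_normalize hx
    obtain ⟨b, hb'⟩ := hN2 (w - a • x)
    have h1 : ∀ σ : ℝ, k (Real.exp σ • ‖x‖⁻¹ • x) = 0 → |σ| < T := by
      intro σ h
      have h2 := (hM _ h.le).2
      rw [log_norm_exp (hunit x hx).1, (hunit x hx).2, add_zero] at h2
      linarith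
    have h4 : Desc1 (win k T) (‖x‖⁻¹ • x) (‖x‖⁻¹ • w - ((a * ‖x‖⁻¹ - b) * ‖x‖) • (‖x‖⁻¹ • x)) := by
      refine (win_descC hk.cont hT0 hz (fun σ _ h => ?_) (fun σ _ h => Or.inl (abs_lt.1 (h1 σ h)).2)
        (fun σ _ h => Or.inl (abs_lt.1 (h1 σ h)).1) (l := 𝓝 T) le_rfl
        (by filter_upwards [lt_mem_nhds (by linarith : (0 : ℝ) < T)] with s hs using hs.le)).static
        (pure_le_nhds T)
      rw [smul_smul] at h ⊢
      exact (hw _ (by positivity) h).smul_dir (by positivity)
    refine Desc1.comp_strict (f := win k T) hN' ?_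
    rw [hb']
    convert h4 using 1
    match_scalars
    · ring
    · field_simp
      ring
  -- common descent directions
  have hcom : ∀ x : V, x ≠ 0 → ψ x = 0 → ∃ w : V, ∀ s : ℝ, 0 < s → k (s • x) = 0 →
      Desc1 k (s • x) w := by
    intro x hx hz
    have hR : RayC k 0 (‖x‖⁻¹ • x) := hU _
    obtain ⟨w, hw⟩ := win_common hk hR hT0 hz
    refine ⟨w, fun s hs h => ?_⟩
    have hn : 0 < ‖x‖ := norm_pos_iff.2 hx
    have e1 : Real.exp (Real.log (s * ‖x‖)) • ‖x‖⁻¹ • x = s • x := by
      rw [Real.exp_log (by positivity), smul_smul, mul_assoc, mul_inv_cancel₀ hn.ne', mul_one]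
    have h2 : k (Real.exp (Real.log (s * ‖x‖)) • ‖x‖⁻¹ • x) = 0 := by rw [e1]; exact h
    have h3 := (hM _ h2.le).2
    rw [log_norm_exp (hunit x hx).1, (hunit x hx).2, add_zero] at h3
    have h4 := hw _ (by linarith) h2
    rwa [e1] at h4
  refine ⟨ψ, hcont, hdeg, hle, hlt, ?_, ?_⟩
  · intro x hx hz
    obtain ⟨w, hw⟩ := hcom x hx hz
    refine ⟨w, fun a => ?_⟩
    have := hdesc x w hx hz hw (-a)
    rwa [neg_smul, sub_neg_eq_add] at this
  · have hA := win_annC hk hM hM1 hU hT
    refine ((win_homC hk hM hU hT0).trans hA).trans ?_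
    have hsg : ∀ x : V, (max (win k T x) (ann 1 x) < 0 ↔ shell ψ x < 0) ∧
        (max (win k T x) (ann 1 x) ≤ 0 ↔ shell ψ x ≤ 0) := by
      intro x
      by_cases hx : x = 0
      · subst hx
        rw [shell_org]
        have h1 : 0 < max (win k T (0 : V)) (ann 1 (0 : V)) := lt_max_of_lt_right (ann_zero_pos 1)
        constructor
        · constructor <;> intro h <;> linarith
        · constructor <;> intro h <;> linarith
      · rw [max_lt_iff, max_le_iff, shell_lt, shell_le, ann_lt hx, ann_le hx]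
        constructor
        · constructor
          · rintro ⟨h1, h2⟩
            exact ⟨hx, (hlt x hx).2 ((slt x hx h2.le).1 h1), h2⟩
          · rintro ⟨-, h1, h2⟩
            exact ⟨(slt x hx h2.le).2 ((hlt x hx).1 h1), h2⟩
        · constructor
          · rintro ⟨h1, h2⟩
            exact ⟨hx, (hle x hx).2 ((sle x hx h2).1 h1), h2⟩
          · rintro ⟨-, h1, h2⟩
            exact ⟨(sle x hx h2).2 ((hle x hx).1 h1), h2⟩
    refine Hom.of_sign hA.good_right (shell_cont hcont) (fun x => (hsg x).1) (fun x => (hsg x).2) ?_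
    intro x hx
    have hwx : win k T x ≤ 0 := (le_max_left _ _).trans hx.le
    have hax : ann 1 x ≤ 0 := (le_max_right _ _).trans hx.le
    have hx0 := ann_ne_zero hax
    have hl := (ann_le hx0).1 hax
    have hxx : 0 < ⟪x, x⟫ := by
      rw [real_inner_self_eq_norm_sq]
      have := norm_pos_iff.2 hx0
      positivity
    have hs0 : shell ψ x = 0 := by
      refine le_antisymm ((hsg x).2.1 hx.le) ?_
      by_contra h
      push Not at h
      exact absurd ((hsg x).1.2 h) (by rw [hx]; exact lt_irrefl _)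
    suffices h : ∃ v, DZ1 (win k T) x v ∧ (ψ x = 0 → Desc1 ψ x v) ∧
        (Real.log ‖x‖ = 1 → ⟪x, v⟫ < 0) ∧ (Real.log ‖x‖ = -1 → 0 < ⟪x, v⟫) by
      obtain ⟨v, h1, h2, h3, h4⟩ := h
      refine ⟨v, ?_, shell_desc hcont hs0 h2 h3 h4⟩
      have c2 : Continuous fun y : V => ‖y‖ ^ 2 - Real.exp (2 * 1) := by fun_prop
      have c3 : Continuous fun y : V => Real.exp (-(2 * 1)) - ‖y‖ ^ 2 := by fun_prop
      refine dz1_max_at hgood.cont.continuousAt (ann_cont 1).continuousAt h1
        (dz1_max_at c2.continuousAt c3.continuousAt ?_ ?_) hx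
      · intro h5
        refine desc1_normsq (h3 ?_) _
        refine le_antisymm ((ann_outer hx0).1 h5.le) ?_
        by_contra h
        push Not at h
        have := (ann_outer_lt (lam := 1) hx0).2 h
        linarith
      · intro h5
        refine desc1_normsq' (h4 ?_) _
        refine le_antisymm ?_ ((ann_inner hx0).1 h5.le)
        by_contra h
        push Not at h
        have := (ann_inner_lt (lam := 1) hx0).2 h
        linarith
    by_cases hw0 : win k T x = 0
    · have hψ0 : ψ x = 0 := by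
        refine le_antisymm ((hle x hx0).2 ((sle x hx0 hl).1 hwx)) ?_
        by_contra h
        push Not at h
        have := (slt x hx0 hl).2 ((hlt x hx0).1 h)
        linarith
      obtain ⟨w, hw⟩ := hcom x hx0 hψ0
      have h1 : ∀ σ : ℝ, k (Real.exp σ • x) = 0 → |σ| < T := by
        intro σ h
        have h2 := (hM _ h.le).2
        rw [log_norm_exp hx0] at h2
        rw [abs_le] at h2 hl
        rw [abs_lt]
        exact ⟨by linarith, by linarith⟩
      have hd : ∀ a : ℝ, Desc1 (win k T) x (w - a • x) := fun a =>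
        (win_descC hk.cont hT0 hw0 (fun σ _ h => hw _ (Real.exp_pos σ) h)
          (fun σ _ h => Or.inl (abs_lt.1 (h1 σ h)).2)
          (fun σ _ h => Or.inl (abs_lt.1 (h1 σ h)).1) (l := 𝓝 T) le_rfl
          (by filter_upwards [lt_mem_nhds (by linarith : (0 : ℝ) < T)] with s hs using
            hs.le)).static (pure_le_nhds T)
      have hd' := hdesc x w hx0 hψ0 hw
      by_cases hf1 : Real.log ‖x‖ = 1
      · obtain ⟨a, -, ha'⟩ := exists_neg_dir x w hx0
        refine ⟨_, fun _ => hd a, fun _ => hd' a, fun _ => ha', fun h6 => ?_⟩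
        rw [hf1] at h6
        norm_num at h6
      · by_cases hf2 : Real.log ‖x‖ = -1
        · obtain ⟨a, -, ha'⟩ := exists_pos_dir x w hx0
          exact ⟨_, fun _ => hd a, fun _ => hd' a, fun h6 => absurd h6 hf1, fun _ => ha'⟩
        · exact ⟨_, fun _ => hd 0, fun _ => hd' 0, fun h6 => absurd h6 hf1, fun h6 => absurd h6 hf2⟩
    · have hψ0 : ψ x ≠ 0 := by
        have h1 : win k T x < 0 := lt_of_le_of_ne hwx hw0
        exact ((hlt x hx0).2 ((slt x hx0 hl).1 h1)).ne
      by_cases hf1 : Real.log ‖x‖ = 1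
      · refine ⟨-x, dz1_of_ne hw0, fun h => absurd h hψ0, fun _ => ?_, fun h6 => ?_⟩
        · rw [inner_neg_right]
          linarith
        · rw [hf1] at h6
          norm_num at h6
      · exact ⟨x, dz1_of_ne hw0, fun h => absurd h hψ0, fun h6 => absurd h6 hf1, fun _ => hxx⟩

/-- The statement used by the main theorem. -/
theorem hx_windowC (k : V → ℝ) (hk : Good k) (hb : Bornology.IsBounded {x | k x ≤ 0})
    (h0 : 0 < k 0)
    (hU : ∀ v, RayC k 0 v) :
    ∃ ψ : V → ℝ, DegZero ψ ∧ (∀ x, x ≠ 0 → (ψ x ≤ 0 ↔ ∃ s : ℝ, 0 < s ∧ k (s • x) ≤ 0)) ∧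
      Hom k (shell ψ) := by
  obtain ⟨ψ, h1, h2, h3, -, h4, h5⟩ := windowC hk hb h0 hU
  refine ⟨ψ, ⟨fun c x hc => h2 x c hc, h1, fun x hx hz => ?_⟩, h3, h5⟩
  obtain ⟨w, hw⟩ := h4 x hx hz
  have hn : ‖x‖ ^ 2 ≠ 0 := pow_ne_zero 2 (norm_ne_zero_iff.2 hx)
  refine ⟨w + (-(⟪w, x⟫ / ‖x‖ ^ 2)) • x, ?_, hw _⟩
  rw [inner_add_left, real_inner_smul_left, real_inner_self_eq_norm_sq, neg_mul,
    div_mul_cancel₀ _ hn, add_neg_cancel]

end Pool.Schoen
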